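import Pool.Agent.MP_1a2790_an.Basic

/-! Julia lemma, Julia-Wolff-Caratheodory theorem at infinity, contact points. -/

open Complex Set Filter Topology Metric
open scoped ComplexConjugate

namespace Pool.Agent.MP_1a2790_an

/-- Lower linear bound for the imaginary part. -/
def Low (f : ℂ → ℂ) (c : ℝ) : Prop := ∀ z ∈ H, c * z.im ≤ (f z).im

/-- Angular derivative at infinity. -/
noncomputable def cInf (f : ℂ → ℂ) : ℝ := sInf ((fun z => (f z).im / z.im) '' H)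

lemma Hol.bddBelow {f : ℂ → ℂ} (hf : Hol f) : BddBelow ((fun z => (f z).im / z.im) '' H) :=
  ⟨0, by
    rintro _ ⟨z, hz, rfl⟩
    exact div_nonneg (le_of_lt (hf.maps hz)) (le_of_lt hz)⟩

lemma Hol.low_cInf {f : ℂ → ℂ} (hf : Hol f) : Low f (cInf f) := by
  intro z hz
  have : cInf f ≤ (f z).im / z.im := csInf_le hf.bddBelow ⟨z, hz, rfl⟩
  rwa [le_div_iff₀ hz] at this

lemma Low.le_cInf {f : ℂ → ℂ} {c : ℝ} (h : Low f c) : c ≤ cInf f := by
  apply le_csInf (Nonempty.image _ ⟨I, I_mem_H⟩)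
  rintro _ ⟨z, hz, rfl⟩
  rw [le_div_iff₀ hz]
  exact h z hz

lemma Low.mono {f : ℂ → ℂ} {c d : ℝ} (h : Low f c) (hd : d ≤ c) : Low f d := fun z hz =>
  le_trans (mul_le_mul_of_nonneg_right hd (le_of_lt hz)) (h z hz)

lemma Low.congr {f g : ℂ → ℂ} {c : ℝ} (h : Low f c) (e : ∀ z ∈ H, g z = f z) : Low g c :=
  fun z hz => by rw [e z hz]; exact h z hz

lemma Low.comp {f g : ℂ → ℂ} {a b : ℝ} (hf : Low f a) (hg : Low g b) (ha : 0 ≤ a)
    (hm : MapsTo g H H) : Low (fun z => f (g z)) (a * b) := fun z hz => by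
  have h1 := hf _ (hm hz)
  have h2 := hg _ hz
  calc a * b * z.im = a * (b * z.im) := by ring
    _ ≤ a * (g z).im := by gcongr
    _ ≤ _ := h1

lemma low_id : Low (fun z => z) 1 := fun z _ => by simp

lemma Hol.low_of_le {f : ℂ → ℂ} (hf : Hol f) {c : ℝ} (h : c ≤ cInf f) : Low f c :=
  hf.low_cInf.mono h

lemma Hol.cInf_nonneg {f : ℂ → ℂ} (hf : Hol f) : 0 ≤ cInf f :=
  Low.le_cInf fun z hz => by simpa using le_of_lt (hf.maps hz)

lemma cInf_congr {f g : ℂ → ℂ} (e : ∀ z ∈ H, g z = f z) : cInf g = cInf f := by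
  unfold cInf
  congr 1
  exact image_congr fun z hz => by rw [e z hz]

lemma exists_lt_of_cInf_lt {f : ℂ → ℂ} {d : ℝ} (h : cInf f < d) :
    ∃ z ∈ H, (f z).im < d * z.im := by
  by_contra hh
  push Not at hh
  exact absurd (Low.le_cInf hh) (not_le.2 h)

/-- Julia-Wolff-Caratheodory at infinity. -/
lemma Hol.jwc {f : ℂ → ℂ} (hf : Hol f) {K ε : ℝ} (hK : 0 < K) (hε : 0 < ε) :
    ∃ R : ℝ, ∀ z ∈ H, ‖z‖ ≤ K * z.im → R ≤ ‖z‖ → ‖f z - cInf f * z‖ ≤ ε * ‖z‖ := by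
  set c := cInf f
  set p : ℂ → ℂ := fun z => f z - c * z with hp
  have hpd : DifferentiableOn ℂ p H := hf.diff.sub (by fun_prop)
  have hp0 : ∀ z ∈ H, 0 ≤ (p z).im := fun z hz => by
    have := hf.low_cInf z hz
    simp only [hp, sub_im, mul_im, ofReal_re, ofReal_im, zero_mul, add_zero]
    linarith
  set e := ε / (8 * K) with he
  have he0 : 0 < e := by positivity
  obtain ⟨w, hw, hw2⟩ := exists_lt_of_cInf_lt (f := f) (d := c + e) (by linarith)
  have hpw : (p w).im ≤ e * w.im := by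
    simp only [hp, sub_im, mul_im, ofReal_re, ofReal_im, zero_mul, add_zero]
    linarith
  refine ⟨max ‖w‖ (2 * ‖p w‖ / ε), fun z hz hzK hR => ?_⟩
  have h1 : ‖w‖ ≤ ‖z‖ := le_trans (le_max_left _ _) hR
  have h2 : 2 * ‖p w‖ / ε ≤ ‖z‖ := le_trans (le_max_right _ _) hR
  rw [div_le_iff₀ hε] at h2
  have hz' : 0 < z.im := hz
  have hw' : 0 < w.im := hw
  have h3 := norm_sub_conj_le hpd hp0 hz hw
  have h4 : ‖z - conj w‖ ≤ 2 * ‖z‖ := by
    have := norm_sub_le z (conj w)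
    rw [Complex.norm_conj] at this
    linarith
  have h5 : ‖p z - conj (p w)‖ * (z.im * w.im) ≤ (2 * ‖z‖) ^ 2 * (e * w.im) :=
    h3.trans (by have := hp0 w hw; gcongr)
  have h6 : ‖p z - conj (p w)‖ * z.im ≤ 4 * e * ‖z‖ * ‖z‖ := by
    have : (‖p z - conj (p w)‖ * z.im) * w.im ≤ (4 * e * ‖z‖ * ‖z‖) * w.im := by nlinarith
    exact le_of_mul_le_mul_right this hw'
  have h7 : ‖p z - conj (p w)‖ ≤ 4 * e * K * ‖z‖ := by
    have : ‖p z - conj (p w)‖ * z.im ≤ (4 * e * K * ‖z‖) * z.im := by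
      calc _ ≤ 4 * e * ‖z‖ * ‖z‖ := h6
        _ ≤ 4 * e * ‖z‖ * (K * z.im) := by gcongr
        _ = _ := by ring
    exact le_of_mul_le_mul_right this hz'
  have h8 : 4 * e * K = ε / 2 := by rw [he]; field_simp; ring
  have h9 : ‖p z‖ ≤ ‖p z - conj (p w)‖ + ‖p w‖ := by
    have := norm_add_le (p z - conj (p w)) (conj (p w))
    rwa [sub_add_cancel, Complex.norm_conj] at this
  rw [h8] at h7
  change ‖p z‖ ≤ _
  linarith

lemma Hol.jwc_tendsto {f : ℂ → ℂ} (hf : Hol f) {ι : Type*} {l : Filter ι} {w : ι → ℂ} {K : ℝ}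
    (hK : 0 < K) (hw : ∀ᶠ i in l, w i ∈ H ∧ ‖w i‖ ≤ K * (w i).im)
    (hw' : Tendsto (fun i => ‖w i‖) l atTop) :
    Tendsto (fun i => f (w i) / w i) l (𝓝 (cInf f : ℂ)) := by
  rw [Metric.tendsto_nhds]
  intro ε hε
  obtain ⟨R, hR⟩ := hf.jwc hK (half_pos hε)
  filter_upwards [hw, hw'.eventually_ge_atTop R, hw'.eventually_gt_atTop 0] with i hi h1 h2
  have h3 := hR _ hi.1 hi.2 h1
  have h4 : w i ≠ 0 := norm_pos_iff.1 h2
  rw [dist_eq_norm, show f (w i) / w i - cInf f = (f (w i) - cInf f * w i) / w i by field_simp,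
    norm_div, div_lt_iff₀ h2]
  nlinarith

lemma norm_mul_I {y : ℝ} (hy : 0 < y) : ‖(y : ℂ) * I‖ = y := by
  simp [abs_of_pos hy]

lemma Hol.jwc_vertical {f : ℂ → ℂ} (hf : Hol f) :
    Tendsto (fun y : ℝ => f (y * I) / (y * I)) atTop (𝓝 (cInf f : ℂ)) := by
  apply hf.jwc_tendsto one_pos
  · filter_upwards [eventually_gt_atTop 0] with y hy
    exact ⟨mul_I_mem_H hy, by rw [norm_mul_I hy]; simp⟩
  · apply tendsto_id.congr'
    filter_upwards [eventually_gt_atTop 0] with y hy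
    simp [abs_of_pos hy]

lemma cInf_comp {f g : ℂ → ℂ} (hf : Hol f) (hg : Hol g) (h0 : 0 < cInf g) :
    cInf (fun z => f (g z)) = cInf f * cInf g := by
  have h1 := (hf.comp hg).jwc_vertical
  have h2 := hg.jwc_vertical
  have hlow : ∀ y : ℝ, 0 < y → cInf g * y ≤ (g (y * I)).im := fun y hy => by
    simpa using hg.low_cInf _ (mul_I_mem_H hy)
  have h3 : Tendsto (fun y : ℝ => f (g (y * I)) / g (y * I)) atTop (𝓝 (cInf f : ℂ)) := by
    apply hf.jwc_tendsto (K := (cInf g + 1) / cInf g) (by positivity)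
    · have : ∀ᶠ y : ℝ in atTop, ‖g (y * I) / (y * I)‖ < cInf g + 1 := by
        apply h2.norm.eventually_lt_const
        simp [abs_of_pos h0]
      filter_upwards [this, eventually_gt_atTop 0] with y hy hy0
      refine ⟨hg.maps (mul_I_mem_H hy0), ?_⟩
      rw [norm_div, norm_mul_I hy0, div_lt_iff₀ hy0] at hy
      have := hlow y hy0
      calc ‖g (y * I)‖ ≤ (cInf g + 1) * y := hy.le
        _ = (cInf g + 1) / cInf g * (cInf g * y) := by field_simp
        _ ≤ _ := by gcongr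
    · apply tendsto_atTop_mono' _ _ (tendsto_id.const_mul_atTop h0)
      filter_upwards [eventually_gt_atTop 0] with y hy
      exact (hlow y hy).trans (Complex.im_le_norm _)
  have h4 := h3.mul h2
  have h5 : Tendsto (fun y : ℝ => f (g (y * I)) / (y * I)) atTop
      (𝓝 ((cInf f : ℂ) * (cInf g : ℂ))) := by
    apply h4.congr'
    filter_upwards [eventually_gt_atTop 0] with y hy
    have : g (y * I) ≠ 0 := by
      intro h
      have := hg.maps (mul_I_mem_H hy)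
      rw [h] at this
      simp [mem_H] at this
    field_simp
  exact_mod_cast tendsto_nhds_unique h1 h5

lemma cInf_affine {a : ℝ} (b : ℝ) (ha : 0 < a) : cInf (fun z => (a : ℂ) * z + b) = a := by
  apply le_antisymm
  · simpa using (univ_affine ha b).toHol.low_cInf I I_mem_H
  · exact Low.le_cInf fun z _ => by simp

/-- `z ↦ -1/(z-s)`. -/
noncomputable def mob (s : ℝ) (z : ℂ) : ℂ := -(z - s)⁻¹

/-- `w ↦ s - 1/w`. -/
noncomputable def bom (s : ℝ) (w : ℂ) : ℂ := s - w⁻¹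

lemma ne_zero_of_mem_H {z : ℂ} (hz : z ∈ H) : z ≠ 0 := by
  rintro rfl; simp [mem_H] at hz

lemma sub_real_mem_H {z : ℂ} (hz : z ∈ H) (s : ℝ) : z - s ∈ H := by
  simpa [mem_H] using hz

lemma sub_real_ne_zero {z : ℂ} (hz : z ∈ H) (s : ℝ) : z - s ≠ 0 :=
  ne_zero_of_mem_H (sub_real_mem_H hz s)

lemma im_mob (s : ℝ) (z : ℂ) : (mob s z).im = z.im / ‖z - s‖ ^ 2 := by
  rw [mob, neg_im, inv_im, Complex.sq_norm]; simp [neg_div]

lemma im_bom (s : ℝ) (w : ℂ) : (bom s w).im = w.im / ‖w‖ ^ 2 := by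
  rw [bom, sub_im, inv_im, Complex.sq_norm]; simp [neg_div]

lemma mob_mem_H (s : ℝ) {z : ℂ} (hz : z ∈ H) : mob s z ∈ H := by
  rw [mem_H, im_mob]
  have := norm_pos_iff.2 (sub_real_ne_zero hz s)
  have hz' : 0 < z.im := hz
  positivity

lemma bom_mem_H (s : ℝ) {z : ℂ} (hz : z ∈ H) : bom s z ∈ H := by
  rw [mem_H, im_bom]
  have := norm_pos_iff.2 (ne_zero_of_mem_H hz)
  have hz' : 0 < z.im := hz
  positivity

lemma bom_mob (s : ℝ) (z : ℂ) : bom s (mob s z) = z := by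
  simp [bom, mob, inv_neg]

lemma mob_bom (s : ℝ) (z : ℂ) : mob s (bom s z) = z := by
  simp [bom, mob, inv_neg]

lemma univ_mob (s : ℝ) : Univ (mob s) := by
  refine ⟨⟨?_, fun z hz => mob_mem_H s hz⟩, fun z _ w _ e => ?_⟩
  · unfold mob
    exact (DifferentiableOn.inv (by fun_prop) fun z hz => sub_real_ne_zero hz s).neg
  · rw [← bom_mob s z, e, bom_mob]

lemma univ_bom (s : ℝ) : Univ (bom s) := by
  refine ⟨⟨?_, fun z hz => bom_mem_H s hz⟩, fun z _ w _ e => ?_⟩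
  · unfold bom
    exact (differentiableOn_const _).sub
      (DifferentiableOn.inv (by fun_prop) fun z hz => ne_zero_of_mem_H hz)
  · rw [← mob_bom s z, e, mob_bom]

/-- Conjugation moving a contact `s ↦ σ` to infinity. -/
noncomputable def cj (f : ℂ → ℂ) (s σ : ℝ) : ℂ → ℂ := fun w => mob σ (f (bom s w))

lemma Hol.cj {f : ℂ → ℂ} (hf : Hol f) (s σ : ℝ) : Hol (cj f s σ) :=
  (univ_mob σ).toHol.comp (hf.comp (univ_bom s).toHol)

/-- Julia inequality at a finite contact point. -/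
def Julia (f : ℂ → ℂ) (s σ Λ : ℝ) : Prop :=
  ∀ z ∈ H, z.im * ‖f z - σ‖ ^ 2 ≤ Λ * ‖z - s‖ ^ 2 * (f z).im

lemma Hol.julia_iff {f : ℂ → ℂ} (hf : Hol f) {s σ Λ : ℝ} (hΛ : 0 < Λ) :
    Julia f s σ Λ ↔ Low (Pool.Agent.MP_1a2790_an.cj f s σ) Λ⁻¹ := by
  have key : ∀ z ∈ H, (z.im * ‖f z - σ‖ ^ 2 ≤ Λ * ‖z - s‖ ^ 2 * (f z).im ↔
      Λ⁻¹ * (mob s z).im ≤ (mob σ (f z)).im) := by
    intro z hz
    have h1 := norm_pos_iff.2 (sub_real_ne_zero hz s)
    have h2 := norm_pos_iff.2 (sub_real_ne_zero (hf.maps hz) σ)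
    rw [im_mob, im_mob, inv_mul_eq_div, div_div, div_le_div_iff₀ (by positivity) (by positivity)]
    constructor <;> intro h <;> nlinarith
  constructor
  · intro h w hw
    have := (key _ (bom_mem_H s hw)).1 (h _ (bom_mem_H s hw))
    rwa [mob_bom] at this
  · intro h z hz
    rw [key z hz]
    have := h _ (mob_mem_H s hz)
    simpa [Pool.Agent.MP_1a2790_an.cj, bom_mob] using this

lemma Julia.mono {f : ℂ → ℂ} (hf : Hol f) {s σ Λ Λ' : ℝ} (h : Julia f s σ Λ) (hΛ : Λ ≤ Λ') :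
    Julia f s σ Λ' := fun z hz =>
  (h z hz).trans (by have : 0 ≤ (f z).im := le_of_lt (hf.maps hz); gcongr)

lemma Julia.congr {f g : ℂ → ℂ} {s σ Λ : ℝ} (h : Julia f s σ Λ) (e : ∀ z ∈ H, g z = f z) :
    Julia g s σ Λ := fun z hz => by rw [e z hz]; exact h z hz

lemma Julia.pos {f : ℂ → ℂ} (hf : Hol f) {s σ Λ : ℝ} (h : Julia f s σ Λ) : 0 < Λ := by
  have h1 := h I I_mem_H
  have h2 := norm_pos_iff.2 (sub_real_ne_zero (hf.maps I_mem_H) σ)
  have h3 : 0 < (f I).im := hf.maps I_mem_H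
  have h4 : 0 < I.im * ‖f I - σ‖ ^ 2 := by simp only [I_im, one_mul]; positivity
  by_contra hh
  push Not at hh
  have : Λ * ‖I - s‖ ^ 2 * (f I).im ≤ 0 :=
    mul_nonpos_of_nonpos_of_nonneg (mul_nonpos_of_nonpos_of_nonneg hh (by positivity)) h3.le
  linarith

lemma Julia.norm_le {f : ℂ → ℂ} (hf : Hol f) {s σ Λ : ℝ} (h : Julia f s σ Λ) {z : ℂ}
    (hz : z ∈ H) : ‖f z - σ‖ * z.im ≤ Λ * ‖z - s‖ ^ 2 := by
  have h1 := h z hz
  have h2 := norm_pos_iff.2 (sub_real_ne_zero (hf.maps hz) σ)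
  have h3 : (f z).im ≤ ‖f z - σ‖ := by simpa using Complex.im_le_norm (f z - σ)
  have h4 := h.pos hf
  have : ‖f z - σ‖ * (‖f z - σ‖ * z.im) ≤ ‖f z - σ‖ * (Λ * ‖z - s‖ ^ 2) := by
    have : Λ * ‖z - s‖ ^ 2 * (f z).im ≤ Λ * ‖z - s‖ ^ 2 * ‖f z - σ‖ := by gcongr
    nlinarith
  exact le_of_mul_le_mul_left this h2

lemma Julia.stolz {f : ℂ → ℂ} (hf : Hol f) {s σ Λ K : ℝ} (h : Julia f s σ Λ) {z : ℂ}
    (hz : z ∈ H) (hK : ‖z - s‖ ≤ K * z.im) : ‖f z - σ‖ ≤ Λ * K * ‖z - s‖ := by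
  have h1 := h.norm_le hf hz
  have h4 := h.pos hf
  have hz' : 0 < z.im := hz
  have : ‖f z - σ‖ * z.im ≤ (Λ * K * ‖z - s‖) * z.im := by
    calc _ ≤ Λ * ‖z - s‖ ^ 2 := h1
      _ = Λ * ‖z - s‖ * ‖z - s‖ := by ring
      _ ≤ Λ * ‖z - s‖ * (K * z.im) := by gcongr
      _ = _ := by ring
  exact le_of_mul_le_mul_right this hz'

lemma Julia.vertical {f : ℂ → ℂ} (hf : Hol f) {s σ Λ : ℝ} (h : Julia f s σ Λ) {y : ℝ}
    (hy : 0 < y) : ‖f (s + y * I) - σ‖ ≤ Λ * y := by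
  have := h.stolz hf (K := 1) (add_mul_I_mem_H s hy) (by simp [abs_of_pos hy])
  simpa [abs_of_pos hy] using this

lemma Julia.tendsto_vertical {f : ℂ → ℂ} (hf : Hol f) {s σ Λ : ℝ} (h : Julia f s σ Λ) :
    Tendsto (fun y : ℝ => f (s + y * I)) (𝓝[>] 0) (𝓝 (σ : ℂ)) := by
  rw [tendsto_iff_norm_sub_tendsto_zero]
  have : Tendsto (fun y : ℝ => Λ * y) (𝓝[>] 0) (𝓝 0) := by
    apply Tendsto.mono_left _ nhdsWithin_le_nhds
    have : Continuous fun y : ℝ => Λ * y := by fun_prop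
    simpa using this.tendsto 0
  exact squeeze_zero' (Eventually.of_forall fun _ => norm_nonneg _)
    (eventually_nhdsWithin_of_forall fun y hy => h.vertical hf hy) this

lemma Julia.unique {f : ℂ → ℂ} (hf : Hol f) {s σ σ' Λ Λ' : ℝ} (h : Julia f s σ Λ)
    (h' : Julia f s σ' Λ') : σ = σ' := by
  exact_mod_cast tendsto_nhds_unique (h.tendsto_vertical hf) (h'.tendsto_vertical hf)

lemma Julia.im_vertical {f : ℂ → ℂ} (hf : Hol f) {s σ Λ : ℝ} (h : Julia f s σ Λ) {y : ℝ}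
    (hy : 0 < y) : (f (s + y * I)).im ≤ Λ * y := by
  have h3 : (f (s + y * I)).im ≤ ‖f (s + y * I) - σ‖ := by
    simpa using Complex.im_le_norm (f (s + y * I) - σ)
  exact h3.trans (h.vertical hf hy)

lemma Low.le_julia {f : ℂ → ℂ} (hf : Hol f) {s σ Λ c : ℝ} (hc : Low f c) (h : Julia f s σ Λ) :
    c ≤ Λ := by
  have h1 := h.im_vertical hf one_pos
  have h2 := hc _ (add_mul_I_mem_H s one_pos)
  simp at h1 h2
  linarith

lemma Julia.comp {f g : ℂ → ℂ} (hf : Hol f) (hg : Hol g) {s t σ Λ₁ Λ₂ : ℝ} (h₂ : Julia f t σ Λ₂)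
    (h₁ : Julia g s t Λ₁) : Julia (fun z => f (g z)) s σ (Λ₂ * Λ₁) := by
  intro z hz
  have a1 := h₁ z hz
  have a2 := h₂ _ (hg.maps hz)
  have hz' : 0 < z.im := hz
  have hgz : 0 < (g z).im := hg.maps hz
  have hfz : 0 < (f (g z)).im := hf.maps (hg.maps hz)
  have p2 := h₂.pos hf
  have : (g z).im * (z.im * ‖f (g z) - σ‖ ^ 2) ≤
      (g z).im * (Λ₂ * Λ₁ * ‖z - s‖ ^ 2 * (f (g z)).im) := by
    calc _ = z.im * ((g z).im * ‖f (g z) - σ‖ ^ 2) := by ring
      _ ≤ z.im * (Λ₂ * ‖g z - t‖ ^ 2 * (f (g z)).im) := by gcongr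
      _ = Λ₂ * (f (g z)).im * (z.im * ‖g z - t‖ ^ 2) := by ring
      _ ≤ Λ₂ * (f (g z)).im * (Λ₁ * ‖z - s‖ ^ 2 * (g z).im) := by gcongr
      _ = _ := by ring
  exact le_of_mul_le_mul_left this hgz

lemma julia_affine {a : ℝ} (b s : ℝ) : Julia (fun z => (a : ℂ) * z + b) s (a * s + b) a := by
  intro z _
  have : (a : ℂ) * z + b - ((a * s + b : ℝ) : ℂ) = a * (z - s) := by push_cast; ring
  rw [this, norm_mul, mul_pow, Complex.norm_real, Real.norm_eq_abs, sq_abs]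
  simp only [add_im, mul_im, ofReal_re, ofReal_im, zero_mul, add_zero]
  apply le_of_eq; ring

lemma julia_id (s : ℝ) : Julia (fun z => z) s s 1 := fun z _ => by simp [mul_comm]

/-- A map with `Low h 1` fixing `σ` is close to the identity. -/
lemma Julia.norm_sub_id_le {h : ℂ → ℂ} (hh : Hol h) {σ Λ : ℝ} (hl : Low h 1)
    (hj : Julia h σ σ Λ) {z : ℂ} (hz : z ∈ H) :
    ‖h z - z‖ * z.im ≤ (Λ - 1) * ‖z - σ‖ ^ 2 := by
  set p : ℂ → ℂ := fun z => h z - z with hp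
  have hpd : DifferentiableOn ℂ p H := hh.diff.sub differentiableOn_id
  have hp0 : ∀ z ∈ H, 0 ≤ (p z).im := fun z hz => by
    have := hl z hz
    simp only [hp, sub_im]
    linarith
  have key : ∀ y : ℝ, 0 < y → ‖p z - conj (p (σ + y * I))‖ * z.im ≤
      ‖z - conj ((σ : ℂ) + y * I)‖ ^ 2 * (Λ - 1) := by
    intro y hy
    have hw := add_mul_I_mem_H σ hy
    have h1 := norm_sub_conj_le hpd hp0 hz hw
    have h2 : (p (σ + y * I)).im ≤ (Λ - 1) * y := by
      have := hj.im_vertical hh hy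
      simp only [hp, sub_im, add_im, ofReal_im, mul_im, ofReal_re, I_im, I_re]
      linarith
    have h3 : ((σ : ℂ) + y * I).im = y := by simp
    rw [h3] at h1
    have : (‖p z - conj (p (σ + y * I))‖ * z.im) * y ≤
        (‖z - conj ((σ : ℂ) + y * I)‖ ^ 2 * (Λ - 1)) * y := by
      calc _ = ‖p z - conj (p (σ + y * I))‖ * (z.im * y) := by ring
        _ ≤ _ := h1
        _ ≤ ‖z - conj ((σ : ℂ) + y * I)‖ ^ 2 * ((Λ - 1) * y) := by gcongr
        _ = _ := by ring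
    exact le_of_mul_le_mul_right this hy
  have t0 : Tendsto (fun y : ℝ => (σ : ℂ) + y * I) (𝓝[>] 0) (𝓝 (σ : ℂ)) := by
    apply Tendsto.mono_left _ nhdsWithin_le_nhds
    have : Continuous fun y : ℝ => (σ : ℂ) + y * I := by fun_prop
    simpa using this.tendsto 0
  have t1 : Tendsto (fun y : ℝ => p (σ + y * I)) (𝓝[>] 0) (𝓝 0) := by
    simpa using (hj.tendsto_vertical hh).sub t0
  have t2 : Tendsto (fun y : ℝ => ‖p z - conj (p (σ + y * I))‖ * z.im) (𝓝[>] 0)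
      (𝓝 (‖p z - conj 0‖ * z.im)) :=
    ((tendsto_const_nhds.sub ((Complex.continuous_conj.tendsto _).comp t1)).norm).mul_const _
  have t3 : Tendsto (fun y : ℝ => ‖z - conj ((σ : ℂ) + y * I)‖ ^ 2 * (Λ - 1)) (𝓝[>] 0)
      (𝓝 (‖z - conj (σ : ℂ)‖ ^ 2 * (Λ - 1))) :=
    (((tendsto_const_nhds.sub ((Complex.continuous_conj.tendsto _).comp t0)).norm).pow 2).mul_const _
  have := le_of_tendsto_of_tendsto t2 t3 (eventually_nhdsWithin_of_forall key)
  simpa [hp, mul_comm] using this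

lemma normalize_aux {f h : ℂ → ℂ} (hf : Hol f) (hh : Hol h) {c : ℝ}
    (hc : Low (fun z => f (h z)) c) {y : ℝ} (hy : 0 < y) :
    c * y * ((h (y * I)).im * (h I).im) ≤ ‖h (y * I) - conj (h I)‖ ^ 2 * (f (h I)).im := by
  have hw := hh.maps (mul_I_mem_H hy)
  have hw1 := hh.maps I_mem_H
  have h1 := norm_sub_conj_le hf.diff (fun z hz => le_of_lt (hf.maps hz)) hw hw1
  have h2 : (f (h (y * I))).im ≤ ‖f (h (y * I)) - conj (f (h I))‖ :=
    im_le_norm_sub_conj (le_of_lt (hf.maps hw1))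
  have h3 : c * y ≤ (f (h (y * I))).im := by simpa using hc _ (mul_I_mem_H hy)
  have hw' : 0 < (h (y * I)).im := hw
  have hw1' : 0 < (h I).im := hw1
  exact le_trans (by gcongr; exact h3.trans h2) h1

lemma cInf_pos_of_unbounded {f h : ℂ → ℂ} (hf : Hol f) (hh : Hol h)
    (hc : 0 < cInf (fun z => f (h z))) (hu : ∀ R : ℝ, ∃ y : ℝ, R ≤ y ∧ R ≤ ‖h (y * I)‖) :
    0 < cInf h := by
  set c := cInf (fun z => f (h z))
  have hw1 : 0 < (h I).im := hh.maps I_mem_H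
  have hg1 : 0 < (f (h I)).im := hf.maps (hh.maps I_mem_H)
  refine lt_of_lt_of_le (b := c * (h I).im / (64 * (f (h I)).im)) (by positivity)
    (Low.le_cInf fun z hz => ?_)
  have hz' : 0 < z.im := hz
  have hhz : 0 < (h z).im := hh.maps hz
  obtain ⟨y, hy1, hy2⟩ := hu (max (max ‖z‖ 1) (max (2 * ‖h z‖) ‖h I‖))
  simp only [max_le_iff] at hy1 hy2
  have hy : 0 < y := by linarith [hy1.1.2]
  have a1 := normalize_aux hf hh (hf.comp hh).low_cInf hy
  set w := h (y * I) with hw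
  have hwH : 0 < w.im := hh.maps (mul_I_mem_H hy)
  have a2 := schwarzPick_closed_conj hh.diff (fun z hz => le_of_lt (hh.maps hz)) hz
    (mul_I_mem_H hy)
  rw [← hw] at a2
  have e1 : ((y : ℂ) * I).im = y := by simp
  rw [e1] at a2
  have hwpos : 0 < ‖w‖ := by linarith [hy2.1.2]
  have b1 : ‖w - conj (h I)‖ ≤ 2 * ‖w‖ := by
    have := norm_sub_le w (conj (h I))
    rw [Complex.norm_conj] at this
    linarith [hy2.2.2]
  have b2 : ‖w‖ / 2 ≤ ‖h z - conj w‖ := by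
    have := norm_sub_norm_le (conj w) (h z)
    rw [Complex.norm_conj, norm_sub_rev] at this
    linarith [hy2.2.1]
  have b3 : ‖z - conj ((y : ℂ) * I)‖ ≤ 2 * y := by
    have := norm_sub_le z (conj ((y : ℂ) * I))
    rw [Complex.norm_conj, norm_mul_I hy] at this
    linarith [hy1.1.1]
  have c1 : c * y * (w.im * (h I).im) ≤ (2 * ‖w‖) ^ 2 * (f (h I)).im :=
    a1.trans (by gcongr)
  have c2 : (‖w‖ / 2) ^ 2 * (z.im * y) ≤ (2 * y) ^ 2 * ((h z).im * w.im) :=
    le_trans (by gcongr) (a2.trans (by gcongr))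
  rw [div_mul_eq_mul_div, div_le_iff₀ (by positivity)]
  have c3 := mul_le_mul c1 c2 (by positivity) (by positivity)
  have hpos : 0 < y ^ 2 * w.im * ‖w‖ ^ 2 / 4 := by positivity
  have : (y ^ 2 * w.im * ‖w‖ ^ 2 / 4) * (c * (h I).im * z.im) ≤
      (y ^ 2 * w.im * ‖w‖ ^ 2 / 4) * ((h z).im * (64 * (f (h I)).im)) := by
    nlinarith
  exact le_of_mul_le_mul_left this hpos

/-- The inner factor of a map with positive angular derivative at infinity has a regular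
contact at infinity. -/
lemma normalize_contact {f h : ℂ → ℂ} (hf : Hol f) (hh : Hol h)
    (hc : 0 < cInf (fun z => f (h z))) :
    0 < cInf h ∨ ∃ ξ : ℝ, 0 < cInf (fun z => mob ξ (h z)) := by
  by_cases hu : ∀ R : ℝ, ∃ y : ℝ, R ≤ y ∧ R ≤ ‖h (y * I)‖
  · exact Or.inl (cInf_pos_of_unbounded hf hh hc hu)
  right
  push Not at hu
  obtain ⟨R, hR⟩ := hu
  have hb : ∀ᶠ y : ℝ in atTop, h (y * I) ∈ closedBall (0 : ℂ) R := by
    filter_upwards [eventually_ge_atTop R] with y hy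
    simpa using (hR y hy).le
  obtain ⟨a, -, ha⟩ := (isCompact_closedBall (0 : ℂ) R).exists_mapClusterPt
    (f := atTop) (u := fun y : ℝ => h (y * I)) (by
      rw [le_principal_iff, mem_map]; exact hb)
  set c := cInf (fun z => f (h z))
  have hw1 : 0 < (h I).im := hh.maps I_mem_H
  have hg1 : 0 < (f (h I)).im := hf.maps (hh.maps I_mem_H)
  have him : Tendsto (fun y : ℝ => (h (y * I)).im) atTop (𝓝 0) := by
    have t : Tendsto (fun y : ℝ => (R + ‖h I‖) ^ 2 * (f (h I)).im / (c * (h I).im) / y) atTop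
        (𝓝 0) := tendsto_const_nhds.div_atTop tendsto_id
    refine squeeze_zero' ?_ ?_ t
    · filter_upwards [eventually_gt_atTop 0] with y hy
      exact le_of_lt (hh.maps (mul_I_mem_H hy))
    · filter_upwards [eventually_gt_atTop 0, eventually_ge_atTop R] with y hy hy'
      have a1 := normalize_aux hf hh (hf.comp hh).low_cInf hy
      have b1 : ‖h (y * I) - conj (h I)‖ ≤ R + ‖h I‖ := by
        have := norm_sub_le (h (y * I)) (conj (h I))
        rw [Complex.norm_conj] at this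
        linarith [hR y hy']
      rw [le_div_iff₀ hy, le_div_iff₀ (by positivity)]
      calc _ = c * y * ((h (y * I)).im * (h I).im) := by ring
        _ ≤ _ := a1
        _ ≤ _ := by gcongr
  have ha0 : a.im = 0 := by
    have h1 : MapClusterPt a.im atTop (fun y : ℝ => (h (y * I)).im) :=
      ha.continuousAt_comp (f := Complex.im) Complex.continuous_im.continuousAt
    exact eq_of_nhds_neBot (h1.clusterPt.mono him)
  refine ⟨a.re, cInf_pos_of_unbounded (f := fun w => f (bom a.re w))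
    (hf.comp (univ_bom _).toHol) ((univ_mob _).toHol.comp hh) ?_ ?_⟩
  · simpa only [bom_mob] using hc
  · intro R'
    have hR' : 0 < max R' 1 := lt_max_of_lt_right one_pos
    have := (ha.frequently (ball_mem_nhds a (inv_pos.2 hR'))).and_eventually
      (eventually_ge_atTop (max R' 1))
    obtain ⟨y, hy1, hy2⟩ := this.exists
    refine ⟨y, (le_max_left _ _).trans hy2, (le_max_left R' 1).trans ?_⟩
    have hy : 0 < y := hR'.trans_le hy2
    have ea : (a.re : ℂ) = a := Complex.ext (by simp) (by simp [ha0])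
    have hne := norm_pos_iff.2 (sub_real_ne_zero (hh.maps (mul_I_mem_H hy)) a.re)
    rw [mob, norm_neg, norm_inv]
    rw [dist_eq_norm, ← ea] at hy1
    rw [le_inv_comm₀ hR' hne]
    simpa using hy1.le

/-- Reciprocal of the angular derivative at a finite contact. -/
noncomputable def kap (f : ℂ → ℂ) (s σ : ℝ) : ℝ := cInf (cj f s σ)

lemma Julia.le_kap {f : ℂ → ℂ} (hf : Hol f) {s σ Λ : ℝ} (h : Julia f s σ Λ) :
    Λ⁻¹ ≤ kap f s σ := ((hf.julia_iff (h.pos hf)).1 h).le_cInf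

lemma Julia.kap_pos {f : ℂ → ℂ} (hf : Hol f) {s σ Λ : ℝ} (h : Julia f s σ Λ) :
    0 < kap f s σ := lt_of_lt_of_le (inv_pos.2 (h.pos hf)) (h.le_kap hf)

lemma Hol.julia_of_le_kap {f : ℂ → ℂ} (hf : Hol f) {s σ Λ : ℝ} (hΛ : 0 < Λ)
    (h : Λ⁻¹ ≤ kap f s σ) : Julia f s σ Λ :=
  (hf.julia_iff hΛ).2 ((hf.cj s σ).low_of_le h)

lemma Hol.julia_kap {f : ℂ → ℂ} (hf : Hol f) {s σ : ℝ} (h : 0 < kap f s σ) :
    Julia f s σ (kap f s σ)⁻¹ := hf.julia_of_le_kap (inv_pos.2 h) (by simp)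

lemma kap_congr {f g : ℂ → ℂ} (e : ∀ z ∈ H, g z = f z) (s σ : ℝ) : kap g s σ = kap f s σ :=
  cInf_congr fun w hw => by simp only [cj, e _ (bom_mem_H s hw)]

lemma kap_comp {f g : ℂ → ℂ} (hf : Hol f) (hg : Hol g) {s t σ : ℝ} (h : 0 < kap g s t) :
    kap (fun z => f (g z)) s σ = kap f t σ * kap g s t := by
  unfold kap
  rw [← cInf_comp (hf.cj t σ) (hg.cj s t) h]
  simp only [cj, bom_mob]
  rfl

/-- Splitting of a contact point along a factorisation. -/
lemma contact_split {ψ h : ℂ → ℂ} (hψ : Hol ψ) (hh : Hol h) {a b s σ Λ : ℝ} (ha : 0 < a)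
    (hb : 0 < b) (la : Low ψ a) (lb : Low h b) (hj : Julia (fun z => ψ (h z)) s σ Λ) :
    ∃ t : ℝ, Julia h s t (Λ / a) ∧ Julia ψ t σ (Λ / b) := by
  have hg := hψ.comp hh
  have hΛ := hj.pos hg
  have hk := hj.kap_pos hg
  rcases normalize_contact (f := fun w => mob σ (ψ w)) (h := fun w => h (bom s w))
    ((univ_mob σ).toHol.comp hψ) (hh.comp (univ_bom s).toHol) hk with h1 | ⟨t, h1⟩
  · exfalso
    set κ := cInf (fun w => h (bom s w))
    have key : ∀ y : ℝ, 0 < y → a * κ * y * y ≤ Λ := by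
      intro y hy
      have e : bom s (y * I) = s + (y⁻¹ : ℝ) * I := by
        rw [bom, mul_inv, inv_I]; push_cast; ring
      have a1 := (hh.comp (univ_bom s).toHol).low_cInf _ (mul_I_mem_H hy)
      simp only [e] at a1
      have a2 := la _ (hh.maps (add_mul_I_mem_H s (inv_pos.2 hy)))
      have a3 := hj.im_vertical hg (inv_pos.2 hy)
      have e2 : ((y : ℂ) * I).im = y := by simp
      rw [e2] at a1
      have : a * (κ * y) ≤ Λ * y⁻¹ := le_trans (by gcongr) (a2.trans a3)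
      rw [← div_eq_mul_inv, le_div_iff₀ hy] at this
      linarith
    have h2 := key (max 1 (Λ / (a * κ) + 1)) (lt_max_of_lt_left one_pos)
    have h3 : Λ / (a * κ) + 1 ≤ max 1 (Λ / (a * κ) + 1) := le_max_right _ _
    have h4 : (1 : ℝ) ≤ max 1 (Λ / (a * κ) + 1) := le_max_left _ _
    have h5 : 0 < a * κ := by positivity
    have h6 : a * κ * (Λ / (a * κ) + 1) * 1 ≤
        a * κ * max 1 (Λ / (a * κ) + 1) * max 1 (Λ / (a * κ) + 1) := by gcongr
    have h7 : a * κ * (Λ / (a * κ) + 1) * 1 = Λ + a * κ := by field_simp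
    linarith
  · have h1' : 0 < kap h s t := h1
    have hmul := kap_comp hψ hh (σ := σ) h1'
    have h2 : 0 < kap ψ t σ := by
      rw [hmul] at hk
      exact (mul_pos_iff_of_pos_right h1').1 hk
    have l1 := lb.le_julia hh (hh.julia_kap h1')
    have l2 := la.le_julia hψ (hψ.julia_kap h2)
    have l3 := hj.le_kap hg
    rw [hmul] at l3
    rw [le_inv_comm₀ hb h1'] at l1
    rw [le_inv_comm₀ ha h2] at l2
    refine ⟨t, hh.julia_of_le_kap (by positivity) ?_, hψ.julia_of_le_kap (by positivity) ?_⟩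
    · calc (Λ / a)⁻¹ = a * Λ⁻¹ := by field_simp
        _ ≤ a * (kap ψ t σ * kap h s t) := by gcongr
        _ ≤ a * (a⁻¹ * kap h s t) := by gcongr
        _ = _ := by field_simp
    · calc (Λ / b)⁻¹ = b * Λ⁻¹ := by field_simp
        _ ≤ b * (kap ψ t σ * kap h s t) := by gcongr
        _ ≤ b * (kap ψ t σ * b⁻¹) := by gcongr
        _ = _ := by field_simp

end Pool.Agent.MP_1a2790_an
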