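import Pool.Agent.MP_1a2790_an.Basic

/-! The rectangle inequality. -/

open Complex Set Filter Topology Metric MeasureTheory

namespace Pool.Agent.MP_1a2790_an

lemma continuous_horizontal {p : ℂ → ℂ} (hp : ContinuousOn p H) {y : ℝ} (hy : 0 < y) :
    Continuous fun x : ℝ => p (x + y * I) :=
  hp.comp_continuous (by fun_prop) fun x => add_mul_I_mem_H x hy

lemma continuousOn_vertical {p : ℂ → ℂ} (hp : ContinuousOn p H) (x : ℝ) :
    ContinuousOn (fun y : ℝ => p (x + y * I)) (Ioi 0) :=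
  hp.comp (by fun_prop) fun _ hy => add_mul_I_mem_H x hy

lemma rect_identity {p : ℂ → ℂ} (hp : DifferentiableOn ℂ p H) (x₁ x₂ : ℝ) {ε δ : ℝ} (hε : 0 < ε)
    (hεδ : ε ≤ δ) :
    (∫ x in x₁..x₂, (p (x + δ * I)).im) - (∫ x in x₁..x₂, (p (x + ε * I)).im) =
      ∫ y in ε..δ, ((p (x₂ + y * I)).re - (p (x₁ + y * I)).re) := by
  have hδ : 0 < δ := hε.trans_le hεδ
  have key := Complex.integral_boundary_rect_eq_zero_of_differentiableOn p ⟨x₁, ε⟩ ⟨x₂, δ⟩
    (hp.mono fun z hz => by
      have h := hz.2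
      simp only [mem_preimage, uIcc_of_le hεδ] at h
      exact hε.trans_le h.1)
  have iv : ∀ x : ℝ, IntervalIntegrable (fun y : ℝ => p (x + y * I)) volume ε δ := fun x =>
    ((continuousOn_vertical hp.continuousOn x).mono (by
      rw [uIcc_of_le hεδ]; exact fun y hy => hε.trans_le hy.1)).intervalIntegrable
  have i1 := (Complex.imCLM.intervalIntegral_comp_comm
    ((continuous_horizontal hp.continuousOn hε).intervalIntegrable (μ := volume) x₁ x₂))
  have i2 := (Complex.imCLM.intervalIntegral_comp_comm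
    ((continuous_horizontal hp.continuousOn hδ).intervalIntegrable (μ := volume) x₁ x₂))
  have i3 := Complex.reCLM.intervalIntegral_comp_comm (iv x₁)
  have i4 := Complex.reCLM.intervalIntegral_comp_comm (iv x₂)
  simp only [imCLM_apply, reCLM_apply] at i1 i2 i3 i4
  have ir : ∀ x : ℝ, IntervalIntegrable (fun y : ℝ => (p (x + y * I)).re) volume ε δ := fun x =>
    (Complex.continuous_re.comp_continuousOn ((continuousOn_vertical hp.continuousOn x).mono (by
      rw [uIcc_of_le hεδ]; exact fun y hy => hε.trans_le hy.1))).intervalIntegrable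
  rw [intervalIntegral.integral_sub (ir x₂) (ir x₁), i1, i2, i3, i4]
  have := congrArg Complex.im key
  simp only [sub_im, add_im, smul_eq_mul, mul_im, I_re, zero_mul, I_im, one_mul, zero_add,
    zero_im] at this
  linarith

lemma rect_ineq {p : ℂ → ℂ} (hp : DifferentiableOn ℂ p H) {x₁ x₂ δ M η : ℝ} (hx : x₁ ≤ x₂)
    (hδ : 0 < δ) (hM : ∀ x ∈ Icc x₁ x₂, ∀ y ∈ Ioc 0 δ, |(p (x + y * I)).im| ≤ M)
    (h0 : ∀ x ∈ Ioo x₁ x₂, Tendsto (fun y : ℝ => (p (x + y * I)).im) (𝓝[>] 0) (𝓝 0))
    (hη : ∀ y ∈ Ioc 0 δ, (p (x₂ + y * I)).re - (p (x₁ + y * I)).re ≤ η) :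
    ∫ x in x₁..x₂, (p (x + δ * I)).im ≤ η * δ := by
  have hev : ∀ᶠ ε in 𝓝[>] (0 : ℝ), ε ∈ Ioc 0 δ := Ioc_mem_nhdsGT hδ
  have t1 : Tendsto (fun ε : ℝ => ∫ x in x₁..x₂, (p (x + ε * I)).im) (𝓝[>] 0)
      (𝓝 (∫ _ in x₁..x₂, (0 : ℝ))) := by
    apply intervalIntegral.tendsto_integral_filter_of_dominated_convergence (fun _ => M)
    · filter_upwards [hev] with ε hε
      exact (Complex.continuous_im.comp
        (continuous_horizontal hp.continuousOn hε.1)).aestronglyMeasurable
    · filter_upwards [hev] with ε hε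
      refine Eventually.of_forall fun x hx' => ?_
      rw [uIoc_of_le hx] at hx'
      exact hM x (Ioc_subset_Icc_self hx') ε hε
    · exact intervalIntegrable_const
    · filter_upwards [(countable_singleton x₂).ae_notMem volume] with x hx2 hx'
      rw [uIoc_of_le hx] at hx'
      exact h0 x ⟨hx'.1, lt_of_le_of_ne hx'.2 hx2⟩
  simp only [intervalIntegral.integral_zero] at t1
  have t2 : Tendsto (fun ε : ℝ => η * (δ - ε) + ∫ x in x₁..x₂, (p (x + ε * I)).im) (𝓝[>] 0)
      (𝓝 (η * (δ - 0) + 0)) := by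
    refine Tendsto.add (Tendsto.mono_left ?_ nhdsWithin_le_nhds) t1
    exact Continuous.tendsto (by fun_prop) 0
  simp only [sub_zero, add_zero] at t2
  refine ge_of_tendsto t2 (hev.mono fun ε hε => ?_)
  have h1 := rect_identity hp x₁ x₂ hε.1 hε.2
  have ir : ∀ x : ℝ, IntervalIntegrable (fun y : ℝ => (p (x + y * I)).re) volume ε δ := fun x =>
    (Complex.continuous_re.comp_continuousOn ((continuousOn_vertical hp.continuousOn x).mono (by
      rw [uIcc_of_le hε.2]; exact fun y hy => hε.1.trans_le hy.1))).intervalIntegrable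
  have h2 := intervalIntegral.integral_mono_on hε.2 ((ir x₂).sub (ir x₁))
    (intervalIntegrable_const (c := η)) fun y hy => hη y ⟨hε.1.trans_le hy.1, hy.2⟩
  simp only [intervalIntegral.integral_const, smul_eq_mul] at h2
  linarith

end Pool.Agent.MP_1a2790_an
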