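import Pool.Agent.MP_1a2790_an.Factor
import Pool.Agent.MP_1a2790_an.Rect

/-! Arcs between two boundary points and the regions they cut off. -/

open Complex Set Filter Topology Metric Function

namespace Pool.Agent.MP_1a2790_an

/-- A path in the half-plane joining two real points non-tangentially. -/
structure StolzPath (Q : UI → ℂ) (s s' K : ℝ) : Prop where
  cont : Continuous Q
  zero : Q 0 = s
  one : Q 1 = s'
  pos : 0 < K
  mem : ∀ t, t ≠ 0 → t ≠ 1 → Q t ∈ H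
  stolz : ∀ t, t ≠ 0 → t ≠ 1 → ‖Q t - s‖ ≤ K * (Q t).im ∨ ‖Q t - s'‖ ≤ K * (Q t).im

lemma StolzPath.im_nonneg {Q : UI → ℂ} {s s' K : ℝ} (h : StolzPath Q s s' K) (t : UI) :
    0 ≤ (Q t).im := by
  by_cases h0 : t = 0
  · simp [h0, h.zero]
  by_cases h1 : t = 1
  · simp [h1, h.one]
  exact le_of_lt (h.mem t h0 h1)

lemma StolzPath.ne_of_mem {Q : UI → ℂ} {s s' K : ℝ} (h : StolzPath Q s s' K) {t : UI}
    (ht : Q t ∈ H) : t ≠ 0 ∧ t ≠ 1 := by
  constructor <;> rintro rfl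
  · simp [h.zero, mem_H] at ht
  · simp [h.one, mem_H] at ht

lemma exists_stolzPath {s s' : ℝ} (h : s < s') : ∃ Q, StolzPath Q s s' 4 := by
  have hL : 0 < s' - s := sub_pos.2 h
  refine ⟨fun t => (⟨s + t * (s' - s), t * (1 - t) * (s' - s)⟩ : ℂ), ?_, ?_, ?_, by norm_num,
    fun t h0 h1 => ?_, fun t h0 h1 => ?_⟩
  · have : (fun t : UI => (⟨s + t * (s' - s), t * (1 - t) * (s' - s)⟩ : ℂ)) = fun t : UI =>
        ((s + t * (s' - s) : ℝ) : ℂ) + ((t * (1 - t) * (s' - s) : ℝ) : ℂ) * I :=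
      funext fun t => Complex.mk_eq_add_mul_I _ _
    rw [this]
    fun_prop
  · apply Complex.ext <;> simp
  · apply Complex.ext <;> simp
  · have a0 : (0 : ℝ) < t := unitInterval.pos_iff_ne_zero.2 h0
    have a1 : (t : ℝ) < 1 := unitInterval.lt_one_iff_ne_one.2 h1
    have : 0 < 1 - (t : ℝ) := by linarith
    simp only [mem_H]
    positivity
  · have a0 : (0 : ℝ) < t := unitInterval.pos_iff_ne_zero.2 h0
    have a1 : (t : ℝ) < 1 := unitInterval.lt_one_iff_ne_one.2 h1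
    have a2 : 0 < 1 - (t : ℝ) := by linarith
    rcases le_total (t : ℝ) (1 / 2) with h2 | h2
    · left
      refine (Complex.norm_le_abs_re_add_abs_im _).trans ?_
      simp only [sub_re, ofReal_re, sub_im, ofReal_im, sub_zero, add_sub_cancel_left]
      rw [abs_of_pos (by positivity), abs_of_pos (by positivity)]
      nlinarith [mul_pos a0 hL]
    · right
      refine (Complex.norm_le_abs_re_add_abs_im _).trans ?_
      simp only [sub_re, ofReal_re, sub_im, ofReal_im, sub_zero]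
      rw [abs_of_neg (by nlinarith), abs_of_pos (by positivity)]
      nlinarith [mul_pos a2 hL]

lemma tendsto_endpoint {f : ℂ → ℂ} (hf : Hol f) {Q : UI → ℂ} (hQ : Continuous Q) {t₀ : UI}
    {s s' σ K Λ : ℝ} (hs : s ≠ s') (h0 : Q t₀ = s) (hj : Julia f s σ Λ) {Γ : UI → ℂ}
    (hΓ0 : Γ t₀ = σ) (hev : ∀ᶠ t in 𝓝 t₀, t ≠ t₀ → Γ t = f (Q t) ∧ Q t ∈ H ∧
      (‖Q t - s‖ ≤ K * (Q t).im ∨ ‖Q t - s'‖ ≤ K * (Q t).im)) : ContinuousAt Γ t₀ := by
  have h1 : ∀ᶠ t in 𝓝 t₀, K * (Q t).im < ‖Q t - s'‖ := by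
    apply ContinuousAt.eventually_lt (by fun_prop) (by fun_prop)
    simp only [h0, ofReal_im, mul_zero, norm_pos_iff, sub_ne_zero]
    exact_mod_cast hs
  rw [ContinuousAt, hΓ0, tendsto_iff_norm_sub_tendsto_zero]
  have h2 : Tendsto (fun t => Λ * K * ‖Q t - s‖) (𝓝 t₀) (𝓝 0) := by
    have : Continuous fun t => Λ * K * ‖Q t - s‖ := by fun_prop
    simpa [h0] using this.tendsto t₀
  refine squeeze_zero' (Eventually.of_forall fun _ => norm_nonneg _) ?_ h2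
  filter_upwards [h1, hev] with t a1 a2
  by_cases e : t = t₀
  · simp [e, hΓ0, h0]
  · obtain ⟨b1, b2, b3⟩ := a2 e
    rw [b1]
    exact hj.stolz hf b2 (b3.resolve_right (not_le.2 a1))

lemma Julia.stolz_image {f : ℂ → ℂ} (hf : Hol f) {c s σ Λ K : ℝ} (hc : 0 < c) (hl : Low f c)
    (hj : Julia f s σ Λ) (hK : 0 < K) {z : ℂ} (hz : z ∈ H) (h : ‖z - s‖ ≤ K * z.im) :
    ‖f z - σ‖ ≤ Λ * K * K / c * (f z).im := by
  have h1 := hj.stolz hf hz h
  have h2 := hl z hz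
  have h3 := hj.pos hf
  calc ‖f z - σ‖ ≤ Λ * K * ‖z - s‖ := h1
    _ ≤ Λ * K * (K * z.im) := by gcongr
    _ = Λ * K * K / c * (c * z.im) := by field_simp
    _ ≤ _ := by gcongr

lemma StolzPath.image {Q : UI → ℂ} {s s' K : ℝ} (hQ : StolzPath Q s s' K) (hs : s ≠ s')
    {f : ℂ → ℂ} (hf : Hol f) {c σ σ' Λ Λ' : ℝ} (hc : 0 < c) (hl : Low f c) (hj : Julia f s σ Λ)
    (hj' : Julia f s' σ' Λ') :
    ∃ Γ K', StolzPath Γ σ σ' K' ∧ ∀ t, t ≠ 0 → t ≠ 1 → Γ t = f (Q t) := by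
  classical
  set Γ : UI → ℂ := fun t => if t = 0 then σ else if t = 1 then σ' else f (Q t) with hΓ
  have e : ∀ t, t ≠ 0 → t ≠ 1 → Γ t = f (Q t) := fun t h0 h1 => by simp [hΓ, h0, h1]
  have e0 : Γ 0 = σ := by simp [hΓ]
  have e1 : Γ 1 = σ' := by simp [hΓ]
  have hΛ : 0 < max Λ Λ' := lt_max_of_lt_left (hj.pos hf)
  have hK := hQ.pos
  refine ⟨Γ, max Λ Λ' * K * K / c, ⟨?_, e0, e1, by positivity, fun t h0 h1 => ?_,
    fun t h0 h1 => ?_⟩, e⟩
  · rw [continuous_iff_continuousAt]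
    intro t
    by_cases h0 : t = 0
    · subst h0
      apply tendsto_endpoint hf hQ.cont hs hQ.zero hj e0 (K := K)
      filter_upwards [isOpen_ne.mem_nhds (zero_ne_one : (0 : UI) ≠ 1)] with t h1 h0
      exact ⟨e t h0 h1, hQ.mem t h0 h1, hQ.stolz t h0 h1⟩
    by_cases h1 : t = 1
    · subst h1
      apply tendsto_endpoint hf hQ.cont hs.symm hQ.one hj' e1 (K := K)
      filter_upwards [isOpen_ne.mem_nhds (one_ne_zero : (1 : UI) ≠ 0)] with t h0 h1
      exact ⟨e t h0 h1, hQ.mem t h0 h1, (hQ.stolz t h0 h1).symm⟩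
    have : ContinuousAt (fun t => f (Q t)) t :=
      (hf.contAt (hQ.mem t h0 h1)).comp hQ.cont.continuousAt
    apply this.congr
    filter_upwards [isOpen_ne.mem_nhds h0, isOpen_ne.mem_nhds h1] with t h0 h1
    exact (e t h0 h1).symm
  · rw [e t h0 h1]; exact hf.maps (hQ.mem t h0 h1)
  · rw [e t h0 h1]
    exact (hQ.stolz t h0 h1).imp
      ((hj.mono hf (le_max_left _ _)).stolz_image hf hc hl hK (hQ.mem t h0 h1))
      ((hj'.mono hf (le_max_right _ _)).stolz_image hf hc hl hK (hQ.mem t h0 h1))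

/-- The straight segment. -/
noncomputable def seg (s s' : ℝ) (t : UI) : ℂ := ((s + t * (s' - s) : ℝ) : ℂ)

lemma continuous_seg (s s' : ℝ) : Continuous (seg s s') := by unfold seg; fun_prop

lemma seg_zero (s s' : ℝ) : seg s s' 0 = s := by simp [seg]

lemma seg_one (s s' : ℝ) : seg s s' 1 = s' := by simp [seg]

lemma notMem_range_seg (s s' : ℝ) {a : ℂ} (ha : a ∈ H) : a ∉ range (seg s s') := by
  rintro ⟨t, rfl⟩
  rw [mem_H, seg, ofReal_im] at ha
  exact lt_irrefl _ ha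

lemma I_mul_mem_slitPlane (x : ℝ) {a : ℂ} (ha : a ∈ H) : I * (x - a) ∈ slitPlane :=
  Or.inl (by simpa [mem_H] using ha)

lemma inc_seg (s s' : ℝ) {a : ℂ} (ha : a ∈ H) :
    inc (fun t => seg s s' t - a) = log (I * (s' - a)) - log (I * (s - a)) := by
  rw [inc_of_slit (u := fun t => seg s s' t - a) ((continuous_seg s s').sub continuous_const)
    (c := I) fun t => I_mul_mem_slitPlane _ ha]
  simp only [seg_zero, seg_one]

/-- Region enclosed by the arc and the segment. -/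
def Rin (Γ : UI → ℂ) (s s' : ℝ) : Set ℂ := {a | a ∈ H ∧ a ∉ range Γ ∧ idx Γ (seg s s') a ≠ 0}

/-- Region outside the arc. -/
def Rout (Γ : UI → ℂ) (s s' : ℝ) : Set ℂ := {a | a ∈ H ∧ a ∉ range Γ ∧ idx Γ (seg s s') a = 0}

lemma StolzPath.isOpen_aux {Γ : UI → ℂ} {s s' K : ℝ} (h : StolzPath Γ s s' K) (P : ℂ → Prop) :
    IsOpen {a | a ∈ H ∧ a ∉ range Γ ∧ P (idx Γ (seg s s') a)} := by
  have := isOpen_H.inter (isOpen_idx h.cont (continuous_seg s s') (h.zero.trans (seg_zero _ _).symm)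
    (h.one.trans (seg_one _ _).symm) P)
  convert this using 1
  ext a
  exact ⟨fun ha => ⟨ha.1, fun hh => hh.elim ha.2.1 (notMem_range_seg s s' ha.1), ha.2.2⟩,
    fun ha => ⟨ha.1, fun hh => ha.2.1 (Or.inl hh), ha.2.2⟩⟩

lemma StolzPath.isOpen_Rin {Γ : UI → ℂ} {s s' K : ℝ} (h : StolzPath Γ s s' K) :
    IsOpen (Rin Γ s s') := h.isOpen_aux (· ≠ 0)

lemma StolzPath.isOpen_Rout {Γ : UI → ℂ} {s s' K : ℝ} (h : StolzPath Γ s s' K) :
    IsOpen (Rout Γ s s') := h.isOpen_aux (· = 0)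

lemma disjoint_Rin_Rout (Γ : UI → ℂ) (s s' : ℝ) : Disjoint (Rin Γ s s') (Rout Γ s s') :=
  disjoint_left.2 fun _ h h' => h.2.2 h'.2.2

lemma mem_Rin_or_Rout {Γ : UI → ℂ} (s s' : ℝ) {a : ℂ} (ha : a ∈ H) (h : a ∉ range Γ) :
    a ∈ Rin Γ s s' ∨ a ∈ Rout Γ s s' := by
  by_cases e : idx Γ (seg s s') a = 0
  · exact Or.inr ⟨ha, h, e⟩
  · exact Or.inl ⟨ha, h, e⟩

lemma StolzPath.exists_large {Γ : UI → ℂ} {s s' K : ℝ} (h : StolzPath Γ s s' K) :
    ∃ R : ℝ, ∀ a ∈ H, R < ‖a‖ → a ∈ Rout Γ s s' := by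
  obtain ⟨R, hR⟩ := exists_idx_large h.cont (continuous_seg s s')
    (h.zero.trans (seg_zero _ _).symm) (h.one.trans (seg_one _ _).symm)
  exact ⟨R, fun a ha h' => ⟨ha, fun hh => (hR a h').1 (Or.inl hh), (hR a h').2⟩⟩

/-- No point of the path lies at or below `z`. -/
def NotAbove (Q : UI → ℂ) (z : ℂ) : Prop := ∀ t, (Q t).re = z.re → z.im < (Q t).im

lemma NotAbove.notMem {Q : UI → ℂ} {z : ℂ} (h : NotAbove Q z) : z ∉ range Q := by
  rintro ⟨t, rfl⟩
  exact lt_irrefl _ (h t rfl)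

lemma StolzPath.idx_of_notAbove {Q : UI → ℂ} {s s' K : ℝ} (h : StolzPath Q s s' K) {z : ℂ}
    (hz : z ∈ H) (hn : NotAbove Q z) :
    idx Q (seg s s') z = (log (-(I * (s' - z))) - log (I * (s' - z))) -
      (log (-(I * (s - z))) - log (I * (s - z))) := by
  rw [idx, inc_seg s s' hz, inc_of_slit (u := fun t => Q t - z) (h.cont.sub continuous_const)
    (c := -I)]
  · simp only [h.zero, h.one, neg_mul]
    ring
  · intro t
    by_cases e : (Q t).re = z.re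
    · left
      simpa using hn t e
    · right
      simpa [sub_eq_zero] using Ne.symm e

lemma log_neg_sub_of_im_pos {w : ℂ} (h : 0 < w.im) : log (-w) - log w = -(Real.pi * I) := by
  apply Complex.ext
  · simp [log_re]
  · simp [log_im, arg_neg_eq_arg_sub_pi_of_im_pos h]

lemma log_neg_sub_of_im_neg {w : ℂ} (h : w.im < 0) : log (-w) - log w = Real.pi * I := by
  apply Complex.ext
  · simp [log_re]
  · simp [log_im, arg_neg_eq_arg_add_pi_of_im_neg h]

lemma StolzPath.mem_Rin {Q : UI → ℂ} {s s' K : ℝ} (h : StolzPath Q s s' K) {z : ℂ}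
    (hz : z ∈ H) (hn : NotAbove Q z) (h1 : s < z.re) (h2 : z.re < s') : z ∈ Rin Q s s' := by
  refine ⟨hz, hn.notMem, ?_⟩
  rw [h.idx_of_notAbove hz hn, log_neg_sub_of_im_pos (by simpa using h2),
    log_neg_sub_of_im_neg (by simpa using h1)]
  intro e
  have := congrArg Complex.im e
  simp at this
  linarith [Real.pi_pos]

lemma StolzPath.mem_Rout {Q : UI → ℂ} {s s' K : ℝ} (h : StolzPath Q s s' K) (hs : s < s') {z : ℂ}
    (hz : z ∈ H) (hn : NotAbove Q z) (h1 : z.re < s ∨ s' < z.re) : z ∈ Rout Q s s' := by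
  refine ⟨hz, hn.notMem, ?_⟩
  rw [h.idx_of_notAbove hz hn]
  rcases h1 with h1 | h1
  · rw [log_neg_sub_of_im_pos (by simpa using h1.trans hs),
      log_neg_sub_of_im_pos (by simpa using h1), sub_self]
  · rw [log_neg_sub_of_im_neg (by simpa using h1),
      log_neg_sub_of_im_neg (by simpa using hs.trans h1), sub_self]

lemma StolzPath.eventually_notAbove {Q : UI → ℂ} {s s' K : ℝ} (h : StolzPath Q s s' K) {x : ℝ}
    (h1 : x ≠ s) (h2 : x ≠ s') : ∀ᶠ y : ℝ in 𝓝[>] 0, NotAbove Q (x + y * I) := by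
  have hx : (x : ℂ) ∈ (range Q)ᶜ := by
    rintro ⟨t, e⟩
    by_cases h0 : t = 0
    · rw [h0, h.zero] at e; exact h1 (by exact_mod_cast e.symm)
    by_cases h1 : t = 1
    · rw [h1, h.one] at e; exact h2 (by exact_mod_cast e.symm)
    have := h.mem t h0 h1
    rw [e] at this
    simp [mem_H] at this
  obtain ⟨r, hr, hsub⟩ := Metric.isOpen_iff.1 (isCompact_range h.cont).isClosed.isOpen_compl _ hx
  filter_upwards [Ioo_mem_nhdsGT hr] with y hy t e
  by_contra hh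
  apply hsub (a := Q t) _ ⟨t, rfl⟩
  have e' : (Q t).re = x := by simpa using e
  have hh' : (Q t).im ≤ y := by simpa using hh
  rw [mem_ball, dist_eq_norm]
  refine lt_of_le_of_lt (Complex.norm_le_abs_re_add_abs_im _) ?_
  simp only [sub_re, e', ofReal_re, sub_self, abs_zero, sub_im, ofReal_im, sub_zero, zero_add]
  rw [abs_of_nonneg (h.im_nonneg t)]
  linarith [hy.2]

section image
variable {Q Γ : UI → ℂ} {s s' K σ σ' K' c : ℝ} {f : ℂ → ℂ} (hQ : StolzPath Q s s' K)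
  (hΓ : StolzPath Γ σ σ' K') (hf : Univ f) (hc : 0 < c) (hl : Low f c)
  (e : ∀ t, t ≠ 0 → t ≠ 1 → Γ t = f (Q t))
include hQ hΓ hf e

lemma notMem_range_image {z : ℂ} (hz : z ∈ H) (hzQ : z ∉ range Q) : f z ∉ range Γ := by
  rintro ⟨t, ht⟩
  obtain ⟨h0, h1⟩ := hΓ.ne_of_mem (ht ▸ hf.maps hz : Γ t ∈ H)
  rw [e t h0 h1] at ht
  exact hzQ ⟨t, hf.inj (hQ.mem t h0 h1) hz ht⟩

omit hf in
lemma range_inter_subset_image : range Γ ∩ H ⊆ f '' H := by
  rintro _ ⟨⟨t, rfl⟩, ht⟩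
  obtain ⟨h0, h1⟩ := hΓ.ne_of_mem ht
  exact ⟨Q t, hQ.mem t h0 h1, (e t h0 h1).symm⟩

include hc hl

lemma idx_image {z : ℂ} (hz : z ∈ H) (hzQ : z ∉ range Q) :
    idx Γ (seg σ σ') (f z) = idx Q (seg s s') z := by
  have p1 : ∀ t, Q t ∈ H → Γ t = f (Q t) := fun t ht =>
    e t (hQ.ne_of_mem ht).1 (hQ.ne_of_mem ht).2
  have p2 : ∀ t, Q t ∉ H → Γ t ∉ f '' H := fun t ht hh => by
    obtain ⟨h0, h1⟩ := hΓ.ne_of_mem (hf.maps.image_subset hh)
    exact ht (hQ.mem t h0 h1)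
  set E : ℂ → ℂ := fun z => inc (Phi f Q Γ z) - (log (I * (σ' - f z)) - log (I * (σ - f z))) +
    (log (I * (s' - z)) - log (I * (s - z))) with hE
  have key : ∀ z ∈ H, z ∉ range Q → idx Γ (seg σ σ') (f z) = idx Q (seg s s') z + E z := by
    intro z hz hzQ
    simp only [idx, hE]
    rw [inc_image isOpen_H hf.diff hf.inj hQ.cont hΓ.cont p1 p2 hz hzQ, inc_seg _ _ hz,
      inc_seg _ _ (hf.maps hz)]
    ring
  have cl : ∀ x : ℝ, ContinuousOn (fun z => log (I * (x - z))) H := fun x =>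
    ContinuousOn.clog (by fun_prop) fun z hz => I_mul_mem_slitPlane x hz
  have Ec : ContinuousOn E H :=
    ((continuousOn_inc_Phi isOpen_H hf.diff hf.inj hQ.cont hΓ.cont p1 p2).sub
      (((cl σ').comp hf.toHol.cont hf.maps).sub ((cl σ).comp hf.toHol.cont hf.maps))).add
      ((cl s').sub (cl s))
  have Ee : ∀ z ∈ H, exp (E z) = 1 := by
    intro z hz
    have n : ∀ (x : ℝ) (w : ℂ), w ∈ H → (x : ℂ) - w ≠ 0 := fun x w hw h =>
      sub_real_ne_zero hw x (by linear_combination -h)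
    have b := exp_inc (continuous_Phi isOpen_H hf.diff hQ.cont hΓ.cont p1 hz)
      (Phi_ne_zero isOpen_H hf.diff hf.inj p1 p2 hz)
    simp only [Phi, hQ.zero, hQ.one, hΓ.zero, hΓ.one, if_neg (sub_ne_zero.1 (n s z hz)),
      if_neg (sub_ne_zero.1 (n s' z hz))] at b
    have n1 := n s z hz
    have n2 := n s' z hz
    have n3 := n σ _ (hf.maps hz)
    have n4 := n σ' _ (hf.maps hz)
    simp only [hE, exp_add, exp_sub]
    rw [exp_log (mul_ne_zero I_ne_zero n1), exp_log (mul_ne_zero I_ne_zero n2),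
      exp_log (mul_ne_zero I_ne_zero n3), exp_log (mul_ne_zero I_ne_zero n4)]
    field_simp at b ⊢
    linear_combination b
  obtain ⟨R, hR⟩ := hQ.exists_large
  obtain ⟨R', hR'⟩ := hΓ.exists_large
  set y := max (|R| + 1) ((|R'| + 1) / c) with hy
  have hy0 : 0 < y := lt_max_of_lt_left (by positivity)
  have hw := mul_I_mem_H hy0
  have a1 := hR _ hw (by
    rw [norm_mul_I hy0]; linarith [le_abs_self R, le_max_left (|R| + 1) ((|R'| + 1) / c)])
  have a2 := hR' _ (hf.maps hw) (by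
    have b1 := hl _ hw
    have b2 : (|R'| + 1) / c ≤ y := le_max_right _ _
    rw [div_le_iff₀ hc] at b2
    have b3 := Complex.im_le_norm (f (y * I))
    simp only [mul_im, ofReal_re, I_im, mul_one, ofReal_im, I_re, mul_zero, add_zero] at b1
    linarith [le_abs_self R'])
  have a3 := key _ hw a1.2.1
  rw [a1.2.2, a2.2.2, zero_add] at a3
  rw [key z hz hzQ, eq_of_exp_eq_one isPreconnected_H Ec Ee hz hw, ← a3, add_zero]

lemma image_mem_Rin {z : ℂ} (hz : z ∈ Rin Q s s') : f z ∈ Rin Γ σ σ' :=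
  ⟨hf.maps hz.1, notMem_range_image hQ hΓ hf e hz.1 hz.2.1, by
    rw [idx_image hQ hΓ hf hc hl e hz.1 hz.2.1]; exact hz.2.2⟩

lemma image_mem_Rout {z : ℂ} (hz : z ∈ Rout Q s s') : f z ∈ Rout Γ σ σ' :=
  ⟨hf.maps hz.1, notMem_range_image hQ hΓ hf e hz.1 hz.2.1, by
    rw [idx_image hQ hΓ hf hc hl e hz.1 hz.2.1]; exact hz.2.2⟩

lemma eventually_image_mem_Rin {x : ℝ} (hx : x ∈ Ioo s s') :
    ∀ᶠ y : ℝ in 𝓝[>] 0, f (x + y * I) ∈ Rin Γ σ σ' := by
  filter_upwards [hQ.eventually_notAbove hx.1.ne' hx.2.ne, self_mem_nhdsWithin] with y hy hy0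
  exact image_mem_Rin hQ hΓ hf hc hl e
    (hQ.mem_Rin (add_mul_I_mem_H x hy0) hy (by simpa using hx.1) (by simpa using hx.2))

lemma eventually_image_mem_Rout (hs : s < s') {x : ℝ} (hx : x < s ∨ s' < x) :
    ∀ᶠ y : ℝ in 𝓝[>] 0, f (x + y * I) ∈ Rout Γ σ σ' := by
  filter_upwards [hQ.eventually_notAbove (x := x)
    (hx.elim ne_of_lt fun h => (hs.trans h).ne') (hx.elim (fun h => (h.trans hs).ne) ne_of_gt),
    self_mem_nhdsWithin] with y hy hy0
  exact image_mem_Rout hQ hΓ hf hc hl e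
    (hQ.mem_Rout hs (add_mul_I_mem_H x hy0) hy (by simpa using hx))

end image

/-- A univalent map is bounded between two contact points. -/
lemma bounded_between {f : ℂ → ℂ} (hf : Univ f) {c s s' σ σ' Λ Λ' : ℝ} (hc : 0 < c) (hl : Low f c)
    (hs : s < s') (hj : Julia f s σ Λ) (hj' : Julia f s' σ' Λ') :
    ∃ M : ℝ, ∀ x ∈ Icc s s', ∀ y ∈ Ioc (0 : ℝ) 1, ‖f (x + y * I)‖ ≤ M := by
  obtain ⟨Q, hQ⟩ := exists_stolzPath hs
  obtain ⟨Γ, K', hΓ, e⟩ := hQ.image hs.ne hf.toHol hc hl hj hj'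
  obtain ⟨R, hR⟩ := hΓ.exists_large
  have near : ∀ {s σ Λ : ℝ}, Julia f s σ Λ → ∀ z ∈ H, z.im ≤ 1 → ‖z - s‖ ≤ 5 * z.im →
      ‖f z‖ ≤ 25 * Λ + |σ| := by
    intro s σ Λ hj z hz h1 h2
    have a1 := hj.stolz hf.toHol hz h2
    have a2 := norm_add_le (f z - σ) σ
    rw [sub_add_cancel, Complex.norm_real, Real.norm_eq_abs] at a2
    have a3 := hj.pos hf.toHol
    nlinarith
  refine ⟨max R (max (25 * Λ + |σ|) (25 * Λ' + |σ'|)), fun x hx y hy => ?_⟩
  have hz := add_mul_I_mem_H x hy.1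
  set z : ℂ := x + y * I with hzdef
  have zre : z.re = x := by simp [hzdef]
  have zim : z.im = y := by simp [hzdef]
  by_cases hn : NotAbove Q z
  · have h1 : s < z.re := by
      rw [zre]
      refine lt_of_le_of_ne hx.1 fun h => ?_
      have := hn 0 (by simp [hQ.zero, zre, h])
      simp [hQ.zero, zim] at this
      linarith [hy.1]
    have h2 : z.re < s' := by
      rw [zre]
      refine lt_of_le_of_ne hx.2 fun h => ?_
      have := hn 1 (by simp [hQ.one, zre, h])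
      simp [hQ.one, zim] at this
      linarith [hy.1]
    have h3 := image_mem_Rin hQ hΓ hf hc hl e (hQ.mem_Rin hz hn h1 h2)
    refine le_trans ?_ (le_max_left _ _)
    by_contra hh
    exact disjoint_left.1 (disjoint_Rin_Rout Γ σ σ') h3 (hR _ h3.1 (not_le.1 hh))
  · simp only [NotAbove, not_forall, not_lt] at hn
    obtain ⟨t, ht1, ht2⟩ := hn
    have hd : ‖z - Q t‖ ≤ z.im := by
      refine (Complex.norm_le_abs_re_add_abs_im _).trans ?_
      simp only [sub_re, ht1, sub_self, abs_zero, sub_im, zero_add]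
      rw [abs_of_nonneg (by linarith)]
      linarith [hQ.im_nonneg t]
    have hst : ‖Q t - s‖ ≤ 4 * (Q t).im ∨ ‖Q t - s'‖ ≤ 4 * (Q t).im := by
      by_cases h0 : t = 0
      · left; simp [h0, hQ.zero]
      by_cases h1 : t = 1
      · right; simp [h1, hQ.one]
      exact hQ.stolz t h0 h1
    refine le_trans ?_ (le_max_right _ _)
    rcases hst with h | h
    · refine le_trans (near hj z hz (zim ▸ hy.2) ?_) (le_max_left _ _)
      have := norm_sub_le_norm_sub_add_norm_sub z (Q t) s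
      linarith
    · refine le_trans (near hj' z hz (zim ▸ hy.2) ?_) (le_max_right _ _)
      have := norm_sub_le_norm_sub_add_norm_sub z (Q t) s'
      linarith

/-- The imaginary part tends to zero along verticals over an interval. -/
def RealOn (f : ℂ → ℂ) (x₁ x₂ : ℝ) : Prop :=
  ∀ x ∈ Ioo x₁ x₂, Tendsto (fun y : ℝ => (f (x + y * I)).im) (𝓝[>] 0) (𝓝 0)

lemma RealOn.of_le {f g : ℂ → ℂ} {x₁ x₂ : ℝ} (h : RealOn f x₁ x₂) (hg : Hol g)
    (hle : ∀ z ∈ H, (g z).im ≤ (f z).im) : RealOn g x₁ x₂ := fun x hx =>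
  squeeze_zero' (eventually_nhdsWithin_of_forall fun _ hy =>
    le_of_lt (hg.maps (add_mul_I_mem_H x hy)))
    (eventually_nhdsWithin_of_forall fun _ hy => hle _ (add_mul_I_mem_H x hy)) (h x hx)

/-- Gap inequality. -/
lemma gap_le {f : ℂ → ℂ} (hf : Univ f) {c s s' σ σ' Λ Λ' : ℝ} (hc : 0 < c) (hl : Low f c)
    (hs : s < s') (hj : Julia f s σ Λ) (hj' : Julia f s' σ' Λ') (hr : RealOn f s s') :
    c * (s' - s) ≤ σ' - σ := by
  obtain ⟨M, hM⟩ := bounded_between hf hc hl hs hj hj'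
  have hΛ := hj.pos hf.toHol
  have hΛ' := hj'.pos hf.toHol
  have key : ∀ δ ∈ Ioc (0 : ℝ) 1, c * (s' - s) ≤ σ' - σ + (Λ + Λ') * δ := by
    intro δ hδ
    have h1 := rect_ineq hf.diff hs.le hδ.1 (M := M) (η := σ' - σ + (Λ + Λ') * δ)
      (fun x hx y hy => (Complex.abs_im_le_norm _).trans (hM x hx y ⟨hy.1, hy.2.trans hδ.2⟩)) hr
      (fun y hy => by
        have a1 := (Complex.abs_re_le_norm _).trans (hj.vertical hf.toHol hy.1)
        have a2 := (Complex.abs_re_le_norm _).trans (hj'.vertical hf.toHol hy.1)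
        rw [sub_re, ofReal_re, abs_le] at a1 a2
        nlinarith [hy.2, a1.1, a2.2])
    have h2 := intervalIntegral.integral_mono_on hs.le (intervalIntegrable_const (c := c * δ))
      ((Complex.continuous_im.comp (continuous_horizontal hf.toHol.cont hδ.1)).intervalIntegrable
        (μ := MeasureTheory.volume) s s')
      fun x _ => by simpa using hl _ (add_mul_I_mem_H x hδ.1)
    simp only [intervalIntegral.integral_const, smul_eq_mul, comp_def] at h2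
    have h3 : (c * (s' - s)) * δ ≤ (σ' - σ + (Λ + Λ') * δ) * δ := by linarith
    exact le_of_mul_le_mul_right h3 hδ.1
  have t : Tendsto (fun δ : ℝ => σ' - σ + (Λ + Λ') * δ) (𝓝[>] 0) (𝓝 (σ' - σ + (Λ + Λ') * 0)) :=
    Tendsto.mono_left (Continuous.tendsto (by fun_prop) 0) nhdsWithin_le_nhds
  simp only [mul_zero, add_zero] at t
  exact ge_of_tendsto t (mem_of_superset (Ioc_mem_nhdsGT one_pos) key)

lemma tendsto_vertical_real (x : ℝ) :
    Tendsto (fun y : ℝ => (x : ℂ) + y * I) (𝓝[>] 0) (𝓝 (x : ℂ)) := by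
  apply Tendsto.mono_left _ nhdsWithin_le_nhds
  have : Continuous fun y : ℝ => (x : ℂ) + y * I := by fun_prop
  simpa using this.tendsto 0

/-- A bounded vertical on which the imaginary part does not tend to zero has a limit point
in the half-plane. -/
lemma exists_cluster {f : ℂ → ℂ} (hf : Hol f) {x M : ℝ}
    (hM : ∀ y ∈ Ioc (0 : ℝ) 1, ‖f (x + y * I)‖ ≤ M)
    (hn : ¬ Tendsto (fun y : ℝ => (f (x + y * I)).im) (𝓝[>] 0) (𝓝 0)) :
    ∃ (𝒰 : Ultrafilter ℝ) (a : ℂ), (𝒰 : Filter ℝ) ≤ 𝓝[>] 0 ∧ a ∈ H ∧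
      Tendsto (fun y : ℝ => f (x + y * I)) 𝒰 (𝓝 a) := by
  rw [tendsto_iff_ultrafilter] at hn
  push Not at hn
  obtain ⟨𝒰, h𝒰, hn⟩ := hn
  obtain ⟨a, ha⟩ := exists_tendsto_of_bounded 𝒰 (a := fun y : ℝ => f (x + y * I)) (M := M)
    (h𝒰 (mem_of_superset (Ioc_mem_nhdsGT one_pos) hM))
  have h1 := (Complex.continuous_im.tendsto _).comp ha
  refine ⟨𝒰, a, h𝒰, mem_H.2 (lt_of_le_of_ne ?_ fun e => hn ?_), ha⟩
  · exact ge_of_tendsto h1 (h𝒰 (eventually_nhdsWithin_of_forall fun y hy =>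
      le_of_lt (hf.maps (add_mul_I_mem_H x hy))))
  · rw [e]; exact h1

lemma limit_notMem_image {f : ℂ → ℂ} (hf : Univ f) {x : ℝ} {𝒰 : Ultrafilter ℝ} {a : ℂ}
    (h𝒰 : (𝒰 : Filter ℝ) ≤ 𝓝[>] 0) (ha : Tendsto (fun y : ℝ => f (x + y * I)) 𝒰 (𝓝 a)) :
    a ∉ f '' H ∧ a ∈ closure (f '' H) := by
  have hev : ∀ᶠ y : ℝ in 𝒰, (x : ℂ) + y * I ∈ H :=
    h𝒰 (eventually_nhdsWithin_of_forall fun y hy => add_mul_I_mem_H x hy)
  refine ⟨?_, mem_closure_of_tendsto ha (hev.mono fun y hy => ⟨_, hy, rfl⟩)⟩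
  rintro ⟨z, hz, rfl⟩
  have h1 := tendsto_of_tendsto_image isOpen_H hf.diff hf.inj hev hz ha
  have h2 := tendsto_nhds_unique h1 ((tendsto_vertical_real x).mono_left h𝒰)
  rw [h2] at hz
  simp [mem_H] at hz

/-- The inner factor of an enlargement inside `R` is real away from `R`. -/
lemma tendsto_im_factor {g ψ h : ℂ → ℂ} (hg : Univ g) (hψ : Univ ψ) (hh : Univ h)
    (e : ∀ z ∈ H, ψ (h z) = g z) {R : Set ℂ} (hR : IsOpen R) (hsub : ψ '' H ⊆ g '' H ∪ R)
    {x M : ℝ} (hM : ∀ y ∈ Ioc (0 : ℝ) 1, ‖h (x + y * I)‖ ≤ M)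
    (hev : ∀ᶠ y : ℝ in 𝓝[>] 0, g (x + y * I) ∉ R) :
    Tendsto (fun y : ℝ => (h (x + y * I)).im) (𝓝[>] 0) (𝓝 0) := by
  by_contra hn
  obtain ⟨𝒰, w, h𝒰, hw, ht⟩ := exists_cluster hh.toHol hM hn
  have h1 : Tendsto (fun y : ℝ => g (x + y * I)) 𝒰 (𝓝 (ψ w)) := by
    apply ((hψ.toHol.contAt hw).tendsto.comp ht).congr'
    exact h𝒰 (eventually_nhdsWithin_of_forall fun y hy => e _ (add_mul_I_mem_H x hy))
  have h2 := (hsub ⟨w, hw, rfl⟩).resolve_left (limit_notMem_image hg h𝒰 h1).1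
  obtain ⟨y, hy1, hy2⟩ := ((h1.eventually (hR.mem_nhds h2)).and (h𝒰 hev)).exists
  exact hy2 hy1

end Pool.Agent.MP_1a2790_an
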