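import Mathlib

/-! Upper half-plane, holomorphic self-maps, Schwarz-Pick inequality. -/

open Complex Set Filter Topology Metric
open scoped ComplexConjugate

namespace Pool.Agent.MP_1a2790_an

/-- The open upper half-plane. -/
def H : Set ℂ := {z | 0 < z.im}

lemma mem_H {z : ℂ} : z ∈ H ↔ 0 < z.im := Iff.rfl

lemma isOpen_H : IsOpen H := isOpen_lt continuous_const Complex.continuous_im

lemma convex_H : Convex ℝ H := convex_halfSpace_im_gt 0

lemma isPreconnected_H : IsPreconnected H := convex_H.isPreconnected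

lemma I_mem_H : I ∈ H := by simp [mem_H]

lemma H_mem_nhds {z : ℂ} (hz : z ∈ H) : H ∈ 𝓝 z := isOpen_H.mem_nhds hz

lemma add_mul_I_mem_H (x : ℝ) {y : ℝ} (hy : 0 < y) : (x : ℂ) + y * I ∈ H := by
  simpa [mem_H] using hy

lemma mul_I_mem_H {y : ℝ} (hy : 0 < y) : (y : ℂ) * I ∈ H := by
  simpa [mem_H] using hy

/-- Holomorphic self-map of the half-plane. -/
structure Hol (f : ℂ → ℂ) : Prop where
  diff : DifferentiableOn ℂ f H
  maps : MapsTo f H H

/-- Univalent self-map of the half-plane. -/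
structure Univ (f : ℂ → ℂ) : Prop extends Hol f where
  inj : InjOn f H

lemma Hol.cont {f : ℂ → ℂ} (hf : Hol f) : ContinuousOn f H := hf.diff.continuousOn

lemma Hol.diffAt {f : ℂ → ℂ} (hf : Hol f) {z : ℂ} (hz : z ∈ H) : DifferentiableAt ℂ f z :=
  hf.diff.differentiableAt (H_mem_nhds hz)

lemma Hol.contAt {f : ℂ → ℂ} (hf : Hol f) {z : ℂ} (hz : z ∈ H) : ContinuousAt f z :=
  (hf.diffAt hz).continuousAt

lemma Hol.comp {f g : ℂ → ℂ} (hf : Hol f) (hg : Hol g) : Hol (fun z => f (g z)) :=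
  ⟨hf.diff.comp hg.diff hg.maps, hf.maps.comp hg.maps⟩

lemma Univ.comp {f g : ℂ → ℂ} (hf : Univ f) (hg : Univ g) : Univ (fun z => f (g z)) :=
  ⟨hf.toHol.comp hg.toHol, hf.inj.comp hg.inj hg.maps⟩

lemma Hol.congr {f g : ℂ → ℂ} (hf : Hol f) (h : ∀ z ∈ H, g z = f z) : Hol g :=
  ⟨hf.diff.congr h, fun z hz => by rw [h z hz]; exact hf.maps hz⟩

lemma Univ.congr {f g : ℂ → ℂ} (hf : Univ f) (h : ∀ z ∈ H, g z = f z) : Univ g :=
  ⟨hf.toHol.congr h, fun z hz w hw e => hf.inj hz hw (by rw [← h z hz, ← h w hw]; exact e)⟩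

lemma univ_id : Univ (fun z => z) := ⟨⟨differentiableOn_id, fun _ h => h⟩, fun _ _ _ _ h => h⟩

lemma univ_affine {a : ℝ} (ha : 0 < a) (b : ℝ) : Univ (fun z => (a : ℂ) * z + b) := by
  refine ⟨⟨by fun_prop, fun z hz => ?_⟩, fun z _ w _ e => ?_⟩
  · have : 0 < z.im := hz
    simp only [mem_H, add_im, mul_im, ofReal_re, ofReal_im, zero_mul, add_zero]
    positivity
  · have : (a : ℂ) ≠ 0 := by exact_mod_cast ha.ne'
    have e' : (a : ℂ) * z = a * w := by simpa using e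
    exact mul_left_cancel₀ this e'

lemma norm_sub_conj_sq (a b : ℂ) : ‖a - conj b‖ ^ 2 = ‖a - b‖ ^ 2 + 4 * a.im * b.im := by
  simp only [Complex.sq_norm, normSq_apply, sub_re, sub_im, conj_re, conj_im]
  ring

lemma sub_conj_ne_zero {a b : ℂ} (ha : a ∈ H) (hb : b ∈ H) : a - conj b ≠ 0 := by
  intro h
  have := congrArg Complex.im h
  have h1 : 0 < a.im := ha
  have h2 : 0 < b.im := hb
  simp at this
  linarith

/-- Cayley map centred at `w`. -/
noncomputable def cay (w z : ℂ) : ℂ := (z - w) / (z - conj w)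

/-- Its inverse. -/
noncomputable def cayInv (w u : ℂ) : ℂ := (w - conj w * u) / (1 - u)

lemma norm_cay_lt {w z : ℂ} (hw : w ∈ H) (hz : z ∈ H) : ‖cay w z‖ < 1 := by
  have h0 := sub_conj_ne_zero hz hw
  have h1 : 0 < z.im := hz
  have h2 : 0 < w.im := hw
  rw [cay, norm_div, div_lt_one (norm_pos_iff.2 h0)]
  have := norm_sub_conj_sq z w
  have h3 : 0 < 4 * z.im * w.im := by positivity
  exact lt_of_pow_lt_pow_left₀ 2 (norm_nonneg _) (by linarith)

lemma one_sub_ne_zero_of_norm_lt {u : ℂ} (hu : ‖u‖ < 1) : 1 - u ≠ 0 := by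
  intro h
  have : u = 1 := by linear_combination -h
  simp [this] at hu

lemma im_cayInv {w u : ℂ} (hu : ‖u‖ < 1) :
    (cayInv w u).im = w.im * (1 - ‖u‖ ^ 2) / ‖1 - u‖ ^ 2 := by
  have h0 := one_sub_ne_zero_of_norm_lt hu
  have h1 : normSq (1 - u) ≠ 0 := by simpa using h0
  rw [cayInv, Complex.div_im, Complex.sq_norm, Complex.sq_norm]
  field_simp
  simp only [normSq_apply, sub_re, sub_im, mul_re, mul_im, conj_re, conj_im, one_re, one_im]
  ring

lemma cayInv_mem_H {w u : ℂ} (hw : w ∈ H) (hu : ‖u‖ < 1) : cayInv w u ∈ H := by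
  rw [mem_H, im_cayInv hu]
  have h0 := one_sub_ne_zero_of_norm_lt hu
  have h2 : 0 < w.im := hw
  have h3 : 0 < 1 - ‖u‖ ^ 2 := by nlinarith [norm_nonneg u]
  have h4 : 0 < ‖1 - u‖ := norm_pos_iff.2 h0
  positivity

lemma cayInv_cay {w z : ℂ} (hw : w ∈ H) (hz : z ∈ H) : cayInv w (cay w z) = z := by
  have h0 := sub_conj_ne_zero hz hw
  have h1 := sub_conj_ne_zero hw hw
  have h2 := one_sub_ne_zero_of_norm_lt (norm_cay_lt hw hz)
  rw [cayInv, div_eq_iff h2, cay]
  field_simp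
  ring

lemma cay_cayInv {w u : ℂ} (hw : w ∈ H) (hu : ‖u‖ < 1) : cay w (cayInv w u) = u := by
  have h0 := one_sub_ne_zero_of_norm_lt hu
  have h1 := sub_conj_ne_zero hw hw
  have h2 := sub_conj_ne_zero (cayInv_mem_H hw hu) hw
  rw [cay, div_eq_iff h2, cayInv]
  field_simp
  ring

lemma differentiableOn_cay {w : ℂ} (hw : w ∈ H) : DifferentiableOn ℂ (cay w) H := by
  unfold cay
  exact DifferentiableOn.div (by fun_prop) (by fun_prop) fun z hz => sub_conj_ne_zero hz hw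

lemma differentiableOn_cayInv (w : ℂ) : DifferentiableOn ℂ (cayInv w) (ball 0 1) := by
  unfold cayInv
  exact DifferentiableOn.div (by fun_prop) (by fun_prop) fun z hz =>
    one_sub_ne_zero_of_norm_lt (by simpa using hz)

lemma mapsTo_cay {w : ℂ} (hw : w ∈ H) : MapsTo (cay w) H (ball 0 1) := fun z hz => by
  simpa using norm_cay_lt hw hz

lemma mapsTo_cayInv {w : ℂ} (hw : w ∈ H) : MapsTo (cayInv w) (ball 0 1) H := fun z hz =>
  cayInv_mem_H hw (by simpa using hz)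

lemma cay_self (w : ℂ) : cay w w = 0 := by simp [cay]

lemma cayInv_zero (w : ℂ) : cayInv w 0 = w := by simp [cayInv]

/-- Schwarz-Pick inequality for self-maps of the half-plane. -/
lemma Hol.schwarzPick {f : ℂ → ℂ} (hf : Hol f) {z w : ℂ} (hz : z ∈ H) (hw : w ∈ H) :
    ‖f z - f w‖ ^ 2 * (z.im * w.im) ≤ ‖z - w‖ ^ 2 * ((f z).im * (f w).im) := by
  have hfw := hf.maps hw
  have hfz := hf.maps hz
  set g : ℂ → ℂ := fun u => cay (f w) (f (cayInv w u)) with hg
  have hgd : DifferentiableOn ℂ g (ball 0 1) :=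
    (differentiableOn_cay hfw).comp (hf.diff.comp (differentiableOn_cayInv w) (mapsTo_cayInv hw))
      (hf.maps.comp (mapsTo_cayInv hw))
  have hgm : MapsTo g (ball 0 1) (closedBall 0 1) := fun u hu =>
    ball_subset_closedBall (mapsTo_cay hfw (hf.maps (mapsTo_cayInv hw hu)))
  have hg0 : g 0 = 0 := by simp [hg, cayInv_zero, cay_self]
  have key := Complex.norm_le_norm_of_mapsTo_ball hgd hgm hg0 (norm_cay_lt hw hz)
  simp only [hg, cayInv_cay hw hz] at key
  simp only [cay, norm_div] at key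
  have h0 := norm_pos_iff.2 (sub_conj_ne_zero hz hw)
  have h1 := norm_pos_iff.2 (sub_conj_ne_zero hfz hfw)
  rw [div_le_div_iff₀ h1 h0] at key
  have key2 : (‖f z - f w‖ * ‖z - conj w‖) ^ 2 ≤ (‖z - w‖ * ‖f z - conj (f w)‖) ^ 2 :=
    pow_le_pow_left₀ (by positivity) key 2
  rw [mul_pow, mul_pow, norm_sub_conj_sq, norm_sub_conj_sq] at key2
  nlinarith

/-- Schwarz-Pick inequality for maps to the closed half-plane. -/
lemma schwarzPick_closed {p : ℂ → ℂ} (hp : DifferentiableOn ℂ p H) (h0 : ∀ z ∈ H, 0 ≤ (p z).im)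
    {z w : ℂ} (hz : z ∈ H) (hw : w ∈ H) :
    ‖p z - p w‖ ^ 2 * (z.im * w.im) ≤ ‖z - w‖ ^ 2 * ((p z).im * (p w).im) := by
  have key : ∀ ε : ℝ, 0 < ε → ‖p z - p w‖ ^ 2 * (z.im * w.im) ≤
      ‖z - w‖ ^ 2 * (((p z).im + ε) * ((p w).im + ε)) := by
    intro ε hε
    have hf : Hol (fun z => p z + ε * I) :=
      ⟨hp.add_const _, fun u hu => by
        have := h0 u hu
        simp only [mem_H, add_im, mul_im, ofReal_re, I_im, mul_one, ofReal_im, I_re, mul_zero,
          add_zero]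
        linarith⟩
    simpa using hf.schwarzPick hz hw
  have hc : Tendsto (fun ε : ℝ => ‖z - w‖ ^ 2 * (((p z).im + ε) * ((p w).im + ε))) (𝓝[>] 0)
      (𝓝 (‖z - w‖ ^ 2 * (((p z).im + 0) * ((p w).im + 0)))) := by
    apply Tendsto.mono_left _ nhdsWithin_le_nhds
    exact Continuous.tendsto (by fun_prop) 0
  simp only [add_zero] at hc
  exact ge_of_tendsto hc (eventually_nhdsWithin_of_forall key)

/-- Conjugate form. -/
lemma schwarzPick_closed_conj {p : ℂ → ℂ} (hp : DifferentiableOn ℂ p H)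
    (h0 : ∀ z ∈ H, 0 ≤ (p z).im) {z w : ℂ} (hz : z ∈ H) (hw : w ∈ H) :
    ‖p z - conj (p w)‖ ^ 2 * (z.im * w.im) ≤ ‖z - conj w‖ ^ 2 * ((p z).im * (p w).im) := by
  have := schwarzPick_closed hp h0 hz hw
  rw [norm_sub_conj_sq, norm_sub_conj_sq]
  nlinarith

lemma im_le_norm_sub_conj {a b : ℂ} (hb : 0 ≤ b.im) : a.im ≤ ‖a - conj b‖ := by
  have := Complex.im_le_norm (a - conj b)
  simp at this
  linarith

lemma im_le_norm_sub_conj' {a b : ℂ} (ha : 0 ≤ a.im) : b.im ≤ ‖a - conj b‖ := by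
  have := Complex.im_le_norm (a - conj b)
  simp at this
  linarith

/-- Growth bound. -/
lemma norm_sub_conj_le {p : ℂ → ℂ} (hp : DifferentiableOn ℂ p H)
    (h0 : ∀ z ∈ H, 0 ≤ (p z).im) {z w : ℂ} (hz : z ∈ H) (hw : w ∈ H) :
    ‖p z - conj (p w)‖ * (z.im * w.im) ≤ ‖z - conj w‖ ^ 2 * (p w).im := by
  have h := schwarzPick_closed_conj hp h0 hz hw
  have h1 : (p z).im ≤ ‖p z - conj (p w)‖ := im_le_norm_sub_conj (h0 w hw)
  have hz' : 0 < z.im := hz
  have hw' : 0 < w.im := hw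
  have h2 := h0 w hw
  rcases (norm_nonneg (p z - conj (p w))).eq_or_lt with h3 | h3
  · rw [← h3, zero_mul]; positivity
  · have : ‖p z - conj (p w)‖ * (‖p z - conj (p w)‖ * (z.im * w.im)) ≤
        ‖p z - conj (p w)‖ * (‖z - conj w‖ ^ 2 * (p w).im) := by
      have : ‖z - conj w‖ ^ 2 * ((p z).im * (p w).im) ≤
          ‖z - conj w‖ ^ 2 * (‖p z - conj (p w)‖ * (p w).im) := by gcongr
      nlinarith
    exact le_of_mul_le_mul_left this h3

/-- Harnack lower bound. -/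
lemma harnack_lower {p : ℂ → ℂ} (hp : DifferentiableOn ℂ p H)
    (h0 : ∀ z ∈ H, 0 ≤ (p z).im) {z w : ℂ} (hz : z ∈ H) (hw : w ∈ H) :
    (p w).im * (z.im * w.im) ≤ ‖z - conj w‖ ^ 2 * (p z).im := by
  have h := norm_sub_conj_le hp h0 hw hz
  have h1 : (p w).im ≤ ‖p w - conj (p z)‖ := im_le_norm_sub_conj (h0 z hz)
  have hz' : 0 < z.im := hz
  have hw' : 0 < w.im := hw
  have e : ‖w - conj z‖ = ‖z - conj w‖ := by
    rw [← Complex.norm_conj, ← norm_neg]; simp
  rw [e] at h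
  have : (p w).im * (w.im * z.im) ≤ ‖p w - conj (p z)‖ * (w.im * z.im) := by gcongr
  nlinarith

/-- If the imaginary part vanishes somewhere, the function is constant. -/
lemma const_of_im_eq_zero {p : ℂ → ℂ} (hp : DifferentiableOn ℂ p H)
    (h0 : ∀ z ∈ H, 0 ≤ (p z).im) {w : ℂ} (hw : w ∈ H) (h : (p w).im = 0) {z : ℂ} (hz : z ∈ H) :
    p z = p w := by
  have h1 := schwarzPick_closed hp h0 hz hw
  rw [h] at h1
  have hz' : 0 < z.im := hz
  have hw' : 0 < w.im := hw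
  have h2 : 0 < z.im * w.im := by positivity
  have h3 : ‖p z - p w‖ ^ 2 ≤ 0 := by
    by_contra hh
    push Not at hh
    nlinarith [mul_pos hh h2]
  have : ‖p z - p w‖ = 0 := by nlinarith [norm_nonneg (p z - p w)]
  exact sub_eq_zero.1 (norm_eq_zero.1 this)

end Pool.Agent.MP_1a2790_an
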