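import Mathlib

/-! Maximal chains of a dense and closed preorder can be parametrised by an interval. -/

open Set Filter Topology

namespace Pool.Agent.MP_1a2790_an

theorem exists_param {X : Type*} (r : X → X → Prop) (T : X → ℝ) (bot top : X)
    (refl : ∀ x, r x x) (trans : ∀ x y z, r x y → r y z → r x z) (hb : ∀ x, r bot x)
    (ht : ∀ x, r x top) (rig : ∀ x y, r x y → T y ≤ T x → r y x)
    (dense : ∀ x y, r x y → T x < T y → ∃ z, r x z ∧ r z y ∧ T x < T z ∧ T z < T y)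
    (closed : ∀ (𝒰 : Ultrafilter ℕ) (x : ℕ → X), ∃ x₀, Tendsto (fun n => T (x n)) 𝒰 (𝓝 (T x₀)) ∧
      (∀ y, (∀ᶠ n in 𝒰, r y (x n)) → r y x₀) ∧ ∀ y, (∀ᶠ n in 𝒰, r (x n) y) → r x₀ y) :
    ∃ γ : ℝ → X, (∀ t ∈ Icc (T bot) (T top), T (γ t) = t) ∧
      ∀ s ∈ Icc (T bot) (T top), ∀ t ∈ Icc (T bot) (T top), s ≤ t → r (γ s) (γ t) := by
  have hmax := maxChain_spec (r := r)
  set C := maxChain r with hC
  have hcomp : ∀ x ∈ C, ∀ y ∈ C, r x y ∨ r y x := fun x hx y hy => by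
    by_cases e : x = y
    · exact Or.inl (e ▸ refl x)
    · exact hmax.isChain hx hy e
  have hins : ∀ z, (∀ x ∈ C, r z x ∨ r x z) → z ∈ C := fun z hz => by
    have := hmax.2 (hmax.isChain.insert fun b hb _ => hz b hb) (subset_insert z C)
    rw [this]
    exact mem_insert _ _
  have hle : ∀ x ∈ C, ∀ y ∈ C, T x ≤ T y → r x y := fun x hx y hy h =>
    (hcomp x hx y hy).elim id fun h' => rig y x h' h
  have hbC : bot ∈ C := hins _ fun x _ => Or.inl (hb x)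
  have htC : top ∈ C := hins _ fun x _ => Or.inr (ht x)
  have hcl : IsClosed (T '' C) := by
    refine isClosed_of_closure_subset fun t htc => ?_
    obtain ⟨u, hu, hut⟩ := mem_closure_iff_seq_limit.1 htc
    choose x hx hxu using hu
    let 𝒰 : Ultrafilter ℕ := Ultrafilter.of atTop
    have h𝒰 : (𝒰 : Filter ℕ) ≤ atTop := Ultrafilter.of_le _
    obtain ⟨x₀, h1, h2, h3⟩ := closed 𝒰 x
    refine ⟨x₀, hins _ fun y hy => ?_, tendsto_nhds_unique h1 ?_⟩
    · have : ∀ᶠ n in 𝒰, r (x n) y ∨ r y (x n) := Eventually.of_forall fun n => hcomp _ (hx n) _ hy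
      exact (Ultrafilter.eventually_or.1 this).imp (h3 y) (h2 y)
    · simp only [hxu]
      exact hut.mono_left h𝒰
  have hsurj : ∀ t ∈ Icc (T bot) (T top), t ∈ T '' C := fun t htI => by
    by_contra hn
    have hA : IsClosed (T '' C ∩ Iic t) := hcl.inter isClosed_Iic
    have hB : IsClosed (T '' C ∩ Ici t) := hcl.inter isClosed_Ici
    obtain ⟨⟨x, hx, ex⟩, hxt⟩ := hA.csSup_mem ⟨_, ⟨bot, hbC, rfl⟩, htI.1⟩ ⟨t, fun _ h => h.2⟩
    obtain ⟨⟨y, hy, ey⟩, hyt⟩ := hB.csInf_mem ⟨_, ⟨top, htC, rfl⟩, htI.2⟩ ⟨t, fun _ h => h.2⟩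
    have hxmax : ∀ w ∈ C, T w ≤ t → T w ≤ T x := fun w hw h => by
      rw [ex]
      exact le_csSup ⟨t, fun _ h => h.2⟩ ⟨⟨w, hw, rfl⟩, h⟩
    have hymin : ∀ w ∈ C, t ≤ T w → T y ≤ T w := fun w hw h => by
      rw [ey]
      exact csInf_le ⟨t, fun _ h => h.2⟩ ⟨⟨w, hw, rfl⟩, h⟩
    rw [← ex] at hxt
    rw [← ey] at hyt
    have h1 : T x < t := lt_of_le_of_ne hxt fun e => hn ⟨x, hx, e⟩
    have h2 : t < T y := lt_of_le_of_ne hyt fun e => hn ⟨y, hy, e.symm⟩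
    obtain ⟨z, z1, z2, z3, z4⟩ := dense x y (hle x hx y hy (by linarith)) (by linarith)
    have hz : z ∈ C := hins z fun w hw => by
      rcases le_total (T w) t with h | h
      · exact Or.inr (trans _ _ _ (hle w hw x hx (hxmax w hw h)) z1)
      · exact Or.inl (trans _ _ _ z2 (hle y hy w hw (hymin w hw h)))
    rcases le_total (T z) t with h | h
    · linarith [hxmax z hz h]
    · linarith [hymin z hz h]
  have : ∀ t, ∃ x, t ∈ Icc (T bot) (T top) → x ∈ C ∧ T x = t := fun t => by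
    by_cases h : t ∈ Icc (T bot) (T top)
    · obtain ⟨x, hx⟩ := hsurj t h
      exact ⟨x, fun _ => hx⟩
    · exact ⟨bot, fun h' => (h h').elim⟩
  choose γ hγ using this
  exact ⟨γ, fun t h => (hγ t h).2, fun s hs t ht hst =>
    hle _ (hγ s hs).1 _ (hγ t ht).1 (by rw [(hγ s hs).2, (hγ t ht).2]; exact hst)⟩

end Pool.Agent.MP_1a2790_an
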