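import Mathlib

/-! Definitions used in the statement (problem MP_1a2790_an). Maps of the unit disc are functions
`ℂ → ℂ` of which only the values on `Metric.ball 0 1` matter. -/

open Set Filter Topology Metric

namespace Pool.Agent.MP_1a2790_an

/-- `f z → w` as `z → σ` inside every Stolz region `‖σ - z‖ ≤ K (1 - ‖z‖)` of the disc. -/
def HasAngularLimit (f : ℂ → ℂ) (σ w : ℂ) : Prop :=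
  ∀ K : ℝ, Tendsto f (𝓝[{z | ‖z‖ < 1 ∧ ‖σ - z‖ ≤ K * (1 - ‖z‖)}] σ) (𝓝 w)

/-- `σ` is a boundary regular fixed point of `φ` with (finite) angular derivative `d`. -/
def IsBRFPWithDeriv (φ : ℂ → ℂ) (σ d : ℂ) : Prop :=
  ‖σ‖ = 1 ∧ HasAngularLimit φ σ σ ∧ HasAngularLimit (fun z => (φ z - σ) / (z - σ)) σ d

/-- `τ` is the Denjoy-Wolff point of `φ`. -/
def IsDenjoyWolff (φ : ℂ → ℂ) (τ : ℂ) : Prop :=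
  (‖τ‖ < 1 ∧ φ τ = τ) ∨
    ((∀ z, ‖z‖ < 1 → φ z ≠ z) ∧ ∃ d : ℝ, d ≤ 1 ∧ IsBRFPWithDeriv φ τ d)

/-- The semigroup `𝔘[F]`. -/
def UF (F : Set ℂ) : Set (ℂ → ℂ) :=
  {φ | DifferentiableOn ℂ φ (ball 0 1) ∧ InjOn φ (ball 0 1) ∧ MapsTo φ (ball 0 1) (ball 0 1) ∧
    ∀ σ ∈ F, ∃ d, IsBRFPWithDeriv φ σ d}

/-- The semigroup `𝔘_τ[F]`. -/
def UtauF (τ : ℂ) (F : Set ℂ) : Set (ℂ → ℂ) :=
  {φ | EqOn φ id (ball 0 1) ∨ (φ ∈ UF F ∧ ¬ EqOn φ id (ball 0 1) ∧ IsDenjoyWolff φ τ)}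

/-- Evolution families. -/
def IsEvolutionFamily (ψ : ℝ → ℝ → ℂ → ℂ) : Prop :=
  (∀ s t, 0 ≤ s → s ≤ t →
    DifferentiableOn ℂ (ψ s t) (ball 0 1) ∧ MapsTo (ψ s t) (ball 0 1) (ball 0 1)) ∧
  (∀ s, 0 ≤ s → EqOn (ψ s s) id (ball 0 1)) ∧
  (∀ s u t, 0 ≤ s → s ≤ u → u ≤ t → EqOn (ψ s t) (ψ u t ∘ ψ s u) (ball 0 1)) ∧
  ∀ z ∈ ball (0 : ℂ) 1, ∀ T > 0, ∃ k : ℝ → ℝ, (∀ ξ, 0 ≤ k ξ) ∧
    MeasureTheory.IntegrableOn k (Icc 0 T) ∧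
    ∀ s u t, 0 ≤ s → s ≤ u → u ≤ t → t ≤ T → ‖ψ s u z - ψ s t z‖ ≤ ∫ ξ in u..t, k ξ

/-- The embedding property. -/
def HasEmbeddingProperty (S : Set (ℂ → ℂ)) : Prop :=
  ∀ φ ∈ S, ¬ EqOn φ id (ball 0 1) → ∃ ψ, IsEvolutionFamily ψ ∧
    (∀ s t, 0 ≤ s → s ≤ t → ψ s t ∈ S) ∧ EqOn (ψ 0 1) φ (ball 0 1)

end Pool.Agent.MP_1a2790_an
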