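import Pool.Agent.MP_1a2790_an.Empty
import Pool.Agent.MP_1a2790_an.Defs

/-! Transfer between the disc and the half-plane. -/

open Complex Set Filter Topology Metric Function
open scoped ComplexConjugate

namespace Pool.Agent.MP_1a2790_an

/-- Cayley map of the disc onto the half-plane sending `τ` to infinity. -/
noncomputable def cy (τ z : ℂ) : ℂ := I * (τ + z) / (τ - z)

/-- Its inverse. -/
noncomputable def yc (τ w : ℂ) : ℂ := τ * (w - I) / (w + I)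

lemma add_I_ne_zero {w : ℂ} (hw : w ∈ H) : w + I ≠ 0 := by
  simpa using sub_conj_ne_zero hw I_mem_H

section
variable {τ : ℂ} (hτ : ‖τ‖ = 1)
include hτ

lemma ne_zero_of_norm_one : τ ≠ 0 := by
  intro h
  simp [h] at hτ

lemma sub_ne_zero_disc {z : ℂ} (hz : ‖z‖ < 1) : τ - z ≠ 0 := by
  intro h
  rw [← sub_eq_zero.1 h, hτ] at hz
  exact lt_irrefl _ hz

lemma im_cy' {z : ℂ} (h0 : τ - z ≠ 0) : (cy τ z).im = (1 - ‖z‖ ^ 2) / ‖τ - z‖ ^ 2 := by
  have h1 : normSq (τ - z) ≠ 0 := by simpa using h0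
  have h2 : τ.re * τ.re + τ.im * τ.im = 1 := by
    rw [← normSq_apply, ← Complex.sq_norm, hτ, one_pow]
  rw [cy, Complex.div_im, Complex.sq_norm, Complex.sq_norm]
  field_simp
  simp only [normSq_apply, sub_re, sub_im, mul_re, mul_im, add_re, add_im, I_re, I_im]
  linear_combination h2

lemma im_cy {z : ℂ} (hz : ‖z‖ < 1) : (cy τ z).im = (1 - ‖z‖ ^ 2) / ‖τ - z‖ ^ 2 :=
  im_cy' hτ (sub_ne_zero_disc hτ hz)

lemma cy_mem_H {z : ℂ} (hz : ‖z‖ < 1) : cy τ z ∈ H := by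
  rw [mem_H, im_cy hτ hz]
  have h3 : 0 < 1 - ‖z‖ ^ 2 := by nlinarith [norm_nonneg z]
  have h4 : 0 < ‖τ - z‖ := norm_pos_iff.2 (sub_ne_zero_disc hτ hz)
  positivity

lemma norm_yc_lt {w : ℂ} (hw : w ∈ H) : ‖yc τ w‖ < 1 := by
  have := norm_cay_lt I_mem_H hw
  rw [yc, mul_div_assoc, norm_mul, hτ, one_mul]
  simpa [cay] using this

lemma cy_add_I {z : ℂ} (hz : ‖z‖ < 1) : cy τ z + I = 2 * I * τ / (τ - z) := by
  have h0 := sub_ne_zero_disc hτ hz
  rw [cy]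
  field_simp
  ring

lemma yc_cy {z : ℂ} (hz : ‖z‖ < 1) : yc τ (cy τ z) = z := by
  have h0 := sub_ne_zero_disc hτ hz
  have h1 := ne_zero_of_norm_one hτ
  rw [yc, cy_add_I hτ hz, cy]
  field_simp
  ring

omit hτ in
lemma sub_yc {w : ℂ} (hw : w ∈ H) : τ - yc τ w = 2 * I * τ / (w + I) := by
  have h0 := add_I_ne_zero hw
  rw [yc]
  field_simp
  ring

lemma cy_yc {w : ℂ} (hw : w ∈ H) : cy τ (yc τ w) = w := by
  have h0 := add_I_ne_zero hw
  have h1 := ne_zero_of_norm_one hτ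
  rw [cy, sub_yc hw, yc]
  field_simp
  ring

lemma differentiableOn_cy : DifferentiableOn ℂ (cy τ) (ball 0 1) := by
  unfold cy
  exact DifferentiableOn.div (by fun_prop) (by fun_prop) fun z hz =>
    sub_ne_zero_disc hτ (by simpa using hz)

omit hτ in
lemma differentiableOn_yc : DifferentiableOn ℂ (yc τ) H := by
  unfold yc
  exact DifferentiableOn.div (by fun_prop) (by fun_prop) fun z hz => add_I_ne_zero hz

lemma mapsTo_cy : MapsTo (cy τ) (ball 0 1) H := fun z hz => cy_mem_H hτ (by simpa using hz)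

lemma mapsTo_yc : MapsTo (yc τ) H (ball 0 1) := fun z hz => by simpa using norm_yc_lt hτ hz

lemma norm_yc_sub_le {a b : ℂ} (ha : a ∈ H) (hb : b ∈ H) : ‖yc τ a - yc τ b‖ ≤ 2 * ‖a - b‖ := by
  have h1 := add_I_ne_zero ha
  have h2 := add_I_ne_zero hb
  have e : yc τ a - yc τ b = 2 * I * τ * (a - b) / ((a + I) * (b + I)) := by
    rw [yc, yc]
    field_simp
    ring
  have k : ∀ w ∈ H, 1 ≤ ‖w + I‖ := fun w hw => by
    have h3 := Complex.im_le_norm (w + I)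
    have h4 : 0 < w.im := hw
    simp only [add_im, I_im] at h3
    linarith
  rw [e, norm_div, norm_mul, norm_mul, norm_mul, norm_mul, hτ, norm_I]
  simp only [Complex.norm_ofNat, mul_one]
  exact div_le_self (by positivity) (one_le_mul_of_one_le_of_one_le (k a ha) (k b hb))

end

/-- The half-plane model of a map of the disc. -/
noncomputable def up (τ : ℂ) (φ : ℂ → ℂ) (w : ℂ) : ℂ := cy τ (φ (yc τ w))

/-- The disc model of a map of the half-plane. -/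
noncomputable def dn (τ : ℂ) (g : ℂ → ℂ) (z : ℂ) : ℂ := yc τ (g (cy τ z))

section
variable {τ : ℂ} (hτ : ‖τ‖ = 1) {φ : ℂ → ℂ} (hd : DifferentiableOn ℂ φ (ball 0 1))
  (hm : MapsTo φ (ball 0 1) (ball 0 1))
include hτ hm

omit hτ in
lemma norm_map_lt {z : ℂ} (hz : ‖z‖ < 1) : ‖φ z‖ < 1 := by
  simpa using hm (by simpa using hz : z ∈ ball (0 : ℂ) 1)

lemma ratio_eq {z : ℂ} (hz : ‖z‖ < 1) :
    (φ z - τ) / (z - τ) = (cy τ z + I) / (up τ φ (cy τ z) + I) := by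
  have h0 := sub_ne_zero_disc hτ hz
  have h1 := ne_zero_of_norm_one hτ
  have h2 := sub_ne_zero_disc hτ (norm_map_lt hm hz)
  have h3 : z - τ ≠ 0 := by rwa [← neg_sub, neg_ne_zero]
  rw [up, yc_cy hτ hz, cy_add_I hτ hz, cy_add_I hτ (norm_map_lt hm hz)]
  field_simp
  ring

include hd

lemma hol_up : Hol (up τ φ) :=
  ⟨(differentiableOn_cy hτ).comp (hd.comp differentiableOn_yc (mapsTo_yc hτ))
    (hm.comp (mapsTo_yc hτ)), (mapsTo_cy hτ).comp (hm.comp (mapsTo_yc hτ))⟩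

lemma univ_up (hi : InjOn φ (ball 0 1)) : Univ (up τ φ) :=
  ⟨hol_up hτ hd hm, fun a ha b hb e => by
    have e1 := congrArg (yc τ) e
    rw [up, up, yc_cy hτ (norm_map_lt hm (norm_yc_lt hτ ha)),
      yc_cy hτ (norm_map_lt hm (norm_yc_lt hτ hb))] at e1
    have e2 := congrArg (cy τ) (hi (mapsTo_yc hτ ha) (mapsTo_yc hτ hb) e1)
    rwa [cy_yc hτ ha, cy_yc hτ hb] at e2⟩

omit hτ hm hd in
lemma tendsto_shift {g : ℂ → ℂ} {ι : Type*} {l : Filter ι} {w : ι → ℂ} {c : ℂ}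
    (hw : ∀ᶠ i in l, w i ∈ H) (hn : Tendsto (fun i => ‖w i‖) l atTop)
    (h : Tendsto (fun i => g (w i) / w i) l (𝓝 c)) :
    Tendsto (fun i => (g (w i) + I) / (w i + I)) l (𝓝 c) := by
  have h0 : Tendsto (fun i => (w i)⁻¹) l (𝓝 0) := by
    rw [tendsto_zero_iff_norm_tendsto_zero]
    simpa [comp_def] using tendsto_inv_atTop_zero.comp hn
  have h1 : Tendsto (fun i => (g (w i) / w i + I * (w i)⁻¹) / (1 + I * (w i)⁻¹)) l
      (𝓝 ((c + I * 0) / (1 + I * 0))) :=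
    (h.add (h0.const_mul _)).div ((h0.const_mul _).const_add _) (by simp)
  simp only [mul_zero, add_zero, div_one] at h1
  apply h1.congr'
  filter_upwards [hw] with i hi
  have a1 := ne_zero_of_mem_H hi
  have a2 := add_I_ne_zero hi
  field_simp

/-- The angular derivative in the disc is the inverse of the one in the half-plane. -/
lemma mul_cInf_eq_one {d : ℂ} (h : HasAngularLimit (fun z => (φ z - τ) / (z - τ)) τ d) :
    d * cInf (up τ φ) = 1 := by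
  have hg := hol_up hτ hd hm
  have hev : ∀ᶠ y : ℝ in atTop, (y : ℂ) * I ∈ H := (eventually_gt_atTop 0).mono fun y => mul_I_mem_H
  have hn : Tendsto (fun y : ℝ => ‖(y : ℂ) * I‖) atTop atTop :=
    tendsto_id.congr' ((eventually_gt_atTop 0).mono fun y hy => (norm_mul_I hy).symm)
  have h1 := tendsto_shift hev hn hg.jwc_vertical
  have hsub : ∀ y : ℝ, 0 < y → ‖τ - yc τ (y * I)‖ = 2 / (y + 1) := fun y hy => by
    rw [sub_yc (mul_I_mem_H hy), norm_div, norm_mul, norm_mul, hτ, norm_I]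
    have : (y : ℂ) * I + I = ((y + 1 : ℝ) : ℂ) * I := by push_cast; ring
    rw [this, norm_mul_I (by linarith)]
    simp
  have h2 : Tendsto (fun y : ℝ => yc τ (y * I)) atTop
      (𝓝[{z | ‖z‖ < 1 ∧ ‖τ - z‖ ≤ 1 * (1 - ‖z‖)}] τ) := by
    refine tendsto_nhdsWithin_iff.2 ⟨?_, ?_⟩
    · rw [tendsto_iff_norm_sub_tendsto_zero]
      apply ((tendsto_atTop_add_const_right _ 1 tendsto_id).const_div_atTop 2).congr'
      filter_upwards [eventually_gt_atTop 0] with y hy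
      rw [norm_sub_rev, hsub y hy]
      rfl
    · filter_upwards [eventually_gt_atTop 1] with y hy
      have hy0 : 0 < y := by linarith
      refine ⟨norm_yc_lt hτ (mul_I_mem_H hy0), ?_⟩
      have a1 : (y : ℂ) * I + I = ((y + 1 : ℝ) : ℂ) * I := by push_cast; ring
      have a2 : (y : ℂ) * I - I = ((y - 1 : ℝ) : ℂ) * I := by push_cast; ring
      rw [hsub y hy0, yc, norm_div, norm_mul, hτ, a1, a2, norm_mul_I (by linarith),
        norm_mul_I (by linarith)]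
      apply le_of_eq
      field_simp
      ring
  have h3 := ((h 1).comp h2).mul h1
  refine tendsto_nhds_unique h3 (tendsto_const_nhds.congr' ?_)
  filter_upwards [hev] with y hy
  have a1 := add_I_ne_zero hy
  have a2 := add_I_ne_zero (hg.maps hy)
  simp only [comp_apply]
  rw [ratio_eq hτ hm (norm_yc_lt hτ hy), cy_yc hτ hy, div_mul_div_cancel₀ a2, div_self a1]

lemma brfp_of_cInf_pos (hc : 0 < cInf (up τ φ)) :
    IsBRFPWithDeriv φ τ ((cInf (up τ φ))⁻¹ : ℝ) := by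
  have hg := hol_up hτ hd hm
  have key : HasAngularLimit (fun z => (φ z - τ) / (z - τ)) τ ((cInf (up τ φ))⁻¹ : ℝ) := by
    intro K
    set l := 𝓝[{z | ‖z‖ < 1 ∧ ‖τ - z‖ ≤ K * (1 - ‖z‖)}] τ with hl
    have hev : ∀ᶠ z in l, ‖z‖ < 1 ∧ ‖τ - z‖ ≤ K * (1 - ‖z‖) := self_mem_nhdsWithin
    have hn0 : Tendsto (fun z => ‖τ - z‖) l (𝓝[>] 0) := by
      refine tendsto_nhdsWithin_iff.2 ⟨?_, hev.mono fun z hz =>
        norm_pos_iff.2 (sub_ne_zero_disc hτ hz.1)⟩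
      have : Continuous fun z : ℂ => ‖τ - z‖ := by fun_prop
      simpa using (this.tendsto τ).mono_left nhdsWithin_le_nhds
    have hn : Tendsto (fun z => ‖cy τ z‖) l atTop := by
      have a1 := tendsto_atTop_add_const_right _ (-1)
        ((tendsto_inv_nhdsGT_zero.comp hn0).const_mul_atTop two_pos)
      refine tendsto_atTop_mono' _ (hev.mono fun z hz => ?_) a1
      have b1 := norm_add_le (cy τ z) I
      rw [cy_add_I hτ hz.1, norm_div, norm_mul, norm_mul, hτ, norm_I] at b1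
      simp only [Complex.norm_ofNat, mul_one] at b1
      simp only [comp_apply]
      rw [← div_eq_mul_inv]
      linarith
    have h1 := hg.jwc_tendsto (l := l) (w := cy τ) (K := 2 * max K 1) (by positivity)
      (hev.mono fun z hz => ⟨cy_mem_H hτ hz.1, by
        have b0 : 0 < ‖τ - z‖ := norm_pos_iff.2 (sub_ne_zero_disc hτ hz.1)
        have b1 : ‖τ + z‖ ≤ 2 := (norm_add_le _ _).trans (by linarith [hz.1])
        have b2 : ‖τ - z‖ ≤ max K 1 * (1 - ‖z‖ ^ 2) := by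
          refine hz.2.trans (mul_le_mul (le_max_left _ _) ?_ (by linarith [hz.1]) (by positivity))
          nlinarith [norm_nonneg z, hz.1]
        rw [im_cy hτ hz.1, cy, norm_div, norm_mul, norm_I, one_mul, ← mul_div_assoc,
          div_le_div_iff₀ b0 (by positivity)]
        calc ‖τ + z‖ * ‖τ - z‖ ^ 2 = ‖τ + z‖ * ‖τ - z‖ * ‖τ - z‖ := by ring
          _ ≤ 2 * (max K 1 * (1 - ‖z‖ ^ 2)) * ‖τ - z‖ := by gcongr
          _ = _ := by ring⟩) hn
    have h2 := (tendsto_shift (hev.mono fun z hz => cy_mem_H hτ hz.1) hn h1).inv₀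
      (by exact_mod_cast hc.ne')
    rw [ofReal_inv]
    apply h2.congr'
    filter_upwards [hev] with z hz
    rw [ratio_eq hτ hm hz.1, inv_div]
  refine ⟨hτ, fun K => ?_, key⟩
  have a1 : Tendsto (fun z => z - τ) (𝓝[{z | ‖z‖ < 1 ∧ ‖τ - z‖ ≤ K * (1 - ‖z‖)}] τ) (𝓝 0) := by
    have : Continuous fun z : ℂ => z - τ := by fun_prop
    simpa using (this.tendsto τ).mono_left nhdsWithin_le_nhds
  have a2 := ((key K).mul a1).add_const τ
  rw [mul_zero, zero_add] at a2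
  apply a2.congr'
  filter_upwards [self_mem_nhdsWithin] with z hz
  have h3 : z - τ ≠ 0 := by
    rw [← neg_sub, neg_ne_zero]
    exact sub_ne_zero_disc hτ hz.1
  field_simp
  ring

lemma cInf_pos_of_brfp {d : ℂ} (h : IsBRFPWithDeriv φ τ d) : 0 < cInf (up τ φ) := by
  refine lt_of_le_of_ne (hol_up hτ hd hm).cInf_nonneg fun e => ?_
  have := mul_cInf_eq_one hτ hd hm h.2.2
  rw [← e] at this
  simp at this

end

lemma im_div_eq {τ σ : ℂ} (hτ : ‖τ‖ = 1) (hσ : ‖σ‖ = 1) (hne : σ ≠ τ) {z : ℂ} (hz : ‖z‖ < 1) :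
    (cy τ z).im * 4 = (cy σ z).im * (‖cy τ z - (cy τ σ).re‖ ^ 2 * ‖τ - σ‖ ^ 2) := by
  have h0 : τ - σ ≠ 0 := sub_ne_zero.2 hne.symm
  have h1 := sub_ne_zero_disc hτ hz
  have h2 := sub_ne_zero_disc hσ hz
  have e1 : ((cy τ σ).re : ℂ) = cy τ σ := by
    apply Complex.ext
    · simp
    · rw [im_cy' hτ h0, hσ]
      simp
  have e2 : cy τ z - cy τ σ = -(2 * I * τ * (σ - z)) / ((τ - z) * (τ - σ)) := by
    rw [cy, cy]
    field_simp
    ring
  rw [e1, e2, im_cy hτ hz, im_cy hσ hz, norm_div, norm_neg, norm_mul, norm_mul, norm_mul, norm_mul,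
    hτ, norm_I]
  have n0 := norm_ne_zero_iff.2 h0
  have n1 := norm_ne_zero_iff.2 h1
  have n2 := norm_ne_zero_iff.2 h2
  simp only [Complex.norm_ofNat]
  field_simp
  norm_num

lemma julia_iff_low {τ σ : ℂ} (hτ : ‖τ‖ = 1) (hσ : ‖σ‖ = 1) (hne : σ ≠ τ) {φ : ℂ → ℂ}
    (hm : MapsTo φ (ball 0 1) (ball 0 1)) {Λ : ℝ} (hΛ : 0 < Λ) :
    Julia (up τ φ) (cy τ σ).re (cy τ σ).re Λ ↔ Low (up σ φ) Λ⁻¹ := by
  have key : ∀ z, ‖z‖ < 1 → ((cy τ z).im * ‖cy τ (φ z) - (cy τ σ).re‖ ^ 2 ≤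
      Λ * ‖cy τ z - (cy τ σ).re‖ ^ 2 * (cy τ (φ z)).im ↔ Λ⁻¹ * (cy σ z).im ≤ (cy σ (φ z)).im) := by
    intro z hz
    have hz' := norm_map_lt hm hz
    have a1 := im_div_eq hτ hσ hne hz
    have a2 := im_div_eq hτ hσ hne hz'
    have p1 : 0 < ‖cy τ z - (cy τ σ).re‖ := norm_pos_iff.2 (sub_real_ne_zero (cy_mem_H hτ hz) _)
    have p2 : 0 < ‖cy τ (φ z) - (cy τ σ).re‖ :=
      norm_pos_iff.2 (sub_real_ne_zero (cy_mem_H hτ hz') _)
    have p3 : 0 < ‖τ - σ‖ := norm_pos_iff.2 (sub_ne_zero.2 hne.symm)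
    rw [inv_mul_le_iff₀ hΛ, ← mul_le_mul_iff_left₀ (show (0 : ℝ) < 4 by norm_num),
      ← mul_le_mul_iff_left₀ (a := ‖cy τ z - (cy τ σ).re‖ ^ 2 * ‖cy τ (φ z) - (cy τ σ).re‖ ^ 2 *
        ‖τ - σ‖ ^ 2) (b := (cy σ z).im) (by positivity)]
    apply Iff.of_eq
    congr 1
    · linear_combination ‖cy τ (φ z) - (cy τ σ).re‖ ^ 2 * a1
    · linear_combination Λ * ‖cy τ z - (cy τ σ).re‖ ^ 2 * a2
  constructor
  · intro h w hw
    have h1 := h _ (cy_mem_H hτ (norm_yc_lt hσ hw))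
    rw [up, yc_cy hτ (norm_yc_lt hσ hw), key _ (norm_yc_lt hσ hw), cy_yc hσ hw] at h1
    exact h1
  · intro h w hw
    have h1 := h _ (cy_mem_H hσ (norm_yc_lt hτ hw))
    rw [up, yc_cy hσ (norm_yc_lt hτ hw), ← key _ (norm_yc_lt hτ hw), cy_yc hτ hw] at h1
    exact h1

theorem embedding (F : Set ℂ) (τ : ℂ) (hF : F.Finite) (hFs : F ⊆ sphere 0 1) (hτ' : τ ∈ sphere 0 1)
    (hτF : τ ∉ F) : HasEmbeddingProperty (UtauF τ F) := by
  have hτ : ‖τ‖ = 1 := by simpa using hτ'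
  have hF1 : ∀ σ ∈ F, ‖σ‖ = 1 := fun σ h => by simpa using hFs h
  have hne : ∀ σ ∈ F, σ ≠ τ := fun σ h e => hτF (e ▸ h)
  intro φ hφ hid
  obtain ⟨⟨hd, hi, hm, hb⟩, -, hdw⟩ := hφ.resolve_left hid
  obtain ⟨-, d, hd1, hdb⟩ := hdw.resolve_left fun h => by linarith [h.1]
  have hS : SF ((fun σ => (cy τ σ).re) '' F) (up τ φ) := by
    refine ⟨univ_up hτ hd hm hi, (hol_up hτ hd hm).low_of_le ?_, ?_⟩
    · have a1 : d * cInf (up τ φ) = 1 := by exact_mod_cast mul_cInf_eq_one hτ hd hm hdb.2.2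
      nlinarith [(hol_up hτ hd hm).cInf_nonneg]
    · rintro _ ⟨σ, hσ, rfl⟩
      obtain ⟨e, he⟩ := hb σ hσ
      have hc := cInf_pos_of_brfp (hF1 σ hσ) hd hm he
      refine ⟨(cInf (up σ φ))⁻¹, (julia_iff_low hτ (hF1 σ hσ) (hne σ hσ) hm (inv_pos.2 hc)).2 ?_⟩
      rw [inv_inv]
      exact (hol_up (hF1 σ hσ) hd hm).low_cInf
  obtain ⟨Ψ, hΨ⟩ := exists_evH (hF.image _) hS
  have hball : ∀ {z : ℂ}, z ∈ ball (0 : ℂ) 1 → ‖z‖ < 1 := fun hz => by simpa using hz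
  have hdn : ∀ g, Hol g → DifferentiableOn ℂ (dn τ g) (ball 0 1) ∧
      MapsTo (dn τ g) (ball 0 1) (ball 0 1) := fun g hg =>
    ⟨differentiableOn_yc.comp (hg.diff.comp (differentiableOn_cy hτ) (mapsTo_cy hτ))
      (hg.maps.comp (mapsTo_cy hτ)), (mapsTo_yc hτ).comp (hg.maps.comp (mapsTo_cy hτ))⟩
  have hupdn : ∀ g, Hol g → ∀ w ∈ H, up τ (dn τ g) w = g w := fun g hg w hw => by
    rw [up, dn, cy_yc hτ hw, cy_yc hτ (hg.maps hw)]
  refine ⟨fun s t => dn τ (Ψ s t), ⟨fun s t hs ht => hdn _ (hΨ.mem s t hs ht).univ.toHol,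
    fun s hs z hz => ?_, fun s u t hs hu ht z hz => ?_, fun z hz T hT => ?_⟩, fun s t hs ht => ?_,
    fun z hz => ?_⟩
  · show dn τ (Ψ s s) z = z
    rw [dn, hΨ.id s hs _ (mapsTo_cy hτ hz), yc_cy hτ (hball hz)]
  · simp only [dn, comp_apply]
    rw [hΨ.comp s u t hs hu ht _ (mapsTo_cy hτ hz),
      cy_yc hτ ((hΨ.mem s u hs hu).univ.maps (mapsTo_cy hτ hz))]
  · obtain ⟨C, hC, h⟩ := hΨ.lip _ (mapsTo_cy hτ hz)
    refine ⟨fun _ => 2 * C, fun _ => by positivity, continuousOn_const.integrableOn_Icc,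
      fun s u t hs hu ht _ => ?_⟩
    rw [intervalIntegral.integral_const, smul_eq_mul]
    refine (norm_yc_sub_le hτ ((hΨ.mem s u hs hu).univ.maps (mapsTo_cy hτ hz))
      ((hΨ.mem s t hs (hu.trans ht)).univ.maps (mapsTo_cy hτ hz))).trans ?_
    linarith [h s u t hs hu ht]
  · have hg := hΨ.mem s t hs ht
    set g := Ψ s t
    obtain ⟨gd, gm⟩ := hdn g hg.univ.toHol
    have e := hupdn g hg.univ.toHol
    by_cases hgid : EqOn (dn τ g) id (ball 0 1)
    · exact Or.inl hgid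
    refine Or.inr ⟨⟨gd, fun a ha b hb eab => ?_, gm, fun σ hσ => ?_⟩, hgid,
      Or.inr ⟨fun z hz ez => hgid fun w hw => ?_, (cInf (up τ (dn τ g)))⁻¹, ?_, ?_⟩⟩
    · have e1 : cy τ (dn τ g a) = cy τ (dn τ g b) := congrArg (cy τ) eab
      rw [dn, dn, cy_yc hτ (hg.univ.maps (mapsTo_cy hτ ha)),
        cy_yc hτ (hg.univ.maps (mapsTo_cy hτ hb))] at e1
      have e2 := congrArg (yc τ) (hg.univ.inj (mapsTo_cy hτ ha) (mapsTo_cy hτ hb) e1)
      rwa [yc_cy hτ (hball ha), yc_cy hτ (hball hb)] at e2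
    · obtain ⟨Λ, hΛ⟩ := hg.jul _ ⟨σ, hσ, rfl⟩
      have hΛ0 := hΛ.pos hg.univ.toHol
      have := (julia_iff_low hτ (hF1 σ hσ) (hne σ hσ) gm hΛ0).1 (hΛ.congr e)
      exact ⟨_, brfp_of_cInf_pos (hF1 σ hσ) gd gm ((inv_pos.2 hΛ0).trans_le this.le_cInf)⟩
    · have hz' := cy_mem_H hτ hz
      have e1 : g (cy τ z) = cy τ z := by
        have : cy τ (dn τ g z) = cy τ z := congrArg (cy τ) ez
        rwa [dn, cy_yc hτ (hg.univ.maps hz')] at this
      obtain ⟨b, hb⟩ := translation_of_im_le hg.univ.toHol hg.low hz' (by rw [e1])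
      have hb0 : (b : ℂ) = 0 := by
        have := hb _ hz'
        rw [e1] at this
        linear_combination -this
      show dn τ g w = w
      rw [dn, hb _ (mapsTo_cy hτ hw), hb0, add_zero, yc_cy hτ (hball hw)]
    · exact inv_le_one_of_one_le₀ (hg.low.congr e).le_cInf
    · exact brfp_of_cInf_pos hτ gd gm (one_pos.trans_le (hg.low.congr e).le_cInf)
  · show dn τ (Ψ 0 1) z = φ z
    rw [dn, hΨ.fin _ (mapsTo_cy hτ hz), up, yc_cy hτ (hball hz),
      yc_cy hτ (hball (hm hz))]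

end Pool.Agent.MP_1a2790_an
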