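import Pool.Agent.MP_1a2790_an.Evol

/-! The case without prescribed repelling fixed points. -/

open Complex Set Filter Topology Metric Function
open scoped ComplexConjugate

namespace Pool.Agent.MP_1a2790_an

lemma SF.of_empty {f : ℂ → ℂ} (h1 : Univ f) (h2 : Low f 1) : SF ∅ f := ⟨h1, h2, fun _ h => h.elim⟩

lemma sf_translate (b : ℝ) : SF ∅ (fun z => z + b) := SF.of_empty (univ_translate b) (low_translate b)

lemma split_empty {h : ℂ → ℂ} (hh : SF ∅ h) {w : ℂ} (hw : w ∈ H) (hlt : w.im < (h w).im) :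
    ∃ p q, SF ∅ p ∧ SF ∅ q ∧ (∀ z ∈ H, h z = p (q z)) ∧ w.im < (q w).im ∧ (q w).im < (h w).im := by
  have hc1 := hh.low.le_cInf
  have hw' : 0 < w.im := hw
  by_cases hs : H ⊆ h '' H
  · have h1 := low_inverse_of_surj hh.univ (by linarith) hs hw
    have hc : 1 < cInf h := by
      by_contra hc
      push Not at hc
      nlinarith
    set β := √(cInf h) with hβ
    have hβ1 : 1 < β := Real.lt_sqrt_of_sq_lt (by simpa using hc)
    have hβ0 : 0 < β := by linarith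
    have hββ : β * β = cInf h := Real.mul_self_sqrt (by linarith)
    have hβc : (β : ℂ) ≠ 0 := by exact_mod_cast hβ0.ne'
    have hl := hh.univ.toHol.low_cInf
    refine ⟨fun w => h ((β⁻¹ : ℝ) * w + (0 : ℝ)), fun z => (β : ℂ) * z + (0 : ℝ),
      SF.of_empty (hh.univ.comp (univ_affine (inv_pos.2 hβ0) _)) ?_,
      SF.of_empty (univ_affine hβ0 _) ((low_affine _).mono hβ1.le), fun z _ => ?_, ?_, ?_⟩
    · have := hl.comp (low_affine (a := β⁻¹) 0) (by linarith) (univ_affine (inv_pos.2 hβ0) _).maps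
      rw [← hββ, mul_assoc, mul_inv_cancel₀ hβ0.ne', mul_one] at this
      exact this.mono hβ1.le
    · congr 1
      push_cast
      field_simp
      ring
    · simp only [add_im, mul_im, ofReal_re, ofReal_im]
      nlinarith
    · have := hl w hw
      rw [← hββ] at this
      simp only [add_im, mul_im, ofReal_re, ofReal_im]
      nlinarith [mul_pos hβ0 hw']
  · obtain ⟨ψ, u1, s1, s2, s3⟩ := exists_refine hh.univ hs
    obtain ⟨p, q, up, uq, e1, e2, lq, lp⟩ := factor_norm₀ hh.univ (by linarith) u1 s1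
    have n1 : ¬ H ⊆ q '' H := not_surj_of_factor e2 (by rwa [e1])
    refine ⟨p, q, SF.of_empty up (lp.mono hc1), SF.of_empty uq lq, fun z hz => (e2 z hz).symm,
      im_lt_of_not_surj uq.toHol lq n1 hw, ?_⟩
    rw [← e2 w hw]
    exact im_lt_of_not_surj up.toHol (lp.mono hc1) (by rwa [e1]) (uq.maps hw)

lemma norm_of_re_eq_zero {w : ℂ} (hw : w ∈ H) (h : w.re = 0) : ‖w‖ = w.im := by
  have : w = (w.im : ℂ) * I := by apply Complex.ext <;> simp [h]
  rw [this, norm_mul_I hw]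
  simp

lemma lip_empty {g h : ℂ → ℂ} (hg : SF ∅ g) (hh : SF ∅ h) {z z₀ : ℂ} (hz : z ∈ H)
    (hz₀ : 1 ≤ z₀.im) {B η : ℝ} (hB : ‖z₀‖ ≤ B) (hη : ‖h (g z₀) - g z₀‖ ≤ η) :
    ‖g z - h (g z)‖ ≤ (1 + (‖z‖ + B) ^ 2 / z.im) * η := by
  have hz₀' : z₀ ∈ H := mem_H.2 (by linarith)
  have hz' : 0 < z.im := hz
  have hw := hg.univ.maps hz
  have hw₀ := hg.univ.maps hz₀'
  have hpd : DifferentiableOn ℂ (fun z => h z - z) H := hh.univ.diff.sub differentiableOn_id
  have hp0 : ∀ z ∈ H, 0 ≤ (h z - z).im := fun z hz => by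
    have := hh.low z hz
    simp only [sub_im]
    linarith
  have a1 := norm_sub_conj_le hpd hp0 hw hw₀
  have a2 := schwarzPick_closed_conj hg.univ.diff (fun z hz => le_of_lt (hg.univ.maps hz)) hz hz₀'
  have a3 : ‖z - conj z₀‖ ≤ ‖z‖ + B := (norm_sub_le _ _).trans (by rw [RCLike.norm_conj]; linarith)
  have a4 : (h (g z₀) - g z₀).im ≤ η := (Complex.im_le_norm _).trans hη
  have a5 := norm_add_le (h (g z) - g z - conj (h (g z₀) - g z₀)) (conj (h (g z₀) - g z₀))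
  rw [sub_add_cancel, RCLike.norm_conj] at a5
  have hη0 : 0 ≤ η := (norm_nonneg _).trans hη
  have i1 : 0 < (g z).im := hw
  have i2 : 0 < (g z₀).im := hw₀
  have a6 : ‖h (g z) - g z - conj (h (g z₀) - g z₀)‖ ≤ (‖z‖ + B) ^ 2 / z.im * η := by
    rw [div_mul_eq_mul_div, le_div_iff₀ hz']
    apply le_of_mul_le_mul_right _ (mul_pos i1 i2)
    generalize ‖h (g z) - g z - conj (h (g z₀) - g z₀)‖ = N at *
    calc N * z.im * ((g z).im * (g z₀).im) = N * ((g z).im * (g z₀).im) * z.im := by ring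
      _ ≤ ‖g z - conj (g z₀)‖ ^ 2 * (h (g z₀) - g z₀).im * z.im := by gcongr
      _ ≤ ‖g z - conj (g z₀)‖ ^ 2 * η * (z.im * z₀.im) := by
        gcongr
        nlinarith
      _ = ‖g z - conj (g z₀)‖ ^ 2 * (z.im * z₀.im) * η := by ring
      _ ≤ ‖z - conj z₀‖ ^ 2 * ((g z).im * (g z₀).im) * η := by gcongr
      _ ≤ (‖z‖ + B) ^ 2 * ((g z).im * (g z₀).im) * η := by gcongr
      _ = _ := by ring
  rw [norm_sub_rev]
  linarith

lemma exists_chain_empty {φ : ℂ → ℂ} (hφ : SF ∅ φ) (hre : (φ I).re = 0) :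
    ∃ χ : ℝ → ℂ → ℂ, (∀ t ∈ Icc (0 : ℝ) 1, Univ (χ t) ∧
      χ t I = ((1 + t * ((φ I).im - 1) : ℝ) : ℂ) * I) ∧ (∀ z ∈ H, χ 0 z = z) ∧
      (∀ z ∈ H, χ 1 z = φ z) ∧ ∀ s ∈ Icc (0 : ℝ) 1, ∀ t ∈ Icc (0 : ℝ) 1, s ≤ t →
      ∃ h, SF ∅ h ∧ ∀ z ∈ H, χ t z = h (χ s z) := by
  let X := {χ : ℂ → ℂ // SF ∅ χ ∧ (χ I).re = 0 ∧ ∃ ψ, SF ∅ ψ ∧ ∀ z ∈ H, φ z = ψ (χ z)}
  let r : X → X → Prop := fun a b => ∃ h, SF ∅ h ∧ ∀ z ∈ H, b.1 z = h (a.1 z)
  let T : X → ℝ := fun a => (a.1 I).im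
  let bot : X := ⟨fun z => z, SF.id ∅, by simp, φ, hφ, fun _ _ => rfl⟩
  let top : X := ⟨φ, hφ, hre, fun z => z, SF.id ∅, fun _ _ => rfl⟩
  have hX : ∀ a : X, 1 ≤ (a.1 I).im ∧ ‖a.1 I‖ ≤ (φ I).im := fun a => by
    obtain ⟨ψ, h1, h2⟩ := a.2.2.2
    have hI := a.2.1.univ.maps I_mem_H
    refine ⟨by simpa using a.2.1.low I I_mem_H, ?_⟩
    rw [norm_of_re_eq_zero hI a.2.2.1, h2 I I_mem_H]
    simpa using h1.low _ hI
  have rig0 : ∀ a b : X, r a b → T b ≤ T a → ∀ z ∈ H, b.1 z = a.1 z := by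
    rintro a b ⟨h, h1, h2⟩ hT z hz
    have hI := a.2.1.univ.maps I_mem_H
    obtain ⟨c, hc⟩ := translation_of_im_le h1.univ.toHol h1.low hI (by rw [← h2 I I_mem_H]; exact hT)
    have e := congrArg Complex.re ((h2 I I_mem_H).trans (hc _ hI))
    simp only [add_re, ofReal_re, a.2.2.1, b.2.2.1, zero_add] at e
    rw [h2 z hz, hc _ (a.2.1.univ.maps hz), ← e]
    simp
  obtain ⟨γ, hγ1, hγ2⟩ := exists_param r T bot top (fun a => ⟨fun z => z, SF.id ∅, fun _ _ => rfl⟩)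
    (by
      rintro a b c ⟨h, h1, h2⟩ ⟨g, g1, g2⟩
      exact ⟨_, g1.comp h1, fun z hz => by rw [g2 z hz, h2 z hz]⟩)
    (fun a => ⟨a.1, a.2.1, fun _ _ => rfl⟩) (fun a => a.2.2.2)
    (fun a b h hT => ⟨fun z => z, SF.id ∅, fun z hz => (rig0 a b h hT z hz).symm⟩)
    (by
      rintro a b ⟨h, h1, h2⟩ hT
      have hI := a.2.1.univ.maps I_mem_H
      obtain ⟨p, q, hp, hq, e1, n1, n2⟩ := split_empty h1 hI (by rw [← h2 I I_mem_H]; exact hT)
      obtain ⟨ψ, g1, g2⟩ := b.2.2.2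
      set c := (q (a.1 I)).re with hc
      have hq' := (sf_translate (-c)).comp hq
      have hp' := hp.comp (sf_translate c)
      have e2 : ∀ z ∈ H, b.1 z = p (q (a.1 z) + (-c : ℝ) + c) := fun z hz => by
        rw [h2 z hz, e1 _ (a.2.1.univ.maps hz)]
        simp
      refine ⟨⟨fun z => q (a.1 z) + (-c : ℝ), hq'.comp a.2.1, by simp [hc], _, g1.comp hp',
        fun z hz => by rw [g2 z hz, e2 z hz]⟩, ⟨_, hq', fun _ _ => rfl⟩, ⟨_, hp', e2⟩, ?_, ?_⟩
      · simpa [T] using n1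
      · rw [← h2 I I_mem_H] at n2
        simpa [T] using n2)
    (by
      intro 𝒰 a
      choose ψ hψ eψ using fun n => (a n).2.2.2
      obtain ⟨ψ₀, χ₀, d1, c1, e0, d2, c2, d3, c3⟩ := exists_limit_pair 𝒰 (fun n => (hψ n).univ)
        (fun n => (a n).2.1.univ) (fun n z hz => (eψ n z hz).symm) one_pos one_pos
        (fun n => (hψ n).low) (fun n => (a n).2.1.low) fun n => (hX (a n)).2
      have hlim : ∀ (b : ℕ → X) (c : ℕ → X), (∀ᶠ n in 𝒰, r (b n) (c n)) →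
          ∃ (h : ℕ → ℂ → ℂ) (h₀ : ℂ → ℂ), SF ∅ h₀ ∧ TendstoLocallyUniformlyOn h h₀ 𝒰 H ∧
            ∀ᶠ n in 𝒰, ∀ z ∈ H, (c n).1 z = h n ((b n).1 z) := fun b c hbc => by
        have : ∀ n, ∃ h, SF ∅ h ∧ ‖h ((b n).1 I)‖ ≤ (φ I).im ∧
            (r (b n) (c n) → ∀ z ∈ H, (c n).1 z = h ((b n).1 z)) := fun n => by
          by_cases hr : r (b n) (c n)
          · obtain ⟨h, h1, h2⟩ := hr
            exact ⟨h, h1, by rw [← h2 I I_mem_H]; exact (hX _).2, fun _ => h2⟩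
          · exact ⟨fun z => z, SF.id ∅, (hX _).2, fun h => (hr h).elim⟩
        choose h h1 h2 h3 using this
        obtain ⟨h₀, g1, g2, g3⟩ := exists_limit 𝒰 (fun n => (h1 n).univ) one_pos
          (fun n => (h1 n).low) one_pos fun n => ⟨(hX (b n)).1, (hX (b n)).2, h2 n⟩
        exact ⟨h, h₀, SF.of_empty g1 g2, g3, hbc.mono h3⟩
      have hI := c3.tendsto_at I_mem_H
      refine ⟨⟨χ₀, SF.of_empty c1 c2, ?_, ψ₀, SF.of_empty d1 d2, fun z hz => (e0 z hz).symm⟩,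
        (Complex.continuous_im.tendsto _).comp hI, fun y hy => ?_, fun y hy => ?_⟩
      · exact tendsto_nhds_unique ((Complex.continuous_re.tendsto _).comp hI)
          (tendsto_const_nhds.congr fun n => (a n).2.2.1.symm)
      · obtain ⟨h, h₀, g1, g2, g3⟩ := hlim (fun _ => y) a hy
        refine ⟨h₀, g1, fun z hz => tendsto_nhds_unique (c3.tendsto_at hz) ?_⟩
        exact (g2.tendsto_at (y.2.1.univ.maps hz)).congr' (g3.mono fun n hn => (hn z hz).symm)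
      · obtain ⟨h, h₀, g1, g2, g3⟩ := hlim a (fun _ => y) hy
        exact ⟨h₀, g1, fun z hz => tendsto_nhds_unique
          (tendsto_const_nhds.congr' (g3.mono fun n hn => hn z hz))
          (tendsto_comp_H g1.univ.toHol g2 (c1.maps hz) (c3.tendsto_at hz))⟩)
  have hTb : T bot = 1 := by simp [T, bot]
  have hL : T top = (φ I).im := rfl
  have hL1 : 1 ≤ (φ I).im := (hX top).1
  rw [hTb, hL] at hγ1 hγ2
  have hm : ∀ t ∈ Icc (0 : ℝ) 1, 1 + t * ((φ I).im - 1) ∈ Icc 1 (φ I).im := fun t ht =>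
    ⟨by nlinarith [ht.1], by nlinarith [ht.2]⟩
  refine ⟨fun t => (γ (1 + t * ((φ I).im - 1))).1, fun t ht => ⟨(γ _).2.1.univ, ?_⟩, ?_, ?_,
    fun s hs t ht hst => hγ2 _ (hm s hs) _ (hm t ht) (by nlinarith)⟩
  · have e : ((γ _).1 I).im = _ := hγ1 _ (hm t ht)
    apply Complex.ext
    · simpa using (γ _).2.2.1
    · rw [e]
      simp
  · refine rig0 bot _ ⟨_, (γ _).2.1, fun _ _ => rfl⟩ ?_
    rw [hγ1 _ (hm 0 (by simp)), hTb]
    simp
  · refine fun z hz => (rig0 _ top (γ _).2.2.2 ?_ z hz).symm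
    rw [hγ1 _ (hm 1 (by simp)), hL]
    simp

theorem exists_evH_empty {φ : ℂ → ℂ} (hφ : SF ∅ φ) : ∃ Ψ, EvH (SF ∅) φ Ψ := by
  set b := (φ I).re with hb
  obtain ⟨χ, h1, h2, h3, h4⟩ := exists_chain_empty ((sf_translate (-b)).comp hφ) (by simp [hb])
  set L := (φ I + (-b : ℝ)).im with hL
  have hL1 : 1 ≤ L := by simpa [hL] using hφ.low I I_mem_H
  refine evH_of_chain (fun f hf => hf.univ) (χ := fun t z => χ t z + (t * b : ℝ))
    (fun t ht => (univ_translate _).comp (h1 t ht).1) (fun z hz => by simp [h2 z hz])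
    (fun z hz => by simp [h3 z hz]) (fun s hs t ht hst => ?_) fun z hz => ?_
  · obtain ⟨h, a1, a2⟩ := h4 s hs t ht hst
    exact ⟨_, (sf_translate (t * b)).comp (a1.comp (sf_translate (-(s * b)))),
      fun z hz => by simp [a2 z hz]⟩
  · have hz' : 0 < z.im := hz
    refine ⟨(1 + (‖z‖ + (L + |b|)) ^ 2 / z.im) * (L - 1 + |b|),
      by have := sub_nonneg.2 hL1; positivity, fun s u t hs hu ht ht1 g h hg hh eg eh => ?_⟩
    have es := (h1 s ⟨hs, by linarith⟩).2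
    have eu := (h1 u ⟨by linarith, by linarith⟩).2
    have et := (h1 t ⟨by linarith, ht1⟩).2
    rw [mul_assoc]
    refine lip_empty hg hh hz (z₀ := χ s I + (s * b : ℝ)) ?_ ?_ ?_
    · rw [es]
      simp only [add_im, mul_im, ofReal_re, I_im, mul_one, ofReal_im, I_re, mul_zero, add_zero]
      nlinarith
    · refine (norm_add_le _ _).trans (add_le_add ?_ ?_)
      · rw [es, norm_mul_I (by nlinarith)]
        nlinarith
      · rw [norm_real, Real.norm_eq_abs, abs_mul, abs_of_nonneg hs]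
        nlinarith [abs_nonneg b]
    · rw [← eg I I_mem_H, ← eh I I_mem_H, et, eu]
      have : ((1 + t * (L - 1) : ℝ) : ℂ) * I + (t * b : ℝ) - (((1 + u * (L - 1) : ℝ) : ℂ) * I +
          (u * b : ℝ)) = ((t - u : ℝ) : ℂ) * (((L - 1 : ℝ) : ℂ) * I + b) := by
        push_cast
        ring
      rw [this, norm_mul, norm_real, Real.norm_of_nonneg (by linarith), mul_comm]
      apply mul_le_mul_of_nonneg_right _ (by linarith)
      refine (norm_add_le _ _).trans (add_le_add ?_ ?_)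
      · rw [norm_mul, norm_I, mul_one, norm_real, Real.norm_of_nonneg (by linarith)]
      · rw [norm_real, Real.norm_eq_abs]

theorem exists_evH {F : Set ℝ} (hF : F.Finite) {φ : ℂ → ℂ} (hφ : SF F φ) :
    ∃ Ψ, EvH (SF F) φ Ψ := by
  rcases F.eq_empty_or_nonempty with rfl | h
  · exact exists_evH_empty hφ
  · exact exists_evH_nonempty hF h hφ

end Pool.Agent.MP_1a2790_an
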