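import Pool.Agent.MP_1a2790_an.Split
import Pool.Agent.MP_1a2790_an.Chain

/-! Evolution families in the half-plane model. -/

open Complex Set Filter Topology Metric Function
open scoped ComplexConjugate

namespace Pool.Agent.MP_1a2790_an

/-- Lipschitz evolution family in the half-plane, inside `S`, ending at `φ`. -/
structure EvH (S : (ℂ → ℂ) → Prop) (φ : ℂ → ℂ) (Ψ : ℝ → ℝ → ℂ → ℂ) : Prop where
  mem : ∀ s t, 0 ≤ s → s ≤ t → S (Ψ s t)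
  id : ∀ s, 0 ≤ s → ∀ z ∈ H, Ψ s s z = z
  comp : ∀ s u t, 0 ≤ s → s ≤ u → u ≤ t → ∀ z ∈ H, Ψ s t z = Ψ u t (Ψ s u z)
  lip : ∀ z ∈ H, ∃ C, 0 ≤ C ∧ ∀ s u t, 0 ≤ s → s ≤ u → u ≤ t → ‖Ψ s u z - Ψ s t z‖ ≤ C * (t - u)
  fin : ∀ z ∈ H, Ψ 0 1 z = φ z

lemma eq_of_comp {f g χ : ℂ → ℂ} (hf : Hol f) (hg : Hol g) (hχ : Univ χ)
    (e : ∀ z ∈ H, f (χ z) = g (χ z)) : ∀ z ∈ H, f z = g z := by
  refine (hf.diff.analyticOnNhd isOpen_H).eqOn_of_preconnected_of_eventuallyEq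
    (hg.diff.analyticOnNhd isOpen_H) isPreconnected_H (hχ.maps I_mem_H) ?_
  filter_upwards [hχ.isOpen_image.mem_nhds ⟨I, I_mem_H, rfl⟩]
  rintro _ ⟨z, hz, rfl⟩
  exact e z hz

lemma evH_of_chain {S : (ℂ → ℂ) → Prop} (hS : ∀ f, S f → Univ f) {φ : ℂ → ℂ} {χ : ℝ → ℂ → ℂ}
    (hχ : ∀ t ∈ Icc (0 : ℝ) 1, Univ (χ t)) (h0 : ∀ z ∈ H, χ 0 z = z) (h1 : ∀ z ∈ H, χ 1 z = φ z)
    (hle : ∀ s ∈ Icc (0 : ℝ) 1, ∀ t ∈ Icc (0 : ℝ) 1, s ≤ t → ∃ h, S h ∧ ∀ z ∈ H, χ t z = h (χ s z))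
    (lip : ∀ z ∈ H, ∃ C, 0 ≤ C ∧ ∀ s u t, 0 ≤ s → s ≤ u → u ≤ t → t ≤ 1 → ∀ g h, S g → S h →
      (∀ z ∈ H, χ u z = g (χ s z)) → (∀ z ∈ H, χ t z = h (χ u z)) → ‖g z - h (g z)‖ ≤ C * (t - u)) :
    ∃ Ψ, EvH S φ Ψ := by
  have hm : ∀ s : ℝ, 0 ≤ s → min s 1 ∈ Icc (0 : ℝ) 1 := fun s hs =>
    ⟨le_min hs zero_le_one, min_le_right _ _⟩
  have : ∀ s t : ℝ, ∃ h, 0 ≤ s → s ≤ t → S h ∧ ∀ z ∈ H, χ (min t 1) z = h (χ (min s 1) z) :=
    fun s t => by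
      by_cases h : 0 ≤ s ∧ s ≤ t
      · obtain ⟨g, hg⟩ := hle _ (hm s h.1) _ (hm t (h.1.trans h.2)) (min_le_min_right _ h.2)
        exact ⟨g, fun _ _ => hg⟩
      · exact ⟨0, fun a b => (h ⟨a, b⟩).elim⟩
  choose Ψ hΨ using this
  have hcomp : ∀ s u t, 0 ≤ s → s ≤ u → u ≤ t → ∀ z ∈ H, Ψ s t z = Ψ u t (Ψ s u z) :=
    fun s u t hs hu ht => by
      have a := hΨ s t hs (hu.trans ht)
      have b := hΨ s u hs hu
      have c := hΨ u t (hs.trans hu) ht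
      refine eq_of_comp (hS _ a.1).toHol ((hS _ c.1).comp (hS _ b.1)).toHol (hχ _ (hm s hs))
        fun z hz => ?_
      rw [← a.2 z hz, ← b.2 z hz, ← c.2 z hz]
  refine ⟨Ψ, fun s t hs ht => (hΨ s t hs ht).1, fun s hs => ?_, hcomp, fun z hz => ?_,
    fun z hz => ?_⟩
  · exact eq_of_comp (hS _ (hΨ s s hs le_rfl).1).toHol univ_id.toHol (hχ _ (hm s hs))
      fun z hz => ((hΨ s s hs le_rfl).2 z hz).symm
  · obtain ⟨C, hC, h⟩ := lip z hz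
    refine ⟨C, hC, fun s u t hs hu ht => ?_⟩
    rw [hcomp s u t hs hu ht z hz]
    refine (h _ _ _ (hm s hs).1 (min_le_min_right _ hu) (min_le_min_right _ ht) (min_le_right _ _)
      _ _ (hΨ s u hs hu).1 (hΨ u t (hs.trans hu) ht).1 (hΨ s u hs hu).2
      (hΨ u t (hs.trans hu) ht).2).trans (mul_le_mul_of_nonneg_left ?_ hC)
    rcases le_total u 1 with a | a
    · rw [min_eq_left a]
      linarith [min_le_left t 1]
    · rw [min_eq_right a, min_eq_right (a.trans ht)]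
      linarith
  · have := (hΨ 0 1 le_rfl zero_le_one).2 z hz
    rw [min_self, min_eq_left zero_le_one, h0 z hz, h1 z hz] at this
    exact this.symm

variable {F : Set ℝ}

lemma SF.id (F : Set ℝ) : SF F (fun z => z) := ⟨univ_id, low_id, fun x _ => ⟨1, julia_id x⟩⟩

lemma SF.comp {f g : ℂ → ℂ} (hf : SF F f) (hg : SF F g) : SF F (fun z => f (g z)) :=
  ⟨hf.univ.comp hg.univ, by simpa using hf.low.comp hg.low zero_le_one hg.univ.maps, fun x hx => by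
    obtain ⟨a, ha⟩ := hf.jul x hx
    obtain ⟨b, hb⟩ := hg.jul x hx
    exact ⟨_, ha.comp hf.univ.toHol hg.univ.toHol hb⟩⟩

lemma SF.julia_factor {φ ψ χ : ℂ → ℂ} (hψ : SF F ψ) (hχ : SF F χ) (e : ∀ z ∈ H, φ z = ψ (χ z))
    {x Λ : ℝ} (hx : x ∈ F) (hj : Julia φ x x Λ) : Julia ψ x x Λ ∧ Julia χ x x Λ := by
  obtain ⟨t, h1, h2⟩ := contact_split hψ.univ.toHol hχ.univ.toHol one_pos one_pos hψ.low hχ.low
    (hj.congr fun z hz => (e z hz).symm)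
  obtain ⟨L, hL⟩ := hχ.jul x hx
  rw [h1.unique hχ.univ.toHol hL, div_one] at *
  exact ⟨h2, h1⟩

lemma SF.limit {ι : Type*} (𝒰 : Ultrafilter ι) {f : ι → ℂ → ℂ} (hf : ∀ i, SF F (f i)) {Λ σ : ℝ}
    (hσ : σ ∈ F) (hj : ∀ i, ∀ x ∈ F, Julia (f i) x x Λ) :
    ∃ g, SF F g ∧ TendstoLocallyUniformlyOn f g 𝒰 H := by
  obtain ⟨g, h1, h2, h3⟩ := exists_limit 𝒰 (fun i => (hf i).univ) one_pos (fun i => (hf i).low)
    (w := fun _ => I) (M := max 1 (Λ * ‖I - σ‖ ^ 2 + |σ|)) one_pos fun i =>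
      ⟨by simp, by simp, ((hj i σ hσ).norm_I_le' (hf i).univ.toHol).trans (le_max_right _ _)⟩
  exact ⟨g, ⟨h1, h2, fun x hx => ⟨Λ, julia_limit (fun z hz => h3.tendsto_at hz) tendsto_const_nhds
    tendsto_const_nhds tendsto_const_nhds (Eventually.of_forall fun i => hj i x hx)⟩⟩, h3⟩

/-- The angular derivative at a fixed point. -/
noncomputable def lam (σ : ℝ) (f : ℂ → ℂ) : ℝ := (kap f σ σ)⁻¹

lemma SF.kap_pos {f : ℂ → ℂ} (hf : SF F f) {σ : ℝ} (hσ : σ ∈ F) : 0 < kap f σ σ := by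
  obtain ⟨L, hL⟩ := hf.jul σ hσ
  exact hL.kap_pos hf.univ.toHol

lemma SF.julia_lam {f : ℂ → ℂ} (hf : SF F f) {σ : ℝ} (hσ : σ ∈ F) : Julia f σ σ (lam σ f) :=
  hf.univ.toHol.julia_kap (hf.kap_pos hσ)

lemma SF.one_le_lam {f : ℂ → ℂ} (hf : SF F f) {σ : ℝ} (hσ : σ ∈ F) : 1 ≤ lam σ f :=
  hf.low.le_julia hf.univ.toHol (hf.julia_lam hσ)

lemma Julia.lam_le {f : ℂ → ℂ} (hf : Hol f) {σ Λ : ℝ} (h : Julia f σ σ Λ) : lam σ f ≤ Λ :=
  inv_le_of_inv_le₀ (h.pos hf) (h.le_kap hf)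

lemma SF.lam_comp {φ ψ χ : ℂ → ℂ} (hψ : SF F ψ) (hχ : SF F χ) (e : ∀ z ∈ H, φ z = ψ (χ z))
    {σ : ℝ} (hσ : σ ∈ F) : lam σ φ = lam σ ψ * lam σ χ := by
  rw [lam, kap_congr e, kap_comp hψ.univ.toHol hχ.univ.toHol (hχ.kap_pos hσ), mul_inv]
  rfl

lemma SF.eq_id_of_lam_le {f : ℂ → ℂ} (hf : SF F f) {σ : ℝ} (hσ : σ ∈ F) (h : lam σ f ≤ 1) :
    ∀ z ∈ H, f z = z := fun z hz => by
  have h1 := ((hf.julia_lam hσ).mono hf.univ.toHol h).norm_sub_id_le hf.univ.toHol hf.low hz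
  have h2 : 0 < z.im := hz
  rw [sub_self, zero_mul] at h1
  have h3 : ‖f z - z‖ ≤ 0 := by
    by_contra h3
    push Not at h3
    nlinarith
  exact sub_eq_zero.1 (norm_le_zero_iff.1 h3)

lemma SF.one_lt_lam {f : ℂ → ℂ} (hf : SF F f) {σ : ℝ} (hσ : σ ∈ F) (h : ¬ ∀ z ∈ H, f z = z) :
    1 < lam σ f := lt_of_not_ge fun h' => h (hf.eq_id_of_lam_le hσ h')

lemma lam_id (σ : ℝ) : lam σ (fun z => z) = 1 :=
  le_antisymm ((julia_id σ).lam_le univ_id.toHol) ((SF.id {σ}).one_le_lam rfl)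

theorem exists_evH_nonempty (hF : F.Finite) (hne : F.Nonempty) {φ : ℂ → ℂ} (hφ : SF F φ) :
    ∃ Ψ, EvH (SF F) φ Ψ := by
  obtain ⟨σ, hσ⟩ := id hne
  obtain ⟨Λ, hΛ⟩ := hφ.exists_unif hF
  have hΛ1 : 1 ≤ Λ := hφ.low.le_julia hφ.univ.toHol (hΛ σ hσ)
  let X := {χ : ℂ → ℂ // SF F χ ∧ ∃ ψ, SF F ψ ∧ ∀ z ∈ H, φ z = ψ (χ z)}
  let r : X → X → Prop := fun a b => ∃ h, SF F h ∧ ∀ z ∈ H, b.1 z = h (a.1 z)
  let T : X → ℝ := fun a => lam σ a.1
  let bot : X := ⟨fun z => z, SF.id F, φ, hφ, fun _ _ => rfl⟩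
  let top : X := ⟨φ, hφ, fun z => z, SF.id F, fun _ _ => rfl⟩
  have hX : ∀ a : X, ∀ x ∈ F, Julia a.1 x x Λ := fun a x hx => by
    obtain ⟨ψ, h1, h2⟩ := a.2.2
    exact (h1.julia_factor a.2.1 h2 hx (hΛ x hx)).2
  have rig : ∀ a b, r a b → T b ≤ T a → r b a := by
    rintro a b ⟨h, h1, h2⟩ hT
    have e := h1.lam_comp a.2.1 h2 hσ
    have h3 := a.2.1.one_le_lam hσ
    have h4 : lam σ h ≤ 1 := by
      by_contra h4
      push Not at h4
      simp only [T] at hT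
      nlinarith
    refine ⟨fun z => z, SF.id F, fun z hz => ?_⟩
    rw [h2 z hz, h1.eq_id_of_lam_le hσ h4 _ (a.2.1.univ.maps hz)]
  obtain ⟨γ, hγ1, hγ2⟩ := exists_param r T bot top (fun a => ⟨fun z => z, SF.id F, fun _ _ => rfl⟩)
    (by
      rintro a b c ⟨h, h1, h2⟩ ⟨g, g1, g2⟩
      exact ⟨_, g1.comp h1, fun z hz => by rw [g2 z hz, h2 z hz]⟩)
    (fun a => ⟨a.1, a.2.1, fun _ _ => rfl⟩) (fun a => a.2.2) rig
    (by
      rintro a b ⟨h, h1, h2⟩ hT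
      have e := h1.lam_comp a.2.1 h2 hσ
      have h3 := a.2.1.one_le_lam hσ
      have hid : ¬ ∀ z ∈ H, h z = z := fun hid => by
        have : lam σ b.1 = lam σ a.1 := by
          rw [lam, kap_congr (f := a.1) fun z hz => by rw [h2 z hz, hid _ (a.2.1.univ.maps hz)]]
          rfl
        exact hT.ne' this
      obtain ⟨p, q, hp, hq, e1, n1, n2⟩ := h1.split hF hne hid
      obtain ⟨ψ, g1, g2⟩ := b.2.2
      have e2 : ∀ z ∈ H, b.1 z = p (q (a.1 z)) := fun z hz => by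
        rw [h2 z hz, e1 _ (a.2.1.univ.maps hz)]
      have l1 := hp.one_lt_lam hσ n1
      have l2 := hq.one_lt_lam hσ n2
      have l3 := hq.lam_comp a.2.1 (fun _ _ => rfl) hσ
      have l4 := hp.lam_comp (hq.comp a.2.1) e2 hσ
      refine ⟨⟨fun z => q (a.1 z), hq.comp a.2.1, _, g1.comp hp, fun z hz => by
        rw [g2 z hz, e2 z hz]⟩, ⟨q, hq, fun _ _ => rfl⟩, ⟨p, hp, e2⟩, ?_, ?_⟩
      · simp only [T]
        nlinarith
      · simp only [T]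
        nlinarith)
    (by
      intro 𝒰 a
      choose ψ hψ eψ using fun n => (a n).2.2
      have jψ : ∀ n, ∀ x ∈ F, Julia (ψ n) x x Λ := fun n x hx =>
        ((hψ n).julia_factor (a n).2.1 (eψ n) hx (hΛ x hx)).1
      obtain ⟨χ₀, c1, c2⟩ := SF.limit 𝒰 (fun n => (a n).2.1) hσ fun n => hX (a n)
      obtain ⟨ψ₀, d1, d2⟩ := SF.limit 𝒰 hψ hσ jψ
      have e0 : ∀ z ∈ H, φ z = ψ₀ (χ₀ z) := fun z hz =>
        tendsto_nhds_unique (tendsto_const_nhds.congr fun n => eψ n z hz)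
          (tendsto_comp_H d1.univ.toHol d2 (c1.univ.maps hz) (c2.tendsto_at hz))
      have hlim : ∀ (b : ℕ → X) (c : ℕ → X), (∀ᶠ n in 𝒰, r (b n) (c n)) →
          ∃ (h : ℕ → ℂ → ℂ) (h₀ : ℂ → ℂ), SF F h₀ ∧ TendstoLocallyUniformlyOn h h₀ 𝒰 H ∧
            ∀ᶠ n in 𝒰, ∀ z ∈ H, (c n).1 z = h n ((b n).1 z) := fun b c hbc => by
        have : ∀ n, ∃ h, SF F h ∧ (∀ x ∈ F, Julia h x x Λ) ∧
            (r (b n) (c n) → ∀ z ∈ H, (c n).1 z = h ((b n).1 z)) := fun n => by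
          by_cases hr : r (b n) (c n)
          · obtain ⟨h, h1, h2⟩ := hr
            exact ⟨h, h1, fun x hx => (h1.julia_factor (b n).2.1 h2 hx (hX _ x hx)).1, fun _ => h2⟩
          · exact ⟨fun z => z, SF.id F, fun x _ => (julia_id x).mono univ_id.toHol hΛ1,
              fun h => (hr h).elim⟩
        choose h h1 h2 h3 using this
        obtain ⟨h₀, g1, g2⟩ := SF.limit 𝒰 h1 hσ h2
        exact ⟨h, h₀, g1, g2, hbc.mono h3⟩
      refine ⟨⟨χ₀, c1, ψ₀, d1, e0⟩, ?_, fun y hy => ?_, fun y hy => ?_⟩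
      · obtain ⟨α, hα⟩ := exists_tendsto_of_bounded_real 𝒰 (a := fun n => lam σ (a n).1) (M := Λ)
          (Eventually.of_forall fun n => abs_le.2 ⟨by linarith [(a n).2.1.one_le_lam hσ],
            (hX _ σ hσ).lam_le (a n).2.1.univ.toHol⟩)
        obtain ⟨β, hβ⟩ := exists_tendsto_of_bounded_real 𝒰 (a := fun n => lam σ (ψ n)) (M := Λ)
          (Eventually.of_forall fun n => abs_le.2 ⟨by linarith [(hψ n).one_le_lam hσ],
            (jψ n σ hσ).lam_le (hψ n).univ.toHol⟩)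
        have e1 : lam σ φ = β * α := tendsto_nhds_unique
          (tendsto_const_nhds.congr fun n => (hψ n).lam_comp (a n).2.1 (eψ n) hσ) (hβ.mul hα)
        have e2 := d1.lam_comp c1 e0 hσ
        have l1 : lam σ χ₀ ≤ α := (julia_limit (fun z hz => c2.tendsto_at hz) tendsto_const_nhds
          tendsto_const_nhds hα (Eventually.of_forall fun n => (a n).2.1.julia_lam hσ)).lam_le
          c1.univ.toHol
        have l2 : lam σ ψ₀ ≤ β := (julia_limit (fun z hz => d2.tendsto_at hz) tendsto_const_nhds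
          tendsto_const_nhds hβ (Eventually.of_forall fun n => (hψ n).julia_lam hσ)).lam_le
          d1.univ.toHol
        have l3 := c1.one_le_lam hσ
        have l4 := d1.one_le_lam hσ
        have : lam σ χ₀ = α := le_antisymm l1 (by nlinarith)
        simp only [T]
        rw [this]
        exact hα
      · obtain ⟨h, h₀, g1, g2, g3⟩ := hlim (fun _ => y) a hy
        refine ⟨h₀, g1, fun z hz => tendsto_nhds_unique (c2.tendsto_at hz) ?_⟩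
        exact (g2.tendsto_at (y.2.1.univ.maps hz)).congr' (g3.mono fun n hn => (hn z hz).symm)
      · obtain ⟨h, h₀, g1, g2, g3⟩ := hlim a (fun _ => y) hy
        exact ⟨h₀, g1, fun z hz => tendsto_nhds_unique
          (tendsto_const_nhds.congr' (g3.mono fun n hn => hn z hz))
          (tendsto_comp_H g1.univ.toHol g2 (c1.univ.maps hz) (c2.tendsto_at hz))⟩)
  have hTb : T bot = 1 := lam_id σ
  set L := T top with hL
  have hL1 : 1 ≤ L := hφ.one_le_lam hσ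
  rw [hTb] at hγ1 hγ2
  have hm : ∀ t ∈ Icc (0 : ℝ) 1, 1 + t * (L - 1) ∈ Icc 1 L := fun t ht =>
    ⟨by nlinarith [ht.1], by nlinarith [ht.2]⟩
  refine evH_of_chain (fun f hf => hf.univ) (χ := fun t => (γ (1 + t * (L - 1))).1)
    (fun t _ => (γ _).2.1.univ) ?_ (fun z hz => ?_)
    (fun s hs t ht hst => hγ2 _ (hm s hs) _ (hm t ht) (by nlinarith)) fun z hz => ?_
  · exact (γ _).2.1.eq_id_of_lam_le hσ (by simpa using (hγ1 _ (hm 0 (by simp))).le)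
  · obtain ⟨h, h1, h2⟩ := (γ (1 + 1 * (L - 1))).2.2
    have e := h1.lam_comp (γ _).2.1 h2 hσ
    have e2 : lam σ (γ (1 + 1 * (L - 1))).1 = 1 + 1 * (L - 1) := hγ1 _ (hm 1 (by simp))
    have e3 : lam σ φ = L := rfl
    rw [h2 z hz, h1.eq_id_of_lam_le hσ (by nlinarith [h1.one_le_lam hσ]) _ ((γ _).2.1.univ.maps hz)]
  · have hz' : 0 < z.im := hz
    refine ⟨(L - 1) * L * ‖z - σ‖ ^ 2 / z.im, by have := sub_nonneg.2 hL1; positivity,
      fun s u t hs hu ht ht1 g h hg hh eg eh => ?_⟩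
    have ms := hm s ⟨hs, by linarith⟩
    have mu := hm u ⟨by linarith, by linarith⟩
    have mt := hm t ⟨by linarith, ht1⟩
    have es : lam σ (γ _).1 = _ := hγ1 _ ms
    have eu : lam σ (γ _).1 = _ := hγ1 _ mu
    have et : lam σ (γ _).1 = _ := hγ1 _ mt
    have e1 := hg.lam_comp (γ _).2.1 eg hσ
    have e2 := hh.lam_comp (γ _).2.1 eh hσ
    rw [es, eu] at e1
    rw [eu, et] at e2
    have g1 := hg.one_le_lam hσ
    have h1 := hh.one_le_lam hσ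
    have g2 : lam σ g ≤ L := by nlinarith [ms.1, mu.2]
    have h2 : lam σ h - 1 ≤ (L - 1) * (t - u) := by nlinarith [mu.1]
    have hw := hg.univ.maps hz
    have hw' : 0 < (g z).im := hw
    have a1 := (hh.julia_lam hσ).norm_sub_id_le hh.univ.toHol hh.low hw
    have a2 := ((hg.julia_lam hσ).mono hg.univ.toHol g2) z hz
    rw [norm_sub_rev, div_mul_eq_mul_div, le_div_iff₀ hz']
    have h3 : 0 ≤ (L - 1) * (t - u) := by linarith
    have a3 : ‖h (g z) - g z‖ * z.im * (g z).im ≤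
        (L - 1) * L * ‖z - σ‖ ^ 2 * (t - u) * (g z).im := by
      calc ‖h (g z) - g z‖ * z.im * (g z).im = ‖h (g z) - g z‖ * (g z).im * z.im := by ring
        _ ≤ (lam σ h - 1) * ‖g z - σ‖ ^ 2 * z.im := by gcongr
        _ ≤ (L - 1) * (t - u) * ‖g z - σ‖ ^ 2 * z.im := by gcongr
        _ = (L - 1) * (t - u) * (z.im * ‖g z - σ‖ ^ 2) := by ring
        _ ≤ (L - 1) * (t - u) * (L * ‖z - σ‖ ^ 2 * (g z).im) := by gcongr
        _ = _ := by ring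
    exact le_of_mul_le_mul_right a3 hw'

end Pool.Agent.MP_1a2790_an
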