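import Pool.Agent.MP_1a2790_an.Arc

/-! The extremal problem producing a factorisation that keeps all fixed points. -/

open Complex Set Filter Topology Metric Function

namespace Pool.Agent.MP_1a2790_an

/-- The fixed data: a univalent map with ordered boundary fixed points and arcs. -/
structure Dat (φ : ℂ → ℂ) (σ : ℕ → ℝ) (n : ℕ) (Λ : ℝ) (P Γ : ℕ → UI → ℂ) (K : ℕ → ℝ) : Prop where
  uφ : Univ φ
  lt : ∀ k < n, σ k < σ (k + 1)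
  jφ : ∀ k ≤ n, Julia φ (σ k) (σ k) Λ
  hP : ∀ k < n, StolzPath (P k) (σ k) (σ (k + 1)) 4
  hΓ : ∀ k < n, StolzPath (Γ k) (σ k) (σ (k + 1)) (K k)
  eΓ : ∀ k < n, ∀ t, t ≠ 0 → t ≠ 1 → Γ k t = φ (P k t)

/-- Admissible factorisations. -/
structure St (φ : ℂ → ℂ) (σ : ℕ → ℝ) (n : ℕ) (Λ a b : ℝ) (A : Set ℂ) (ψ χ : ℂ → ℂ)
    (s : ℕ → ℝ) : Prop where
  uψ : Univ ψ
  uχ : Univ χ
  fac : ∀ z ∈ H, ψ (χ z) = φ z
  lψ : Low ψ a
  lχ : Low χ b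
  jχ : ∀ k ≤ n, Julia χ (σ k) (s k) (Λ / a)
  s0 : s 0 = σ 0
  gap : ∀ k < n, σ (k + 1) - σ k ≤ s (k + 1) - s k
  avoid : ∀ w ∈ A, w ∉ ψ '' H

lemma le_of_steps {s : ℕ → ℝ} {n : ℕ} (h : ∀ k < n, s k < s (k + 1)) {i j : ℕ} (hij : i ≤ j)
    (hj : j ≤ n) : s i ≤ s j := by
  induction j, hij using Nat.le_induction with
  | base => exact le_rfl
  | succ j _ ih => exact (ih (by omega)).trans (h j (by omega)).le

variable {φ : ℂ → ℂ} {σ : ℕ → ℝ} {n : ℕ} {Λ a b : ℝ} {P Γ : ℕ → UI → ℂ} {K : ℕ → ℝ} {A : Set ℂ}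

lemma St.jψ (D : Dat φ σ n Λ P Γ K) (ha : 0 < a) (hb : 0 < b) {ψ χ : ℂ → ℂ} {s : ℕ → ℝ}
    (S : St φ σ n Λ a b A ψ χ s) {k : ℕ} (hk : k ≤ n) : Julia ψ (s k) (σ k) (Λ / b) := by
  obtain ⟨t, h1, h2⟩ := contact_split S.uψ.toHol S.uχ.toHol ha hb S.lψ S.lχ
    ((D.jφ k hk).congr S.fac)
  rwa [← h1.unique S.uχ.toHol (S.jχ k hk)]

lemma exists_max_state (ha : 0 < a) (hb : 0 < b) {ψ₀ χ₀ : ℂ → ℂ} {s₀ : ℕ → ℝ}
    (S₀ : St φ σ n Λ a b A ψ₀ χ₀ s₀) : ∃ ψ χ s, St φ σ n Λ a b A ψ χ s ∧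
      ∀ ψ' χ' s', St φ σ n Λ a b A ψ' χ' s' → (χ' I).im ≤ (χ I).im := by
  let T : Set ℝ := {r | ∃ ψ χ s, St φ σ n Λ a b A ψ χ s ∧ (χ I).im = r}
  have hTne : T.Nonempty := ⟨_, ψ₀, χ₀, s₀, S₀, rfl⟩
  have hTb : BddAbove T := ⟨(φ I).im / a, by
    rintro _ ⟨ψ, χ, s, S, rfl⟩
    rw [le_div_iff₀ ha, ← S.fac I I_mem_H, mul_comm]
    exact S.lψ _ (S.uχ.maps I_mem_H)⟩
  obtain ⟨u, -, hu, huT⟩ := exists_seq_tendsto_sSup hTne hTb
  choose ψ χ s S hχu using huT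
  let 𝒰 : Ultrafilter ℕ := Ultrafilter.of atTop
  have h𝒰 : (𝒰 : Filter ℕ) ≤ atTop := Ultrafilter.of_le _
  obtain ⟨ψ₁, χ₁, c1, c2, c3, c4, c5, c6, c7⟩ := exists_limit_pair 𝒰 (fun i => (S i).uψ)
    (fun i => (S i).uχ) (fun i => (S i).fac) ha hb (fun i => (S i).lψ) (fun i => (S i).lχ)
    (M := Λ / a * ‖I - σ 0‖ ^ 2 + |σ 0|) (fun i => by
      have := ((S i).jχ 0 (Nat.zero_le _)).norm_I_le' (S i).uχ.toHol
      rwa [(S i).s0] at this)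
  have hs : ∀ k, ∃ t, k ≤ n → Tendsto (fun i => s i k) 𝒰 (𝓝 t) ∧ Julia χ₁ (σ k) t (Λ / a) := by
    intro k
    by_cases hk : k ≤ n
    · obtain ⟨t, ht⟩ := exists_contact_limit 𝒰 (fun i => (S i).uχ.toHol)
        (fun z hz => c7.tendsto_at hz) (fun i => (S i).jχ k hk)
      exact ⟨t, fun _ => ht⟩
    · exact ⟨0, fun h => absurd h hk⟩
  choose t ht using hs
  refine ⟨ψ₁, χ₁, t, ⟨c1, c2, c3, c4, c5, fun k hk => (ht k hk).2, ?_, fun k hk => ?_,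
    fun w hw => ?_⟩, fun ψ' χ' s' S' => ?_⟩
  · have := (ht 0 (Nat.zero_le _)).1
    simp only [(S _).s0] at this
    exact tendsto_nhds_unique this tendsto_const_nhds
  · exact ge_of_tendsto' ((ht (k + 1) hk).1.sub (ht k hk.le).1) fun i => (S i).gap k hk
  · rintro ⟨z, hz, e⟩
    exact limit_ne isOpen_H (fun i => (S i).uψ.diff) c6
      (fun z hz => not_eventually_const_of_injOn isOpen_H c1.inj hz) (a := w)
      (fun i z hz e => (S i).avoid w hw ⟨z, hz, e⟩) z hz e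
  · have := (Complex.continuous_im.tendsto _).comp (c7.tendsto_at I_mem_H)
    simp only [comp_def, hχu] at this
    rw [tendsto_nhds_unique this (hu.mono_left h𝒰)]
    exact le_csSup hTb ⟨ψ', χ', s', S', rfl⟩

lemma exists_better_state (D : Dat φ σ n Λ P Γ K) (ha : 1 ≤ a) (hb : 0 < b)
    (hA : ∀ w ∈ A, ∀ k < n, w ∈ Rout (Γ k) (σ k) (σ (k + 1)))
    {ψ χ : ℂ → ℂ} {s : ℕ → ℝ} (S : St φ σ n Λ a b A ψ χ s) {k : ℕ} (hk : k < n)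
    (hlt : σ (k + 1) - σ k < s (k + 1) - s k) :
    ∃ ψ' χ' s', St φ σ n Λ a b A ψ' χ' s' ∧ (χ I).im < (χ' I).im := by
  have ha0 : 0 < a := by linarith
  have hslt : ∀ j < n, s j < s (j + 1) := fun j hj => by linarith [S.gap j hj, D.lt j hj]
  have jψ : ∀ j ≤ n, Julia ψ (s j) (σ j) (Λ / b) := fun j hj => S.jψ D ha0 hb hj
  have hcψ : a ≤ cInf ψ := S.lψ.le_cInf
  have hcψ0 : 0 < cInf ψ := by linarith
  obtain ⟨Q, KQ, hQ, eQ⟩ := (D.hP k hk).image (D.lt k hk).ne S.uχ.toHol hb S.lχ (S.jχ k hk.le)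
    (S.jχ (k + 1) hk)
  have hΓ := D.hΓ k hk
  have eΓ : ∀ t, t ≠ 0 → t ≠ 1 → Γ k t = ψ (Q t) := fun t h0 h1 => by
    rw [D.eΓ k hk t h0 h1, eQ t h0 h1, S.fac _ ((D.hP k hk).mem t h0 h1)]
  have hnr : ¬ RealOn ψ (s k) (s (k + 1)) := fun hr => by
    have := gap_le S.uψ ha0 S.lψ (hslt k hk) (jψ k hk.le) (jψ (k + 1) hk) hr
    nlinarith [hslt k hk]
  simp only [RealOn, not_forall] at hnr
  obtain ⟨x, hx, hnx⟩ := hnr
  obtain ⟨M, hM⟩ := bounded_between S.uψ ha0 S.lψ (hslt k hk) (jψ k hk.le) (jψ (k + 1) hk)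
  obtain ⟨𝒱, w, h𝒱, hw, hwt⟩ := exists_cluster S.uψ.toHol (hM x (Ioo_subset_Icc_self hx)) hnx
  obtain ⟨hw1, hw2⟩ := limit_notMem_image S.uψ h𝒱 hwt
  have hri := range_inter_subset_image hQ hΓ eΓ
  set R := Rin (Γ k) (σ k) (σ (k + 1)) with hR
  have hwR : w ∈ R := by
    refine (mem_Rin_or_Rout _ _ hw fun h => hw1 (hri ⟨h, hw⟩)).resolve_right fun h => ?_
    obtain ⟨y, hy1, hy2⟩ := ((hwt.eventually (hΓ.isOpen_Rout.mem_nhds h)).and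
      (h𝒱 (eventually_image_mem_Rin hQ hΓ S.uψ ha0 S.lψ eΓ hx))).exists
    exact disjoint_left.1 (disjoint_Rin_Rout _ _ _) hy2 hy1
  obtain ⟨ψ₁, u₁, i1, i2, i3⟩ := exists_enlarge S.uψ (S.uψ.isOpen_image.union hΓ.isOpen_Rin)
    (S.uψ.propC.union S.uψ.maps.image_subset (fun _ h => h.1) hΓ.isOpen_Rout
      (disjoint_Rin_Rout _ _ _) fun z hz => mem_Rin_or_Rout _ _ hz.1 fun h => hz.2 (hri ⟨h, hz.1⟩))
    subset_union_left (union_subset S.uψ.maps.image_subset fun _ h => h.1) (Or.inr hwR) hw2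
  obtain ⟨ψ₂, h₁, u₂, uh, im₂, f₂, lh, l₂, jh⟩ := factor_norm S.uψ hcψ0 u₁ i1
    (jψ 0 (Nat.zero_le _))
  have hns : ¬ H ⊆ h₁ '' H := not_surj_of_factor f₂ fun h => hw1 (h (im₂ ▸ i3))
  have hreal : ∀ j < n, j ≠ k → RealOn h₁ (s j) (s (j + 1)) := by
    intro j hj hjk x hx
    obtain ⟨t₁, j1, -⟩ := contact_split u₂.toHol uh.toHol hcψ0 one_pos l₂ lh
      ((jψ j hj.le).congr f₂)
    obtain ⟨t₂, j2, -⟩ := contact_split u₂.toHol uh.toHol hcψ0 one_pos l₂ lh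
      ((jψ (j + 1) hj).congr f₂)
    obtain ⟨M, hM⟩ := bounded_between uh one_pos lh (hslt j hj) j1 j2
    apply tendsto_im_factor S.uψ u₂ uh f₂ hΓ.isOpen_Rin (im₂ ▸ i2) (hM x (Ioo_subset_Icc_self hx))
    have hx' : x < s k ∨ s (k + 1) < x := by
      rcases lt_or_gt_of_ne hjk with h | h
      · exact Or.inl (hx.2.trans_le (le_of_steps hslt h hk.le))
      · exact Or.inr ((le_of_steps hslt h hj.le).trans_lt hx.1)
    filter_upwards [eventually_image_mem_Rout hQ hΓ S.uψ ha0 S.lψ eΓ (hslt k hk) hx'] with y hy h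
    exact disjoint_left.1 (disjoint_Rin_Rout _ _ _) h hy
  obtain ⟨𝒰, gb, ga, hg, hlim⟩ := small_factor uh lh
    (cInf_le_one_of_factor u₂.toHol uh.toHol hcψ0 f₂ lh l₂) hns jh
  have uψ' : ∀ m, Univ (fun z => ψ₂ (gb m z)) := fun m => u₂.comp (hg m).1
  have lψ' : ∀ m, Low (fun z => ψ₂ (gb m z)) a := fun m => by
    simpa using (l₂.mono hcψ).comp (hg m).2.2.2.2.1 ha0.le (hg m).1.maps
  have fψ' : ∀ m, ∀ z ∈ H, ψ₂ (gb m (ga m z)) = ψ z := fun m z hz => by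
    rw [(hg m).2.2.1 z hz, f₂ z hz]
  have ht : ∀ m j, ∃ t, j ≤ n → Julia (ga m) (s j) t (Λ / b / a) := by
    intro m j
    by_cases hj : j ≤ n
    · obtain ⟨t, h1, -⟩ := contact_split (uψ' m).toHol (hg m).2.1.toHol ha0 one_pos (lψ' m)
        (hg m).2.2.2.1 ((jψ j hj).congr (fψ' m))
      exact ⟨t, fun _ => h1⟩
    · exact ⟨0, fun h => absurd h hj⟩
  choose t ht using ht
  have htl : ∀ j ≤ n, Tendsto (fun m => t m j) 𝒰 (𝓝 (s j)) := by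
    intro j hj
    obtain ⟨t₀, h1, h2⟩ := exists_contact_limit 𝒰 (fun m => (hg m).2.1.toHol) hlim
      (fun m => ht m j hj)
    rwa [h2.unique univ_id.toHol (julia_id _)] at h1
  obtain ⟨m, hm⟩ := (((htl (k + 1) hk).sub (htl k hk.le)).eventually_const_lt hlt).exists
  obtain ⟨ub, ua, fb, la, lb, ja, nsa⟩ := hg m
  have uχ' : Univ (fun z => ga m (χ z)) := ua.comp S.uχ
  have lχ' : Low (fun z => ga m (χ z)) b := by
    simpa using la.comp S.lχ zero_le_one S.uχ.maps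
  have fac' : ∀ z ∈ H, ψ₂ (gb m (ga m (χ z))) = φ z := fun z hz => by
    rw [fψ' m _ (S.uχ.maps hz), S.fac z hz]
  refine ⟨fun z => ψ₂ (gb m z), fun z => ga m (χ z), t m, ⟨uψ' m, uχ', fac', lψ' m, lχ',
    fun j hj => ?_, ?_, fun j hj => ?_, fun v hv h => ?_⟩,
    im_lt_of_not_surj ua.toHol la nsa (S.uχ.maps I_mem_H)⟩
  · obtain ⟨t', h1, -⟩ := contact_split (uψ' m).toHol uχ'.toHol ha0 hb (lψ' m) lχ'
      ((D.jφ j hj).congr fac')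
    rwa [h1.unique uχ'.toHol ((ht m j hj).comp ua.toHol S.uχ.toHol (S.jχ j hj))] at h1
  · rw [← S.s0]
    exact (ht m 0 (Nat.zero_le _)).unique ua.toHol ja
  · by_cases e : j = k
    · rw [e]; exact hm.le
    · have := gap_le ua one_pos la (hslt j hj) (ht m j hj.le) (ht m (j + 1) hj)
        ((hreal j hj e).of_le ua.toHol fun z hz => by
          simpa [fb z hz] using lb _ (ua.maps hz))
      linarith [S.gap j hj]
  · obtain ⟨z, hz, rfl⟩ := h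
    rcases i2 (im₂ ▸ ⟨gb m z, ub.maps hz, rfl⟩ : ψ₂ (gb m z) ∈ ψ₁ '' H) with h | h
    · exact S.avoid _ hv h
    · exact disjoint_left.1 (disjoint_Rin_Rout _ _ _) h (hA _ hv k hk)

lemma exists_fixed_state (D : Dat φ σ n Λ P Γ K) (ha : 1 ≤ a) (hb : 0 < b)
    (hA : ∀ w ∈ A, ∀ k < n, w ∈ Rout (Γ k) (σ k) (σ (k + 1)))
    {ψ₀ χ₀ : ℂ → ℂ} {s₀ : ℕ → ℝ} (S₀ : St φ σ n Λ a b A ψ₀ χ₀ s₀) :
    ∃ ψ χ, Univ ψ ∧ Univ χ ∧ (∀ z ∈ H, ψ (χ z) = φ z) ∧ Low ψ a ∧ Low χ b ∧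
      (∀ k ≤ n, Julia ψ (σ k) (σ k) (Λ / b) ∧ Julia χ (σ k) (σ k) (Λ / a)) ∧
      (∀ w ∈ A, w ∉ ψ '' H) ∧ (χ₀ I).im ≤ (χ I).im := by
  have ha0 : 0 < a := by linarith
  obtain ⟨ψ, χ, s, S, hmax⟩ := exists_max_state ha0 hb S₀
  have h1 : ∀ k < n, s (k + 1) - s k = σ (k + 1) - σ k := fun k hk => by
    by_contra h
    obtain ⟨ψ', χ', s', S', hlt⟩ := exists_better_state D ha hb hA S hk
      (lt_of_le_of_ne (S.gap k hk) (Ne.symm h))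
    exact absurd (hmax _ _ _ S') (not_le.2 hlt)
  have h2 : ∀ k ≤ n, s k = σ k := by
    intro k hk
    induction k with
    | zero => exact S.s0
    | succ k ih => linarith [h1 k hk, ih (by omega)]
  refine ⟨ψ, χ, S.uψ, S.uχ, S.fac, S.lψ, S.lχ, fun k hk => ⟨?_, ?_⟩, S.avoid, hmax _ _ _ S₀⟩
  · simpa [h2 k hk] using S.jψ D ha0 hb hk
  · simpa [h2 k hk] using S.jχ k hk

end Pool.Agent.MP_1a2790_an
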