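import Pool.Agent.MP_1a2790_an.Top
import Pool.Agent.MP_1a2790_an.Jwc

/-! Normalised factorisations, compactness, small factors. -/

open Complex Set Filter Topology Metric Function
open scoped ComplexConjugate

namespace Pool.Agent.MP_1a2790_an

lemma image_comp_of_surj {ψ m : ℂ → ℂ} (hm : MapsTo m H H) (hs : H ⊆ m '' H) :
    (fun z => ψ (m z)) '' H = ψ '' H := by
  apply Subset.antisymm
  · rintro _ ⟨z, hz, rfl⟩; exact ⟨m z, hm hz, rfl⟩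
  · rintro _ ⟨z, hz, rfl⟩
    obtain ⟨w, hw, rfl⟩ := hs hz
    exact ⟨w, hw, rfl⟩

lemma surj_affine {a : ℝ} (ha : 0 < a) (b : ℝ) : H ⊆ (fun z => (a : ℂ) * z + b) '' H := by
  intro z hz
  refine ⟨((a⁻¹ : ℝ) : ℂ) * z + ((-(b / a) : ℝ) : ℂ), (univ_affine (inv_pos.2 ha) _).maps hz, ?_⟩
  have : (a : ℂ) ≠ 0 := by exact_mod_cast ha.ne'
  push_cast
  field_simp
  ring

lemma factor_norm_aux {g ψ h : ℂ → ℂ} (hψ : Univ ψ) (hh : Univ h) (e : ∀ z ∈ H, ψ (h z) = g z)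
    (hc : 0 < cInf h) : ∃ ψ' h', Univ ψ' ∧ Univ h' ∧ ψ' '' H = ψ '' H ∧
      (∀ z ∈ H, ψ' (h' z) = g z) ∧ Low h' 1 ∧ Low ψ' (cInf g) := by
  set κ := cInf h
  have hκ : (κ : ℂ) ≠ 0 := by exact_mod_cast hc.ne'
  refine ⟨fun w => ψ (κ * w + (0 : ℝ)), fun z => (κ⁻¹ : ℝ) * h z + (0 : ℝ),
    hψ.comp (univ_affine hc 0), (univ_affine (inv_pos.2 hc) 0).comp hh,
    image_comp_of_surj (univ_affine hc 0).maps (surj_affine hc 0), fun z hz => ?_, fun z hz => ?_,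
    fun z hz => ?_⟩
  · rw [← e z hz]; beta_reduce; congr 1; push_cast; field_simp; ring
  · have := hh.toHol.low_cInf z hz
    simp only [add_im, mul_im, ofReal_re, ofReal_im, zero_mul, add_zero, one_mul]
    rw [← div_eq_inv_mul, le_div_iff₀ hc]
    linarith
  · have h1 := hψ.toHol.low_cInf _ ((univ_affine hc 0).maps hz)
    have h2 : cInf g = cInf ψ * κ := by
      rw [← cInf_comp hψ.toHol hh.toHol hc]
      exact cInf_congr fun z hz => (e z hz).symm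
    rw [h2]
    simpa [mul_assoc] using h1

lemma factor_norm₀ {g ψ : ℂ → ℂ} (hg : Univ g) (hc : 0 < cInf g) (hψ : Univ ψ)
    (hsub : g '' H ⊆ ψ '' H) : ∃ ψ' h', Univ ψ' ∧ Univ h' ∧ ψ' '' H = ψ '' H ∧
      (∀ z ∈ H, ψ' (h' z) = g z) ∧ Low h' 1 ∧ Low ψ' (cInf g) := by
  obtain ⟨h, hh, e⟩ := exists_factor hg hψ hsub
  rcases normalize_contact hψ.toHol hh.toHol (by rwa [cInf_congr e]) with h1 | ⟨ξ, h1⟩
  · exact factor_norm_aux hψ hh e h1
  · obtain ⟨ψ', h', a1, a2, a3, a4⟩ := factor_norm_aux (g := g) (hψ.comp (univ_bom ξ))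
      ((univ_mob ξ).comp hh) (fun z hz => by simp only [bom_mob]; exact e z hz) h1
    refine ⟨ψ', h', a1, a2, ?_, a4⟩
    rw [a3]
    exact image_comp_of_surj (univ_bom ξ).maps fun z hz => ⟨mob ξ z, mob_mem_H ξ hz, bom_mob ξ z⟩

lemma univ_translate (b : ℝ) : Univ (fun z => z + b) :=
  (univ_affine one_pos b).congr fun z _ => by simp

lemma surj_translate (b : ℝ) : H ⊆ (fun z => z + b) '' H := fun z hz =>
  ⟨z + ((-b : ℝ) : ℂ), (univ_translate _).maps hz, by simp⟩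

lemma low_translate (b : ℝ) : Low (fun z => z + b) 1 := fun z _ => by simp

lemma Low.add_real {h : ℂ → ℂ} {c : ℝ} (hl : Low h c) (b : ℝ) : Low (fun z => h z + b) c :=
  fun z hz => by simpa using hl z hz

lemma Low.comp_add_real {h : ℂ → ℂ} {c : ℝ} (hl : Low h c) (b : ℝ) :
    Low (fun z => h (z + b)) c := fun z hz => by
  simpa using hl _ ((univ_translate b).maps hz)

lemma Julia.add_real {h : ℂ → ℂ} {s t Λ : ℝ} (hj : Julia h s t Λ) (b : ℝ) :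
    Julia (fun z => h z + b) s (t + b) Λ := fun z hz => by
  simpa using hj z hz

lemma cInf_le_one_of_factor {g ψ h : ℂ → ℂ} (hψ : Hol ψ) (hh : Hol h) (hc : 0 < cInf g)
    (e : ∀ z ∈ H, ψ (h z) = g z) (l1 : Low h 1) (l2 : Low ψ (cInf g)) : cInf h ≤ 1 := by
  have h1 : 0 < cInf h := lt_of_lt_of_le one_pos l1.le_cInf
  have h2 : cInf g = cInf ψ * cInf h := by
    rw [← cInf_comp hψ hh h1]
    exact cInf_congr fun z hz => (e z hz).symm
  have h3 := l2.le_cInf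
  by_contra hh
  push Not at hh
  nlinarith

lemma factor_norm {g ψ : ℂ → ℂ} (hg : Univ g) (hc : 0 < cInf g) (hψ : Univ ψ)
    (hsub : g '' H ⊆ ψ '' H) {s σ Λ : ℝ} (hj : Julia g s σ Λ) :
    ∃ ψ' h', Univ ψ' ∧ Univ h' ∧ ψ' '' H = ψ '' H ∧
      (∀ z ∈ H, ψ' (h' z) = g z) ∧ Low h' 1 ∧ Low ψ' (cInf g) ∧ Julia h' s s (Λ / cInf g) := by
  obtain ⟨ψ', h', a1, a2, a3, a4, a5, a6⟩ := factor_norm₀ hg hc hψ hsub
  obtain ⟨t, ht, -⟩ := contact_split a1.toHol a2.toHol hc one_pos a6 a5 (hj.congr a4)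
  refine ⟨fun w => ψ' (w + ((t - s : ℝ) : ℂ)), fun z => h' z + ((s - t : ℝ) : ℂ),
    a1.comp (univ_translate _), (univ_translate _).comp a2, ?_, fun z hz => ?_, a5.add_real _,
    a6.comp_add_real _, ?_⟩
  · rw [← a3]
    exact image_comp_of_surj (univ_translate _).maps (surj_translate _)
  · rw [← a4 z hz]; beta_reduce; congr 1; push_cast; ring
  · simpa using ht.add_real (s - t)

lemma exists_limit {ι : Type*} (𝒰 : Ultrafilter ι) {F : ι → ℂ → ℂ} (hF : ∀ i, Univ (F i))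
    {c : ℝ} (hc : 0 < c) (hl : ∀ i, Low (F i) c) {w : ι → ℂ} {δ M : ℝ} (hδ : 0 < δ)
    (h1 : ∀ i, δ ≤ (w i).im ∧ ‖w i‖ ≤ M ∧ ‖F i (w i)‖ ≤ M) :
    ∃ f, Univ f ∧ Low f c ∧ TendstoLocallyUniformlyOn F f 𝒰 H := by
  obtain ⟨f, hf⟩ := montel 𝒰 (U := H) (F := F) (fun i => (hF i).diff) (fun z hz => by
    have hz' : 0 < z.im := hz
    have hb : ∀ u ∈ ball z (z.im / 2), z.im / 2 ≤ u.im ∧ ‖u‖ ≤ ‖z‖ + z.im / 2 := by
      intro u hu
      rw [mem_ball, dist_eq_norm] at hu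
      have a1 := Complex.abs_im_le_norm (u - z)
      rw [sub_im] at a1
      have a2 := norm_sub_norm_le u z
      constructor <;> linarith [neg_abs_le (u.im - z.im)]
    refine ⟨z.im / 2, by positivity, M + (‖z‖ + z.im / 2 + M) ^ 2 * M / (z.im / 2 * δ),
      fun u hu => lt_of_lt_of_le (by positivity) (hb u hu).1,
      Eventually.of_forall fun i u hu => ?_⟩
    obtain ⟨b1, b2, b3⟩ := h1 i
    obtain ⟨b4, b5⟩ := hb u hu
    have hu' : u ∈ H := lt_of_lt_of_le (by positivity) b4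
    have hw : w i ∈ H := hδ.trans_le b1
    have a1 := norm_sub_conj_le (hF i).diff (fun z hz => le_of_lt ((hF i).maps hz)) hu' hw
    have a2 : ‖u - conj (w i)‖ ≤ ‖z‖ + z.im / 2 + M := by
      have := norm_sub_le u (conj (w i))
      rw [Complex.norm_conj] at this
      linarith
    have a3 : (F i (w i)).im ≤ M := (Complex.im_le_norm _).trans b3
    have a4 : 0 < (F i (w i)).im := (hF i).maps hw
    have a4' : 0 < u.im := hu'
    have a5 : ‖F i u - conj (F i (w i))‖ * (z.im / 2 * δ) ≤ (‖z‖ + z.im / 2 + M) ^ 2 * M :=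
      le_trans (by gcongr) (a1.trans (by gcongr))
    rw [← le_div_iff₀ (by positivity)] at a5
    have a6 := norm_add_le (F i u - conj (F i (w i))) (conj (F i (w i)))
    rw [sub_add_cancel, Complex.norm_conj] at a6
    linarith)
  have hfd : DifferentiableOn ℂ f H :=
    hf.differentiableOn (Eventually.of_forall fun i => (hF i).diff) isOpen_H
  have hfl : Low f c := fun z hz =>
    ge_of_tendsto' ((Complex.continuous_im.tendsto _).comp (hf.tendsto_at hz)) fun i => hl i z hz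
  have hfm : MapsTo f H H := fun z hz => lt_of_lt_of_le (mul_pos hc hz) (hfl z hz)
  refine ⟨f, ⟨⟨hfd, hfm⟩, ?_⟩, hfl, hf⟩
  apply limit_injOn isOpen_H (fun i => (hF i).diff) hf _ fun i => (hF i).inj
  intro z₀ hz₀
  have hI : 0 < (f I).im := hfm I_mem_H
  have hy : 0 < ((f I).im + 1) / c := by positivity
  apply not_eventually_const isOpen_H isPreconnected_H hfd (mul_I_mem_H hy) I_mem_H _ hz₀
  intro e
  have := hfl _ (mul_I_mem_H hy)
  rw [e] at this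
  simp only [mul_im, ofReal_re, I_im, mul_one, ofReal_im, I_re, mul_zero, add_zero] at this
  rw [mul_div_cancel₀ _ hc.ne'] at this
  linarith

lemma tendsto_comp_H {ι : Type*} {l : Filter ι} [l.NeBot] {F : ι → ℂ → ℂ} {f : ℂ → ℂ}
    (hf : Hol f) (hF : TendstoLocallyUniformlyOn F f l H) {w : ι → ℂ} {w₀ : ℂ} (hw₀ : w₀ ∈ H)
    (hw : Tendsto w l (𝓝 w₀)) : Tendsto (fun i => F i (w i)) l (𝓝 (f w₀)) :=
  hF.tendsto_comp (hf.cont w₀ hw₀) hw₀ (by rwa [isOpen_H.nhdsWithin_eq hw₀])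

lemma exists_limit_pair {ι : Type*} (𝒰 : Ultrafilter ι) {φ : ℂ → ℂ} {ψ χ : ι → ℂ → ℂ}
    (hψ : ∀ i, Univ (ψ i)) (hχ : ∀ i, Univ (χ i)) (e : ∀ i, ∀ z ∈ H, ψ i (χ i z) = φ z)
    {a b M : ℝ} (ha : 0 < a) (hb : 0 < b) (la : ∀ i, Low (ψ i) a) (lb : ∀ i, Low (χ i) b)
    (hM : ∀ i, ‖χ i I‖ ≤ M) :
    ∃ ψ₀ χ₀, Univ ψ₀ ∧ Univ χ₀ ∧ (∀ z ∈ H, ψ₀ (χ₀ z) = φ z) ∧ Low ψ₀ a ∧ Low χ₀ b ∧
      TendstoLocallyUniformlyOn ψ ψ₀ 𝒰 H ∧ TendstoLocallyUniformlyOn χ χ₀ 𝒰 H := by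
  obtain ⟨χ₀, h1, h2, h3⟩ := exists_limit 𝒰 hχ hb lb (w := fun _ => I) (M := max 1 M) one_pos
    fun i => ⟨by simp, by simp, (hM i).trans (le_max_right _ _)⟩
  obtain ⟨ψ₀, k1, k2, k3⟩ := exists_limit 𝒰 hψ ha la (w := fun i => χ i I) (M := max ‖φ I‖ M) hb
    fun i => ⟨by simpa using lb i I I_mem_H, (hM i).trans (le_max_right _ _), by
      rw [e i I I_mem_H]; exact le_max_left _ _⟩
  refine ⟨ψ₀, χ₀, k1, h1, fun z hz => ?_, k2, h2, k3, h3⟩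
  have := tendsto_comp_H k1.toHol k3 (h1.maps hz) (h3.tendsto_at hz)
  simp only [e _ z hz] at this
  exact tendsto_nhds_unique this tendsto_const_nhds

lemma julia_limit {ι : Type*} {l : Filter ι} [l.NeBot] {F : ι → ℂ → ℂ} {f : ℂ → ℂ}
    (hF : ∀ z ∈ H, Tendsto (fun i => F i z) l (𝓝 (f z))) {s σ Λ : ι → ℝ} {s₀ σ₀ Λ₀ : ℝ}
    (hs : Tendsto s l (𝓝 s₀)) (hσ : Tendsto σ l (𝓝 σ₀)) (hΛ : Tendsto Λ l (𝓝 Λ₀))
    (hj : ∀ᶠ i in l, Julia (F i) (s i) (σ i) (Λ i)) : Julia f s₀ σ₀ Λ₀ := by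
  intro z hz
  have t1 : Tendsto (fun i => z.im * ‖F i z - σ i‖ ^ 2) l (𝓝 (z.im * ‖f z - σ₀‖ ^ 2)) :=
    ((((hF z hz).sub ((Complex.continuous_ofReal.tendsto _).comp hσ)).norm).pow 2).const_mul _
  have t2 : Tendsto (fun i => Λ i * ‖z - s i‖ ^ 2 * (F i z).im) l
      (𝓝 (Λ₀ * ‖z - s₀‖ ^ 2 * (f z).im)) :=
    (hΛ.mul (((tendsto_const_nhds.sub
      ((Complex.continuous_ofReal.tendsto _).comp hs)).norm).pow 2)).mul
      ((Complex.continuous_im.tendsto _).comp (hF z hz))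
  exact le_of_tendsto_of_tendsto t1 t2 (hj.mono fun i hi => hi z hz)

lemma Julia.norm_I_le {f : ℂ → ℂ} (hf : Hol f) {s σ Λ : ℝ} (h : Julia f s σ Λ) :
    ‖f I - σ‖ ≤ Λ * ‖I - s‖ ^ 2 := by simpa using h.norm_le hf I_mem_H

lemma Julia.norm_I_le' {f : ℂ → ℂ} (hf : Hol f) {s σ Λ : ℝ} (h : Julia f s σ Λ) :
    ‖f I‖ ≤ Λ * ‖I - s‖ ^ 2 + |σ| := by
  have h1 := h.norm_I_le hf
  have h2 := norm_add_le (f I - σ) σ
  rw [sub_add_cancel, Complex.norm_real, Real.norm_eq_abs] at h2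
  linarith

lemma Julia.abs_le {f : ℂ → ℂ} (hf : Hol f) {s σ Λ : ℝ} (h : Julia f s σ Λ) :
    |σ| ≤ Λ * ‖I - s‖ ^ 2 + ‖f I‖ := by
  have h1 := h.norm_I_le hf
  have h2 := norm_sub_le (f I) (f I - σ)
  rw [sub_sub_cancel, Complex.norm_real, Real.norm_eq_abs] at h2
  linarith

/-- Limits of contact values. -/
lemma exists_contact_limit {ι : Type*} (𝒰 : Ultrafilter ι) {F : ι → ℂ → ℂ} {f : ℂ → ℂ}
    (hH : ∀ i, Hol (F i)) (hF : ∀ z ∈ H, Tendsto (fun i => F i z) 𝒰 (𝓝 (f z))) {s Λ : ℝ}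
    {t : ι → ℝ} (hj : ∀ i, Julia (F i) s (t i) Λ) :
    ∃ t₀, Tendsto t 𝒰 (𝓝 t₀) ∧ Julia f s t₀ Λ := by
  obtain ⟨t₀, ht₀⟩ := exists_tendsto_of_bounded_real 𝒰 (a := t)
    (M := Λ * ‖I - s‖ ^ 2 + (‖f I‖ + 1)) (by
      filter_upwards [(hF I I_mem_H).norm.eventually_lt_const (lt_add_one ‖f I‖)] with i hi
      linarith [(hj i).abs_le (hH i)])
  exact ⟨t₀, ht₀, julia_limit hF tendsto_const_nhds ht₀ tendsto_const_nhds
    (Eventually.of_forall hj)⟩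

lemma translation_of_im_le {h : ℂ → ℂ} (hh : Hol h) (hl : Low h 1) {w : ℂ} (hw : w ∈ H)
    (hle : (h w).im ≤ w.im) : ∃ b : ℝ, ∀ z ∈ H, h z = z + b := by
  have hp0 : ∀ z ∈ H, 0 ≤ (h z - z).im := fun z hz => by
    have := hl z hz
    rw [sub_im]; linarith
  have h0 : (h w - w).im = 0 := le_antisymm (by rw [sub_im]; linarith) (hp0 w hw)
  refine ⟨(h w - w).re, fun z hz => ?_⟩
  have := const_of_im_eq_zero (p := fun z => h z - z) (hh.diff.sub differentiableOn_id) hp0 hw h0 hz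
  have e : (((h w - w).re : ℝ) : ℂ) = h w - w := Complex.ext (by simp) (by simp [h0.symm])
  rw [e]
  linear_combination this

lemma im_lt_of_not_surj {h : ℂ → ℂ} (hh : Hol h) (hl : Low h 1) (hs : ¬ H ⊆ h '' H) {w : ℂ}
    (hw : w ∈ H) : w.im < (h w).im := by
  by_contra hle
  obtain ⟨b, hb⟩ := translation_of_im_le hh hl hw (not_lt.1 hle)
  apply hs
  rw [image_congr hb]
  exact surj_translate b

lemma eq_id_of_im_le {h : ℂ → ℂ} (hh : Hol h) (hl : Low h 1) {s Λ : ℝ} (hj : Julia h s s Λ)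
    {w : ℂ} (hw : w ∈ H) (hle : (h w).im ≤ w.im) : ∀ z ∈ H, h z = z := by
  obtain ⟨b, hb⟩ := translation_of_im_le hh hl hw hle
  have h1 : Julia h s (s + b) 1 := ((julia_id s).add_real b).congr hb
  have h2 : b = 0 := by linarith [hj.unique hh h1]
  simpa [h2] using hb

lemma low_inverse_of_surj {h : ℂ → ℂ} (hh : Univ h) (hc : 0 < cInf h) (hs : H ⊆ h '' H) {w : ℂ}
    (hw : w ∈ H) : (h w).im ≤ cInf h * w.im := by
  obtain ⟨g, hg, e⟩ := exists_factor univ_id hh (by simpa using hs)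
  have e' : ∀ z ∈ H, g (h z) = z := fun z hz => hh.inj (hg.maps (hh.maps hz)) hz (e _ (hh.maps hz))
  have h1 : cInf g * cInf h = 1 := by
    rw [← cInf_comp hg.toHol hh.toHol hc, cInf_congr e']
    simpa using cInf_affine 0 one_pos
  have h2 := hg.toHol.low_cInf _ (hh.maps hw)
  rw [e' w hw] at h2
  calc (h w).im = cInf h * (cInf g * (h w).im) := by rw [← mul_assoc, mul_comm (cInf h), h1, one_mul]
    _ ≤ _ := by gcongr

lemma exists_enlarge {g : ℂ → ℂ} (hg : Univ g) {U : Set ℂ} (hU : IsOpen U) (hC : PropC U)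
    (h1 : g '' H ⊆ U) (h2 : U ⊆ H) {a : ℂ} (haU : a ∈ U) (ha : a ∈ closure (g '' H)) :
    ∃ ψ, Univ ψ ∧ g '' H ⊆ ψ '' H ∧ ψ '' H ⊆ U ∧ a ∈ ψ '' H := by
  have hD : IsPreconnected (g '' H) := isPreconnected_H.image _ hg.toHol.cont
  have h0 : g I ∈ g '' H := ⟨I, I_mem_H, rfl⟩
  obtain ⟨ψ, hψ, e⟩ := exists_univ_image_eq hU.connectedComponentIn
    isPreconnected_connectedComponentIn (hC.component hU (g I))
    ((connectedComponentIn_subset _ _).trans h2) (mem_connectedComponentIn (h1 h0))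
  refine ⟨ψ, hψ, ?_, ?_, ?_⟩ <;> rw [e]
  · exact hD.subset_connectedComponentIn h0 h1
  · exact connectedComponentIn_subset _ _
  · exact mem_component_of_closure hD h1 h0 haU ha

lemma Univ.isOpen_image {g : ℂ → ℂ} (hg : Univ g) : IsOpen (g '' H) :=
  isOpen_image_of_injOn isOpen_H hg.diff hg.inj

lemma Univ.propC {g : ℂ → ℂ} (hg : Univ g) : PropC (g '' H) := propC_image hg.diff hg.inj

/-- A proper simply connected subdomain has a strictly intermediate one. -/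
lemma exists_refine {h : ℂ → ℂ} (hh : Univ h) (hs : ¬ H ⊆ h '' H) :
    ∃ ψ, Univ ψ ∧ h '' H ⊆ ψ '' H ∧ ¬ ψ '' H ⊆ h '' H ∧ ¬ H ⊆ ψ '' H := by
  obtain ⟨a, ha1, ha2, ha3⟩ : ∃ a, a ∈ closure (h '' H) ∧ a ∈ H ∧ a ∉ h '' H := by
    by_contra hh'
    push Not at hh'
    exact hs (isPreconnected_H.subset_of_closure_inter_subset hh.isOpen_image
      ⟨h I, hh.maps I_mem_H, I, I_mem_H, rfl⟩ fun a ha => hh' a ha.1 ha.2)
  obtain ⟨ε, hε, hsub⟩ := Metric.nhds_basis_closedBall.mem_iff.1 (H_mem_nhds ha2)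
  have hU := hh.isOpen_image.union (isOpen_ball (x := a) (ε := ε))
  obtain ⟨ψ, hψ, b1, b2, b3⟩ := exists_enlarge hh (isOpen_fill hU) (propC_fill hU)
    (subset_union_left.trans subset_union_left)
    (fill_subset_H (union_subset hh.maps.image_subset (ball_subset_closedBall.trans hsub)))
    (Or.inl (Or.inr (mem_ball_self hε))) ha1
  exact ⟨ψ, hψ, b1, fun h' => ha3 (h' b3), fun h' =>
    not_subset_fill hh.isOpen_image hh.propC ha3 hε (hsub.trans (h'.trans b2))⟩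

lemma not_surj_of_factor {g ψ h : ℂ → ℂ} (e : ∀ z ∈ H, ψ (h z) = g z)
    (hn : ¬ ψ '' H ⊆ g '' H) : ¬ H ⊆ h '' H := by
  intro hs
  apply hn
  rintro _ ⟨w, hw, rfl⟩
  obtain ⟨z, hz, rfl⟩ := hs hw
  exact ⟨z, hz, (e z hz).symm⟩

lemma refine_factor {h : ℂ → ℂ} (hh : Univ h) (hl : Low h 1) (hs : ¬ H ⊆ h '' H) {s σ Λ : ℝ}
    (hj : Julia h s σ Λ) : ∃ hb ha, Univ hb ∧ Univ ha ∧ (∀ z ∈ H, hb (ha z) = h z) ∧ Low ha 1 ∧
      Low hb 1 ∧ Julia ha s s Λ ∧ ¬ H ⊆ ha '' H ∧ ¬ H ⊆ hb '' H := by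
  obtain ⟨ψ, hψ, b1, b2, b3⟩ := exists_refine hh hs
  have hc : 1 ≤ cInf h := hl.le_cInf
  obtain ⟨hb, ha, a1, a2, a3, a4, a5, a6, a7⟩ := factor_norm hh (by linarith) hψ b1 hj
  refine ⟨hb, ha, a1, a2, a4, a5, a6.mono hc, a7.mono a2.toHol ?_,
    not_surj_of_factor a4 (a3 ▸ b2), a3 ▸ b3⟩
  exact div_le_self (hj.pos hh.toHol).le hc

/-- Arbitrarily small nontrivial inner factors. -/
lemma small_factor {h : ℂ → ℂ} (hh : Univ h) (hl : Low h 1) (hc : cInf h ≤ 1)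
    (hs : ¬ H ⊆ h '' H) {s Λ : ℝ} (hj : Julia h s s Λ) :
    ∃ (𝒰 : Ultrafilter ℕ) (hb ha : ℕ → ℂ → ℂ), (∀ n, Univ (hb n) ∧ Univ (ha n) ∧
      (∀ z ∈ H, hb n (ha n z) = h z) ∧ Low (ha n) 1 ∧ Low (hb n) 1 ∧ Julia (ha n) s s Λ ∧
      ¬ H ⊆ ha n '' H) ∧ ∀ z ∈ H, Tendsto (fun n => ha n z) 𝒰 (𝓝 z) := by
  let P : (ℂ → ℂ) → (ℂ → ℂ) → Prop := fun hb ha => Univ hb ∧ Univ ha ∧
      (∀ z ∈ H, hb (ha z) = h z) ∧ Low ha 1 ∧ Low hb 1 ∧ Julia ha s s Λ ∧ ¬ H ⊆ ha '' H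
  let S : Set ℝ := {r | ∃ hb ha, P hb ha ∧ (ha I).im = r}
  have hSne : S.Nonempty := ⟨_, fun z => z, h, ⟨univ_id, hh, fun _ _ => rfl, hl, low_id, hj, hs⟩, rfl⟩
  have hSb : BddBelow S := ⟨1, by
    rintro _ ⟨hb, ha, hP, rfl⟩
    simpa using hP.2.2.2.1 I I_mem_H⟩
  obtain ⟨u, -, hu, huS⟩ := exists_seq_tendsto_sInf hSne hSb
  choose hb ha hP hau using huS
  let 𝒰 : Ultrafilter ℕ := Ultrafilter.of atTop
  have h𝒰 : (𝒰 : Filter ℕ) ≤ atTop := Ultrafilter.of_le _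
  obtain ⟨b₀, a₀, c1, c2, c3, c4, c5, c6, c7⟩ := exists_limit_pair 𝒰 (fun n => (hP n).1)
    (fun n => (hP n).2.1) (fun n => (hP n).2.2.1) one_pos one_pos (fun n => (hP n).2.2.2.2.1)
    (fun n => (hP n).2.2.2.1) (fun n => (hP n).2.2.2.2.2.1.norm_I_le' (hP n).2.1.toHol)
  have hja : Julia a₀ s s Λ := julia_limit (fun z hz => c7.tendsto_at hz) tendsto_const_nhds
    tendsto_const_nhds tendsto_const_nhds (Eventually.of_forall fun n => (hP n).2.2.2.2.2.1)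
  have hm : (a₀ I).im = sInf S := by
    have := (Complex.continuous_im.tendsto _).comp (c7.tendsto_at I_mem_H)
    simp only [comp_def, hau] at this
    exact tendsto_nhds_unique this (hu.mono_left h𝒰)
  have hsurj : H ⊆ a₀ '' H := by
    by_contra hns
    obtain ⟨b', a', d1, d2, d3, d4, d5, d6, d7, d8⟩ := refine_factor c2 c5 hns hja
    have hmem : (a' I).im ∈ S := ⟨fun z => b₀ (b' z), a', ⟨c1.comp d1, d2, fun z hz => by
      simp only [d3 z hz, c3 z hz], d4, by simpa using c4.comp d5 zero_le_one d1.maps, d6, d7⟩, rfl⟩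
    have h1 := csInf_le hSb hmem
    have h2 := im_lt_of_not_surj d1.toHol d5 d8 (d2.maps I_mem_H)
    rw [d3 I I_mem_H] at h2
    linarith
  have hca : cInf a₀ ≤ 1 := by
    have h0 : 0 < cInf h := lt_of_lt_of_le one_pos hl.le_cInf
    exact cInf_le_one_of_factor c1.toHol c2.toHol h0 c3 c5 (c4.mono hc)
  have hid := eq_id_of_im_le c2.toHol c5 hja I_mem_H (by
    have := low_inverse_of_surj c2 (lt_of_lt_of_le one_pos c5.le_cInf) hsurj I_mem_H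
    simp only [I_im, mul_one] at this ⊢
    linarith)
  exact ⟨𝒰, hb, ha, hP, fun z hz => by simpa [hid z hz] using c7.tendsto_at hz⟩

end Pool.Agent.MP_1a2790_an
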