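import Mathlib

/-! Montel (along ultrafilters), Hurwitz, holomorphic inverses, joint continuity of `dslope`. -/

open Complex Set Filter Topology Metric

namespace Pool.Agent.MP_1a2790_an

lemma exists_tendsto_of_bounded {ι : Type*} (𝒰 : Ultrafilter ι) {a : ι → ℂ} {M : ℝ}
    (h : ∀ᶠ i in 𝒰, ‖a i‖ ≤ M) : ∃ b, Tendsto a 𝒰 (𝓝 b) := by
  obtain ⟨b, -, hb⟩ := (isCompact_closedBall (0 : ℂ) M).ultrafilter_le_nhds (𝒰.map a) (by
    rw [le_principal_iff, Ultrafilter.mem_coe, Ultrafilter.mem_map]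
    exact mem_of_superset h fun i hi => by simpa using hi)
  exact ⟨b, hb⟩

lemma exists_tendsto_of_bounded_real {ι : Type*} (𝒰 : Ultrafilter ι) {a : ι → ℝ} {M : ℝ}
    (h : ∀ᶠ i in 𝒰, |a i| ≤ M) : ∃ b, Tendsto a 𝒰 (𝓝 b) := by
  obtain ⟨b, -, hb⟩ := (isCompact_closedBall (0 : ℝ) M).ultrafilter_le_nhds (𝒰.map a) (by
    rw [le_principal_iff, Ultrafilter.mem_coe, Ultrafilter.mem_map]
    exact mem_of_superset h fun i hi => by simpa using hi)
  exact ⟨b, hb⟩

/-- Montel theorem along an ultrafilter. -/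
theorem montel {ι : Type*} (𝒰 : Ultrafilter ι) {U : Set ℂ} {F : ι → ℂ → ℂ}
    (hd : ∀ i, DifferentiableOn ℂ (F i) U)
    (hb : ∀ z ∈ U, ∃ r > 0, ∃ M : ℝ, ball z r ⊆ U ∧ ∀ᶠ i in 𝒰, ∀ w ∈ ball z r, ‖F i w‖ ≤ M) :
    ∃ f, TendstoLocallyUniformlyOn F f 𝒰 U := by
  have hpt : ∀ z, ∃ b, z ∈ U → Tendsto (fun i => F i z) 𝒰 (𝓝 b) := by
    intro z
    by_cases hz : z ∈ U
    · obtain ⟨r, hr, M, -, hM⟩ := hb z hz
      obtain ⟨b, hb⟩ := exists_tendsto_of_bounded 𝒰 (a := fun i => F i z) (M := M)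
        (hM.mono fun i hi => hi z (mem_ball_self hr))
      exact ⟨b, fun _ => hb⟩
    · exact ⟨0, fun h => absurd h hz⟩
  choose f hf using hpt
  refine ⟨f, Metric.tendstoLocallyUniformlyOn_iff.2 fun ε hε x hx => ?_⟩
  obtain ⟨r, hr, M, hrU, hM⟩ := hb x hx
  have hM0 : 0 ≤ M := by
    obtain ⟨i, hi⟩ := hM.exists
    exact (norm_nonneg _).trans (hi x (mem_ball_self hr))
  have hlip : ∀ᶠ i in 𝒰, ∀ y ∈ ball x r, dist (F i y) (F i x) ≤ 2 * M / r * dist y x := by
    filter_upwards [hM] with i hi y hy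
    apply Complex.dist_le_div_mul_dist_of_mapsTo_ball ((hd i).mono hrU) _ hy
    intro w hw
    rw [mem_closedBall, dist_eq_norm]
    have := norm_sub_le (F i w) (F i x)
    linarith [hi w hw, hi x (mem_ball_self hr)]
  have hlipf : ∀ y ∈ ball x r, dist (f y) (f x) ≤ 2 * M / r * dist y x := fun y hy =>
    le_of_tendsto ((hf y (hrU hy)).dist (hf x hx)) (hlip.mono fun i hi => hi y hy)
  set δ := min r (ε / (3 * (2 * M / r + 1))) with hδ
  have hδ0 : 0 < δ := lt_min hr (by positivity)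
  refine ⟨ball x δ, mem_nhdsWithin_of_mem_nhds (ball_mem_nhds x hδ0), ?_⟩
  filter_upwards [hlip, Metric.tendsto_nhds.1 (hf x hx) (ε / 3) (by positivity)] with i hi hi2 y hy
  have hy1 : y ∈ ball x r := ball_subset_ball (min_le_left _ _) hy
  have hy2 : dist y x < ε / (3 * (2 * M / r + 1)) := lt_of_lt_of_le hy (min_le_right _ _)
  have h3 : 2 * M / r * dist y x ≤ ε / 3 := by
    have h4 : 0 ≤ 2 * M / r := by positivity
    calc _ ≤ (2 * M / r + 1) * (ε / (3 * (2 * M / r + 1))) := by gcongr; linarith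
      _ = ε / 3 := by field_simp
  have h5 := dist_triangle4 (f y) (f x) (F i x) (F i y)
  have h6 := hi y hy1
  have h7 := hlipf y hy1
  rw [dist_comm] at hi2 h6
  linarith

/-- Hurwitz theorem, local form. -/
theorem hurwitz {ι : Type*} {l : Filter ι} [l.NeBot] {U : Set ℂ} (hU : IsOpen U)
    {F : ι → ℂ → ℂ} {f : ℂ → ℂ} (hd : ∀ i, DifferentiableOn ℂ (F i) U)
    (hF : TendstoLocallyUniformlyOn F f l U) {z₀ : ℂ} (hz₀ : z₀ ∈ U) {a : ι → ℂ}
    (ha : Tendsto a l (𝓝 (f z₀))) (hnc : ¬ ∀ᶠ z in 𝓝 z₀, f z = f z₀) {V : Set ℂ}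
    (hV : V ∈ 𝓝 z₀) : ∀ᶠ i in l, ∃ z ∈ V ∩ U, F i z = a i := by
  have hfd : DifferentiableOn ℂ f U := hF.differentiableOn (Eventually.of_forall hd) hU
  have han : AnalyticAt ℂ f z₀ := hfd.analyticAt (hU.mem_nhds hz₀)
  have hne : ∀ᶠ z in 𝓝[≠] z₀, f z ≠ f z₀ :=
    (han.eventually_eq_or_eventually_ne analyticAt_const).resolve_left hnc
  rw [eventually_nhdsWithin_iff] at hne
  obtain ⟨r, hr, hsub⟩ := Metric.nhds_basis_closedBall.mem_iff.1
    (inter_mem hne (inter_mem hV (hU.mem_nhds hz₀)))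
  have hcU : closedBall z₀ r ⊆ U := fun z hz => (hsub hz).2.2
  have hsne : (sphere z₀ r).Nonempty := NormedSpace.sphere_nonempty.2 hr.le
  obtain ⟨w, hw, hmin⟩ := (isCompact_sphere z₀ r).exists_isMinOn hsne
    (f := fun z => ‖f z - f z₀‖)
    ((hfd.continuousOn.mono (sphere_subset_closedBall.trans hcU)).sub continuousOn_const).norm
  set m := ‖f w - f z₀‖ with hm
  have hm0 : 0 < m := by
    apply norm_pos_iff.2 (sub_ne_zero.2 ((hsub (sphere_subset_closedBall hw)).1 ?_))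
    rintro rfl
    simp at hw
    exact hr.ne hw
  have hu := (tendstoLocallyUniformlyOn_iff_forall_isCompact hU).1 hF _ hcU
    (isCompact_closedBall z₀ r)
  filter_upwards [Metric.tendstoUniformlyOn_iff.1 hu (m / 4) (by positivity),
    Metric.tendsto_nhds.1 ha (m / 4) (by positivity)] with i hi hai
  by_contra hcon
  push Not at hcon
  have hne' : ∀ z ∈ closedBall z₀ r, F i z - a i ≠ 0 := fun z hz =>
    sub_ne_zero.2 (hcon z (hsub hz).2)
  have hg : DiffContOnCl ℂ (fun z => (F i z - a i)⁻¹) (ball z₀ r) := by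
    apply DifferentiableOn.diffContOnCl
    rw [closure_ball _ hr.ne']
    exact (((hd i).mono hcU).sub_const _).inv hne'
  have hbd : ‖(F i z₀ - a i)⁻¹‖ ≤ (m / 2)⁻¹ := by
    apply Complex.norm_le_of_forall_mem_frontier_norm_le isBounded_ball hg
    · intro z hz
      rw [frontier_ball _ hr.ne'] at hz
      rw [norm_inv]
      apply inv_anti₀ (by positivity)
      have h1 : m ≤ ‖f z - f z₀‖ := hmin hz
      have h2 := hi z (sphere_subset_closedBall hz)
      have h3 := dist_triangle4 (f z) (F i z) (a i) (f z₀)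
      rw [dist_eq_norm (f z) (f z₀), dist_eq_norm (F i z)] at h3
      linarith
    · exact subset_closure (mem_ball_self hr)
  rw [norm_inv, inv_le_inv₀ (norm_pos_iff.2 (hne' _ (mem_closedBall_self hr.le)))
    (by positivity)] at hbd
  have h2 := hi z₀ (mem_closedBall_self hr.le)
  have h3 := dist_triangle (F i z₀) (f z₀) (a i)
  rw [dist_eq_norm, dist_comm (F i z₀), dist_comm (f z₀) (a i)] at h3
  linarith

lemma not_eventually_const {U : Set ℂ} (hU : IsOpen U) (hc : IsPreconnected U) {f : ℂ → ℂ}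
    (hf : DifferentiableOn ℂ f U) {z₁ z₂ : ℂ} (h₁ : z₁ ∈ U) (h₂ : z₂ ∈ U) (hne : f z₁ ≠ f z₂)
    {z₀ : ℂ} (hz₀ : z₀ ∈ U) : ¬ ∀ᶠ z in 𝓝 z₀, f z = f z₀ := by
  intro h
  have := (hf.analyticOnNhd hU).eqOn_of_preconnected_of_eventuallyEq (g := fun _ => f z₀)
    analyticOnNhd_const hc hz₀ h
  exact hne ((this h₁).trans (this h₂).symm)

theorem limit_ne {ι : Type*} {l : Filter ι} [l.NeBot] {U : Set ℂ} (hU : IsOpen U)
    {F : ι → ℂ → ℂ} {f : ℂ → ℂ} (hd : ∀ i, DifferentiableOn ℂ (F i) U)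
    (hF : TendstoLocallyUniformlyOn F f l U) (hnc : ∀ z₀ ∈ U, ¬ ∀ᶠ z in 𝓝 z₀, f z = f z₀)
    {a : ℂ} (ha : ∀ i, ∀ z ∈ U, F i z ≠ a) : ∀ z ∈ U, f z ≠ a := by
  rintro z hz rfl
  obtain ⟨i, w, hw, e⟩ := (hurwitz hU hd hF hz tendsto_const_nhds (hnc z hz) univ_mem).exists
  exact ha i w hw.2 e

theorem limit_injOn {ι : Type*} {l : Filter ι} [l.NeBot] {U : Set ℂ} (hU : IsOpen U)
    {F : ι → ℂ → ℂ} {f : ℂ → ℂ} (hd : ∀ i, DifferentiableOn ℂ (F i) U)
    (hF : TendstoLocallyUniformlyOn F f l U) (hnc : ∀ z₀ ∈ U, ¬ ∀ᶠ z in 𝓝 z₀, f z = f z₀)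
    (hi : ∀ i, InjOn (F i) U) : InjOn f U := by
  intro z hz w hw e
  by_contra hne
  have ht : Tendsto (fun i => F i w) l (𝓝 (f z)) := e ▸ hF.tendsto_at hw
  obtain ⟨i, u, hu, e'⟩ := (hurwitz hU hd hF hz ht (hnc z hz)
    (isOpen_compl_singleton.mem_nhds hne)).exists
  exact hu.1 (hi i hu.2 hw e')

lemma not_eventually_const_of_injOn {U : Set ℂ} (hU : IsOpen U) {f : ℂ → ℂ} (hi : InjOn f U)
    {z₀ : ℂ} (hz₀ : z₀ ∈ U) : ¬ ∀ᶠ z in 𝓝 z₀, f z = f z₀ := by
  intro h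
  have h1 : ∀ᶠ z in 𝓝[≠] z₀, z = z₀ := by
    apply Eventually.filter_mono nhdsWithin_le_nhds
    filter_upwards [h, hU.mem_nhds hz₀] with z hz hzU
    exact hi hzU hz₀ hz
  obtain ⟨z, hz1, hz2⟩ := (h1.and self_mem_nhdsWithin).exists
  exact hz2 hz1

lemma nhds_le_map_of_injOn {U : Set ℂ} (hU : IsOpen U) {f : ℂ → ℂ} (hf : DifferentiableOn ℂ f U)
    (hi : InjOn f U) {z₀ : ℂ} (hz₀ : z₀ ∈ U) : 𝓝 (f z₀) ≤ map f (𝓝 z₀) :=
  ((hf.analyticAt (hU.mem_nhds hz₀)).eventually_constant_or_nhds_le_map_nhds).resolve_left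
    (not_eventually_const_of_injOn hU hi hz₀)

lemma isOpen_image_of_injOn {U : Set ℂ} (hU : IsOpen U) {f : ℂ → ℂ} (hf : DifferentiableOn ℂ f U)
    (hi : InjOn f U) : IsOpen (f '' U) := by
  rw [isOpen_iff_mem_nhds]
  rintro _ ⟨z, hz, rfl⟩
  exact nhds_le_map_of_injOn hU hf hi hz (image_mem_map (hU.mem_nhds hz))

/-- The inverse of an injective holomorphic map is holomorphic. -/
theorem exists_inverse {U : Set ℂ} (hU : IsOpen U) {f : ℂ → ℂ} (hf : DifferentiableOn ℂ f U)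
    (hi : InjOn f U) : ∃ g : ℂ → ℂ, DifferentiableOn ℂ g (f '' U) ∧ ∀ z ∈ U, g (f z) = z := by
  set g := Function.invFunOn f U with hg
  have hgf : ∀ z ∈ U, g (f z) = z := fun z hz => hi.leftInvOn_invFunOn hz
  have hV := isOpen_image_of_injOn hU hf hi
  have hcont : ∀ z ∈ U, ContinuousAt g (f z) := by
    intro z hz
    rw [ContinuousAt, hgf z hz]
    refine Tendsto.mono_left ?_ (nhds_le_map_of_injOn hU hf hi hz)
    rw [tendsto_map'_iff]
    apply tendsto_id.congr'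
    filter_upwards [hU.mem_nhds hz] with w hw
    exact (hgf w hw).symm
  have hfg : ∀ w ∈ f '' U, f (g w) = w := by
    rintro _ ⟨z, hz, rfl⟩; rw [hgf z hz]
  refine ⟨g, ?_, hgf⟩
  rintro _ ⟨z, hz, rfl⟩
  apply DifferentiableAt.differentiableWithinAt
  apply AnalyticAt.differentiableAt
  apply Complex.analyticAt_of_differentiable_on_punctured_nhds_of_continuousAt _ (hcont z hz)
  have han : AnalyticAt ℂ (deriv f) z := (hf.analyticAt (hU.mem_nhds hz)).deriv
  have hne : ∀ᶠ u in 𝓝[≠] z, deriv f u ≠ 0 := by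
    refine han.eventually_eq_zero_or_eventually_ne_zero.resolve_left fun h => ?_
    apply not_eventually_const_of_injOn hU hi hz
    obtain ⟨r, hr, hsub⟩ := Metric.nhds_basis_ball.mem_iff.1 (inter_mem h (hU.mem_nhds hz))
    filter_upwards [ball_mem_nhds z hr] with u hu
    exact isOpen_ball.is_const_of_deriv_eq_zero (convex_ball z r).isPreconnected
      (hf.mono fun v hv => (hsub hv).2) (fun v hv => (hsub hv).1) hu (mem_ball_self hr)
  rw [eventually_nhdsWithin_iff] at hne ⊢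
  have ht : Tendsto g (𝓝 (f z)) (𝓝 z) := by simpa [ContinuousAt, hgf z hz] using hcont z hz
  filter_upwards [ht.eventually hne, hV.mem_nhds (mem_image_of_mem f hz)] with w hw hwV hwne
  obtain ⟨u, hu, rfl⟩ := hwV
  have hu' : u ≠ z := fun h => hwne (by simp [h])
  rw [hgf u hu] at hw
  refine (HasDerivAt.of_local_left_inverse (f := f) (f' := deriv f u) (hcont u hu) ?_ (hw hu')
    ?_).differentiableAt
  · rw [hgf u hu]
    exact (hf.differentiableAt (hU.mem_nhds hu)).hasDerivAt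
  · filter_upwards [hV.mem_nhds (mem_image_of_mem f hu)] with y hy using hfg y hy

theorem deriv_ne_zero_of_injOn {U : Set ℂ} (hU : IsOpen U) {f : ℂ → ℂ}
    (hf : DifferentiableOn ℂ f U) (hi : InjOn f U) {z : ℂ} (hz : z ∈ U) : deriv f z ≠ 0 := by
  obtain ⟨g, hg, hgf⟩ := exists_inverse hU hf hi
  have hV := isOpen_image_of_injOn hU hf hi
  have h1 := (hg.differentiableAt (hV.mem_nhds (mem_image_of_mem f hz))).hasDerivAt.comp z
    (hf.differentiableAt (hU.mem_nhds hz)).hasDerivAt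
  have h2 : HasDerivAt (g ∘ f) 1 z := by
    apply (hasDerivAt_id z).congr_of_eventuallyEq
    filter_upwards [hU.mem_nhds hz] with w hw using hgf w hw
  have := h1.unique h2
  intro h
  simp [h] at this

/-- If `f (z i)` tends to `f z₀` then `z i` tends to `z₀`. -/
lemma tendsto_of_tendsto_image {U : Set ℂ} (hU : IsOpen U) {f : ℂ → ℂ}
    (hf : DifferentiableOn ℂ f U) (hi : InjOn f U) {ι : Type*} {l : Filter ι} {z : ι → ℂ}
    (hz : ∀ᶠ i in l, z i ∈ U) {z₀ : ℂ} (hz₀ : z₀ ∈ U)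
    (h : Tendsto (fun i => f (z i)) l (𝓝 (f z₀))) : Tendsto z l (𝓝 z₀) := by
  obtain ⟨g, hg, hgf⟩ := exists_inverse hU hf hi
  have hV := isOpen_image_of_injOn hU hf hi
  have h1 := (hg.differentiableAt (hV.mem_nhds (mem_image_of_mem f hz₀))).continuousAt.tendsto.comp h
  rw [hgf z₀ hz₀] at h1
  apply h1.congr'
  filter_upwards [hz] with i hi using hgf _ hi

theorem continuousOn_dslope₂ {U : Set ℂ} (hU : IsOpen U) {f : ℂ → ℂ}
    (hf : DifferentiableOn ℂ f U) :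
    ContinuousOn (fun p : ℂ × ℂ => dslope f p.1 p.2) (U ×ˢ U) := by
  rintro ⟨z, w⟩ ⟨hz, hw⟩
  apply ContinuousAt.continuousWithinAt
  have cz := (hf.differentiableAt (hU.mem_nhds hz)).continuousAt
  have cw := (hf.differentiableAt (hU.mem_nhds hw)).continuousAt
  by_cases e : w = z
  · subst e
    rw [ContinuousAt, Metric.tendsto_nhds]
    intro ε hε
    have han := hf.analyticAt (hU.mem_nhds hz)
    have h1 := han.hasStrictDerivAt.hasStrictFDerivAt.isLittleO.def (half_pos hε)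
    have h2 : ∀ᶠ p : ℂ × ℂ in 𝓝 (w, w), dist (deriv f p.1) (deriv f w) < ε :=
      Metric.tendsto_nhds.1 (han.deriv.continuousAt.tendsto.comp continuous_fst.continuousAt) ε hε
    filter_upwards [h1, h2] with p hp1 hp2
    simp only [dslope_same]
    by_cases e : p.2 = p.1
    · rw [e, dslope_same]; exact hp2
    · rw [dslope_of_ne _ e, slope_def_field, dist_eq_norm]
      have h3 : p.1 - p.2 ≠ 0 := sub_ne_zero.2 (Ne.symm e)
      have h4 : p.2 - p.1 ≠ 0 := sub_ne_zero.2 e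
      have : (f p.2 - f p.1) / (p.2 - p.1) - deriv f w =
          (f p.1 - f p.2 - (p.1 - p.2) * deriv f w) / (p.1 - p.2) := by
        field_simp; ring
      rw [this, norm_div, div_lt_iff₀ (norm_pos_iff.2 h3)]
      simp only [ContinuousLinearMap.toSpanSingleton_apply, smul_eq_mul] at hp1
      have := norm_pos_iff.2 h3
      nlinarith
  · have h1 : ∀ᶠ p : ℂ × ℂ in 𝓝 (z, w), p.2 ≠ p.1 :=
      (isOpen_ne_fun continuous_snd continuous_fst).mem_nhds e
    have h2 : ContinuousAt (fun p : ℂ × ℂ => (f p.2 - f p.1) / (p.2 - p.1)) (z, w) := by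
      apply ContinuousAt.div
      · exact (cw.comp_of_eq continuous_snd.continuousAt rfl).sub
          (cz.comp_of_eq continuous_fst.continuousAt rfl)
      · fun_prop
      · exact sub_ne_zero.2 e
    apply h2.congr
    filter_upwards [h1] with p hp
    rw [dslope_of_ne _ hp, slope_def_field]

lemma dslope_ne_zero_of_injOn {U : Set ℂ} (hU : IsOpen U) {f : ℂ → ℂ}
    (hf : DifferentiableOn ℂ f U) (hi : InjOn f U) {z w : ℂ} (hz : z ∈ U) (hw : w ∈ U) :
    dslope f z w ≠ 0 := by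
  by_cases e : w = z
  · rw [e, dslope_same]; exact deriv_ne_zero_of_injOn hU hf hi hz
  · rw [dslope_of_ne _ e, slope_def_field]
    exact div_ne_zero (sub_ne_zero.2 fun h => e (hi hw hz h)) (sub_ne_zero.2 e)

end Pool.Agent.MP_1a2790_an
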