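import Pool.Agent.MP_1a2790_an.Q2Evol
import Pool.Agent.MP_1a2790_an.Empty

/-! Appending an affine flow to an evolution family. -/

open Complex Set Filter Topology Metric Function

namespace Pool.Agent.MP_1a2790_an

lemma evH_affine {S S' : (ℂ → ℂ) → Prop} (hS : ∀ f, S f → Univ f) {a b : ℝ} (ha : 0 < a)
    (hmem : ∀ f (ρ δ : ℝ), S f → 0 < ρ → (∀ x, a * x + b = x → ρ * x + δ = x) →
      S' (fun z => (ρ : ℂ) * f z + δ)) {g : ℂ → ℂ} {Ψ : ℝ → ℝ → ℂ → ℂ} (h : EvH S g Ψ) :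
    ∃ Ψ', EvH S' (fun z => (a : ℂ) * g z + b) Ψ' := by
  set τ : ℝ → ℝ := fun t => min (2 * t) 1 with hτ
  set θ : ℝ → ℝ := fun t => max 0 (min (2 * t - 1) 1) with hθ
  set α : ℝ → ℝ := fun t => 1 + θ t * (a - 1) with hα
  have θ0 : ∀ t, 0 ≤ θ t := fun t => le_max_left _ _
  have θ1 : ∀ t, θ t ≤ 1 := fun t => max_le zero_le_one (min_le_right _ _)
  have τ0 : ∀ t, 0 ≤ t → 0 ≤ τ t := fun t ht => le_min (by linarith) zero_le_one
  have τ1 : ∀ t, τ t ≤ 1 := fun t => min_le_right _ _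
  have τm : ∀ s t, s ≤ t → τ s ≤ τ t := fun s t h => min_le_min_right _ (by linarith)
  have τl : ∀ s t, s ≤ t → τ t - τ s ≤ 2 * (t - s) := fun s t h => by
    simp only [hτ, min_def]
    split_ifs <;> linarith
  have θl : ∀ s t, s ≤ t → |θ s - θ t| ≤ 2 * (t - s) := fun s t h => by
    simp only [hθ, min_def, max_def, abs_le]
    split_ifs <;> constructor <;> linarith
  have αm : ∀ t, min a 1 ≤ α t := fun t => by
    have := θ0 t
    have := θ1 t
    simp only [hα]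
    rcases le_total a 1 with h | h
    · rw [min_eq_left h]; nlinarith
    · rw [min_eq_right h]; nlinarith
  have αM : ∀ t, α t ≤ a + 1 := fun t => by
    have := θ0 t
    have := θ1 t
    simp only [hα]
    nlinarith
  have m0 : 0 < min a 1 := lt_min ha one_pos
  have α0 : ∀ t, 0 < α t := fun t => m0.trans_le (αm t)
  have αc : ∀ t, ((α t : ℝ) : ℂ) ≠ 0 := fun t => by exact_mod_cast (α0 t).ne'
  refine ⟨fun s t z => ((α t / α s : ℝ) : ℂ) * Ψ (τ s) (τ t) z +
    (θ t * b - α t / α s * (θ s * b) : ℝ), fun s t hs ht => ?_, fun s hs z hz => ?_,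
    fun s u t hs hu ht z hz => ?_, fun z hz => ?_, fun z hz => ?_⟩
  · refine hmem _ _ _ (h.mem _ _ (τ0 s hs) (τm s t ht)) (div_pos (α0 t) (α0 s)) fun x hx => ?_
    have e : ∀ r, α r * x + θ r * b = x := fun r => by
      simp only [hα]
      linear_combination θ r * hx
    have := (α0 s).ne'
    field_simp
    linear_combination α s * e t - α t * e s
  · rw [h.id _ (τ0 s hs) z hz, div_self (α0 s).ne']
    simp
  · rcases le_total (2 * u) 1 with c | c
    · have e1 : θ u = 0 := max_eq_left ((min_le_left _ _).trans (by linarith))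
      have e2 : θ s = 0 := max_eq_left ((min_le_left _ _).trans (by linarith))
      rw [h.comp _ _ _ (τ0 s hs) (τm s u hu) (τm u t ht) z hz]
      simp [hα, e1, e2]
    · have e1 : τ u = 1 := min_eq_right c
      have e2 : τ t = 1 := min_eq_right (by linarith)
      have m := (hS _ (h.mem _ _ (τ0 s hs) (τ1 s))).maps hz
      rw [e1, e2, h.id 1 zero_le_one _ ((univ_affine (div_pos (α0 u) (α0 s)) _).maps m)]
      have := αc s
      have := αc u
      push_cast
      field_simp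
      ring
  · obtain ⟨C, hC, hl⟩ := h.lip z hz
    refine ⟨(a + 1) / min a 1 * (C * 2) + (|a - 1| / min a 1 * (‖z‖ + C + |b|) + |b|) * 2,
      by positivity, fun s u t hs hu ht => ?_⟩
    have l1 := hl _ _ _ (τ0 s hs) (τm s u hu) (τm u t ht)
    have l2 := hl _ _ _ (τ0 s hs) le_rfl (τm s t (hu.trans ht))
    rw [h.id _ (τ0 s hs) z hz] at l2
    have l3 := τl u t ht
    have l4 := θl u t ht
    generalize Ψ (τ s) (τ u) z = v at *
    generalize Ψ (τ s) (τ t) z = v' at *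
    have e : ((α u / α s : ℝ) : ℂ) * v + (θ u * b - α u / α s * (θ s * b) : ℝ) -
        (((α t / α s : ℝ) : ℂ) * v' + (θ t * b - α t / α s * (θ s * b) : ℝ)) =
        ((α u / α s : ℝ) : ℂ) * (v - v') + ((θ u - θ t : ℝ) : ℂ) *
          ((((a - 1) / α s : ℝ) : ℂ) * (v' - (θ s * b : ℝ)) + b) := by
      have e1 : ((α u : ℝ) : ℂ) = α t + (θ u - θ t) * (a - 1) := by
        simp only [hα]
        push_cast
        ring
      have := αc s
      push_cast
      rw [e1]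
      field_simp
      ring
    rw [e]
    have n1 : ‖v' - (θ s * b : ℝ)‖ ≤ ‖z‖ + C + |b| := by
      have b1 := norm_sub_le v' (θ s * b : ℝ)
      have b2 := norm_sub_le z (z - v')
      rw [sub_sub_cancel] at b2
      rw [norm_real, Real.norm_eq_abs, abs_mul, abs_of_nonneg (θ0 s)] at b1
      nlinarith [θ0 s, θ1 s, abs_nonneg b, τ1 t, τ0 s hs]
    have n2 : ‖(((a - 1) / α s : ℝ) : ℂ) * (v' - (θ s * b : ℝ)) + b‖ ≤
        |a - 1| / min a 1 * (‖z‖ + C + |b|) + |b| := by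
      refine (norm_add_le _ _).trans (add_le_add ?_ (by simp))
      rw [norm_mul, norm_real, Real.norm_eq_abs, abs_div, abs_of_pos (α0 s)]
      gcongr
      exact αm s
    have n3 : α u / α s ≤ (a + 1) / min a 1 := div_le_div₀ (by positivity) (αM u) m0 (αm s)
    refine (norm_add_le _ _).trans ?_
    rw [norm_mul, norm_mul, norm_real, norm_real, Real.norm_eq_abs, Real.norm_eq_abs,
      abs_of_pos (div_pos (α0 u) (α0 s))]
    have n4 := mul_le_mul n3 (l1.trans (mul_le_mul_of_nonneg_left l3 hC)) (norm_nonneg _)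
      (by positivity)
    have n5 := mul_le_mul l4 n2 (norm_nonneg _) (by linarith)
    linarith
  · have e1 : τ 0 = 0 := by simp [hτ]
    have e2 : τ 1 = 1 := by simp [hτ]
    have e3 : θ 0 = 0 := by simp [hθ]
    have e4 : θ 1 = 1 := by norm_num [hθ]
    rw [e1, e2, h.fin z hz]
    simp [hα, e3, e4]

lemma EvH.congr {S : (ℂ → ℂ) → Prop} {φ φ' : ℂ → ℂ} {Ψ : ℝ → ℝ → ℂ → ℂ} (h : EvH S φ Ψ)
    (e : ∀ z ∈ H, φ z = φ' z) : EvH S φ' Ψ :=
  ⟨h.mem, h.id, h.comp, h.lip, fun z hz => (h.fin z hz).trans (e z hz)⟩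

theorem exists_evH_gf {G : Set ℝ} (hG : G.Finite) {φ : ℂ → ℂ} (hφ : GF G φ) :
    ∃ Ψ, EvH (GF G) φ Ψ := by
  rcases G.subsingleton_or_nontrivial with hs | ⟨x, hx, y, hy, hxy⟩
  · obtain ⟨x₀, hx₀⟩ : ∃ x₀, ∀ x ∈ G, x = x₀ := by
      rcases G.eq_empty_or_nonempty with rfl | ⟨x₀, h⟩
      · exact ⟨0, fun _ h => h.elim⟩
      · exact ⟨x₀, fun x hx => hs hx h⟩
    have key : ∀ f (ρ δ : ℝ), GF G f → 0 < ρ → ρ * x₀ + δ = x₀ →
        GF G (fun z => (ρ : ℂ) * f z + δ) := fun f ρ δ hf hρ e =>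
      GF.comp ⟨univ_affine hρ δ, by rwa [cInf_affine δ hρ], fun x hx => by
        have := julia_affine (a := ρ) δ x₀
        rw [e] at this
        exact ⟨ρ, hx₀ x hx ▸ this⟩⟩ hf
    have hc := hφ.cpos
    set c := cInf φ with hcdef
    have h1 := key φ c⁻¹ (x₀ - c⁻¹ * x₀) hφ (inv_pos.2 hc) (by ring)
    have h2 := (low_affine (a := c⁻¹) (x₀ - c⁻¹ * x₀)).comp hφ.univ.toHol.low_cInf
      (inv_pos.2 hc).le hφ.univ.maps
    rw [inv_mul_cancel₀ hc.ne'] at h2
    obtain ⟨Ψ, hΨ⟩ := exists_evH hG ⟨h1.univ, h2, h1.jul⟩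
    obtain ⟨Ψ', hΨ'⟩ := evH_affine (S' := GF G) (fun f hf => hf.univ) (b := x₀ - c * x₀) hc
      (fun f ρ δ hf hρ e => key f ρ δ hf.gf hρ (e x₀ (by ring))) hΨ
    refine ⟨Ψ', hΨ'.congr fun z _ => ?_⟩
    have : (c : ℂ) ≠ 0 := by exact_mod_cast hc.ne'
    push_cast
    field_simp
    ring
  · exact exists_evH_two hG hx hy hxy hφ

end Pool.Agent.MP_1a2790_an
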