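import Pool.Agent.MP_1a2790_an.Q2Zero
import Pool.Agent.MP_1a2790_an.Disc

/-! Transfer of the second question to the disc. -/

open Complex Set Filter Topology Metric Function

namespace Pool.Agent.MP_1a2790_an

lemma dn_basic {τ : ℂ} (hτ : ‖τ‖ = 1) {g : ℂ → ℂ} (hg : Univ g) :
    DifferentiableOn ℂ (dn τ g) (ball 0 1) ∧ InjOn (dn τ g) (ball 0 1) ∧
      MapsTo (dn τ g) (ball 0 1) (ball 0 1) ∧ ∀ w ∈ H, up τ (dn τ g) w = g w := by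
  have hball : ∀ {z : ℂ}, z ∈ ball (0 : ℂ) 1 → ‖z‖ < 1 := fun hz => by simpa using hz
  refine ⟨differentiableOn_yc.comp (hg.diff.comp (differentiableOn_cy hτ) (mapsTo_cy hτ))
    (hg.maps.comp (mapsTo_cy hτ)), fun a ha b hb eab => ?_,
    (mapsTo_yc hτ).comp (hg.maps.comp (mapsTo_cy hτ)), fun w hw => ?_⟩
  · have e1 : cy τ (dn τ g a) = cy τ (dn τ g b) := congrArg (cy τ) eab
    rw [dn, dn, cy_yc hτ (hg.maps (mapsTo_cy hτ ha)), cy_yc hτ (hg.maps (mapsTo_cy hτ hb))] at e1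
    have e2 := congrArg (yc τ) (hg.inj (mapsTo_cy hτ ha) (mapsTo_cy hτ hb) e1)
    rwa [yc_cy hτ (hball ha), yc_cy hτ (hball hb)] at e2
  · rw [up, dn, cy_yc hτ hw, cy_yc hτ (hg.maps hw)]

lemma transfer {τ : ℂ} (hτ : ‖τ‖ = 1) {S : (ℂ → ℂ) → Prop} {S' : Set (ℂ → ℂ)}
    (hS : ∀ g, S g → Univ g ∧ dn τ g ∈ S') {φ : ℂ → ℂ} (hm : MapsTo φ (ball 0 1) (ball 0 1))
    {Ψ : ℝ → ℝ → ℂ → ℂ} (hΨ : EvH S (up τ φ) Ψ) : ∃ ψ, IsEvolutionFamily ψ ∧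
      (∀ s t, 0 ≤ s → s ≤ t → ψ s t ∈ S') ∧ EqOn (ψ 0 1) φ (ball 0 1) := by
  have hball : ∀ {z : ℂ}, z ∈ ball (0 : ℂ) 1 → ‖z‖ < 1 := fun hz => by simpa using hz
  have hu : ∀ s t, 0 ≤ s → s ≤ t → Univ (Ψ s t) := fun s t hs ht => (hS _ (hΨ.mem s t hs ht)).1
  refine ⟨fun s t => dn τ (Ψ s t), ⟨fun s t hs ht =>
    ⟨(dn_basic hτ (hu s t hs ht)).1, (dn_basic hτ (hu s t hs ht)).2.2.1⟩,
    fun s hs z hz => ?_, fun s u t hs hu' ht z hz => ?_, fun z hz T hT => ?_⟩,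
    fun s t hs ht => (hS _ (hΨ.mem s t hs ht)).2, fun z hz => ?_⟩
  · show dn τ (Ψ s s) z = z
    rw [dn, hΨ.id s hs _ (mapsTo_cy hτ hz), yc_cy hτ (hball hz)]
  · simp only [dn, comp_apply]
    rw [hΨ.comp s u t hs hu' ht _ (mapsTo_cy hτ hz),
      cy_yc hτ ((hu s u hs hu').maps (mapsTo_cy hτ hz))]
  · obtain ⟨C, hC, h⟩ := hΨ.lip _ (mapsTo_cy hτ hz)
    refine ⟨fun _ => 2 * C, fun _ => by positivity, continuousOn_const.integrableOn_Icc,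
      fun s u t hs hu' ht _ => ?_⟩
    rw [intervalIntegral.integral_const, smul_eq_mul]
    refine (norm_yc_sub_le hτ ((hu s u hs hu').maps (mapsTo_cy hτ hz))
      ((hu s t hs (hu'.trans ht)).maps (mapsTo_cy hτ hz))).trans ?_
    linarith [h s u t hs hu' ht]
  · show dn τ (Ψ 0 1) z = φ z
    rw [dn, hΨ.fin _ (mapsTo_cy hτ hz), up, yc_cy hτ (hball hz), yc_cy hτ (hball (hm hz))]

theorem embedding_UF (F : Set ℂ) (hF : F.Finite) (hFs : F ⊆ sphere 0 1) :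
    HasEmbeddingProperty (UF F) := by
  rintro φ ⟨hd, hi, hm, hb⟩ -
  have hF1 : ∀ σ ∈ F, ‖σ‖ = 1 := fun σ h => by simpa using hFs h
  rcases F.eq_empty_or_nonempty with rfl | ⟨τ, hτF⟩
  · have hτ : ‖(1 : ℂ)‖ = 1 := norm_one
    obtain ⟨Ψ, hΨ⟩ := exists_evH_univ (univ_up hτ hd hm hi)
    exact transfer hτ (S' := UF ∅) (fun g hg => ⟨hg, (dn_basic hτ hg).1, (dn_basic hτ hg).2.1,
      (dn_basic hτ hg).2.2.1, fun _ h => h.elim⟩) hm hΨ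
  · have hτ := hF1 τ hτF
    have hS : GF ((fun σ => (cy τ σ).re) '' (F \ {τ})) (up τ φ) := by
      obtain ⟨d, hd'⟩ := hb τ hτF
      refine ⟨univ_up hτ hd hm hi, cInf_pos_of_brfp hτ hd hm hd', ?_⟩
      rintro _ ⟨σ, ⟨hσ, hne⟩, rfl⟩
      obtain ⟨e, he⟩ := hb σ hσ
      have hc := cInf_pos_of_brfp (hF1 σ hσ) hd hm he
      refine ⟨(cInf (up σ φ))⁻¹, (julia_iff_low hτ (hF1 σ hσ) hne hm (inv_pos.2 hc)).2 ?_⟩
      rw [inv_inv]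
      exact (hol_up (hF1 σ hσ) hd hm).low_cInf
    obtain ⟨Ψ, hΨ⟩ := exists_evH_gf (hF.sdiff.image _) hS
    refine transfer hτ (S' := UF F) (fun g hg => ⟨hg.univ, ?_⟩) hm hΨ
    obtain ⟨gd, gi, gm, e⟩ := dn_basic hτ hg.univ
    refine ⟨gd, gi, gm, fun σ hσ => ?_⟩
    by_cases hne : σ = τ
    · rw [hne]
      exact ⟨_, brfp_of_cInf_pos hτ gd gm (by rw [cInf_congr e]; exact hg.cpos)⟩
    · obtain ⟨Λ, hΛ⟩ := hg.jul _ ⟨σ, ⟨hσ, hne⟩, rfl⟩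
      have hΛ0 := hΛ.pos hg.univ.toHol
      have := (julia_iff_low hτ (hF1 σ hσ) hne gm hΛ0).1 (hΛ.congr e)
      exact ⟨_, brfp_of_cInf_pos (hF1 σ hσ) gd gm ((inv_pos.2 hΛ0).trans_le this.le_cInf)⟩

end Pool.Agent.MP_1a2790_an
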