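import Pool.Agent.MP_1a2790_an.Q2Ext

/-! Factorisation of a map none of whose inner arcs is filled, continued. -/

open Complex Set Filter Topology Metric Function
open scoped ComplexConjugate

namespace Pool.Agent.MP_1a2790_an

/-- One half of the kernel theorem. -/
lemma kernel {ι : Type*} (𝒰 : Ultrafilter ι) {ψ : ι → ℂ → ℂ} {φ : ℂ → ℂ} (hψ : ∀ i, Univ (ψ i))
    (hφ : Hol φ) (hlim : TendstoLocallyUniformlyOn ψ φ 𝒰 H) {w w' : ℂ} {r : ℝ}
    (hw' : w' ∈ ball w r) (hB : ∀ᶠ i in 𝒰, ball w r ⊆ ψ i '' H) {z : ι → ℂ} {z' : ℂ}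
    (hz : ∀ i, z i ∈ H ∧ ψ i (z i) = w') (hz' : z' ∈ H) (ht : Tendsto z 𝒰 (𝓝 z')) :
    w ∈ φ '' H := by
  have hr : 0 < r := pos_of_mem_ball hw'
  have hrc : (r : ℂ) ≠ 0 := by exact_mod_cast hr.ne'
  choose g gd eg using fun i => exists_inverse isOpen_H (hψ i).diff (hψ i).inj
  set β : ℂ → ℂ := fun u => w + r * cay I u with hβ
  have βd : DifferentiableOn ℂ β H := ((differentiableOn_cay I_mem_H).const_mul _).const_add _
  have βm : MapsTo β H (ball w r) := fun u hu => by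
    rw [mem_ball, dist_eq_norm, hβ]
    simp only [add_sub_cancel_left, norm_mul, norm_real, Real.norm_of_nonneg hr.le]
    exact mul_lt_of_lt_one_right hr (norm_cay_lt I_mem_H hu)
  have hv : ‖(w' - w) / r‖ < 1 := by
    rw [norm_div, norm_real, Real.norm_of_nonneg hr.le, div_lt_one hr, ← dist_eq_norm]
    exact hw'
  set v := cayInv I ((w' - w) / r) with hvdef
  have hvH : v ∈ H := cayInv_mem_H I_mem_H hv
  have hv0 : 0 < v.im := hvH
  have βv : β v = w' := by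
    simp only [hβ, hvdef, cay_cayInv I_mem_H hv]
    field_simp
    ring
  have βI : β I = w := by simp [hβ, cay_self]
  set C := ‖I - conj v‖ ^ 2 with hC
  have key : ∀ᶠ i in 𝒰, ψ i (g i w) = w ∧ ‖g i w - conj (z i)‖ * v.im ≤ C * (z i).im ∧
      (z i).im * v.im ≤ C * (g i w).im := hB.mono fun i hi => by
    have m : ∀ u ∈ ball w r, g i u ∈ H ∧ ψ i (g i u) = u := fun u hu => by
      obtain ⟨y, hy, rfl⟩ := hi hu
      rw [eg i y hy]
      exact ⟨hy, rfl⟩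
    have hd : DifferentiableOn ℂ (fun u => g i (β u)) H := (gd i).comp βd fun u hu => hi (βm hu)
    have h0 : ∀ u ∈ H, 0 ≤ (g i (β u)).im := fun u hu => le_of_lt (m _ (βm hu)).1
    have a1 := norm_sub_conj_le hd h0 I_mem_H hvH
    have a2 := harnack_lower hd h0 I_mem_H hvH
    have a3 : g i w' = z i := by rw [← (hz i).2, eg i _ (hz i).1]
    simp only [βv, βI, a3, I_im, one_mul] at a1 a2
    exact ⟨(m w (mem_ball_self hr)).2, a1, a2⟩
  have hC0 : 0 ≤ C := by positivity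
  obtain ⟨ζ, hζ⟩ := exists_tendsto_of_bounded 𝒰 (a := fun i => g i w)
    (M := C * (‖z'‖ + 1) / v.im + (‖z'‖ + 1)) (by
      filter_upwards [key, ht.norm.eventually (ge_mem_nhds (lt_add_one ‖z'‖))] with i hi hn
      have b1 := norm_add_le (g i w - conj (z i)) (conj (z i))
      rw [sub_add_cancel, RCLike.norm_conj] at b1
      have b2 : ‖g i w - conj (z i)‖ ≤ C * (‖z'‖ + 1) / v.im := by
        rw [le_div_iff₀ hv0]
        exact hi.2.1.trans (mul_le_mul_of_nonneg_left ((Complex.im_le_norm _).trans hn) hC0)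
      linarith)
  have hζH : ζ ∈ H := by
    have a1 : z'.im * v.im ≤ C * ζ.im :=
      le_of_tendsto_of_tendsto (((Complex.continuous_im.tendsto _).comp ht).mul_const _)
        (((Complex.continuous_im.tendsto _).comp hζ).const_mul _) (key.mono fun i hi => hi.2.2)
    have a2 : 0 < z'.im := hz'
    by_contra hn
    have a3 : ζ.im ≤ 0 := not_lt.1 hn
    nlinarith [mul_pos a2 hv0, mul_nonneg hC0 (neg_nonneg.2 a3)]
  exact ⟨ζ, hζH, tendsto_nhds_unique (tendsto_comp_H hφ hlim hζH hζ)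
    (tendsto_const_nhds.congr' (key.mono fun i hi => hi.1.symm))⟩

variable {φ : ℂ → ℂ} {σ : ℕ → ℝ} {n : ℕ} {Λ : ℝ} {P Γ : ℕ → UI → ℂ} {K : ℕ → ℝ}

lemma Dat.exists_open_point (D : Dat φ σ n Λ P Γ K) (hc : 0 < cInf φ) {k : ℕ} (hk : k < n)
    (hnr : ¬ RealOn φ (σ k) (σ (k + 1))) :
    ∃ w ∈ Rin (Γ k) (σ k) (σ (k + 1)), w ∉ φ '' H ∧ w ∈ closure (φ '' H) := by
  have hl := D.uφ.toHol.low_cInf
  simp only [RealOn, not_forall] at hnr
  obtain ⟨x, hx, hnx⟩ := hnr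
  obtain ⟨M, hM⟩ := bounded_between D.uφ hc hl (D.lt k hk) (D.jφ k hk.le) (D.jφ (k + 1) hk)
  obtain ⟨𝒱, w, h𝒱, hw, hwt⟩ := exists_cluster D.uφ.toHol (hM x (Ioo_subset_Icc_self hx)) hnx
  obtain ⟨hw1, hw2⟩ := limit_notMem_image D.uφ h𝒱 hwt
  refine ⟨w, (mem_Rin_or_Rout _ _ hw (D.notMem_range hw hw1 hk)).resolve_right fun h => ?_,
    hw1, hw2⟩
  obtain ⟨y, hy1, hy2⟩ := ((hwt.eventually ((D.hΓ k hk).isOpen_Rout.mem_nhds h)).and
    (h𝒱 (eventually_image_mem_Rin (D.hP k hk) (D.hΓ k hk) D.uφ hc hl (D.eΓ k hk) hx))).exists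
  exact disjoint_left.1 (disjoint_Rin_Rout _ _ _) hy2 hy1

/-- A state with parabolic inner factor which does not enter the outer region is trivial. -/
lemma St.trivial (D : Dat φ σ n Λ P Γ K) (hc : 0 < cInf φ) {ψ χ : ℂ → ℂ} {s : ℕ → ℝ}
    (S : St φ σ n Λ (cInf φ) 1 (Uout σ n Γ \ φ '' H) ψ χ s) : ∀ z ∈ H, χ z = z := by
  have hl := D.uφ.toHol.low_cInf
  have hQ : ∀ k, ∃ (Q : UI → ℂ) (KQ : ℝ), k < n → StolzPath Q (s k) (s (k + 1)) KQ ∧
      ∀ t, t ≠ 0 → t ≠ 1 → Γ k t = ψ (Q t) := fun k => by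
    by_cases hk : k < n
    · obtain ⟨Q, KQ, hQ, eQ⟩ := (D.hP k hk).image (D.lt k hk).ne S.uχ.toHol one_pos S.lχ
        (S.jχ k hk.le) (S.jχ (k + 1) hk)
      exact ⟨Q, KQ, fun _ => ⟨hQ, fun t h0 h1 => by
        rw [D.eΓ k hk t h0 h1, eQ t h0 h1, S.fac _ ((D.hP k hk).mem t h0 h1)]⟩⟩
    · exact ⟨0, 0, fun h => (hk h).elim⟩
  choose Q KQ hQ using hQ
  have h : ∀ k, ∃ R : ℝ, k < n → ∀ a ∈ H, R < ‖a‖ → a ∈ Rout (Q k) (s k) (s (k + 1)) :=
    fun k => by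
      by_cases hk : k < n
      · obtain ⟨R, hR⟩ := (hQ k hk).1.exists_large
        exact ⟨R, fun _ => hR⟩
      · exact ⟨0, fun h => (hk h).elim⟩
  choose R hR using h
  obtain ⟨B, hB⟩ := ((finite_Iio n).image R).bddAbove
  have hin : ∀ v ∈ ψ '' H, v ∈ Uout σ n Γ → v ∈ φ '' H := fun v hv hU => by
    by_contra hn
    exact S.avoid v ⟨hU, hn⟩ hv
  have hG : Gr (max B 1) ⊆ χ '' H := fun a ha => by
    obtain ⟨z, hz, e⟩ := hin _ ⟨a, ha.1, rfl⟩ (mem_Uout.2 ⟨S.uψ.maps ha.1, fun k hk =>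
      image_mem_Rout (hQ k hk).1 (D.hΓ k hk) S.uψ hc S.lψ (hQ k hk).2
        (hR k hk a ha.1 (((hB ⟨k, hk, rfl⟩).trans (le_max_left _ _)).trans_lt ha.2))⟩)
    exact ⟨z, hz, S.uψ.inj (S.uχ.maps hz) ha.1 ((S.fac z hz).trans e)⟩
  have hle : ∀ k ≤ n, σ k ≤ s k := fun k hk => by
    induction k with
    | zero => exact S.s0.ge
    | succ k ih => linarith [S.gap k hk, ih (by omega)]
  have j0 := S.jχ 0 (Nat.zero_le _)
  rw [S.s0] at j0
  refine rigid' S.uχ S.lχ (cInf_le_one_of_factor S.uψ.toHol S.uχ.toHol hc S.fac S.lχ S.lψ)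
    (by positivity) hG j0 (S.jχ n le_rfl) (hle n le_rfl) fun x hx M hM => ?_
  refine tendsto_im_factor D.uφ S.uψ S.uχ S.fac
    (R := ⋃ k ∈ Iio n, Rin (Γ k) (σ k) (σ (k + 1)))
    (isOpen_biUnion fun k hk => (D.hΓ k hk).isOpen_Rin) (fun v hv => ?_) hM ?_
  · by_cases h1 : v ∈ φ '' H
    · exact Or.inl h1
    have hvH : v ∈ H := S.uψ.maps.image_subset hv
    by_cases h2 : ∃ k < n, v ∈ Rin (Γ k) (σ k) (σ (k + 1))
    · obtain ⟨k, hk, h2⟩ := h2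
      exact Or.inr (mem_iUnion₂.2 ⟨k, hk, h2⟩)
    · push Not at h2
      exact (h1 (hin v hv (mem_Uout.2 ⟨hvH, fun k hk =>
        (mem_Rin_or_Rout _ _ hvH (D.notMem_range hvH h1 hk)).resolve_left (h2 k hk)⟩))).elim
  · have : ∀ᶠ y : ℝ in 𝓝[>] 0, ∀ k ∈ Iio n, φ (x + y * I) ∈ Rout (Γ k) (σ k) (σ (k + 1)) :=
      (eventually_all_finite (finite_Iio n)).2 fun k hk =>
        eventually_image_mem_Rout (D.hP k hk) (D.hΓ k hk) D.uφ hc hl (D.eΓ k hk) (D.lt k hk)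
          (hx.imp (fun h => h.trans_le (le_of_steps D.lt (Nat.zero_le _) (le_of_lt hk)))
            fun h => (le_of_steps D.lt hk le_rfl).trans_lt h)
    refine this.mono fun y hy h => ?_
    obtain ⟨k, hk, h⟩ := mem_iUnion₂.1 h
    exact disjoint_left.1 (disjoint_Rin_Rout _ _ _) h (hy k hk)

lemma Dat.initial_state (D : Dat φ σ n Λ P Γ K) (hc : 0 < cInf φ) {β : ℝ} (hβ1 : 1 ≤ β) :
    ∃ ψ χ s, St φ σ n Λ (cInf φ / β) β (Uout σ n Γ \ φ '' H) ψ χ s := by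
  have hβ0 : 0 < β := by linarith
  have hβc : (β : ℂ) ≠ 0 := by exact_mod_cast hβ0.ne'
  have hl := D.uφ.toHol.low_cInf
  refine ⟨fun w => φ ((β⁻¹ : ℝ) * w + (σ 0 - β⁻¹ * σ 0 : ℝ)),
    fun z => (β : ℂ) * z + (σ 0 - β * σ 0 : ℝ), fun k => β * σ k + (σ 0 - β * σ 0),
    D.uφ.comp (univ_affine (inv_pos.2 hβ0) _), univ_affine hβ0 _, fun z _ => ?_, ?_,
    low_affine _, fun k hk => ?_, by ring, fun k hk => ?_, fun w hw h => hw.2 ?_⟩
  · congr 1
    push_cast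
    field_simp
    ring
  · exact hl.comp (low_affine (a := β⁻¹) (σ 0 - β⁻¹ * σ 0)) hc.le
      (univ_affine (inv_pos.2 hβ0) _).maps
  · refine (julia_affine _ _).mono (univ_affine hβ0 _).toHol ?_
    rw [le_div_iff₀ (div_pos hc hβ0), mul_div_cancel₀ _ hβ0.ne']
    exact hl.le_julia D.uφ.toHol (D.jφ k hk)
  · have := D.lt k hk
    nlinarith
  · obtain ⟨z, hz, rfl⟩ := h
    exact ⟨_, (univ_affine (inv_pos.2 hβ0) _).maps hz, rfl⟩

lemma split_dat_ell (D : Dat φ σ n Λ P Γ K) (hc : 0 < cInf φ)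
    (hopen : ∀ k < n, ¬ RealOn φ (σ k) (σ (k + 1))) :
    ∃ (ψ χ : ℂ → ℂ) (a b : ℝ), Univ ψ ∧ Univ χ ∧ (∀ z ∈ H, ψ (χ z) = φ z) ∧ 0 < a ∧ 1 < b ∧
      Low ψ a ∧ Low χ b ∧
      ∀ k ≤ n, (∃ L, Julia ψ (σ k) (σ k) L) ∧ ∃ L, Julia χ (σ k) (σ k) L := by
  by_contra hcon
  set c := cInf φ with hcdef
  set A := Uout σ n Γ \ φ '' H with hA
  set β : ℕ → ℝ := fun m => 1 + 1 / ((m : ℝ) + 1) with hβ
  have hβ1 : ∀ m, 1 < β m := fun m => by
    simp only [hβ]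
    have : 0 < 1 / ((m : ℝ) + 1) := by positivity
    linarith
  have hβ2 : ∀ m, β m ≤ 2 := fun m => by
    simp only [hβ]
    have : 1 / ((m : ℝ) + 1) ≤ 1 := by
      rw [div_le_one (by positivity)]
      linarith [Nat.cast_nonneg (α := ℝ) m]
    linarith
  have hβt : Tendsto β atTop (𝓝 1) := by
    have := (tendsto_one_div_add_atTop_nhds_zero_nat (𝕜 := ℝ)).const_add (1 : ℝ)
    rwa [add_zero] at this
  have hβ0 : ∀ m, 0 < β m := fun m => one_pos.trans (hβ1 m)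
  have ha0 : ∀ m, 0 < c / β m := fun m => div_pos hc (hβ0 m)
  have step : ∀ m, ∃ ψ χ s, St φ σ n Λ (c / β m) (β m) A ψ χ s ∧ ∃ k < n,
      ∀ w ∈ Rin (Γ k) (σ k) (σ (k + 1)), w ∈ closure (ψ '' H) → w ∈ ψ '' H := fun m => by
    obtain ⟨ψ₀, χ₀, s₀, S₀⟩ := D.initial_state hc (hβ1 m).le
    obtain ⟨ψ, χ, s, S, hmax⟩ := exists_max_state (ha0 m) (hβ0 m) S₀
    refine ⟨ψ, χ, s, S, ?_⟩
    by_contra hno
    push Not at hno
    have h1 : ∀ k < n, s (k + 1) - s k = σ (k + 1) - σ k := fun k hk => by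
      by_contra h
      obtain ⟨w, w1, w2, w3⟩ := hno k hk
      obtain ⟨ψ', χ', s', S', hlt⟩ := exists_better_state' D (ha0 m) (hβ0 m)
        (fun v hv => (mem_Uout.1 hv.1).2) S hk (lt_of_le_of_ne (S.gap k hk) (Ne.symm h)) w1 w3 w2
      exact absurd (hmax _ _ _ S') (not_le.2 hlt)
    have h2 : ∀ k ≤ n, s k = σ k := by
      intro k hk
      induction k with
      | zero => exact S.s0
      | succ k ih => linarith [h1 k hk, ih (by omega)]
    refine hcon ⟨ψ, χ, _, _, S.uψ, S.uχ, S.fac, ha0 m, hβ1 m, S.lψ, S.lχ, fun k hk =>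
      ⟨⟨Λ / β m, ?_⟩, Λ / (c / β m), ?_⟩⟩
    · simpa [h2 k hk] using S.jψ D (ha0 m) (hβ0 m) hk
    · simpa [h2 k hk] using S.jχ k hk
  choose ψ χ s S κ hκ hfill using step
  let 𝒰 : Ultrafilter ℕ := Ultrafilter.of atTop
  have h𝒰 : (𝒰 : Filter ℕ) ≤ atTop := Ultrafilter.of_le _
  have hΛ : 0 < Λ := (D.jφ 0 (Nat.zero_le _)).pos D.uφ.toHol
  have ha2 : ∀ m, c / 2 ≤ c / β m := fun m => div_le_div_of_nonneg_left hc.le (hβ0 m) (hβ2 m)
  have jχ : ∀ m, ∀ k ≤ n, Julia (χ m) (σ k) (s m k) (Λ / (c / 2)) := fun m k hk =>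
    ((S m).jχ k hk).mono (S m).uχ.toHol (div_le_div_of_nonneg_left hΛ.le (by positivity) (ha2 m))
  obtain ⟨ψ₁, χ₁, c1, c2, c3, -, c5, c6, c7⟩ := exists_limit_pair 𝒰 (fun i => (S i).uψ)
    (fun i => (S i).uχ) (fun i => (S i).fac) (half_pos hc) one_pos
    (fun i => (S i).lψ.mono (ha2 i)) (fun i => (S i).lχ.mono (hβ1 i).le)
    (M := Λ / (c / 2) * ‖I - σ 0‖ ^ 2 + |σ 0|) (fun i => by
      have := (jχ i 0 (Nat.zero_le _)).norm_I_le' (S i).uχ.toHol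
      rwa [(S i).s0] at this)
  have hat : Tendsto (fun m => c / β m) 𝒰 (𝓝 c) := by
    have := (tendsto_const_nhds (x := c)).div (hβt.mono_left h𝒰) one_ne_zero
    rwa [div_one] at this
  have c4 : Low ψ₁ c := fun z hz =>
    le_of_tendsto_of_tendsto' (hat.mul_const _)
      ((Complex.continuous_im.tendsto _).comp (c6.tendsto_at hz)) fun m => (S m).lψ z hz
  have hs : ∀ k, ∃ t, k ≤ n → Tendsto (fun i => s i k) 𝒰 (𝓝 t) ∧ Julia χ₁ (σ k) t (Λ / c) := by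
    intro k
    by_cases hk : k ≤ n
    · obtain ⟨t, ht, -⟩ := exists_contact_limit 𝒰 (fun i => (S i).uχ.toHol)
        (fun z hz => c7.tendsto_at hz) (fun i => jχ i k hk)
      exact ⟨t, fun _ => ⟨ht, julia_limit (fun z hz => c7.tendsto_at hz) tendsto_const_nhds ht
        (tendsto_const_nhds.div hat hc.ne') (Eventually.of_forall fun i => (S i).jχ k hk)⟩⟩
    · exact ⟨0, fun h => absurd h hk⟩
  choose t ht using hs
  have S₁ : St φ σ n Λ c 1 A ψ₁ χ₁ t := by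
    refine ⟨c1, c2, c3, c4, c5, fun k hk => (ht k hk).2, ?_, fun k hk => ?_, fun w hw => ?_⟩
    · have := (ht 0 (Nat.zero_le _)).1
      simp only [(S _).s0] at this
      exact tendsto_nhds_unique this tendsto_const_nhds
    · exact ge_of_tendsto' ((ht (k + 1) hk).1.sub (ht k hk.le).1) fun i => (S i).gap k hk
    · rintro ⟨z, hz, e⟩
      exact limit_ne isOpen_H (fun i => (S i).uψ.diff) c6
        (fun z hz => not_eventually_const_of_injOn isOpen_H c1.inj hz) (a := w)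
        (fun i z hz e => (S i).avoid w hw ⟨z, hz, e⟩) z hz e
  have hid := S₁.trivial D hc
  obtain ⟨k, hk, hev⟩ : ∃ k ∈ Iio n, ∀ᶠ m in 𝒰, κ m = k :=
    (Ultrafilter.eventually_exists_mem_iff (finite_Iio n)).1
      (Eventually.of_forall fun m => ⟨κ m, hκ m, rfl⟩)
  obtain ⟨w, w1, w2, w3⟩ := D.exists_open_point hc hk (hopen k hk)
  obtain ⟨r, hr, hball⟩ := Metric.isOpen_iff.1 (D.hΓ k hk).isOpen_Rin w w1
  obtain ⟨_, hw', z', hz', rfl⟩ := mem_closure_iff.1 w3 _ isOpen_ball (mem_ball_self hr)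
  have hz : ∀ m, χ m z' ∈ H ∧ ψ m (χ m z') = φ z' := fun m =>
    ⟨(S m).uχ.maps hz', (S m).fac z' hz'⟩
  obtain ⟨ζ, hζ, e⟩ := kernel 𝒰 (fun m => (S m).uψ) c1.toHol c6 hw' (hev.mono fun m hm => by
    refine (convex_ball w r).isPreconnected.subset_of_closure_inter_subset (S m).uψ.isOpen_image
      ⟨_, hw', _, (hz m).1, (hz m).2⟩ fun v hv => hfill m v ?_ hv.1
    rw [hm]
    exact hball hv.2) hz (c2.maps hz') (c7.tendsto_at hz')
  exact w2 ⟨ζ, hζ, by rw [← c3 ζ hζ, hid ζ hζ, e]⟩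

end Pool.Agent.MP_1a2790_an
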