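import Pool.Agent.MP_1a2790_an.Q2Split
import Pool.Agent.MP_1a2790_an.Evol

/-! Evolution families when at least three boundary points are fixed. -/

open Complex Set Filter Topology Metric Function

namespace Pool.Agent.MP_1a2790_an

variable {G : Set ℝ}

lemma GF.id (G : Set ℝ) : GF G (fun z => z) := (SF.id G).gf

lemma GF.comp {f g : ℂ → ℂ} (hf : GF G f) (hg : GF G g) : GF G (fun z => f (g z)) :=
  ⟨hf.univ.comp hg.univ, by
    rw [cInf_comp hf.univ.toHol hg.univ.toHol hg.cpos]; exact mul_pos hf.cpos hg.cpos,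
    fun x hx => by
      obtain ⟨a, ha⟩ := hf.jul x hx
      obtain ⟨b, hb⟩ := hg.jul x hx
      exact ⟨_, ha.comp hf.univ.toHol hg.univ.toHol hb⟩⟩

/-- Angular derivative at `x` times the angular derivative at infinity. -/
noncomputable def tau (x : ℝ) (f : ℂ → ℂ) : ℝ := lam x f / cInf f

lemma GF.kap_pos {f : ℂ → ℂ} (hf : GF G f) {σ : ℝ} (hσ : σ ∈ G) : 0 < kap f σ σ := by
  obtain ⟨L, hL⟩ := hf.jul σ hσ
  exact hL.kap_pos hf.univ.toHol

lemma GF.julia_lam {f : ℂ → ℂ} (hf : GF G f) {σ : ℝ} (hσ : σ ∈ G) : Julia f σ σ (lam σ f) :=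
  hf.univ.toHol.julia_kap (hf.kap_pos hσ)

lemma GF.cInf_le_lam {f : ℂ → ℂ} (hf : GF G f) {σ : ℝ} (hσ : σ ∈ G) : cInf f ≤ lam σ f :=
  hf.univ.toHol.low_cInf.le_julia hf.univ.toHol (hf.julia_lam hσ)

lemma GF.one_le_tau {f : ℂ → ℂ} (hf : GF G f) {σ : ℝ} (hσ : σ ∈ G) : 1 ≤ tau σ f :=
  (one_le_div hf.cpos).2 (hf.cInf_le_lam hσ)

lemma GF.cInf_eq {φ ψ χ : ℂ → ℂ} (hψ : GF G ψ) (hχ : GF G χ) (e : ∀ z ∈ H, φ z = ψ (χ z)) :
    cInf φ = cInf ψ * cInf χ := by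
  rw [cInf_congr e, cInf_comp hψ.univ.toHol hχ.univ.toHol hχ.cpos]

lemma GF.tau_comp {φ ψ χ : ℂ → ℂ} (hψ : GF G ψ) (hχ : GF G χ) (e : ∀ z ∈ H, φ z = ψ (χ z))
    {σ : ℝ} (hσ : σ ∈ G) : tau σ φ = tau σ ψ * tau σ χ := by
  rw [tau, hψ.cInf_eq hχ e, lam, kap_congr e,
    kap_comp hψ.univ.toHol hχ.univ.toHol (hχ.kap_pos hσ), mul_inv, tau, tau, div_mul_div_comm]
  rfl

lemma GF.near {f : ℂ → ℂ} (hf : GF G f) {σ : ℝ} (hσ : σ ∈ G) {w : ℂ} (hw : w ∈ H) :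
    ‖((cInf f)⁻¹ : ℝ) * f w + (σ - (cInf f)⁻¹ * σ : ℝ) - w‖ * w.im ≤
      (tau σ f - 1) * ‖w - σ‖ ^ 2 := by
  have hc := inv_pos.2 hf.cpos
  have hu := univ_affine hc (σ - (cInf f)⁻¹ * σ)
  have h1 := (julia_affine (a := (cInf f)⁻¹) (σ - (cInf f)⁻¹ * σ) σ).comp hu.toHol hf.univ.toHol
    (hf.julia_lam hσ)
  have h2 := (low_affine (a := (cInf f)⁻¹) (σ - (cInf f)⁻¹ * σ)).comp hf.univ.toHol.low_cInf hc.le
    hf.univ.maps
  rw [inv_mul_cancel₀ hf.cpos.ne'] at h2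
  rw [add_sub_cancel, show (cInf f)⁻¹ * lam σ f = tau σ f from (div_eq_inv_mul _ _).symm] at h1
  exact h1.norm_sub_id_le (hu.toHol.comp hf.univ.toHol) h2 hw

/-- The size of a map. -/
noncomputable def siz (x y : ℝ) (f : ℂ → ℂ) : ℝ := tau x f * tau y f

section two
variable {x y : ℝ} (hx : x ∈ G) (hy : y ∈ G)
include hx hy

lemma GF.one_le_siz {f : ℂ → ℂ} (hf : GF G f) : 1 ≤ siz x y f :=
  one_le_mul_of_one_le_of_one_le (hf.one_le_tau hx) (hf.one_le_tau hy)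

lemma GF.siz_comp {φ ψ χ : ℂ → ℂ} (hψ : GF G ψ) (hχ : GF G χ) (e : ∀ z ∈ H, φ z = ψ (χ z)) :
    siz x y φ = siz x y ψ * siz x y χ := by
  rw [siz, siz, siz, hψ.tau_comp hχ e hx, hψ.tau_comp hχ e hy]
  ring

variable (hxy : x ≠ y)
include hxy

lemma GF.inv_bound {f : ℂ → ℂ} (hf : GF G f) :
    |1 - (cInf f)⁻¹| ≤ (‖I - x‖ ^ 2 + ‖I - y‖ ^ 2) / |x - y| * (siz x y f - 1) := by
  have h1 := hf.near hx I_mem_H
  have h2 := hf.near hy I_mem_H
  have t1 := hf.one_le_tau hx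
  have t2 := hf.one_le_tau hy
  rw [I_im, mul_one] at h1 h2
  have h3 := norm_sub_le (((cInf f)⁻¹ : ℝ) * f I + (x - (cInf f)⁻¹ * x : ℝ) - I)
    (((cInf f)⁻¹ : ℝ) * f I + (y - (cInf f)⁻¹ * y : ℝ) - I)
  have e : ((cInf f)⁻¹ : ℝ) * f I + (x - (cInf f)⁻¹ * x : ℝ) - I -
      (((cInf f)⁻¹ : ℝ) * f I + (y - (cInf f)⁻¹ * y : ℝ) - I) =
      (((1 - (cInf f)⁻¹) * (x - y) : ℝ) : ℂ) := by
    push_cast
    ring
  rw [e, norm_real, Real.norm_eq_abs, abs_mul] at h3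
  rw [div_mul_eq_mul_div, le_div_iff₀ (abs_pos.2 (sub_ne_zero.2 hxy)), siz]
  have a1 : (tau x f - 1) * ‖I - x‖ ^ 2 ≤ (tau x f * tau y f - 1) * ‖I - x‖ ^ 2 :=
    mul_le_mul_of_nonneg_right (by nlinarith) (by positivity)
  have a2 : (tau y f - 1) * ‖I - y‖ ^ 2 ≤ (tau x f * tau y f - 1) * ‖I - y‖ ^ 2 :=
    mul_le_mul_of_nonneg_right (by nlinarith) (by positivity)
  linarith

lemma GF.norm_sub_id {f : ℂ → ℂ} (hf : GF G f) {Λ : ℝ} (hj : Julia f x x Λ) {w : ℂ}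
    (hw : w ∈ H) : ‖f w - w‖ * w.im ≤ (siz x y f - 1) *
      (1 + (‖I - x‖ ^ 2 + ‖I - y‖ ^ 2) / |x - y| * Λ) * ‖w - x‖ ^ 2 := by
  have h1 := hf.near hx hw
  have h2 := hf.inv_bound hx hy hxy
  have h3 := hj.norm_le hf.univ.toHol hw
  have t1 := hf.one_le_tau hx
  have t2 := hf.one_le_tau hy
  have hw' : 0 < w.im := hw
  have h4 := norm_add_le (((cInf f)⁻¹ : ℝ) * f w + (x - (cInf f)⁻¹ * x : ℝ) - w)
    (((1 - (cInf f)⁻¹ : ℝ) : ℂ) * (f w - x))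
  have e : ((cInf f)⁻¹ : ℝ) * f w + (x - (cInf f)⁻¹ * x : ℝ) - w +
      ((1 - (cInf f)⁻¹ : ℝ) : ℂ) * (f w - x) = f w - w := by
    push_cast
    ring
  rw [e, norm_mul, norm_real, Real.norm_eq_abs] at h4
  have a1 : (tau x f - 1) * ‖w - x‖ ^ 2 ≤ (siz x y f - 1) * ‖w - x‖ ^ 2 :=
    mul_le_mul_of_nonneg_right (by rw [siz]; nlinarith) (by positivity)
  have a2 := mul_le_mul h2 h3 (by positivity) ((abs_nonneg _).trans h2)
  have a3 := mul_le_mul_of_nonneg_right h4 hw'.le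
  nlinarith

lemma GF.eq_id_of_siz_le {f : ℂ → ℂ} (hf : GF G f) (h : siz x y f ≤ 1) : ∀ z ∈ H, f z = z :=
  fun z hz => by
  have h1 := hf.norm_sub_id hx hy hxy (hf.julia_lam hx) hz
  have h2 : 0 < z.im := hz
  rw [le_antisymm h (hf.one_le_siz hx hy), sub_self, zero_mul, zero_mul] at h1
  have h3 : ‖f z - z‖ ≤ 0 := by
    by_contra h3
    push Not at h3
    nlinarith
  exact sub_eq_zero.1 (norm_le_zero_iff.1 h3)

lemma GF.exists_bd (hG : G.Finite) {φ : ℂ → ℂ} (hφ : GF G φ) :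
    ∃ c₀ Λ : ℝ, 0 < c₀ ∧ ∀ p q r, GF G p → GF G q → GF G r → (∀ z ∈ H, φ z = p (q (r z))) →
      Low q c₀ ∧ ∀ σ ∈ G, Julia q σ σ Λ := by
  obtain ⟨Λ, hΛ⟩ := hφ.exists_unif hG
  set N := 1 + (‖I - x‖ ^ 2 + ‖I - y‖ ^ 2) / |x - y| * (siz x y φ - 1) with hN
  have key : ∀ f, GF G f → siz x y f ≤ siz x y φ → (cInf f)⁻¹ ≤ N := fun f hf h => by
    have h1 := (abs_le.1 (hf.inv_bound hx hy hxy)).1
    have h2 : (‖I - x‖ ^ 2 + ‖I - y‖ ^ 2) / |x - y| * (siz x y f - 1) ≤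
        (‖I - x‖ ^ 2 + ‖I - y‖ ^ 2) / |x - y| * (siz x y φ - 1) :=
      mul_le_mul_of_nonneg_left (by linarith) (by positivity)
    linarith
  have hN0 : 0 < N := (inv_pos.2 hφ.cpos).trans_le (key φ hφ le_rfl)
  refine ⟨N⁻¹, Λ * N * N, inv_pos.2 hN0, fun p q r hp hq hr e => ?_⟩
  have e1 := hp.siz_comp hx hy (hq.comp hr) e
  have e2 := hq.siz_comp hx hy hr fun _ _ => rfl
  have s1 := hp.one_le_siz hx hy
  have s2 := hq.one_le_siz hx hy
  have s3 := hr.one_le_siz hx hy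
  have s4 : 1 ≤ siz x y q * siz x y r := one_le_mul_of_one_le_of_one_le s2 s3
  rw [e2] at e1
  have kp := key p hp (by nlinarith)
  have kq := key q hq (by nlinarith)
  have kr := key r hr (by nlinarith)
  refine ⟨hq.univ.toHol.low_of_le (inv_le_of_inv_le₀ hq.cpos kq), fun σ hσ =>
    (hq.julia_lam hσ).mono hq.univ.toHol ?_⟩
  have f1 := hp.tau_comp (hq.comp hr) e hσ
  have f2 := hq.tau_comp hr (fun _ _ => rfl) hσ
  have g1 := hp.cInf_eq (hq.comp hr) e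
  have g2 := hq.cInf_eq hr fun _ _ => rfl
  rw [f2] at f1
  rw [g2] at g1
  have t1 := hp.one_le_tau hσ
  have t2 := hq.one_le_tau hσ
  have t3 := hr.one_le_tau hσ
  have t4 : tau σ q ≤ tau σ φ := by nlinarith [mul_le_mul t1 t3 zero_le_one (by linarith)]
  have t5 : tau σ φ * cInf φ ≤ Λ := by
    rw [tau, div_mul_cancel₀ _ hφ.cpos.ne']
    exact (hΛ σ hσ).lam_le hφ.univ.toHol
  have cp := hp.cpos
  have cq := hq.cpos
  have cr := hr.cpos
  have c0 := hφ.cpos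
  calc lam σ q = tau σ q * cInf φ * (cInf p)⁻¹ * (cInf r)⁻¹ := by
        rw [g1, tau]
        field_simp
    _ ≤ Λ * N * N := by
        have b1 : tau σ q * cInf φ ≤ Λ := (mul_le_mul_of_nonneg_right t4 c0.le).trans t5
        have b2 : 0 ≤ tau σ q * cInf φ := by positivity
        have b3 : 0 ≤ Λ := b2.trans b1
        gcongr

end two

lemma GF.limit {ι : Type*} (𝒰 : Ultrafilter ι) {f : ι → ℂ → ℂ} (hf : ∀ i, GF G (f i))
    {c₀ Λ σ : ℝ} (hc : 0 < c₀) (hσ : σ ∈ G) (hb : ∀ i, Low (f i) c₀ ∧ ∀ x ∈ G, Julia (f i) x x Λ) :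
    ∃ g, GF G g ∧ TendstoLocallyUniformlyOn f g 𝒰 H ∧
      ∀ x ∈ G, ∃ α, Tendsto (fun i => tau x (f i)) 𝒰 (𝓝 α) ∧ tau x g ≤ α := by
  obtain ⟨g, h1, h2, h3⟩ := exists_limit 𝒰 (fun i => (hf i).univ) hc (fun i => (hb i).1)
    (w := fun _ => I) (M := max 1 (Λ * ‖I - σ‖ ^ 2 + |σ|)) one_pos fun i =>
      ⟨by simp, by simp, (((hb i).2 σ hσ).norm_I_le' (hf i).univ.toHol).trans (le_max_right _ _)⟩
  have hg : GF G g := ⟨h1, hc.trans_le h2.le_cInf, fun x hx => ⟨Λ, julia_limit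
    (fun z hz => h3.tendsto_at hz) tendsto_const_nhds tendsto_const_nhds tendsto_const_nhds
    (Eventually.of_forall fun i => (hb i).2 x hx)⟩⟩
  refine ⟨g, hg, h3, fun x hx => ?_⟩
  have l1 : ∀ i, lam x (f i) ≤ Λ := fun i => ((hb i).2 x hx).lam_le (hf i).univ.toHol
  obtain ⟨l, hl⟩ := exists_tendsto_of_bounded_real 𝒰 (a := fun i => lam x (f i)) (M := Λ)
    (Eventually.of_forall fun i => by
      rw [abs_of_pos ((hf i).cpos.trans_le ((hf i).cInf_le_lam hx))]; exact l1 i)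
  obtain ⟨γ, hγ⟩ := exists_tendsto_of_bounded_real 𝒰 (a := fun i => cInf (f i)) (M := Λ)
    (Eventually.of_forall fun i => by
      rw [abs_of_pos (hf i).cpos]; exact ((hf i).cInf_le_lam hx).trans (l1 i))
  have hγ0 : 0 < γ := hc.trans_le (ge_of_tendsto' hγ fun i => (hb i).1.le_cInf)
  have a1 : lam x g ≤ l := (julia_limit (fun z hz => h3.tendsto_at hz) tendsto_const_nhds
    tendsto_const_nhds hl (Eventually.of_forall fun i => (hf i).julia_lam hx)).lam_le h1.toHol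
  have a2 : γ ≤ cInf g := Low.le_cInf fun z hz =>
    le_of_tendsto_of_tendsto' (hγ.mul_const _)
      ((Complex.continuous_im.tendsto _).comp (h3.tendsto_at hz))
      fun i => (hf i).univ.toHol.low_cInf z hz
  refine ⟨l / γ, hl.div hγ hγ0.ne', ?_⟩
  have a3 := hg.cpos.trans_le (hg.cInf_le_lam hx)
  exact div_le_div₀ (by linarith) a1 hγ0 a2

theorem exists_evH_two (hG : G.Finite) {x y : ℝ} (hx : x ∈ G) (hy : y ∈ G) (hxy : x ≠ y)
    {φ : ℂ → ℂ} (hφ : GF G φ) : ∃ Ψ, EvH (GF G) φ Ψ := by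
  obtain ⟨c₀, Λ, hc₀, hbd⟩ := hφ.exists_bd hx hy hxy hG
  let X := {χ : ℂ → ℂ // GF G χ ∧ ∃ ψ, GF G ψ ∧ ∀ z ∈ H, φ z = ψ (χ z)}
  let r : X → X → Prop := fun a b => ∃ h, GF G h ∧ ∀ z ∈ H, b.1 z = h (a.1 z)
  let T : X → ℝ := fun a => siz x y a.1
  let bot : X := ⟨fun z => z, GF.id G, φ, hφ, fun _ _ => rfl⟩
  let top : X := ⟨φ, hφ, fun z => z, GF.id G, fun _ _ => rfl⟩
  have hX : ∀ a : X, Low a.1 c₀ ∧ ∀ σ ∈ G, Julia a.1 σ σ Λ := fun a => by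
    obtain ⟨ψ, h1, h2⟩ := a.2.2
    exact hbd _ _ _ h1 a.2.1 (GF.id G) h2
  have hY : ∀ (a b : X) (h : ℂ → ℂ), GF G h → (∀ z ∈ H, b.1 z = h (a.1 z)) →
      Low h c₀ ∧ ∀ σ ∈ G, Julia h σ σ Λ := fun a b h h1 h2 => by
    obtain ⟨ψ, g1, g2⟩ := b.2.2
    exact hbd _ _ _ g1 h1 a.2.1 fun z hz => by rw [g2 z hz, h2 z hz]
  have rig0 : ∀ a b : X, r a b → T b ≤ T a → ∀ z ∈ H, b.1 z = a.1 z := by
    rintro a b ⟨h, h1, h2⟩ hT z hz
    have e := h1.siz_comp hx hy a.2.1 h2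
    have h3 := a.2.1.one_le_siz hx hy
    have h4 : siz x y h ≤ 1 := by
      by_contra h4
      push Not at h4
      simp only [T] at hT
      nlinarith
    rw [h2 z hz, h1.eq_id_of_siz_le hx hy hxy h4 _ (a.2.1.univ.maps hz)]
  obtain ⟨γ, hγ1, hγ2⟩ := exists_param r T bot top (fun a => ⟨fun z => z, GF.id G, fun _ _ => rfl⟩)
    (by
      rintro a b c ⟨h, h1, h2⟩ ⟨g, g1, g2⟩
      exact ⟨_, g1.comp h1, fun z hz => by rw [g2 z hz, h2 z hz]⟩)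
    (fun a => ⟨a.1, a.2.1, fun _ _ => rfl⟩) (fun a => a.2.2)
    (fun a b h hT => ⟨fun z => z, GF.id G, fun z hz => (rig0 a b h hT z hz).symm⟩)
    (by
      rintro a b ⟨h, h1, h2⟩ hT
      have e := h1.siz_comp hx hy a.2.1 h2
      have h3 := a.2.1.one_le_siz hx hy
      have hid : ¬ ∀ z ∈ H, h z = z := fun hid => by
        have := (GF.id G).siz_comp hx hy a.2.1 (φ := b.1) fun z hz => by
          rw [h2 z hz, hid _ (a.2.1.univ.maps hz)]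
        have h5 := (GF.id G).siz_comp hx hy a.2.1 (φ := a.1) fun z hz => rfl
        exact hT.ne' (this.trans h5.symm)
      obtain ⟨p, q, hp, hq, e1, n1, n2⟩ := h1.split hG ⟨x, hx⟩ hid
      obtain ⟨ψ, g1, g2⟩ := b.2.2
      have e2 : ∀ z ∈ H, b.1 z = p (q (a.1 z)) := fun z hz => by
        rw [h2 z hz, e1 _ (a.2.1.univ.maps hz)]
      have l1 : 1 < siz x y p := lt_of_not_ge fun h' => n1 (hp.eq_id_of_siz_le hx hy hxy h')
      have l2 : 1 < siz x y q := lt_of_not_ge fun h' => n2 (hq.eq_id_of_siz_le hx hy hxy h')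
      have l3 := hq.siz_comp hx hy a.2.1 (fun _ _ => rfl)
      have l4 := hp.siz_comp hx hy (hq.comp a.2.1) e2
      refine ⟨⟨fun z => q (a.1 z), hq.comp a.2.1, _, g1.comp hp, fun z hz => by
        rw [g2 z hz, e2 z hz]⟩, ⟨q, hq, fun _ _ => rfl⟩, ⟨p, hp, e2⟩, ?_, ?_⟩
      · simp only [T]
        nlinarith
      · simp only [T]
        nlinarith)
    (by
      intro 𝒰 a
      choose ψ hψ eψ using fun n => (a n).2.2
      obtain ⟨χ₀, c1, c2, c3⟩ := GF.limit 𝒰 (fun n => (a n).2.1) hc₀ hx fun n => hX (a n)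
      obtain ⟨ψ₀, d1, d2, d3⟩ := GF.limit 𝒰 hψ hc₀ hx fun n => hY (a n) top _ (hψ n) (eψ n)
      have e0 : ∀ z ∈ H, φ z = ψ₀ (χ₀ z) := fun z hz =>
        tendsto_nhds_unique (tendsto_const_nhds.congr fun n => eψ n z hz)
          (tendsto_comp_H d1.univ.toHol d2 (c1.univ.maps hz) (c2.tendsto_at hz))
      have hlim : ∀ (b : ℕ → X) (c : ℕ → X), (∀ᶠ n in 𝒰, r (b n) (c n)) →
          ∃ (h : ℕ → ℂ → ℂ) (h₀ : ℂ → ℂ), GF G h₀ ∧ TendstoLocallyUniformlyOn h h₀ 𝒰 H ∧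
            ∀ᶠ n in 𝒰, ∀ z ∈ H, (c n).1 z = h n ((b n).1 z) := fun b c hbc => by
        have : ∀ n, ∃ h, GF G h ∧ (Low h c₀ ∧ ∀ σ ∈ G, Julia h σ σ Λ) ∧
            (r (b n) (c n) → ∀ z ∈ H, (c n).1 z = h ((b n).1 z)) := fun n => by
          by_cases hr : r (b n) (c n)
          · obtain ⟨h, h1, h2⟩ := hr
            exact ⟨h, h1, hY _ _ h h1 h2, fun _ => h2⟩
          · exact ⟨fun z => z, GF.id G, hX bot, fun h => (hr h).elim⟩
        choose h h1 h2 h3 using this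
        obtain ⟨h₀, g1, g2, -⟩ := GF.limit 𝒰 h1 hc₀ hx h2
        exact ⟨h, h₀, g1, g2, hbc.mono h3⟩
      refine ⟨⟨χ₀, c1, ψ₀, d1, e0⟩, ?_, fun y hy => ?_, fun y hy => ?_⟩
      · have key : ∀ σ ∈ G, Tendsto (fun n => tau σ (a n).1) 𝒰 (𝓝 (tau σ χ₀)) := fun σ hσ => by
          obtain ⟨α, hα, l1⟩ := c3 σ hσ
          obtain ⟨β, hβ, l2⟩ := d3 σ hσ
          have e1 : tau σ φ = β * α := tendsto_nhds_unique
            (tendsto_const_nhds.congr fun n => (hψ n).tau_comp (a n).2.1 (eψ n) hσ) (hβ.mul hα)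
          have e2 := d1.tau_comp c1 e0 hσ
          have l3 := c1.one_le_tau hσ
          have l4 := d1.one_le_tau hσ
          have : tau σ χ₀ = α := le_antisymm l1 (by nlinarith)
          rw [this]
          exact hα
        exact (key x hx).mul (key y hy)
      · obtain ⟨h, h₀, g1, g2, g3⟩ := hlim (fun _ => y) a hy
        refine ⟨h₀, g1, fun z hz => tendsto_nhds_unique (c2.tendsto_at hz) ?_⟩
        exact (g2.tendsto_at (y.2.1.univ.maps hz)).congr' (g3.mono fun n hn => (hn z hz).symm)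
      · obtain ⟨h, h₀, g1, g2, g3⟩ := hlim a (fun _ => y) hy
        exact ⟨h₀, g1, fun z hz => tendsto_nhds_unique
          (tendsto_const_nhds.congr' (g3.mono fun n hn => hn z hz))
          (tendsto_comp_H g1.univ.toHol g2 (c1.univ.maps hz) (c2.tendsto_at hz))⟩)
  have hTb : T bot = 1 := by
    have h1 := (GF.id G).siz_comp hx hy (GF.id G) (φ := fun z => z) fun _ _ => rfl
    have h2 := (GF.id G).one_le_siz hx hy
    show siz x y (fun z => z) = 1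
    nlinarith
  set L := T top with hL
  have hL1 : 1 ≤ L := hφ.one_le_siz hx hy
  rw [hTb] at hγ1 hγ2
  have hm : ∀ t ∈ Icc (0 : ℝ) 1, 1 + t * (L - 1) ∈ Icc 1 L := fun t ht =>
    ⟨by nlinarith [ht.1], by nlinarith [ht.2]⟩
  refine evH_of_chain (fun f hf => hf.univ) (χ := fun t => (γ (1 + t * (L - 1))).1)
    (fun t _ => (γ _).2.1.univ) ?_ ?_
    (fun s hs t ht hst => hγ2 _ (hm s hs) _ (hm t ht) (by nlinarith)) fun z hz => ?_
  · refine rig0 bot _ ⟨_, (γ _).2.1, fun _ _ => rfl⟩ ?_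
    rw [hγ1 _ (hm 0 (by simp)), hTb]
    simp
  · refine fun z hz => (rig0 _ top (γ _).2.2 ?_ z hz).symm
    rw [hγ1 _ (hm 1 (by simp)), ← hL]
    simp
  · have hz' : 0 < z.im := hz
    have hΛ : 0 < Λ := ((hX top).2 x hx).pos hφ.univ.toHol
    set N := 1 + (‖I - x‖ ^ 2 + ‖I - y‖ ^ 2) / |x - y| * Λ with hN
    have hN0 : 0 < N := by positivity
    refine ⟨(L - 1) * N * Λ * ‖z - x‖ ^ 2 / z.im, by have := sub_nonneg.2 hL1; positivity,
      fun s u t hs hu ht ht1 g h hg hh eg eh => ?_⟩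
    have mu := hm u ⟨by linarith, by linarith⟩
    have mt := hm t ⟨by linarith, ht1⟩
    have eu : siz x y (γ _).1 = _ := hγ1 _ mu
    have et : siz x y (γ _).1 = _ := hγ1 _ mt
    have e2 := hh.siz_comp hx hy (γ _).2.1 eh
    rw [eu, et] at e2
    have h1 := hh.one_le_siz hx hy
    have h2 : siz x y h - 1 ≤ (L - 1) * (t - u) := by nlinarith [mu.1]
    have hw := hg.univ.maps hz
    have hw' : 0 < (g z).im := hw
    have a1 := hh.norm_sub_id hx hy hxy ((hY _ _ h hh eh).2 x hx) hw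
    have a2 := (hY _ _ g hg eg).2 x hx z hz
    rw [norm_sub_rev, div_mul_eq_mul_div, le_div_iff₀ hz']
    have h3 : 0 ≤ (L - 1) * (t - u) := by linarith
    have a3 : ‖h (g z) - g z‖ * z.im * (g z).im ≤
        (L - 1) * N * Λ * ‖z - x‖ ^ 2 * (t - u) * (g z).im := by
      calc ‖h (g z) - g z‖ * z.im * (g z).im = ‖h (g z) - g z‖ * (g z).im * z.im := by ring
        _ ≤ (siz x y h - 1) * N * ‖g z - x‖ ^ 2 * z.im := by gcongr
        _ ≤ (L - 1) * (t - u) * N * ‖g z - x‖ ^ 2 * z.im := by gcongr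
        _ = (L - 1) * (t - u) * N * (z.im * ‖g z - x‖ ^ 2) := by ring
        _ ≤ (L - 1) * (t - u) * N * (Λ * ‖z - x‖ ^ 2 * (g z).im) := by gcongr
        _ = _ := by ring
    exact le_of_mul_le_mul_right a3 hw'

end Pool.Agent.MP_1a2790_an
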