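import Pool.Agent.MP_1a2790_an.Q2Rad

/-! Factorisation of a map none of whose inner arcs is filled. -/

open Complex Set Filter Topology Metric Function
open scoped ComplexConjugate

namespace Pool.Agent.MP_1a2790_an

lemma rigid' {φ : ℂ → ℂ} (hφ : Univ φ) (hl : Low φ 1) (hc : cInf φ ≤ 1) {ρ : ℝ}
    (hρ : 0 < ρ) (hG : Gr ρ ⊆ φ '' H) {s s' t' Λ : ℝ} (hj : Julia φ s s Λ)
    (hj' : Julia φ s' t' Λ) (hst : s' ≤ t') (hreal : ∀ x : ℝ, x < s ∨ s' < x → ∀ M : ℝ,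
      (∀ y ∈ Ioc (0 : ℝ) 1, ‖φ (x + y * I)‖ ≤ M) →
      Tendsto (fun y : ℝ => (φ (x + y * I)).im) (𝓝[>] 0) (𝓝 0)) : ∀ z ∈ H, φ z = z := by
  obtain ⟨M, hM0, hM⟩ := exists_shift_bound hφ hl hc hρ hG
  have hbd : ∀ z ∈ H, ‖φ z‖ ≤ 2 * ρ + ‖z‖ + M := fun z hz => by
    by_cases h : 2 * ρ ≤ ‖φ z‖
    · have h1 := hM z hz h
      have h2 := norm_add_le (φ z - z) z
      rw [sub_add_cancel] at h2
      linarith
    · push Not at h
      linarith [norm_nonneg z]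
  set p : ℂ → ℂ := fun z => φ z - z with hp
  have hpd : DifferentiableOn ℂ p H := hφ.diff.sub differentiableOn_id
  have hp0 : ∀ z ∈ H, 0 ≤ (p z).im := fun z hz => by
    have := hl z hz
    simp only [hp, sub_im]
    linarith
  have hnorm : ∀ x y : ℝ, y ∈ Ioc (0 : ℝ) 1 → ‖(x : ℂ) + y * I‖ ≤ |x| + 1 := fun x y hy => by
    have := norm_add_le (x : ℂ) (y * I)
    rw [norm_mul_I hy.1, norm_real, Real.norm_eq_abs] at this
    linarith [hy.2]
  have hpim : ∀ x y : ℝ, y ∈ Ioc (0 : ℝ) 1 → |(p (x + y * I)).im| ≤ 2 * ρ + 2 * (|x| + 1) + M :=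
    fun x y hy => by
      have h1 := hbd _ (add_mul_I_mem_H x hy.1)
      have h2 := hnorm x y hy
      have h3 : ‖p (x + y * I)‖ ≤ _ := norm_sub_le _ _
      linarith [Complex.abs_im_le_norm (p (x + y * I))]
  have hp_real : ∀ x : ℝ, x < s ∨ s' < x →
      Tendsto (fun y : ℝ => (p (x + y * I)).im) (𝓝[>] 0) (𝓝 0) := fun x hx => by
    have h1 := hreal x hx (2 * ρ + (|x| + 1) + M) fun y hy => by
      have h1 := hbd _ (add_mul_I_mem_H x hy.1)
      have h2 := hnorm x y hy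
      linarith
    refine squeeze_zero' (eventually_nhdsWithin_of_forall fun y hy =>
      hp0 _ (add_mul_I_mem_H x hy)) (eventually_nhdsWithin_of_forall fun y hy => ?_) h1
    have : (0 : ℝ) < y := hy
    simp only [hp, sub_im, add_im, ofReal_im, mul_im, ofReal_re, I_im, I_re]
    linarith
  have hΛ := hj.pos hφ.toHol
  have hvert : ∀ t : ℝ, Julia φ t t Λ → ∀ y : ℝ, 0 < y → |(p (t + y * I)).re| ≤ Λ * y :=
    fun t ht y hy => by
      have a1 := (Complex.abs_re_le_norm _).trans (ht.vertical hφ.toHol hy)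
      simpa [hp] using a1
  set C : ℝ := (|s'| + 3) ^ 2 with hC
  have hC0 : 0 < C := by positivity
  have key : ∀ δ ∈ Ioc (0 : ℝ) 1, ∀ r, 2 * ρ ≤ r →
      (p I).im / C ≤ 2 * (8 * ρ ^ 2 / r) + 2 * Λ * δ := by
    intro δ hδ r hr
    set X : ℝ := r + M + |s| + |s'| + 1 with hX
    have hs1 := neg_abs_le s
    have hs2 := le_abs_self s'
    have hs3 := abs_nonneg s
    have hs4 := abs_nonneg s'
    have hfar : ∀ x y : ℝ, |x| = X → 0 < y → r ≤ ‖φ (x + y * I)‖ := fun x y hx hy => by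
      apply proper_of_shift hφ.toHol hl hρ hM0 hM hr
      refine ⟨add_mul_I_mem_H x hy, ?_⟩
      have := Complex.abs_re_le_norm ((x : ℂ) + y * I)
      simp only [add_re, ofReal_re, mul_re, I_re, mul_zero, ofReal_im, I_im, mul_one, sub_self,
        add_zero] at this
      linarith
    have hX0 : 0 < X := by linarith
    set b : ℝ := (p (X + (1 : ℝ) * I)).re with hb
    have hosc : ∀ x y : ℝ, |x| = X → 0 < y → |(p (x + y * I)).re - b| ≤ 8 * ρ ^ 2 / r :=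
      fun x y hx hy => by
        have := osc_bound hφ hl hc hρ hG hr (add_mul_I_mem_H x hy) (add_mul_I_mem_H X one_pos)
          (hfar x y hx hy) (hfar X 1 (abs_of_pos hX0) one_pos)
        exact (Complex.abs_re_le_norm (p (x + y * I) - p (X + (1 : ℝ) * I))).trans this
    have hbound : ∀ x y : ℝ, |x| ≤ X → y ∈ Ioc (0 : ℝ) δ →
        |(p (x + y * I)).im| ≤ 2 * ρ + 2 * (X + 1) + M := fun x y hx hy =>
      (hpim x y ⟨hy.1, hy.2.trans hδ.2⟩).trans (by linarith)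
    have h1 := rect_ineq hpd (x₁ := s') (x₂ := X) (by linarith) hδ.1
      (M := 2 * ρ + 2 * (X + 1) + M) (η := b + 8 * ρ ^ 2 / r + Λ * δ)
      (fun x hx y hy => hbound x y (abs_le.2 ⟨by linarith [hx.1, neg_abs_le s'], hx.2⟩) hy)
      (fun x hx => hp_real x (Or.inr hx.1)) (fun y hy => by
        have a1 := (abs_le.1 (hosc X y (abs_of_pos hX0) hy.1)).2
        have a2 : -(Λ * y) ≤ (p (s' + y * I)).re := by
          have a3 := (abs_le.1 ((Complex.abs_re_le_norm _).trans (hj'.vertical hφ.toHol hy.1))).1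
          simp only [hp, sub_re, ofReal_re, add_re, mul_re, I_re, mul_zero, ofReal_im, I_im,
            mul_one, sub_self, add_zero] at a3 ⊢
          linarith
        nlinarith [hy.2])
    have h2 := rect_ineq hpd (x₁ := -X) (x₂ := s) (by linarith) hδ.1
      (M := 2 * ρ + 2 * (X + 1) + M) (η := -b + 8 * ρ ^ 2 / r + Λ * δ)
      (fun x hx y hy => hbound x y (abs_le.2 ⟨hx.1, by linarith [hx.2, le_abs_self s]⟩) hy)
      (fun x hx => hp_real x (Or.inl hx.2)) (fun y hy => by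
        have a1 := (abs_le.1 (hosc (-X) y (by rw [abs_neg, abs_of_pos hX0]) hy.1)).1
        have a2 := (abs_le.1 (hvert s hj y hy.1)).2
        nlinarith [hy.2])
    have hcont : Continuous fun x : ℝ => (p (x + δ * I)).im :=
      Complex.continuous_im.comp (continuous_horizontal hpd.continuousOn hδ.1)
    have hnn : ∀ x : ℝ, 0 ≤ (p (x + δ * I)).im := fun x => hp0 _ (add_mul_I_mem_H x hδ.1)
    have h3 : 0 ≤ ∫ x in (-X)..s, (p (x + δ * I)).im :=
      intervalIntegral.integral_nonneg (by linarith) fun x _ => hnn x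
    have h4 : ∫ x in s'..(s' + 1), (p (x + δ * I)).im ≤ ∫ x in s'..X, (p (x + δ * I)).im :=
      intervalIntegral.integral_mono_interval le_rfl (by linarith) (by linarith)
        (Eventually.of_forall fun x => hnn x) (hcont.intervalIntegrable _ _)
    have h5 := intervalIntegral.integral_mono_on (show s' ≤ s' + 1 by linarith)
      (intervalIntegrable_const (c := (p I).im / C * δ))
      (hcont.intervalIntegrable (μ := MeasureTheory.volume) s' (s' + 1)) fun x hx => by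
        have a1 := harnack_lower hpd hp0 (add_mul_I_mem_H x hδ.1) I_mem_H
        have a2 : ‖(x : ℂ) + δ * I - conj I‖ ≤ |s'| + 3 := by
          have b1 := norm_sub_le ((x : ℂ) + δ * I) (conj I)
          have b2 := hnorm x δ hδ
          have b3 : |x| ≤ |s'| + 1 := abs_le.2 ⟨by linarith [hx.1, neg_abs_le s'], by linarith [hx.2]⟩
          simp only [RCLike.norm_conj, norm_I] at b1
          linarith
        have a3 : ‖(x : ℂ) + δ * I - conj I‖ ^ 2 ≤ C := by rw [hC]; gcongr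
        simp only [add_im, ofReal_im, mul_im, ofReal_re, I_im, mul_one, I_re, mul_zero, add_zero,
          zero_add] at a1
        rw [div_mul_eq_mul_div, div_le_iff₀ hC0]
        nlinarith [hnn x]
    simp only [intervalIntegral.integral_const, smul_eq_mul, add_sub_cancel_left, one_mul] at h5
    have h6 : (p I).im / C * δ ≤ (2 * (8 * ρ ^ 2 / r) + 2 * Λ * δ) * δ := by linarith
    exact le_of_mul_le_mul_right h6 hδ.1
  have key2 : ∀ δ ∈ Ioc (0 : ℝ) 1, (p I).im / C ≤ 2 * Λ * δ := fun δ hδ => by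
    have t : Tendsto (fun r : ℝ => 2 * (8 * ρ ^ 2 / r) + 2 * Λ * δ) atTop
        (𝓝 (2 * 0 + 2 * Λ * δ)) :=
      ((tendsto_id.const_div_atTop _).const_mul _).add_const _
    rw [mul_zero, zero_add] at t
    exact ge_of_tendsto t ((eventually_ge_atTop _).mono (key δ hδ))
  have t : Tendsto (fun δ : ℝ => 2 * Λ * δ) (𝓝[>] 0) (𝓝 (2 * Λ * 0)) :=
    Tendsto.mono_left (Continuous.tendsto (by fun_prop) 0) nhdsWithin_le_nhds
  rw [mul_zero] at t
  have key3 := ge_of_tendsto t (mem_of_superset (Ioc_mem_nhdsGT one_pos) key2)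
  rw [div_le_iff₀ hC0, zero_mul] at key3
  refine eq_id_of_im_le hφ.toHol hl hj I_mem_H ?_
  simp only [hp, sub_im] at key3
  linarith

variable {φ : ℂ → ℂ} {σ : ℕ → ℝ} {n : ℕ} {Λ a b : ℝ} {P Γ : ℕ → UI → ℂ} {K : ℕ → ℝ} {A : Set ℂ}

lemma exists_better_state' (D : Dat φ σ n Λ P Γ K) (ha0 : 0 < a) (hb : 0 < b)
    (hA : ∀ w ∈ A, ∀ k < n, w ∈ Rout (Γ k) (σ k) (σ (k + 1)))
    {ψ χ : ℂ → ℂ} {s : ℕ → ℝ} (S : St φ σ n Λ a b A ψ χ s) {k : ℕ} (hk : k < n)
    (hlt : σ (k + 1) - σ k < s (k + 1) - s k) {w : ℂ} (hwR : w ∈ Rin (Γ k) (σ k) (σ (k + 1)))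
    (hw1 : w ∉ ψ '' H) (hw2 : w ∈ closure (ψ '' H)) :
    ∃ ψ' χ' s', St φ σ n Λ a b A ψ' χ' s' ∧ (χ I).im < (χ' I).im := by
  have hslt : ∀ j < n, s j < s (j + 1) := fun j hj => by linarith [S.gap j hj, D.lt j hj]
  have jψ : ∀ j ≤ n, Julia ψ (s j) (σ j) (Λ / b) := fun j hj => S.jψ D ha0 hb hj
  have hcψ : a ≤ cInf ψ := S.lψ.le_cInf
  have hcψ0 : 0 < cInf ψ := by linarith
  obtain ⟨Q, KQ, hQ, eQ⟩ := (D.hP k hk).image (D.lt k hk).ne S.uχ.toHol hb S.lχ (S.jχ k hk.le)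
    (S.jχ (k + 1) hk)
  have hΓ := D.hΓ k hk
  have eΓ : ∀ t, t ≠ 0 → t ≠ 1 → Γ k t = ψ (Q t) := fun t h0 h1 => by
    rw [D.eΓ k hk t h0 h1, eQ t h0 h1, S.fac _ ((D.hP k hk).mem t h0 h1)]
  have hri := range_inter_subset_image hQ hΓ eΓ
  set R := Rin (Γ k) (σ k) (σ (k + 1)) with hR
  obtain ⟨ψ₁, u₁, i1, i2, i3⟩ := exists_enlarge S.uψ (S.uψ.isOpen_image.union hΓ.isOpen_Rin)
    (S.uψ.propC.union S.uψ.maps.image_subset (fun _ h => h.1) hΓ.isOpen_Rout
      (disjoint_Rin_Rout _ _ _) fun z hz => mem_Rin_or_Rout _ _ hz.1 fun h => hz.2 (hri ⟨h, hz.1⟩))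
    subset_union_left (union_subset S.uψ.maps.image_subset fun _ h => h.1) (Or.inr hwR) hw2
  obtain ⟨ψ₂, h₁, u₂, uh, im₂, f₂, lh, l₂, jh⟩ := factor_norm S.uψ hcψ0 u₁ i1
    (jψ 0 (Nat.zero_le _))
  have hns : ¬ H ⊆ h₁ '' H := not_surj_of_factor f₂ fun h => hw1 (h (im₂ ▸ i3))
  have hreal : ∀ j < n, j ≠ k → RealOn h₁ (s j) (s (j + 1)) := by
    intro j hj hjk x hx
    obtain ⟨t₁, j1, -⟩ := contact_split u₂.toHol uh.toHol hcψ0 one_pos l₂ lh
      ((jψ j hj.le).congr f₂)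
    obtain ⟨t₂, j2, -⟩ := contact_split u₂.toHol uh.toHol hcψ0 one_pos l₂ lh
      ((jψ (j + 1) hj).congr f₂)
    obtain ⟨M, hM⟩ := bounded_between uh one_pos lh (hslt j hj) j1 j2
    apply tendsto_im_factor S.uψ u₂ uh f₂ hΓ.isOpen_Rin (im₂ ▸ i2) (hM x (Ioo_subset_Icc_self hx))
    have hx' : x < s k ∨ s (k + 1) < x := by
      rcases lt_or_gt_of_ne hjk with h | h
      · exact Or.inl (hx.2.trans_le (le_of_steps hslt h hk.le))
      · exact Or.inr ((le_of_steps hslt h hj.le).trans_lt hx.1)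
    filter_upwards [eventually_image_mem_Rout hQ hΓ S.uψ ha0 S.lψ eΓ (hslt k hk) hx'] with y hy h
    exact disjoint_left.1 (disjoint_Rin_Rout _ _ _) h hy
  obtain ⟨𝒰, gb, ga, hg, hlim⟩ := small_factor uh lh
    (cInf_le_one_of_factor u₂.toHol uh.toHol hcψ0 f₂ lh l₂) hns jh
  have uψ' : ∀ m, Univ (fun z => ψ₂ (gb m z)) := fun m => u₂.comp (hg m).1
  have lψ' : ∀ m, Low (fun z => ψ₂ (gb m z)) a := fun m => by
    simpa using (l₂.mono hcψ).comp (hg m).2.2.2.2.1 ha0.le (hg m).1.maps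
  have fψ' : ∀ m, ∀ z ∈ H, ψ₂ (gb m (ga m z)) = ψ z := fun m z hz => by
    rw [(hg m).2.2.1 z hz, f₂ z hz]
  have ht : ∀ m j, ∃ t, j ≤ n → Julia (ga m) (s j) t (Λ / b / a) := by
    intro m j
    by_cases hj : j ≤ n
    · obtain ⟨t, h1, -⟩ := contact_split (uψ' m).toHol (hg m).2.1.toHol ha0 one_pos (lψ' m)
        (hg m).2.2.2.1 ((jψ j hj).congr (fψ' m))
      exact ⟨t, fun _ => h1⟩
    · exact ⟨0, fun h => absurd h hj⟩
  choose t ht using ht
  have htl : ∀ j ≤ n, Tendsto (fun m => t m j) 𝒰 (𝓝 (s j)) := by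
    intro j hj
    obtain ⟨t₀, h1, h2⟩ := exists_contact_limit 𝒰 (fun m => (hg m).2.1.toHol) hlim
      (fun m => ht m j hj)
    rwa [h2.unique univ_id.toHol (julia_id _)] at h1
  obtain ⟨m, hm⟩ := (((htl (k + 1) hk).sub (htl k hk.le)).eventually_const_lt hlt).exists
  obtain ⟨ub, ua, fb, la, lb, ja, nsa⟩ := hg m
  have uχ' : Univ (fun z => ga m (χ z)) := ua.comp S.uχ
  have lχ' : Low (fun z => ga m (χ z)) b := by
    simpa using la.comp S.lχ zero_le_one S.uχ.maps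
  have fac' : ∀ z ∈ H, ψ₂ (gb m (ga m (χ z))) = φ z := fun z hz => by
    rw [fψ' m _ (S.uχ.maps hz), S.fac z hz]
  refine ⟨fun z => ψ₂ (gb m z), fun z => ga m (χ z), t m, ⟨uψ' m, uχ', fac', lψ' m, lχ',
    fun j hj => ?_, ?_, fun j hj => ?_, fun v hv h => ?_⟩,
    im_lt_of_not_surj ua.toHol la nsa (S.uχ.maps I_mem_H)⟩
  · obtain ⟨t', h1, -⟩ := contact_split (uψ' m).toHol uχ'.toHol ha0 hb (lψ' m) lχ'
      ((D.jφ j hj).congr fac')
    rwa [h1.unique uχ'.toHol ((ht m j hj).comp ua.toHol S.uχ.toHol (S.jχ j hj))] at h1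
  · rw [← S.s0]
    exact (ht m 0 (Nat.zero_le _)).unique ua.toHol ja
  · by_cases e : j = k
    · rw [e]; exact hm.le
    · have := gap_le ua one_pos la (hslt j hj) (ht m j hj.le) (ht m (j + 1) hj)
        ((hreal j hj e).of_le ua.toHol fun z hz => by
          simpa [fb z hz] using lb _ (ua.maps hz))
      linarith [S.gap j hj]
  · obtain ⟨z, hz, rfl⟩ := h
    rcases i2 (im₂ ▸ ⟨gb m z, ub.maps hz, rfl⟩ : ψ₂ (gb m z) ∈ ψ₁ '' H) with h | h
    · exact S.avoid _ hv h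
    · exact disjoint_left.1 (disjoint_Rin_Rout _ _ _) h (hA _ hv k hk)

end Pool.Agent.MP_1a2790_an
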