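import Pool.Agent.MP_1a2790_an.Q2Wolff

/-! Maps with an interior fixed point. -/

open Complex Set Filter Topology Metric Function
open scoped ComplexConjugate

namespace Pool.Agent.MP_1a2790_an

/-- Quotient of the Cayley maps. -/
noncomputable def kf (f : ℂ → ℂ) (z₀ z : ℂ) : ℂ :=
  dslope f z₀ z * (z - conj z₀) / (f z - conj z₀)

lemma one_sub_norm_cay_sq {w z : ℂ} (hw : w ∈ H) (hz : z ∈ H) :
    (1 - ‖cay w z‖ ^ 2) * ‖z - conj w‖ ^ 2 = 4 * z.im * w.im := by
  have h0 := norm_pos_iff.2 (sub_conj_ne_zero hz hw)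
  rw [cay, norm_div, div_pow, sub_mul, div_mul_cancel₀ _ (by positivity), one_mul,
    norm_sub_conj_sq]
  ring

lemma est_of_norm_le_one {k : ℂ → ℂ} (hd : DifferentiableOn ℂ k H) (hk : ∀ z ∈ H, ‖k z‖ ≤ 1)
    {z w : ℂ} (hz : z ∈ H) (hw : w ∈ H) :
    ‖1 - k z‖ ≤ (1 + ‖z - conj w‖ ^ 2 / (z.im * w.im)) * ‖1 - k w‖ := by
  have hpd : DifferentiableOn ℂ (fun z => I * (1 - k z)) H := (hd.const_sub 1).const_mul I
  have hp0 : ∀ z ∈ H, 0 ≤ (I * (1 - k z)).im := fun z hz => by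
    have := (Complex.re_le_norm (k z)).trans (hk z hz)
    simp only [mul_im, I_re, zero_mul, I_im, sub_re, one_re, one_mul, zero_add]
    linarith
  have a1 := norm_sub_conj_le hpd hp0 hz hw
  have a2 : (I * (1 - k w)).im ≤ ‖1 - k w‖ := by simpa using Complex.im_le_norm (I * (1 - k w))
  have a3 := norm_add_le (I * (1 - k z) - conj (I * (1 - k w))) (conj (I * (1 - k w)))
  rw [sub_add_cancel, RCLike.norm_conj, norm_mul, norm_mul, norm_I, one_mul, one_mul] at a3
  have hz' : 0 < z.im := hz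
  have hw' : 0 < w.im := hw
  have a4 : ‖I * (1 - k z) - conj (I * (1 - k w))‖ ≤
      ‖z - conj w‖ ^ 2 / (z.im * w.im) * ‖1 - k w‖ := by
    rw [div_mul_eq_mul_div, le_div_iff₀ (by positivity)]
    exact a1.trans (by gcongr)
  linarith

lemma const_of_norm_eq_one {k : ℂ → ℂ} (hd : DifferentiableOn ℂ k H) (hk : ∀ z ∈ H, ‖k z‖ ≤ 1)
    {w : ℂ} (hw : w ∈ H) (h1 : ‖k w‖ = 1) : ∀ z ∈ H, k z = k w := fun z hz => by
  have h0 : k w ≠ 0 := by rintro h; simp [h] at h1
  have := est_of_norm_le_one (k := fun z => k z / k w) (hd.div_const _)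
    (fun z hz => by rw [norm_div, h1, div_one]; exact hk z hz) hz hw
  rw [div_self h0, sub_self, norm_zero, mul_zero, norm_le_zero_iff, sub_eq_zero, eq_comm,
    div_eq_one_iff_eq h0] at this
  exact this

section kf
variable {f : ℂ → ℂ} {z₀ : ℂ} (hf : Hol f) (hz₀ : z₀ ∈ H)
include hf hz₀

lemma kf_diff : DifferentiableOn ℂ (kf f z₀) H := by
  unfold kf
  exact (((differentiableOn_dslope (H_mem_nhds hz₀)).2 hf.diff).mul (by fun_prop)).div
    (hf.diff.sub_const _) fun z hz => sub_conj_ne_zero (hf.maps hz) hz₀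

variable (e : f z₀ = z₀)
include e

lemma kf_mul {z : ℂ} (hz : z ∈ H) : cay z₀ (f z) = kf f z₀ z * cay z₀ z := by
  have h1 := sub_smul_dslope f z₀ z
  rw [smul_eq_mul, e] at h1
  have h2 := sub_conj_ne_zero hz hz₀
  have h3 := sub_conj_ne_zero (hf.maps hz) hz₀
  rw [cay, cay, kf, ← h1]
  field_simp

lemma norm_cay_le {z : ℂ} (hz : z ∈ H) : ‖cay z₀ (f z)‖ ≤ ‖cay z₀ z‖ := by
  have h1 := hf.schwarzPick hz hz₀
  rw [e] at h1
  have h2 := norm_pos_iff.2 (sub_conj_ne_zero hz hz₀)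
  have h3 := norm_pos_iff.2 (sub_conj_ne_zero (hf.maps hz) hz₀)
  have h4 : 0 < z₀.im := hz₀
  rw [cay, cay, norm_div, norm_div, div_le_div_iff₀ h3 h2]
  refine le_of_pow_le_pow_left₀ two_ne_zero (by positivity) ?_
  rw [mul_pow, mul_pow, norm_sub_conj_sq, norm_sub_conj_sq]
  nlinarith

lemma norm_kf_le {z : ℂ} (hz : z ∈ H) : ‖kf f z₀ z‖ ≤ 1 := by
  have key : ∀ z ∈ H, z ≠ z₀ → ‖kf f z₀ z‖ ≤ 1 := fun z hz hne => by
    have h1 := norm_cay_le hf hz₀ e hz
    rw [kf_mul hf hz₀ e hz, norm_mul] at h1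
    have h2 : 0 < ‖cay z₀ z‖ :=
      norm_pos_iff.2 (div_ne_zero (sub_ne_zero.2 hne) (sub_conj_ne_zero hz hz₀))
    exact le_of_mul_le_mul_right (by linarith) h2
  by_cases hne : z = z₀
  · subst hne
    have hc := ((kf_diff hf hz).continuousOn.continuousAt (H_mem_nhds hz)).norm.tendsto.mono_left
      (nhdsWithin_le_nhds (s := {z}ᶜ))
    refine le_of_tendsto hc ?_
    filter_upwards [nhdsWithin_le_nhds (H_mem_nhds hz), self_mem_nhdsWithin] with w hw hw'
    exact key w hw hw'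
  · exact key z hz hne

lemma eq_id_of_kf (h : ∀ z ∈ H, kf f z₀ z = 1) : ∀ z ∈ H, f z = z := fun z hz => by
  rw [← cayInv_cay hz₀ (hf.maps hz), kf_mul hf hz₀ e hz, h z hz, one_mul, cayInv_cay hz₀ hz]

end kf

lemma kf_ne_zero {f : ℂ → ℂ} {z₀ : ℂ} (hf : Univ f) (hz₀ : z₀ ∈ H) {z : ℂ} (hz : z ∈ H) :
    kf f z₀ z ≠ 0 :=
  div_ne_zero (mul_ne_zero (dslope_ne_zero_of_injOn isOpen_H hf.diff hf.inj hz₀ hz)
    (sub_conj_ne_zero hz hz₀)) (sub_conj_ne_zero (hf.maps hz) hz₀)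

lemma exists_log_H {k : ℂ → ℂ} (hd : DifferentiableOn ℂ k H) (h0 : ∀ z ∈ H, k z ≠ 0) :
    ∃ L, DifferentiableOn ℂ L H ∧ ∀ z ∈ H, exp (L z) = k z := by
  have hs : IsSimplyConnected H := by
    have := convex_H.contractibleSpace ⟨I, I_mem_H⟩
    exact SimplyConnectedSpace.ofContractible H
  obtain ⟨L, h1, h2⟩ := Complex.exists_continuousOn_eqOn_exp_comp hs isOpen_H hd.continuousOn
    (by rintro ⟨z, hz, e⟩; exact h0 z hz e)
  exact ⟨L, differentiableOn_of_exp_eq isOpen_H h1 hd h2, h2⟩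

/-- Three sides of a rectangle. -/
noncomputable def rectPath (s s' h : ℝ) (t : UI) : ℂ :=
  ((s + max 0 (min (3 * (t : ℝ) - 1) 1) * (s' - s) : ℝ) : ℂ) +
    ((h * min (min (3 * (t : ℝ)) 1) (3 - 3 * t) : ℝ) : ℂ) * I

lemma rectPath_im (s s' h : ℝ) (t : UI) :
    (rectPath s s' h t).im = h * min (min (3 * (t : ℝ)) 1) (3 - 3 * t) := by
  simp only [rectPath, add_im, ofReal_im, mul_im, ofReal_re, I_im, I_re]
  ring

lemma rectPath_left (s s' h : ℝ) {t : UI} (ht : 3 * (t : ℝ) ≤ 1) :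
    rectPath s s' h t = s + ((h * (3 * t) : ℝ) : ℂ) * I := by
  rw [rectPath, max_eq_left ((min_le_left _ _).trans (by linarith)), min_eq_left ht,
    min_eq_left (by linarith)]
  simp

lemma rectPath_right (s s' h : ℝ) {t : UI} (ht : 2 ≤ 3 * (t : ℝ)) :
    rectPath s s' h t = s' + ((h * (3 - 3 * t) : ℝ) : ℂ) * I := by
  rw [rectPath, min_eq_right (by linarith : (1 : ℝ) ≤ 3 * t - 1), max_eq_right zero_le_one,
    min_eq_right (by linarith : (1 : ℝ) ≤ 3 * t), min_eq_right (by linarith)]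
  simp

lemma stolz_rectPath {s s' h : ℝ} (hs : s < s') (hh : 0 < h) :
    StolzPath (rectPath s s' h) s s' ((s' - s) / h + 1) := by
  have hK : 0 < (s' - s) / h := div_pos (sub_pos.2 hs) hh
  have hI : ∀ t : UI, t ≠ 0 → t ≠ 1 → 0 < (t : ℝ) ∧ (t : ℝ) < 1 := fun t h0 h1 =>
    ⟨unitInterval.pos_iff_ne_zero.2 h0, unitInterval.lt_one_iff_ne_one.2 h1⟩
  refine ⟨by unfold rectPath; fun_prop, ?_, ?_, by linarith, fun t h0 h1 => ?_, fun t h0 h1 => ?_⟩
  · rw [rectPath_left _ _ _ (by simp)]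
    simp
  · rw [rectPath_right _ _ _ (by norm_num)]
    simp
  · obtain ⟨a, b⟩ := hI t h0 h1
    rw [mem_H, rectPath_im]
    exact mul_pos hh (lt_min (lt_min (by linarith) one_pos) (by linarith))
  · obtain ⟨a, b⟩ := hI t h0 h1
    by_cases c1 : 3 * (t : ℝ) ≤ 1
    · left
      have : 0 < h * (3 * t) := by positivity
      rw [rectPath_left _ _ _ c1, add_sub_cancel_left, norm_mul_I this]
      simp only [add_im, ofReal_im, mul_im, ofReal_re, I_im, I_re]
      nlinarith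
    by_cases c2 : 2 ≤ 3 * (t : ℝ)
    · right
      have : 0 < h * (3 - 3 * t) := mul_pos hh (by linarith)
      rw [rectPath_right _ _ _ c2, add_sub_cancel_left, norm_mul_I this]
      simp only [add_im, ofReal_im, mul_im, ofReal_re, I_im, I_re]
      nlinarith
    left
    push Not at c1 c2
    refine (Complex.norm_le_abs_re_add_abs_im _).trans ?_
    rw [sub_im, ofReal_im, sub_zero, rectPath_im, min_eq_right c1.le, min_eq_left (by linarith),
      mul_one, abs_of_pos hh, add_mul, div_mul_cancel₀ _ hh.ne', one_mul]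
    have : (rectPath s s' h t - s).re = (3 * t - 1) * (s' - s) := by
      rw [rectPath, min_eq_left (by linarith : 3 * (t : ℝ) - 1 ≤ 1), max_eq_right (by linarith)]
      simp
    rw [this, abs_of_nonneg (by nlinarith)]
    nlinarith

/-- The argument of the quotient has the same limits at both ends of an arc. -/
lemma tendsto_log_kf {φ L : ℂ → ℂ} (hφ : Univ φ) {c s s' Λ Λ' : ℝ} (hc : 0 < c) (hl : Low φ c)
    (hs : s < s') (hj : Julia φ s s Λ) (hj' : Julia φ s' s' Λ') {z₀ : ℂ} (hz₀ : z₀ ∈ H)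
    (e : φ z₀ = z₀) (hL : ContinuousOn L H) (eL : ∀ z ∈ H, exp (L z) = kf φ z₀ z) :
    Tendsto (fun y : ℝ => L (s' + y * I) - L (s + y * I)) (𝓝[>] 0) (𝓝 0) := by
  have hy₀ : 0 < z₀.im := hz₀
  set h := z₀.im / 2 with hh
  have hh0 : 0 < h := by positivity
  have hQ := stolz_rectPath hs hh0
  set Q := rectPath s s' h with hQdef
  obtain ⟨Γ, K', hΓ, eΓ⟩ := hQ.image hs.ne hφ.toHol hc hl hj hj'
  have hzQ : z₀ ∉ range Q := by
    rintro ⟨t, ht⟩
    have h1 := rectPath_im s s' h t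
    rw [← hQdef, ht] at h1
    have h2 : min (min (3 * (t : ℝ)) 1) (3 - 3 * t) ≤ 1 := (min_le_left _ _).trans (min_le_right _ _)
    nlinarith
  have hzΓ : z₀ ∉ range Γ := e ▸ notMem_range_image hQ hΓ hφ eΓ hz₀ hzQ
  have hidx := idx_image hQ hΓ hφ hc hl eΓ hz₀ hzQ
  rw [e, idx, idx, sub_left_inj] at hidx
  have n1 : ∀ t, Q t - z₀ ≠ 0 := fun t h => hzQ ⟨t, sub_eq_zero.1 h⟩
  have n2 : ∀ t, Γ t - z₀ ≠ 0 := fun t h => hzΓ ⟨t, sub_eq_zero.1 h⟩
  have sl : ∀ w : ℂ, 0 ≤ w.im → -I * (w - conj z₀) ∈ slitPlane := fun w hw =>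
    Or.inl (by simp; linarith)
  have n3 : ∀ t, Q t - conj z₀ ≠ 0 := fun t =>
    right_ne_zero_of_mul (slitPlane_ne_zero (sl _ (hQ.im_nonneg t)))
  have n4 : ∀ t, Γ t - conj z₀ ≠ 0 := fun t =>
    right_ne_zero_of_mul (slitPlane_ne_zero (sl _ (hΓ.im_nonneg t)))
  have c1 : Continuous fun t => Q t - z₀ := hQ.cont.sub continuous_const
  have c2 : Continuous fun t => Γ t - z₀ := hΓ.cont.sub continuous_const
  have c3 : Continuous fun t => Q t - conj z₀ := hQ.cont.sub continuous_const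
  have c4 : Continuous fun t => Γ t - conj z₀ := hΓ.cont.sub continuous_const
  have i34 : inc (fun t => Q t - conj z₀) = inc (fun t => Γ t - conj z₀) := by
    rw [inc_of_slit c3 fun t => sl _ (hQ.im_nonneg t), inc_of_slit c4 fun t => sl _ (hΓ.im_nonneg t),
      hQ.zero, hQ.one, hΓ.zero, hΓ.one]
  set u : UI → ℂ := fun t => (Γ t - z₀) * (Q t - conj z₀) / ((Q t - z₀) * (Γ t - conj z₀)) with hu
  have uc : Continuous u := (c2.mul c3).div (c1.mul c4) fun t => mul_ne_zero (n1 t) (n4 t)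
  have un : ∀ t, u t ≠ 0 := fun t =>
    div_ne_zero (mul_ne_zero (n2 t) (n3 t)) (mul_ne_zero (n1 t) (n4 t))
  have iu : inc u = 0 := by
    have a1 := inc_mul uc un (c1.mul c4) fun t => mul_ne_zero (n1 t) (n4 t)
    have a2 : (fun t => u t * ((Q t - z₀) * (Γ t - conj z₀))) =
        fun t => (Γ t - z₀) * (Q t - conj z₀) :=
      funext fun t => div_mul_cancel₀ _ (mul_ne_zero (n1 t) (n4 t))
    have a3 := inc_mul c2 n2 c3 n3
    have a4 := inc_mul c1 n1 c4 n4
    simp only [Pi.mul_apply] at a1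
    rw [a2, a3] at a1
    have a5 : inc ((fun t => Q t - z₀) * fun t => Γ t - conj z₀) = _ := a4
    rw [a5] at a1
    linear_combination -a1 + hidx + i34
  have u0 : u 0 = 1 := by
    have := n1 0
    have := n3 0
    simp only [hu, hQ.zero, hΓ.zero] at *
    field_simp
  obtain ⟨G, hG⟩ := exists_isLift uc un
  have G1 : G 1 = 0 := by rw [← hG.inc_eq (un 0), iu]
  set π : ℝ → UI := projIcc 0 1 zero_le_one with hπ
  have πc : Continuous π := continuous_projIcc
  have πe : ∀ x ∈ Ioo (0 : ℝ) 1, (π x : ℝ) = x := fun x hx => by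
    rw [hπ, projIcc_of_mem _ (Ioo_subset_Icc_self hx)]
  have πn : ∀ x ∈ Ioo (0 : ℝ) 1, π x ≠ 0 ∧ π x ≠ 1 := fun x hx =>
    ⟨fun h => hx.1.ne' (by rw [← πe x hx, h]; rfl), fun h => hx.2.ne (by rw [← πe x hx, h]; rfl)⟩
  have key : ∀ x ∈ Ioo (0 : ℝ) 1, ∀ x' ∈ Ioo (0 : ℝ) 1,
      G (π x) - L (Q (π x)) = G (π x') - L (Q (π x')) := fun x hx x' hx' => by
    refine eq_of_exp_eq_one isPreconnected_Ioo (g := fun x => G (π x) - L (Q (π x)))
      ((hG.1.comp πc).continuousOn.sub (hL.comp (hQ.cont.comp πc).continuousOn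
        fun x hx => hQ.mem _ (πn x hx).1 (πn x hx).2)) (fun x hx => ?_) hx hx'
    have m := hQ.mem _ (πn x hx).1 (πn x hx).2
    have b1 := hG.2.2 (π x)
    have b2 := kf_mul hφ.toHol hz₀ e m
    rw [← eΓ _ (πn x hx).1 (πn x hx).2, cay, cay] at b2
    rw [u0, mul_one] at b1
    rw [exp_sub, b1, eL _ m, div_eq_one_iff_eq (kf_ne_zero hφ hz₀ m)]
    have := n1 (π x)
    have := n3 (π x)
    have := n4 (π x)
    simp only [hu]
    field_simp at b2 ⊢
    linear_combination b2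
  have t1 : Tendsto (fun y : ℝ => G (π (1 - y / (3 * h))) - G (π (y / (3 * h)))) (𝓝[>] 0)
      (𝓝 0) := by
    have : Continuous fun y : ℝ => G (π (1 - y / (3 * h))) - G (π (y / (3 * h))) :=
      (hG.1.comp (πc.comp (by fun_prop))).sub (hG.1.comp (πc.comp (by fun_prop)))
    have t := (this.tendsto 0).mono_left (nhdsWithin_le_nhds (s := Ioi 0))
    have p0 : π 0 = 0 := projIcc_left _
    have p1 : π 1 = 1 := projIcc_right _
    simpa [p0, p1, G1, hG.2.1] using t
  apply t1.congr'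
  filter_upwards [Ioo_mem_nhdsGT hh0] with y hy
  have d1 : 0 < y / (3 * h) := div_pos hy.1 (by positivity)
  have d2 : 3 * (y / (3 * h)) = y / h := by field_simp
  have d3 : y / h < 1 := (div_lt_one hh0).2 hy.2
  have m1 : y / (3 * h) ∈ Ioo (0 : ℝ) 1 := ⟨d1, by linarith⟩
  have m2 : 1 - y / (3 * h) ∈ Ioo (0 : ℝ) 1 := ⟨by linarith, by linarith⟩
  have k := key _ m1 _ m2
  have q1 : Q (π (y / (3 * h))) = s + y * I := by
    rw [hQdef, rectPath_left _ _ _ (by rw [πe _ m1]; linarith), πe _ m1, d2,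
      mul_div_cancel₀ _ hh0.ne']
  have q2 : Q (π (1 - y / (3 * h))) = s' + y * I := by
    rw [hQdef, rectPath_right _ _ _ (by rw [πe _ m2]; linarith), πe _ m2,
      show 3 - 3 * (1 - y / (3 * h)) = y / h by linarith, mul_div_cancel₀ _ hh0.ne']
  rw [q1, q2] at k
  linear_combination -k

/-- A map with an interior fixed point which is real on an arc between two boundary fixed points
is the identity. -/
theorem eq_id_of_realOn {φ : ℂ → ℂ} (hφ : Univ φ) {c s s' Λ Λ' : ℝ} (hc : 0 < c) (hl : Low φ c)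
    (hs : s < s') (hj : Julia φ s s Λ) (hj' : Julia φ s' s' Λ') (hr : RealOn φ s s') {z₀ : ℂ}
    (hz₀ : z₀ ∈ H) (e : φ z₀ = z₀) : ∀ z ∈ H, φ z = z := by
  have hy₀ : 0 < z₀.im := hz₀
  have kd := kf_diff hφ.toHol hz₀
  have k1 : ∀ z ∈ H, ‖kf φ z₀ z‖ ≤ 1 := fun z hz => norm_kf_le hφ.toHol hz₀ e hz
  have k2 : ∀ z ∈ H, ‖cay z₀ (φ z)‖ ≤ ‖kf φ z₀ z‖ := fun z hz => by
    rw [kf_mul hφ.toHol hz₀ e hz, norm_mul]
    exact mul_le_of_le_one_right (norm_nonneg _) (norm_cay_lt hz₀ hz).le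
  obtain ⟨L, hL, eL⟩ := exists_log_H kd fun z hz => kf_ne_zero hφ hz₀ hz
  have tL := tendsto_log_kf hφ hc hl hs hj hj' hz₀ e hL.continuousOn eL
  set p : ℂ → ℂ := fun z => -I * L z with hp
  have hpd : DifferentiableOn ℂ p H := hL.const_mul _
  have pim : ∀ z ∈ H, (p z).im = -Real.log ‖kf φ z₀ z‖ := fun z hz => by
    rw [← eL z hz, norm_exp, Real.log_exp]
    simp [hp]
  have hp0 : ∀ z ∈ H, 0 ≤ (p z).im := fun z hz => by
    rw [pim z hz, neg_nonneg]
    exact Real.log_nonpos (norm_nonneg _) (k1 z hz)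
  set h := z₀.im / 2 with hh
  have hh0 : 0 < h := by positivity
  obtain ⟨r, hr0, hball⟩ : ∃ r > 0, ball z₀ r ⊆ φ '' {z | h < z.im} := by
    have a1 := nhds_le_map_of_injOn isOpen_H hφ.diff hφ.inj hz₀
    rw [e] at a1
    exact Metric.mem_nhds_iff.1 (a1 (image_mem_map
      ((isOpen_lt continuous_const Complex.continuous_im).mem_nhds (by show h < z₀.im; linarith))))
  have hM : ∀ z ∈ H, z.im ≤ h → |(p z).im| ≤ -Real.log (r / (r + 2 * z₀.im)) := fun z hz hzh => by
    rw [abs_of_nonneg (hp0 z hz), pim z hz, neg_le_neg_iff]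
    refine Real.log_le_log (by positivity) (le_trans ?_ (k2 z hz))
    have a1 : r ≤ ‖φ z - z₀‖ := by
      by_contra hlt
      obtain ⟨w, hw, ew⟩ := hball (show φ z ∈ ball z₀ r by
        rw [mem_ball, dist_eq_norm]; exact not_le.1 hlt)
      have hw' : h < w.im := hw
      rw [hφ.inj (hh0.trans hw') hz ew] at hw'
      linarith
    have a2 : ‖φ z - conj z₀‖ ≤ ‖φ z - z₀‖ + 2 * z₀.im := by
      have b1 := norm_add_le (φ z - z₀) (z₀ - conj z₀)
      rw [sub_add_sub_cancel, Complex.sub_conj, norm_mul_I (by positivity)] at b1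
      exact b1
    rw [cay, norm_div, div_le_div_iff₀ (by positivity)
      (norm_pos_iff.2 (sub_conj_ne_zero (hφ.maps hz) hz₀))]
    nlinarith
  have hreal : ∀ x ∈ Ioo s s', Tendsto (fun y : ℝ => (p (x + y * I)).im) (𝓝[>] 0) (𝓝 0) := by
    intro x hx
    have hev : ∀ᶠ y : ℝ in 𝓝[>] 0, (x : ℂ) + y * I ∈ H :=
      eventually_nhdsWithin_of_forall fun y hy => add_mul_I_mem_H x hy
    have t0 : Tendsto (fun y : ℝ => 1 - 4 * (φ (x + y * I)).im / z₀.im) (𝓝[>] 0) (𝓝 1) := by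
      simpa using (((hr x hx).const_mul 4).div_const z₀.im).const_sub 1
    have t1 : Tendsto (fun y : ℝ => ‖kf φ z₀ (x + y * I)‖) (𝓝[>] 0) (𝓝 1) := by
      refine tendsto_of_tendsto_of_tendsto_of_le_of_le' t0 tendsto_const_nhds
        (hev.mono fun y hy => le_trans ?_ (k2 _ hy)) (hev.mono fun y hy => k1 _ hy)
      have hw := hφ.maps hy
      generalize φ (x + y * I) = w at hw
      have b1 := one_sub_norm_cay_sq hz₀ hw
      have b2 : z₀.im ≤ ‖w - conj z₀‖ := im_le_norm_sub_conj' (le_of_lt hw)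
      have b3 := norm_cay_lt hz₀ hw
      have b4 : 0 ≤ 1 - ‖cay z₀ w‖ ^ 2 := by nlinarith [norm_nonneg (cay z₀ w)]
      have b5 : (1 - ‖cay z₀ w‖ ^ 2) * z₀.im ^ 2 ≤ 4 * w.im * z₀.im := by
        rw [← b1]; gcongr
      have b6 : (1 - ‖cay z₀ w‖) * z₀.im ≤ 4 * w.im := by
        apply le_of_mul_le_mul_right _ hy₀
        have : 1 - ‖cay z₀ w‖ ≤ 1 - ‖cay z₀ w‖ ^ 2 := by nlinarith [norm_nonneg (cay z₀ w)]
        nlinarith [mul_le_mul_of_nonneg_right this (sq_nonneg z₀.im)]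
      rw [sub_le_comm, le_div_iff₀ hy₀]
      exact b6
    have t2 := (t1.log one_ne_zero).neg
    rw [Real.log_one, neg_zero] at t2
    exact t2.congr' (hev.mono fun y hy => (pim _ hy).symm)
  set C : ℝ := (|s| + |s'| + h + 1) ^ 2 with hC
  have hC0 : 0 < C := by positivity
  have key : ∀ η > 0, (s' - s) * ((p I).im / C) ≤ η := fun η hη => by
    have ev : ∀ᶠ y : ℝ in 𝓝[>] 0, ‖L (s' + y * I) - L (s + y * I)‖ ≤ η :=
      (tendsto_zero_iff_norm_tendsto_zero.1 tL).eventually (ge_mem_nhds hη)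
    obtain ⟨δ₀, hδ₀, hsub⟩ := mem_nhdsGT_iff_exists_Ioc_subset.1 ev
    set δ := min δ₀ h with hδ
    have hδ0 : 0 < δ := lt_min hδ₀ hh0
    have h1 := rect_ineq hpd hs.le hδ0 (M := -Real.log (r / (r + 2 * z₀.im))) (η := η)
      (fun x _ y hy => hM _ (add_mul_I_mem_H x hy.1) (by simpa using hy.2.trans (min_le_right _ _)))
      hreal fun y hy => by
        have a1 : ‖L (s' + y * I) - L (s + y * I)‖ ≤ η := hsub ⟨hy.1, hy.2.trans (min_le_left _ _)⟩
        have a2 := Complex.im_le_norm (L (s' + y * I) - L (s + y * I))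
        simp only [hp, neg_mul, neg_re, mul_re, I_re, zero_mul, I_im, one_mul, zero_sub, neg_neg]
        rw [sub_im] at a2
        linarith
    have hcont : Continuous fun x : ℝ => (p (x + δ * I)).im :=
      Complex.continuous_im.comp (continuous_horizontal hpd.continuousOn hδ0)
    have h5 := intervalIntegral.integral_mono_on hs.le
      (intervalIntegrable_const (c := (p I).im / C * δ))
      (hcont.intervalIntegrable (μ := MeasureTheory.volume) s s') fun x hx => by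
        have a1 := harnack_lower hpd hp0 (add_mul_I_mem_H x hδ0) I_mem_H
        have a2 : ‖(x : ℂ) + δ * I - conj I‖ ≤ |s| + |s'| + h + 1 := by
          have b1 := norm_sub_le ((x : ℂ) + δ * I) (conj I)
          have b2 := norm_add_le (x : ℂ) (δ * I)
          rw [norm_mul_I hδ0, norm_real, Real.norm_eq_abs] at b2
          have b3 : |x| ≤ |s| + |s'| := abs_le.2
            ⟨by linarith [hx.1, neg_abs_le s, abs_nonneg s'],
              by linarith [hx.2, le_abs_self s', abs_nonneg s]⟩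
          simp only [RCLike.norm_conj, norm_I] at b1
          linarith [min_le_right δ₀ h]
        have a3 : ‖(x : ℂ) + δ * I - conj I‖ ^ 2 ≤ C := by rw [hC]; gcongr
        simp only [add_im, ofReal_im, mul_im, ofReal_re, I_im, mul_one, I_re, mul_zero, add_zero,
          zero_add] at a1
        rw [div_mul_eq_mul_div, div_le_iff₀ hC0]
        nlinarith [hp0 _ (add_mul_I_mem_H x hδ0)]
    simp only [intervalIntegral.integral_const, smul_eq_mul] at h5
    apply le_of_mul_le_mul_right _ hδ0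
    linarith
  have k3 : (p I).im ≤ 0 := by
    have a1 : (s' - s) * ((p I).im / C) ≤ 0 := le_of_forall_pos_le_add fun η hη => by
      simpa using key η hη
    by_contra hpos
    have := mul_pos (sub_pos.2 hs) (div_pos (not_le.1 hpos) hC0)
    linarith
  have k4 : ‖kf φ z₀ I‖ = 1 := by
    have a1 : Real.log ‖kf φ z₀ I‖ = 0 := by linarith [pim I I_mem_H, hp0 I I_mem_H]
    exact Real.eq_one_of_pos_of_log_eq_zero (norm_pos_iff.2 (kf_ne_zero hφ hz₀ I_mem_H)) a1
  have k5 := const_of_norm_eq_one kd k1 I_mem_H k4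
  have k6 : kf φ z₀ I = 1 := by
    have n0 : (s : ℂ) - conj z₀ ≠ 0 := fun h => by
      have := congrArg Complex.im h
      simp at this
      linarith
    have n1 : (s : ℂ) - z₀ ≠ 0 := fun h => by
      have := congrArg Complex.im h
      simp at this
      linarith
    have cc : ContinuousAt (cay z₀) s := by
      unfold cay
      exact ContinuousAt.div (by fun_prop) (by fun_prop) n0
    have a1 := cc.tendsto.comp (hj.tendsto_vertical hφ.toHol)
    have a2 := (cc.tendsto.comp (tendsto_vertical_real s)).const_mul (kf φ z₀ I)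
    have a3 := tendsto_nhds_unique a1 (a2.congr' (eventually_nhdsWithin_of_forall fun y hy => by
      have m := add_mul_I_mem_H s hy
      simp only [comp_apply]
      rw [kf_mul hφ.toHol hz₀ e m, k5 _ m]))
    exact (mul_eq_right₀ (div_ne_zero n1 n0)).1 a3.symm
  exact eq_id_of_kf hφ.toHol hz₀ e fun z hz => (k5 z hz).trans k6

end Pool.Agent.MP_1a2790_an
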