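import Pool.Agent.MP_1a2790_an.Q2Ell

/-! The factorisation lemma without a prescribed Denjoy-Wolff point. -/

open Complex Set Filter Topology Metric Function

namespace Pool.Agent.MP_1a2790_an

/-- The semigroup of univalent maps for which infinity and the points of `G` are boundary regular
fixed points, in the half-plane model. -/
structure GF (G : Set ℝ) (f : ℂ → ℂ) : Prop where
  univ : Univ f
  cpos : 0 < cInf f
  jul : ∀ x ∈ G, ∃ Λ, Julia f x x Λ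

variable {G : Set ℝ}

lemma SF.gf {f : ℂ → ℂ} (h : SF G f) : GF G f := ⟨h.univ, one_pos.trans_le h.low.le_cInf, h.jul⟩

lemma GF.exists_unif (hG : G.Finite) {f : ℂ → ℂ} (h : GF G f) :
    ∃ Λ, ∀ x ∈ G, Julia f x x Λ := by
  have h1 : ∀ x, ∃ Λ, x ∈ G → Julia f x x Λ := fun x => by
    by_cases hx : x ∈ G
    · obtain ⟨Λ, hΛ⟩ := h.jul x hx
      exact ⟨Λ, fun _ => hΛ⟩
    · exact ⟨0, fun h => (hx h).elim⟩
  choose L hL using h1
  obtain ⟨B, hB⟩ := (hG.image L).bddAbove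
  exact ⟨B, fun x hx => (hL x hx).mono h.univ.toHol (hB ⟨x, hx, rfl⟩)⟩

lemma julia_mob {x y : ℝ} (h : y ≠ x) : Julia (mob x) y (-(y - x)⁻¹) (((y - x) ^ 2)⁻¹) := by
  intro z hz
  have h1 := sub_real_ne_zero hz x
  have h2 : (y : ℂ) - x ≠ 0 := by exact_mod_cast sub_ne_zero.2 h
  have h3 : y - x ≠ 0 := sub_ne_zero.2 h
  have e : mob x z - ((-(y - x)⁻¹ : ℝ) : ℂ) = (z - y) / ((z - x) * ((y - x : ℝ) : ℂ)) := by
    rw [mob]
    push_cast
    field_simp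
    ring
  rw [e, im_mob, norm_div, norm_mul, norm_real, Real.norm_eq_abs, div_pow, mul_pow, sq_abs]
  have := norm_ne_zero_iff.2 h1
  apply le_of_eq
  field_simp

lemma julia_bom {x y : ℝ} (h : y ≠ x) : Julia (bom x) (-(y - x)⁻¹) y ((y - x) ^ 2) := by
  intro z hz
  have h1 := ne_zero_of_mem_H hz
  have h2 : (y : ℂ) - x ≠ 0 := by exact_mod_cast sub_ne_zero.2 h
  have e : bom x z - y = -(((y - x : ℝ) : ℂ) * (z - ((-(y - x)⁻¹ : ℝ) : ℂ)) / z) := by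
    rw [bom]
    push_cast
    field_simp
    ring
  rw [e, im_bom, norm_neg, norm_div, norm_mul, norm_real, Real.norm_eq_abs, div_pow, mul_pow,
    sq_abs]
  have := norm_ne_zero_iff.2 h1
  apply le_of_eq
  field_simp

lemma cj_cj (f : ℂ → ℂ) (x : ℝ) (w : ℂ) : cj (cj f x x) 0 0 w = f (w + x) + (-x : ℝ) := by
  simp only [cj, mob, bom, ofReal_zero, zero_sub, sub_zero, inv_neg, inv_inv, neg_neg,
    sub_neg_eq_add, ofReal_neg]
  rw [add_comm (x : ℂ) w, sub_eq_add_neg]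

lemma julia_cj_of_low {f : ℂ → ℂ} (hf : Hol f) {c : ℝ} (hc : 0 < c) (hl : Low f c) (x : ℝ) :
    Julia (cj f x x) 0 0 c⁻¹ := by
  rw [(hf.cj x x).julia_iff (inv_pos.2 hc), inv_inv]
  exact ((hl.comp_add_real x).add_real (-x)).congr fun z _ => cj_cj f x z

lemma low_of_julia_cj {f : ℂ → ℂ} (hf : Hol f) {Λ x : ℝ} (h : Julia (cj f x x) 0 0 Λ) :
    Low f Λ⁻¹ := by
  have h1 := ((hf.cj x x).julia_iff (h.pos (hf.cj x x))).1 h
  refine ((h1.comp_add_real (-x)).add_real x).congr fun z _ => ?_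
  rw [cj_cj]
  simp

lemma GF.of_sf_cj {x : ℝ} {g : ℂ → ℂ}
    (hg : SF (insert 0 ((fun y => -(y - x)⁻¹) '' (G \ {x}))) g) :
    GF G (fun z => bom x (g (mob x z))) := by
  have hu : Univ (fun z => bom x (g (mob x z))) := (univ_bom x).comp (hg.univ.comp (univ_mob x))
  have e : ∀ w ∈ H, cj (fun z => bom x (g (mob x z))) x x w = g w := fun w _ => by
    simp only [cj, mob_bom]
  refine ⟨hu, ?_, fun y hy => ?_⟩
  · obtain ⟨Λ, hΛ⟩ := hg.jul 0 (mem_insert _ _)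
    exact (inv_pos.2 (hΛ.pos hg.univ.toHol)).trans_le
      (low_of_julia_cj hu.toHol (hΛ.congr e)).le_cInf
  · by_cases h : y = x
    · subst h
      exact ⟨1, (hu.toHol.julia_iff one_pos).2 (by simpa using hg.low.congr e)⟩
    · obtain ⟨Λ, hΛ⟩ := hg.jul _ (mem_insert_of_mem _ ⟨y, ⟨hy, h⟩, rfl⟩)
      exact ⟨_, (julia_bom h).comp (univ_bom x).toHol (hg.univ.comp (univ_mob x)).toHol
        (hΛ.comp hg.univ.toHol (univ_mob x).toHol (julia_mob h))⟩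

/-- The factorisation lemma. -/
theorem GF.split (hG : G.Finite) (hne : G.Nonempty) {φ : ℂ → ℂ} (h : GF G φ)
    (hid : ¬ ∀ z ∈ H, φ z = z) : ∃ ψ χ, GF G ψ ∧ GF G χ ∧ (∀ z ∈ H, ψ (χ z) = φ z) ∧
      (¬ ∀ z ∈ H, ψ z = z) ∧ ¬ ∀ z ∈ H, χ z = z := by
  have hl := h.univ.toHol.low_cInf
  by_cases hfix : ∃ z₀ ∈ H, φ z₀ = z₀
  · obtain ⟨z₀, hz₀, e⟩ := hfix
    obtain ⟨σ, n, h1, h2, h3⟩ := exists_enum hG hne
    obtain ⟨Λ, hΛ⟩ := h.exists_unif hG
    have hP : ∀ k, ∃ (P Γ : UI → ℂ) (K : ℝ), k < n → StolzPath P (σ k) (σ (k + 1)) 4 ∧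
        StolzPath Γ (σ k) (σ (k + 1)) K ∧ ∀ t, t ≠ 0 → t ≠ 1 → Γ t = φ (P t) := fun k => by
      by_cases hk : k < n
      · obtain ⟨P, hP⟩ := exists_stolzPath (h1 k hk)
        obtain ⟨Γ, K, hΓ⟩ := hP.image (h1 k hk).ne h.univ.toHol h.cpos hl (hΛ _ (h2 k hk.le))
          (hΛ _ (h2 (k + 1) hk))
        exact ⟨P, Γ, K, fun _ => ⟨hP, hΓ⟩⟩
      · exact ⟨0, 0, 0, fun h => (hk h).elim⟩
    choose P Γ K hP using hP
    have D : Dat φ σ n Λ P Γ K := ⟨h.univ, h1, fun k hk => hΛ _ (h2 k hk),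
      fun k hk => (hP k hk).1, fun k hk => (hP k hk).2.1, fun k hk => (hP k hk).2.2⟩
    obtain ⟨ψ, χ, a, b, a1, a2, a3, a4, a5, a6, a7, a8⟩ := split_dat_ell D h.cpos fun k hk hr =>
      hid (eq_id_of_realOn h.univ h.cpos hl (h1 k hk) (D.jφ k hk.le) (D.jφ (k + 1) hk) hr hz₀ e)
    refine ⟨ψ, χ, ⟨a1, a4.trans_le a6.le_cInf, fun x hx => ?_⟩,
      ⟨a2, (one_pos.trans a5).trans_le a7.le_cInf, fun x hx => ?_⟩, a3, fun hψ => ?_,
      not_id_of_low a7 a5⟩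
    · obtain ⟨k, hk, rfl⟩ := h3 x hx
      exact (a8 k hk).1
    · obtain ⟨k, hk, rfl⟩ := h3 x hx
      exact (a8 k hk).2
    · have b1 := a7 z₀ hz₀
      rw [← hψ _ (a2.maps hz₀), a3 z₀ hz₀, e] at b1
      have b2 : 0 < z₀.im := hz₀
      nlinarith
  · push Not at hfix
    rcases wolff h.univ.toHol hfix with h1 | ⟨x, h1⟩
    · obtain ⟨ψ, χ, a1, a2, a3⟩ := SF.split hG hne ⟨h.univ, h1, h.jul⟩ hid
      exact ⟨ψ, χ, a1.gf, a2.gf, a3⟩
    · have hS : SF (insert 0 ((fun y => -(y - x)⁻¹) '' (G \ {x}))) (cj φ x x) := by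
        refine ⟨(univ_mob x).comp (h.univ.comp (univ_bom x)),
          by simpa using (h.univ.toHol.julia_iff one_pos).1 h1, ?_⟩
        rintro _ (rfl | ⟨y, ⟨hy, hyx⟩, rfl⟩)
        · exact ⟨_, julia_cj_of_low h.univ.toHol h.cpos hl x⟩
        · obtain ⟨Λ, hΛ⟩ := h.jul y hy
          exact ⟨_, (julia_mob hyx).comp (univ_mob x).toHol (h.univ.comp (univ_bom x)).toHol
            (hΛ.comp h.univ.toHol (univ_bom x).toHol (julia_bom hyx))⟩
      have hnid : ∀ g : ℂ → ℂ, (∀ z ∈ H, bom x (g (mob x z)) = z) → ∀ w ∈ H, g w = w :=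
        fun g e w hw => by
          have := congrArg (mob x) (e _ (bom_mem_H x hw))
          simpa only [mob_bom] using this
      obtain ⟨ψ, χ, a1, a2, a3, a4, a5⟩ := SF.split ((hG.sdiff.image _).insert _)
        (insert_nonempty _ _) hS fun e => hid fun z hz => by
          have := congrArg (bom x) (e _ (mob_mem_H x hz))
          simpa only [cj, bom_mob] using this
      refine ⟨_, _, GF.of_sf_cj a1, GF.of_sf_cj a2, fun z hz => ?_, fun e => a4 (hnid _ e),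
        fun e => a5 (hnid _ e)⟩
      simp only [mob_bom]
      rw [a3 _ (mob_mem_H x hz)]
      simp only [cj, bom_mob]

end Pool.Agent.MP_1a2790_an
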