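import Pool.Agent.MP_1a2790_an.Split

/-! Wolff's lemma in the half-plane. -/

open Complex Set Filter Topology Metric Function

namespace Pool.Agent.MP_1a2790_an

lemma univ_add_mul_I {ε : ℝ} (hε : 0 < ε) : Univ (fun z => z + ε * I) := by
  refine ⟨⟨by fun_prop, fun z hz => ?_⟩, fun z _ w _ e => add_right_cancel e⟩
  have : 0 < z.im := hz
  simp only [mem_H, add_im, mul_im, ofReal_re, I_im, mul_one, ofReal_im, I_re, mul_zero, add_zero]
  linarith

/-- A bounded map pushed upwards has a fixed point. -/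
lemma exists_fixed_of_bounded {h : ℂ → ℂ} (hh : Hol h) {ε M : ℝ} (hε : 0 < ε)
    (hM : ∀ z ∈ H, ‖h z‖ ≤ M) : ∃ z ∈ H, h z + ε * I = z := by
  set f : ℂ → ℂ := fun z => h z + ε * I with hf
  have hfH : Hol f := (univ_add_mul_I hε).toHol.comp hh
  have him : ∀ z, (f z).im = (h z).im + ε := fun z => by simp [hf]
  set K : Set ℂ := closedBall 0 (M + ε) ∩ {z | ε ≤ z.im} with hK
  have hKc : IsCompact K :=
    (isCompact_closedBall _ _).inter_right (isClosed_le continuous_const Complex.continuous_im)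
  have hKH : K ⊆ H := fun z hz => lt_of_lt_of_le hε hz.2
  have hfK : ∀ z ∈ H, f z ∈ K := fun z hz => by
    refine ⟨?_, ?_⟩
    · rw [mem_closedBall_zero_iff]
      refine (norm_add_le _ _).trans ?_
      rw [norm_mul_I hε]
      linarith [hM z hz]
    · have : 0 < (h z).im := hh.maps hz
      show ε ≤ (f z).im
      rw [him]
      linarith
  set D : ℂ → ℝ := fun z => ‖z - f z‖ ^ 2 / (z.im * (f z).im) with hD
  have hDc : ContinuousOn D K := by
    have c1 : ContinuousOn f K := hfH.cont.mono hKH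
    refine ContinuousOn.div ((continuousOn_id.sub c1).norm.pow 2)
      (Complex.continuous_im.continuousOn.mul (Complex.continuous_im.comp_continuousOn c1))
      fun z hz => ?_
    have a1 : 0 < z.im := hKH hz
    have a2 : 0 < (f z).im := hfH.maps (hKH hz)
    positivity
  obtain ⟨z, hz, hmin⟩ := hKc.exists_isMinOn ⟨_, hfK I I_mem_H⟩ hDc
  have hzH := hKH hz
  refine ⟨z, hzH, ?_⟩
  by_contra hne
  have hw := hfH.maps hzH
  have h1 : D z ≤ D (f z) := hmin (hfK z hzH)
  have h2 := hh.schwarzPick hzH hw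
  have a1 : 0 < z.im := hzH
  have a2 : 0 < (f z).im := hw
  have a3 : 0 < (f (f z)).im := hfH.maps hw
  have a4 : 0 < (h z).im := hh.maps hzH
  have a5 : 0 < (h (f z)).im := hh.maps hw
  have a6 : 0 < ‖z - f z‖ := norm_pos_iff.2 (sub_ne_zero.2 fun e => hne e.symm)
  have e : f z - f (f z) = h z - h (f z) := by simp only [hf]; ring
  simp only [hD] at h1
  rw [e, div_le_div_iff₀ (by positivity) (by positivity)] at h1
  have a7 : (h z).im * (h (f z)).im < (f z).im * (f (f z)).im := by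
    rw [him (f z), him z]
    nlinarith
  have a8 := mul_lt_mul_of_pos_left a7 (pow_pos a6 2)
  linarith

/-- Wolff's lemma. -/
theorem wolff {φ : ℂ → ℂ} (hφ : Hol φ) (hn : ∀ z ∈ H, φ z ≠ z) :
    Low φ 1 ∨ ∃ x : ℝ, Julia φ x x 1 := by
  set ε : ℕ → ℝ := fun n => 1 / ((n : ℝ) + 1) with hε
  have hε0 : ∀ n, 0 < ε n := fun n => by simp only [hε]; positivity
  have hεt : Tendsto ε atTop (𝓝 0) := tendsto_one_div_add_atTop_nhds_zero_nat
  set h : ℕ → ℂ → ℂ := fun n z => bom 0 (mob 0 (φ z) + ε n * I) with hh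
  have hH : ∀ n, Hol (h n) := fun n =>
    (univ_bom 0).toHol.comp ((univ_add_mul_I (hε0 n)).toHol.comp ((univ_mob 0).toHol.comp hφ))
  have hb : ∀ n, ∀ z ∈ H, ‖h n z‖ ≤ (ε n)⁻¹ := fun n z hz => by
    have a1 : 0 < (mob 0 (φ z)).im := mob_mem_H 0 (hφ.maps hz)
    have a2 := Complex.im_le_norm (mob 0 (φ z) + ε n * I)
    simp only [add_im, mul_im, ofReal_re, I_im, mul_one, ofReal_im, I_re, mul_zero, add_zero] at a2
    simp only [hh, bom, ofReal_zero, zero_sub, norm_neg, norm_inv]
    exact inv_anti₀ (hε0 n) (by linarith)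
  choose w hw ew using fun n => exists_fixed_of_bounded (hH n) (hε0 n) (hb n)
  set f : ℕ → ℂ → ℂ := fun n z => h n z + ε n * I with hf
  have hfH : ∀ n, Hol (f n) := fun n => (univ_add_mul_I (hε0 n)).toHol.comp (hH n)
  have hft : ∀ z ∈ H, Tendsto (fun n => f n z) atTop (𝓝 (φ z)) := fun z hz => by
    have c0 : Tendsto (fun n => (ε n : ℂ) * I) atTop (𝓝 0) := by
      simpa using ((Complex.continuous_ofReal.tendsto _).comp hεt).mul_const I
    have c1 : Tendsto (fun n => mob 0 (φ z) + ε n * I) atTop (𝓝 (mob 0 (φ z))) := by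
      simpa using c0.const_add (mob 0 (φ z))
    have c2 := (((univ_bom 0).toHol.contAt (mob_mem_H 0 (hφ.maps hz))).tendsto.comp c1).add c0
    simpa [bom_mob, comp_def] using c2
  have key : ∀ n, ∀ z ∈ H, z.im * ‖f n z - w n‖ ^ 2 ≤ ‖z - w n‖ ^ 2 * (f n z).im := fun n z hz => by
    have a1 := (hfH n).schwarzPick hz (hw n)
    have a2 : f n (w n) = w n := ew n
    rw [a2] at a1
    have a3 : 0 < (w n).im := hw n
    apply le_of_mul_le_mul_right _ a3
    linarith
  let 𝒰 : Ultrafilter ℕ := Ultrafilter.of atTop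
  have h𝒰 : (𝒰 : Filter ℕ) ≤ atTop := Ultrafilter.of_le _
  by_cases hbd : ∃ M : ℝ, ∀ᶠ n in 𝒰, ‖w n‖ ≤ M
  · obtain ⟨M, hM⟩ := hbd
    obtain ⟨a, ha⟩ := exists_tendsto_of_bounded 𝒰 hM
    have lim : ∀ z ∈ H, z.im * ‖φ z - a‖ ^ 2 ≤ ‖z - a‖ ^ 2 * (φ z).im := fun z hz => by
      have t0 := (hft z hz).mono_left h𝒰
      exact le_of_tendsto_of_tendsto' (((t0.sub ha).norm.pow 2).const_mul _)
        (((ha.const_sub z).norm.pow 2).mul ((Complex.continuous_im.tendsto _).comp t0))
        fun n => key n z hz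
    have ha0 : 0 ≤ a.im :=
      ge_of_tendsto' ((Complex.continuous_im.tendsto _).comp ha) fun n => le_of_lt (hw n)
    rcases ha0.eq_or_lt with h0 | h0
    · have : a = (a.re : ℂ) := Complex.ext (by simp) (by simp [h0])
      refine Or.inr ⟨a.re, fun z hz => ?_⟩
      rw [← this, one_mul]
      exact lim z hz
    · have := lim a h0
      rw [sub_self, norm_zero] at this
      have h1 : 0 < ‖φ a - a‖ := norm_pos_iff.2 (sub_ne_zero.2 (hn a h0))
      nlinarith [mul_pos h0 (pow_pos h1 2)]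
  · push Not at hbd
    have hn' : Tendsto (fun n => ‖w n‖) 𝒰 atTop := tendsto_atTop.2 fun M =>
      (hbd M).mono fun n h => h.le
    have hi : Tendsto (fun n => (w n)⁻¹) 𝒰 (𝓝 0) := by
      rw [tendsto_zero_iff_norm_tendsto_zero]
      simpa [comp_def] using tendsto_inv_atTop_zero.comp hn'
    refine Or.inl fun z hz => ?_
    have t0 := (hft z hz).mono_left h𝒰
    have t1 := (((t0.mul hi).sub_const 1).norm.pow 2).const_mul z.im
    have t2 := (((hi.const_mul z).sub_const 1).norm.pow 2).mul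
      ((Complex.continuous_im.tendsto _).comp t0)
    have := le_of_tendsto_of_tendsto' t1 t2 fun n => by
      have h0 := ne_zero_of_mem_H (hw n)
      have e1 : f n z * (w n)⁻¹ - 1 = (f n z - w n) * (w n)⁻¹ := by field_simp
      have e2 : z * (w n)⁻¹ - 1 = (z - w n) * (w n)⁻¹ := by field_simp
      rw [e1, e2, norm_mul, norm_mul, mul_pow, mul_pow]
      have := mul_le_mul_of_nonneg_right (key n z hz) (sq_nonneg ‖(w n)⁻¹‖)
      simp only [comp_apply]
      linarith
    simpa using this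

end Pool.Agent.MP_1a2790_an
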