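import Pool.Agent.MP_1a2790_an.Q2Aff

/-! The case without prescribed boundary fixed points. -/

open Complex Set Filter Topology Metric Function
open scoped ComplexConjugate

namespace Pool.Agent.MP_1a2790_an

/-- Univalent maps fixing `I`. -/
structure SZ (f : ℂ → ℂ) : Prop where
  univ : Univ f
  fix : f I = I

lemma SZ.id : SZ (fun z => z) := ⟨univ_id, rfl⟩

lemma SZ.comp {f g : ℂ → ℂ} (hf : SZ f) (hg : SZ g) : SZ (fun z => f (g z)) :=
  ⟨hf.univ.comp hg.univ, by rw [hg.fix, hf.fix]⟩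

/-- Rotation about `I`. -/
noncomputable def rot (u z : ℂ) : ℂ := cayInv I (u * cay I z)

lemma norm_mul_cay_lt {u z : ℂ} (hu : ‖u‖ = 1) (hz : z ∈ H) : ‖u * cay I z‖ < 1 := by
  rw [norm_mul, hu, one_mul]
  exact norm_cay_lt I_mem_H hz

lemma cay_rot {u z : ℂ} (hu : ‖u‖ = 1) (hz : z ∈ H) : cay I (rot u z) = u * cay I z :=
  cay_cayInv I_mem_H (norm_mul_cay_lt hu hz)

lemma rot_rot {u v z : ℂ} (hv : ‖v‖ = 1) (hz : z ∈ H) (e : u * v = 1) : rot u (rot v z) = z := by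
  rw [rot, cay_rot hv hz, ← mul_assoc, e, one_mul, cayInv_cay I_mem_H hz]

lemma sz_rot {u : ℂ} (hu : ‖u‖ = 1) : SZ (rot u) := by
  have h0 : u ≠ 0 := by rintro rfl; simp at hu
  refine ⟨⟨⟨(differentiableOn_cayInv I).comp ((differentiableOn_cay I_mem_H).const_mul u)
    fun z hz => mem_ball_zero_iff.2 (norm_mul_cay_lt hu hz),
    fun z hz => cayInv_mem_H I_mem_H (norm_mul_cay_lt hu hz)⟩, fun z hz w hw e => ?_⟩, ?_⟩
  · rw [← rot_rot hu hz (inv_mul_cancel₀ h0), e, rot_rot hu hw (inv_mul_cancel₀ h0)]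
  · rw [rot, cay_self, mul_zero, cayInv_zero]

lemma cay_ne_zero {z : ℂ} (hz : z ∈ H) (h : z ≠ I) : cay I z ≠ 0 :=
  div_ne_zero (sub_ne_zero.2 h) (sub_conj_ne_zero hz I_mem_H)

lemma SZ.cay_le {f : ℂ → ℂ} (hf : SZ f) {z : ℂ} (hz : z ∈ H) : ‖cay I (f z)‖ ≤ ‖cay I z‖ :=
  norm_cay_le hf.univ.toHol I_mem_H hf.fix hz

lemma SZ.norm_le {f : ℂ → ℂ} (hf : SZ f) {z : ℂ} (hz : z ∈ H) :
    ‖f z - conj I‖ * z.im ≤ ‖z - conj I‖ ^ 2 := by
  simpa [hf.fix] using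
    norm_sub_conj_le hf.univ.diff (fun z hz => le_of_lt (hf.univ.maps hz)) hz I_mem_H

lemma SZ.le_im {f : ℂ → ℂ} (hf : SZ f) {z : ℂ} (hz : z ∈ H) :
    z.im ≤ ‖z - conj I‖ ^ 2 * (f z).im := by
  simpa [hf.fix] using
    harnack_lower hf.univ.diff (fun z hz => le_of_lt (hf.univ.maps hz)) hz I_mem_H

lemma SZ.cay_lt {f : ℂ → ℂ} (hf : SZ f) (hs : ¬ H ⊆ f '' H) {w : ℂ} (hw : w ∈ H) (hne : w ≠ I) :
    ‖cay I (f w)‖ < ‖cay I w‖ := by
  refine lt_of_le_of_ne (hf.cay_le hw) fun e => hs fun v hv => ?_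
  have h1 : ‖kf f I w‖ = 1 := by
    rw [kf_mul hf.univ.toHol I_mem_H hf.fix hw, norm_mul] at e
    exact (mul_eq_right₀ (norm_ne_zero_iff.2 (cay_ne_zero hw hne))).1 e
  have h2 := const_of_norm_eq_one (kf_diff hf.univ.toHol I_mem_H)
    (fun z hz => norm_kf_le hf.univ.toHol I_mem_H hf.fix hz) hw h1
  have h0 : kf f I w ≠ 0 := kf_ne_zero hf.univ I_mem_H hw
  have h3 : ‖(kf f I w)⁻¹‖ = 1 := by rw [norm_inv, h1, inv_one]
  have h4 := (sz_rot h3).univ.maps hv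
  refine ⟨_, h4, ?_⟩
  rw [← cayInv_cay I_mem_H (hf.univ.maps h4), kf_mul hf.univ.toHol I_mem_H hf.fix h4, h2 _ h4]
  exact rot_rot h3 hv (mul_inv_cancel₀ h0)

lemma SZ.split {h : ℂ → ℂ} (hh : SZ h) {w : ℂ} (hw : w ∈ H) (hlt : ‖cay I (h w)‖ < ‖cay I w‖) :
    ∃ p q, SZ p ∧ SZ q ∧ (∀ z ∈ H, h z = p (q z)) ∧ ‖cay I (q w)‖ < ‖cay I w‖ ∧
      ‖cay I (h w)‖ < ‖cay I (q w)‖ := by
  have hne : w ≠ I := by
    rintro rfl
    rw [hh.fix] at hlt
    exact lt_irrefl _ hlt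
  have hs : ¬ H ⊆ h '' H := fun hs => by
    obtain ⟨g, hg, e⟩ := exists_factor univ_id hh.univ (by simpa using hs)
    have e' : ∀ z ∈ H, g (h z) = z := fun z hz =>
      hh.univ.inj (hg.maps (hh.univ.maps hz)) hz (e _ (hh.univ.maps hz))
    have := (SZ.mk hg (by simpa [hh.fix] using e' I I_mem_H)).cay_le (hh.univ.maps hw)
    rw [e' w hw] at this
    linarith
  obtain ⟨ψ, u1, s1, s2, s3⟩ := exists_refine hh.univ hs
  obtain ⟨q, uq, e⟩ := exists_factor hh.univ u1 s1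
  have ha : 0 < (q I).im := uq.maps I_mem_H
  set a := (q I).im with hadef
  set b := (q I).re with hbdef
  have hac : (a : ℂ) ≠ 0 := by exact_mod_cast ha.ne'
  have hqI : q I = a * I + b := by
    rw [add_comm]
    exact (re_add_im _).symm
  have e' : ∀ z ∈ H, ψ (a * ((a⁻¹ : ℝ) * q z + (-(a⁻¹ * b) : ℝ)) + b) = h z := fun z hz => by
    rw [← e z hz]
    congr 1
    push_cast
    field_simp
    ring
  have hp : SZ (fun z => ψ (a * z + b)) :=
    ⟨u1.comp (univ_affine ha b), by rw [← hqI, e I I_mem_H, hh.fix]⟩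
  have hq : SZ (fun z => ((a⁻¹ : ℝ) : ℂ) * q z + (-(a⁻¹ * b) : ℝ)) :=
    ⟨(univ_affine (inv_pos.2 ha) _).comp uq, by
      rw [hqI]
      push_cast
      field_simp
      ring⟩
  have im : (fun z => ψ (a * z + b)) '' H = ψ '' H :=
    image_comp_of_surj (univ_affine ha b).maps (surj_affine ha b)
  refine ⟨_, _, hp, hq, fun z hz => (e' z hz).symm, hq.cay_lt
    (not_surj_of_factor (ψ := fun z => ψ (a * z + b)) e' (by rwa [im])) hw hne, ?_⟩
  rw [← e' w hw]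
  exact hp.cay_lt (by rwa [im]) (hq.univ.maps hw)
    fun e1 => hne (hq.univ.inj hw I_mem_H (e1.trans hq.fix.symm))

lemma SZ.limit {ι : Type*} (𝒰 : Ultrafilter ι) {F : ι → ℂ → ℂ} (hF : ∀ i, SZ (F i)) {δ r : ℝ}
    (hδ : 0 < δ) (hr : r < 1) (h1 : ∀ i, ∃ w ∈ H, ‖cay I w‖ ≤ r ∧ δ ≤ ‖cay I (F i w)‖) :
    ∃ f, SZ f ∧ TendstoLocallyUniformlyOn F f 𝒰 H := by
  obtain ⟨f, hf⟩ := montel 𝒰 (U := H) (F := F) (fun i => (hF i).univ.diff) (fun z hz => by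
    have hz' : 0 < z.im := hz
    have hb : ∀ u ∈ ball z (z.im / 2), z.im / 2 ≤ u.im ∧ ‖u‖ ≤ ‖z‖ + z.im / 2 := by
      intro u hu
      rw [mem_ball, dist_eq_norm] at hu
      have a1 := Complex.abs_im_le_norm (u - z)
      rw [sub_im] at a1
      have a2 := norm_sub_norm_le u z
      constructor <;> linarith [neg_abs_le (u.im - z.im)]
    refine ⟨z.im / 2, by positivity, 1 + (‖z‖ + z.im / 2 + 1) ^ 2 / (z.im / 2),
      fun u hu => lt_of_lt_of_le (by positivity) (hb u hu).1,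
      Eventually.of_forall fun i u hu => ?_⟩
    obtain ⟨b4, b5⟩ := hb u hu
    have hu' : u ∈ H := lt_of_lt_of_le (by positivity) b4
    have a1 := (hF i).norm_le hu'
    have a2 : ‖u - conj I‖ ≤ ‖z‖ + z.im / 2 + 1 := by
      have := norm_sub_le u (conj I)
      rw [Complex.norm_conj, norm_I] at this
      linarith
    have a5 : ‖F i u - conj I‖ * (z.im / 2) ≤ (‖z‖ + z.im / 2 + 1) ^ 2 :=
      le_trans (by gcongr) (a1.trans (by gcongr))
    rw [← le_div_iff₀ (by positivity)] at a5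
    have a6 := norm_add_le (F i u - conj I) (conj I)
    rw [sub_add_cancel, Complex.norm_conj, norm_I] at a6
    linarith)
  have hfd : DifferentiableOn ℂ f H :=
    hf.differentiableOn (Eventually.of_forall fun i => (hF i).univ.diff) isOpen_H
  have hfm : MapsTo f H H := fun z hz => by
    have a1 : z.im ≤ ‖z - conj I‖ ^ 2 * (f z).im :=
      ge_of_tendsto' (((Complex.continuous_im.tendsto _).comp (hf.tendsto_at hz)).const_mul _)
        fun i => (hF i).le_im hz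
    have a2 : 0 < z.im := hz
    by_contra hn
    have a3 : (f z).im ≤ 0 := not_lt.1 hn
    nlinarith [mul_nonneg (sq_nonneg ‖z - conj I‖) (neg_nonneg.2 a3)]
  have hI : f I = I :=
    tendsto_nhds_unique (hf.tendsto_at I_mem_H) (tendsto_const_nhds.congr fun i => (hF i).fix.symm)
  refine ⟨f, ⟨⟨⟨hfd, hfm⟩, ?_⟩, hI⟩, hf⟩
  choose w hw h2 h3 using h1
  obtain ⟨v, hv⟩ := exists_tendsto_of_bounded 𝒰 (Eventually.of_forall h2)
  have hv1 : ‖v‖ < 1 := (le_of_tendsto' hv.norm h2).trans_lt hr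
  have hw₀ := cayInv_mem_H I_mem_H hv1
  have t1 : Tendsto w 𝒰 (𝓝 (cayInv I v)) :=
    (((differentiableOn_cayInv I).continuousOn.continuousAt
      (isOpen_ball.mem_nhds (mem_ball_zero_iff.2 hv1))).tendsto.comp hv).congr
      fun i => cayInv_cay I_mem_H (hw i)
  have t2 := ((differentiableOn_cay I_mem_H).continuousOn.continuousAt
    (H_mem_nhds (hfm hw₀))).tendsto.comp (tendsto_comp_H ⟨hfd, hfm⟩ hf hw₀ t1)
  have t3 := ge_of_tendsto' t2.norm h3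
  apply limit_injOn isOpen_H (fun i => (hF i).univ.diff) hf _ fun i => (hF i).univ.inj
  intro z₀ hz₀
  apply not_eventually_const isOpen_H isPreconnected_H hfd hw₀ I_mem_H _ hz₀
  intro e
  rw [e, hI, cay_self, norm_zero] at t3
  linarith

lemma two_I_mem_H : 2 * I ∈ H := by simp [mem_H]

/-- The image of the second base point. -/
noncomputable def kz (f : ℂ → ℂ) : ℂ := cay I (f (2 * I))

lemma kz_id : kz (fun z => z) = ((1 / 3 : ℝ) : ℂ) := by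
  have : (2 : ℂ) * I - -I = 3 * I := by ring
  rw [kz, cay, conj_I, this]
  push_cast
  field_simp
  ring

lemma SZ.norm_kz_le {f : ℂ → ℂ} (hf : SZ f) : ‖kz f‖ ≤ 1 / 3 := by
  have h1 : ‖kz f‖ ≤ ‖kz fun z => z‖ := hf.cay_le two_I_mem_H
  rwa [kz_id, norm_real, Real.norm_of_nonneg (by norm_num)] at h1

lemma SZ.kz_ne_zero {f : ℂ → ℂ} (hf : SZ f) : kz f ≠ 0 :=
  cay_ne_zero (hf.univ.maps two_I_mem_H) fun e => by
    have := congrArg Complex.im (hf.univ.inj two_I_mem_H I_mem_H (e.trans hf.fix.symm))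
    simp at this

lemma lip_rad {f g h : ℂ → ℂ} (hf : SZ f) (hg : SZ g) (hh : SZ h) {z : ℂ} (hz : z ∈ H) :
    ‖g z - h (g z)‖ ≤ (‖z - conj I‖ ^ 2 / z.im) ^ 2 * (1 + (‖z‖ + 6) ^ 2 / (z.im * (2 / 9))) *
      ‖1 - kf h I (g (f (2 * I)))‖ := by
  have hz' : 0 < z.im := hz
  have hz₀ := hf.univ.maps two_I_mem_H
  have n3 : ‖2 * I - conj I‖ = 3 := by
    rw [conj_I, show (2 : ℂ) * I - -I = 3 * I by ring]
    simp
  have b1 := hf.norm_le two_I_mem_H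
  have b2 := hf.le_im two_I_mem_H
  rw [n3] at b1 b2
  simp only [mul_im, re_ofNat, I_im, mul_one, im_ofNat, I_re, mul_zero, add_zero] at b1 b2
  generalize f (2 * I) = z₀ at *
  have b3 : ‖z - conj z₀‖ ≤ ‖z‖ + 6 := by
    have c1 := norm_sub_le z (conj z₀)
    have c2 := norm_add_le (z₀ - conj I) (conj I)
    rw [sub_add_cancel, Complex.norm_conj, norm_I] at c2
    rw [Complex.norm_conj] at c1
    linarith
  have hw := hg.univ.maps hz
  have hw₀ := hg.univ.maps hz₀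
  have i0 : 0 < z₀.im := hz₀
  have i1 : 0 < (g z).im := hw
  have i2 : 0 < (g z₀).im := hw₀
  have a1 := est_of_norm_le_one (kf_diff hh.univ.toHol I_mem_H)
    (fun z hz => norm_kf_le hh.univ.toHol I_mem_H hh.fix hz) hw hw₀
  have a2 := schwarzPick_closed_conj hg.univ.diff (fun z hz => le_of_lt (hg.univ.maps hz)) hz hz₀
  have a3 : ‖g z - conj (g z₀)‖ ^ 2 / ((g z).im * (g z₀).im) ≤ (‖z‖ + 6) ^ 2 / (z.im * (2 / 9)) := by
    refine le_trans (b := ‖z - conj z₀‖ ^ 2 / (z.im * z₀.im)) ?_ ?_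
    · rwa [div_le_div_iff₀ (by positivity) (by positivity)]
    · gcongr
      linarith
  have a4 : ‖g z - conj I‖ ≤ ‖z - conj I‖ ^ 2 / z.im := by
    rw [le_div_iff₀ hz']; exact hg.norm_le hz
  have a5 : ‖h (g z) - conj I‖ ≤ ‖z - conj I‖ ^ 2 / z.im := by
    rw [le_div_iff₀ hz']; exact (hh.comp hg).norm_le hz
  have a6 := kf_mul hh.univ.toHol I_mem_H hh.fix hw
  have n1 := sub_conj_ne_zero hw I_mem_H
  have n2 := sub_conj_ne_zero (hh.univ.maps hw) I_mem_H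
  have a7 : g z - h (g z) = (1 - kf h I (g z)) * cay I (g z) * ((g z - conj I) *
      (h (g z) - conj I)) / (2 * I) := by
    rw [sub_mul, ← a6, one_mul, cay, cay]
    rw [conj_I] at *
    field_simp
    ring
  have a8 : ‖g z - h (g z)‖ ≤ ‖1 - kf h I (g z)‖ * 1 * (‖g z - conj I‖ * ‖h (g z) - conj I‖) := by
    rw [a7, norm_div, norm_mul, norm_mul, norm_mul, norm_mul, norm_I, Complex.norm_ofNat, mul_one]
    refine (div_le_self (by positivity) one_le_two).trans ?_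
    gcongr
    exact (norm_cay_lt I_mem_H hw).le
  calc ‖g z - h (g z)‖ ≤ (1 + (‖z‖ + 6) ^ 2 / (z.im * (2 / 9))) * ‖1 - kf h I (g z₀)‖ * 1 *
        (‖z - conj I‖ ^ 2 / z.im * (‖z - conj I‖ ^ 2 / z.im)) := by
        refine a8.trans ?_
        gcongr
        refine a1.trans ?_
        gcongr
    _ = _ := by ring

lemma exists_chain_rad {φ : ℂ → ℂ} (hφ : SZ φ) (hre : kz φ = ‖kz φ‖) :
    ∃ χ : ℝ → ℂ → ℂ, (∀ t ∈ Icc (0 : ℝ) 1, SZ (χ t) ∧
      kz (χ t) = ((1 / 3 - t * (1 / 3 - ‖kz φ‖) : ℝ) : ℂ)) ∧ (∀ z ∈ H, χ 0 z = z) ∧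
      (∀ z ∈ H, χ 1 z = φ z) ∧ ∀ s ∈ Icc (0 : ℝ) 1, ∀ t ∈ Icc (0 : ℝ) 1, s ≤ t →
      ∃ h, SZ h ∧ ∀ z ∈ H, χ t z = h (χ s z) := by
  let X := {χ : ℂ → ℂ // SZ χ ∧ kz χ = ‖kz χ‖ ∧ ∃ ψ, SZ ψ ∧ ∀ z ∈ H, φ z = ψ (χ z)}
  let r : X → X → Prop := fun a b => ∃ h, SZ h ∧ ∀ z ∈ H, b.1 z = h (a.1 z)
  let T : X → ℝ := fun a => -‖kz a.1‖
  have nid : ‖kz fun z => z‖ = 1 / 3 := by
    rw [kz_id, norm_real, Real.norm_of_nonneg (by norm_num)]
  let bot : X := ⟨fun z => z, SZ.id, by rw [nid, kz_id], φ, hφ, fun _ _ => rfl⟩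
  let top : X := ⟨φ, hφ, hre, fun z => z, SZ.id, fun _ _ => rfl⟩
  have hρ : 0 < ‖kz φ‖ := norm_pos_iff.2 hφ.kz_ne_zero
  have hX : ∀ a : X, ‖kz φ‖ ≤ ‖kz a.1‖ := fun a => by
    obtain ⟨ψ, h1, h2⟩ := a.2.2.2
    rw [kz, h2 _ two_I_mem_H]
    exact h1.cay_le (a.2.1.univ.maps two_I_mem_H)
  have rig0 : ∀ a b : X, r a b → T b ≤ T a → ∀ z ∈ H, b.1 z = a.1 z := by
    rintro a b ⟨h, h1, h2⟩ hT z hz
    have hI := a.2.1.univ.maps two_I_mem_H
    have e1 : ‖kz b.1‖ = ‖kz a.1‖ := le_antisymm (by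
      rw [kz, h2 _ two_I_mem_H]; exact h1.cay_le hI) (neg_le_neg_iff.1 hT)
    have e2 : kz b.1 = kz a.1 := by rw [a.2.2.1, b.2.2.1, e1]
    have e3 := kf_mul h1.univ.toHol I_mem_H h1.fix hI
    rw [← h2 _ two_I_mem_H] at e3
    have e4 : kf h I (a.1 (2 * I)) = 1 :=
      (mul_eq_right₀ a.2.1.kz_ne_zero).1 (e3.symm.trans e2)
    have e5 := lip_rad a.2.1 SZ.id h1 (a.2.1.univ.maps hz)
    rw [e4, sub_self, norm_zero, mul_zero, norm_le_zero_iff, sub_eq_zero] at e5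
    rw [h2 z hz, ← e5]
  obtain ⟨γ, hγ1, hγ2⟩ := exists_param r T bot top (fun a => ⟨fun z => z, SZ.id, fun _ _ => rfl⟩)
    (by
      rintro a b c ⟨h, h1, h2⟩ ⟨g, g1, g2⟩
      exact ⟨_, g1.comp h1, fun z hz => by rw [g2 z hz, h2 z hz]⟩)
    (fun a => ⟨a.1, a.2.1, fun _ _ => rfl⟩) (fun a => a.2.2.2)
    (fun a b h hT => ⟨fun z => z, SZ.id, fun z hz => (rig0 a b h hT z hz).symm⟩)
    (by
      rintro a b ⟨h, h1, h2⟩ hT
      have hI := a.2.1.univ.maps two_I_mem_H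
      obtain ⟨p, q, hp, hq, e1, n1, n2⟩ := h1.split hI (by
        rw [← h2 _ two_I_mem_H]; exact neg_lt_neg_iff.1 hT)
      obtain ⟨ψ, g1, g2⟩ := b.2.2.2
      have k0 : cay I (q (a.1 (2 * I))) ≠ 0 := (hq.comp a.2.1).kz_ne_zero
      set κ := cay I (q (a.1 (2 * I))) with hκ
      have k1 : ((‖κ‖ : ℝ) : ℂ) ≠ 0 := by exact_mod_cast norm_ne_zero_iff.2 k0
      have u1 : ‖(‖κ‖ : ℂ) / κ‖ = 1 := by simp [k0]
      have u2 : ‖κ / (‖κ‖ : ℂ)‖ = 1 := by simp [k0]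
      have hq' := (sz_rot u1).comp hq
      have hp' := hp.comp (sz_rot u2)
      have e2 : ∀ z ∈ H, b.1 z = p (rot (κ / ‖κ‖) (rot (‖κ‖ / κ) (q (a.1 z)))) := fun z hz => by
        rw [h2 z hz, e1 _ (a.2.1.univ.maps hz),
          rot_rot u1 (hq.univ.maps (a.2.1.univ.maps hz)) (by field_simp)]
      have e3 : kz (fun z => rot (‖κ‖ / κ) (q (a.1 z))) = ‖κ‖ := by
        rw [kz, cay_rot u1 (hq.univ.maps hI), div_mul_cancel₀ _ k0]
      have e4 : ‖kz (fun z => rot (‖κ‖ / κ) (q (a.1 z)))‖ = ‖κ‖ := by rw [e3]; simp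
      refine ⟨⟨fun z => rot (‖κ‖ / κ) (q (a.1 z)), hq'.comp a.2.1, by rw [e4, e3], _, g1.comp hp',
        fun z hz => by rw [g2 z hz, e2 z hz]⟩, ⟨_, hq', fun _ _ => rfl⟩, ⟨_, hp', e2⟩, ?_, ?_⟩
      · simp only [T, e4]
        exact neg_lt_neg n1
      · rw [← h2 _ two_I_mem_H] at n2
        simp only [T, e4]
        exact neg_lt_neg n2)
    (by
      intro 𝒰 a
      choose ψ hψ eψ using fun n => (a n).2.2.2
      obtain ⟨χ₀, c1, c3⟩ := SZ.limit 𝒰 (fun n => (a n).2.1) hρ (r := 1 / 3) (by norm_num)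
        fun n => ⟨_, two_I_mem_H, nid.le, hX (a n)⟩
      have hlim : ∀ (b : ℕ → X) (c : ℕ → X), (∀ᶠ n in 𝒰, r (b n) (c n)) →
          ∃ (h : ℕ → ℂ → ℂ) (h₀ : ℂ → ℂ), SZ h₀ ∧ TendstoLocallyUniformlyOn h h₀ 𝒰 H ∧
            ∀ᶠ n in 𝒰, ∀ z ∈ H, (c n).1 z = h n ((b n).1 z) := fun b c hbc => by
        have : ∀ n, ∃ h, SZ h ∧ ‖kz φ‖ ≤ ‖cay I (h ((b n).1 (2 * I)))‖ ∧
            (r (b n) (c n) → ∀ z ∈ H, (c n).1 z = h ((b n).1 z)) := fun n => by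
          by_cases hr : r (b n) (c n)
          · obtain ⟨h, h1, h2⟩ := hr
            exact ⟨h, h1, by rw [← h2 _ two_I_mem_H]; exact hX _, fun _ => h2⟩
          · exact ⟨fun z => z, SZ.id, hX _, fun h => (hr h).elim⟩
        choose h h1 h2 h3 using this
        obtain ⟨h₀, g1, g2⟩ := SZ.limit 𝒰 h1 hρ (r := 1 / 3) (by norm_num) fun n =>
          ⟨_, (b n).2.1.univ.maps two_I_mem_H, (b n).2.1.norm_kz_le, h2 n⟩
        exact ⟨h, h₀, g1, g2, hbc.mono h3⟩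
      have up : ∀ y : X, (∀ᶠ n in 𝒰, r (a n) y) → ∃ h, SZ h ∧ ∀ z ∈ H, y.1 z = h (χ₀ z) :=
        fun y hy => by
          obtain ⟨h, h₀, g1, g2, g3⟩ := hlim a (fun _ => y) hy
          exact ⟨h₀, g1, fun z hz => tendsto_nhds_unique
            (tendsto_const_nhds.congr' (g3.mono fun n hn => hn z hz))
            (tendsto_comp_H g1.univ.toHol g2 (c1.univ.maps hz) (c3.tendsto_at hz))⟩
      have hI : Tendsto (fun n => kz (a n).1) 𝒰 (𝓝 (kz χ₀)) :=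
        ((differentiableOn_cay I_mem_H).continuousOn.continuousAt
          (H_mem_nhds (c1.univ.maps two_I_mem_H))).tendsto.comp (c3.tendsto_at two_I_mem_H)
      refine ⟨⟨χ₀, c1, ?_, up top (Eventually.of_forall fun n => (a n).2.2.2)⟩, hI.norm.neg,
        fun y hy => ?_, up⟩
      · exact tendsto_nhds_unique hI (((Complex.continuous_ofReal.tendsto _).comp hI.norm).congr
          fun n => (a n).2.2.1.symm)
      · obtain ⟨h, h₀, g1, g2, g3⟩ := hlim (fun _ => y) a hy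
        refine ⟨h₀, g1, fun z hz => tendsto_nhds_unique (c3.tendsto_at hz) ?_⟩
        exact (g2.tendsto_at (y.2.1.univ.maps hz)).congr' (g3.mono fun n hn => (hn z hz).symm))
  have hTb : T bot = -(1 / 3) := congrArg Neg.neg nid
  have hL : T top = -‖kz φ‖ := rfl
  have hL1 := hφ.norm_kz_le
  rw [hTb, hL] at hγ1 hγ2
  have hm : ∀ t ∈ Icc (0 : ℝ) 1, -(1 / 3 - t * (1 / 3 - ‖kz φ‖)) ∈ Icc (-(1 / 3)) (-‖kz φ‖) :=
    fun t ht => ⟨by nlinarith [ht.1], by nlinarith [ht.2]⟩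
  refine ⟨fun t => (γ (-(1 / 3 - t * (1 / 3 - ‖kz φ‖)))).1, fun t ht => ⟨(γ _).2.1, ?_⟩, ?_, ?_,
    fun s hs t ht hst => hγ2 _ (hm s hs) _ (hm t ht) (by nlinarith)⟩
  · rw [(γ _).2.2.1, neg_injective (hγ1 _ (hm t ht))]
  · refine rig0 bot _ ⟨_, (γ _).2.1, fun _ _ => rfl⟩ ?_
    rw [hγ1 _ (hm 0 (by simp)), hTb]
    simp
  · refine fun z hz => (rig0 _ top (γ _).2.2.2 ?_ z hz).symm
    rw [hγ1 _ (hm 1 (by simp)), hL]
    simp

theorem exists_evH_sz {φ : ℂ → ℂ} (hφ : SZ φ) : ∃ Ψ, EvH SZ φ Ψ := by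
  set θ := arg (kz φ) with hθ
  set u : ℝ → ℂ := fun t => exp (I * (t * θ : ℝ)) with hu
  have u1 : ∀ t, ‖u t‖ = 1 := fun t => norm_exp_I_mul_ofReal _
  have um : ∀ s t, u s * u t = u (s + t) := fun s t => by
    simp only [hu]
    rw [← exp_add]
    congr 1
    push_cast
    ring
  have u0 : u 0 = 1 := by simp [hu]
  have ui : ∀ t, u t * u (-t) = 1 := fun t => by rw [um, add_neg_cancel, u0]
  have hg := (sz_rot (u1 (-1))).comp hφ
  have e0 : kz (fun z => rot (u (-1)) (φ z)) = ‖kz φ‖ := by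
    have h1 : (‖kz φ‖ : ℂ) * u 1 = kz φ := by
      have := norm_mul_exp_arg_mul_I (kz φ)
      simpa [hu, mul_comm] using this
    rw [kz, cay_rot (u1 _) (hφ.univ.maps two_I_mem_H)]
    show u (-1) * kz φ = _
    linear_combination (‖kz φ‖ : ℂ) * ui 1 - u (-1) * h1
  have e1 : ‖kz (fun z => rot (u (-1)) (φ z))‖ = ‖kz φ‖ := by rw [e0]; simp
  obtain ⟨χ, h1, h2, h3, h4⟩ := exists_chain_rad hg (by rw [e1, e0])
  rw [e1] at h1
  set ρ := ‖kz φ‖ with hρ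
  have hρ0 : 0 < ρ := norm_pos_iff.2 hφ.kz_ne_zero
  have hρ1 : ρ ≤ 1 / 3 := hφ.norm_kz_le
  refine evH_of_chain (fun f hf => hf.univ) (χ := fun t z => rot (u t) (χ t z))
    (fun t ht => ((sz_rot (u1 t)).comp (h1 t ht).1).univ) (fun z hz => ?_) (fun z hz => ?_)
    (fun s hs t ht hst => ?_) fun z hz => ?_
  · rw [h2 z hz, u0, rot, one_mul, cayInv_cay I_mem_H hz]
  · rw [h3 z hz, rot_rot (u1 _) (hφ.univ.maps hz) (ui 1)]
  · obtain ⟨h, a1, a2⟩ := h4 s hs t ht hst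
    exact ⟨_, (sz_rot (u1 t)).comp (a1.comp (sz_rot (u1 (-s)))), fun z hz => by
      rw [rot_rot (u1 s) ((h1 s hs).1.univ.maps hz) (by rw [mul_comm, ui]), a2 z hz]⟩
  · have hz' : 0 < z.im := hz
    refine ⟨(‖z - conj I‖ ^ 2 / z.im) ^ 2 * (1 + (‖z‖ + 6) ^ 2 / (z.im * (2 / 9))) *
      ((1 + |θ|) / ρ), by positivity, fun s v t hs hv ht ht1 g h hg hh eg eh => ?_⟩
    have ms : s ∈ Icc (0 : ℝ) 1 := ⟨hs, by linarith⟩
    have mv : v ∈ Icc (0 : ℝ) 1 := ⟨by linarith, by linarith⟩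
    have mt : t ∈ Icc (0 : ℝ) 1 := ⟨by linarith, ht1⟩
    refine (lip_rad ((sz_rot (u1 s)).comp (h1 s ms).1) hg hh hz).trans ?_
    rw [mul_assoc _ ((1 + |θ|) / ρ)]
    refine mul_le_mul_of_nonneg_left ?_ (by positivity)
    rw [← eg _ two_I_mem_H]
    have m := (h1 v mv).1.univ.maps two_I_mem_H
    have a1 := kf_mul hh.univ.toHol I_mem_H hh.fix ((sz_rot (u1 v)).univ.maps m)
    rw [← eh _ two_I_mem_H, cay_rot (u1 v) m, cay_rot (u1 t) ((h1 t mt).1.univ.maps two_I_mem_H)]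
      at a1
    have ev : cay I (χ v (2 * I)) = _ := (h1 v mv).2
    have et : cay I (χ t (2 * I)) = _ := (h1 t mt).2
    rw [ev, et] at a1
    generalize kf h I (rot (u v) (χ v (2 * I))) = k at a1
    set ρv := 1 / 3 - v * (1 / 3 - ρ) with hρv
    set ρt := 1 / 3 - t * (1 / 3 - ρ) with hρt
    have b1 : ρ ≤ ρv := by nlinarith [mv.2]
    have b2 : ρ ≤ ρt := by nlinarith [mt.2]
    have b3 : ρt ≤ 1 := by nlinarith [mt.1]
    have a2 : (1 - k) * (u v * ρv) = u v * (((ρv - ρt : ℝ) : ℂ) - ρt * (u (t - v) - 1)) := by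
      have := um v (t - v)
      rw [add_sub_cancel] at this
      push_cast
      linear_combination a1 + (ρt : ℂ) * this
    have a3 : ‖u (t - v) - 1‖ ≤ (t - v) * |θ| := by
      refine Real.norm_exp_I_mul_ofReal_sub_one_le.trans ?_
      rw [Real.norm_eq_abs, abs_mul, abs_of_nonneg (by linarith)]
    have a4 := congrArg norm a2
    rw [norm_mul, norm_mul, norm_mul, u1, one_mul, one_mul, norm_real,
      Real.norm_of_nonneg (by linarith)] at a4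
    have a5 := norm_sub_le ((ρv - ρt : ℝ) : ℂ) (ρt * (u (t - v) - 1))
    rw [norm_mul, norm_real, norm_real, Real.norm_of_nonneg (by nlinarith),
      Real.norm_of_nonneg (by linarith)] at a5
    rw [div_mul_eq_mul_div, le_div_iff₀ hρ0]
    have a6 := mul_le_mul b3 a3 (norm_nonneg _) zero_le_one
    have a7 := mul_le_mul_of_nonneg_left b1 (norm_nonneg (1 - k))
    have a8 : ρv - ρt ≤ t - v := by nlinarith
    nlinarith

theorem exists_evH_univ {φ : ℂ → ℂ} (hφ : Univ φ) : ∃ Ψ, EvH Univ φ Ψ := by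
  have ha : 0 < (φ I).im := hφ.maps I_mem_H
  set a := (φ I).im with hadef
  set b := (φ I).re with hbdef
  have hac : (a : ℂ) ≠ 0 := by exact_mod_cast ha.ne'
  have hI : φ I = a * I + b := by
    rw [add_comm]
    exact (re_add_im _).symm
  obtain ⟨Ψ, hΨ⟩ := exists_evH_sz (φ := fun z => ((a⁻¹ : ℝ) : ℂ) * φ z + (-(a⁻¹ * b) : ℝ))
    ⟨(univ_affine (inv_pos.2 ha) _).comp hφ, by
      rw [hI]
      push_cast
      field_simp
      ring⟩
  obtain ⟨Ψ', hΨ'⟩ := evH_affine (S' := Univ) (fun f hf => hf.univ) (b := b) ha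
    (fun f ρ δ hf hρ _ => (univ_affine hρ δ).comp hf.univ) hΨ
  refine ⟨Ψ', hΨ'.congr fun z _ => ?_⟩
  push_cast
  field_simp
  ring

end Pool.Agent.MP_1a2790_an
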