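import Pool.Agent.MP_1a2790_an.Ext

/-! Rigidity: a map which is real outside the hull of its fixed points and has
angular derivative one at infinity is the identity. -/

open Complex Set Filter Topology Metric Function
open scoped ComplexConjugate

namespace Pool.Agent.MP_1a2790_an

/-- The exterior of a half-disc. -/
def Gr (ρ : ℝ) : Set ℂ := {w | w ∈ H ∧ ρ < ‖w‖}

lemma isOpen_Gr (ρ : ℝ) : IsOpen (Gr ρ) :=
  isOpen_H.inter (isOpen_lt continuous_const continuous_norm)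

lemma isPreconnected_Gr {ρ : ℝ} (hρ : 0 < ρ) : IsPreconnected (Gr ρ) := by
  have h : Gr ρ = bom 0 '' (H ∩ ball 0 ρ⁻¹) := by
    ext w
    constructor
    · rintro ⟨h1, h2⟩
      refine ⟨mob 0 w, ⟨mob_mem_H 0 h1, ?_⟩, bom_mob 0 w⟩
      simp only [mob, ofReal_zero, sub_zero, mem_ball_zero_iff, norm_neg, norm_inv]
      exact inv_strictAnti₀ hρ h2
    · rintro ⟨u, ⟨h1, h2⟩, rfl⟩
      refine ⟨bom_mem_H 0 h1, ?_⟩
      simp only [bom, ofReal_zero, zero_sub, norm_neg, norm_inv]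
      rw [mem_ball_zero_iff] at h2
      rwa [lt_inv_comm₀ hρ (norm_pos_iff.2 (ne_zero_of_mem_H h1))]
  rw [h]
  exact ((convex_H.inter (convex_ball 0 _)).isPreconnected).image _
    ((univ_bom 0).toHol.cont.mono inter_subset_left)

lemma mul_I_mem_Gr {ρ y : ℝ} (hy : 0 < y) (h : ρ < y) : (y : ℂ) * I ∈ Gr ρ :=
  ⟨mul_I_mem_H hy, by rwa [norm_mul_I hy]⟩

lemma Low.le_norm_vertical {φ : ℂ → ℂ} (hl : Low φ 1) {y : ℝ} (hy : 0 < y) :
    y ≤ ‖φ (y * I)‖ := by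
  have := hl _ (mul_I_mem_H hy)
  simp only [mul_im, ofReal_re, I_im, mul_one, ofReal_im, I_re, mul_zero, add_zero, one_mul] at this
  exact this.trans (Complex.im_le_norm _)

lemma Gr_subset_image {φ : ℂ → ℂ} (hφ : Univ φ) (hl : Low φ 1) {ρ : ℝ} (hρ : 0 < ρ)
    (h : ∀ a ∈ Gr ρ, a ∈ closure (φ '' H) → a ∈ φ '' H) : Gr ρ ⊆ φ '' H := by
  apply (isPreconnected_Gr hρ).subset_of_closure_inter_subset hφ.isOpen_image
  · have h1 : 0 < ρ + 1 := by linarith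
    exact ⟨φ ((ρ + 1 : ℝ) * I), ⟨hφ.maps (mul_I_mem_H h1),
      lt_of_lt_of_le (by linarith) (hl.le_norm_vertical h1)⟩, _, mul_I_mem_H h1, rfl⟩
  · exact fun a ha => h a ha.2 ha.1

/-- The Joukowski map. -/
noncomputable def jk (ρ : ℝ) (w : ℂ) : ℂ := w + ρ ^ 2 / w

lemma im_jk (ρ : ℝ) (w : ℂ) : (jk ρ w).im = w.im - ρ ^ 2 * w.im / ‖w‖ ^ 2 := by
  have : ((ρ : ℂ) ^ 2 / w).im = -(ρ ^ 2 * w.im / ‖w‖ ^ 2) := by
    rw [← ofReal_pow, div_eq_mul_inv, im_ofReal_mul, inv_im, Complex.sq_norm]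
    ring
  rw [jk, add_im, this]
  ring

lemma jk_mem_H {ρ : ℝ} (hρ : 0 < ρ) {w : ℂ} (hw : w ∈ Gr ρ) : jk ρ w ∈ H := by
  rw [mem_H, im_jk]
  have h1 : 0 < w.im := hw.1
  have h2 := hw.2
  have h3 : 0 < ‖w‖ ^ 2 := by have := hρ.trans h2; positivity
  rw [sub_pos, div_lt_iff₀ h3]
  have : ρ ^ 2 < ‖w‖ ^ 2 := by nlinarith
  nlinarith

lemma injOn_jk {ρ : ℝ} (hρ : 0 < ρ) : InjOn (jk ρ) (Gr ρ) := by
  intro a ha b hb e
  have ha0 := ne_zero_of_mem_H ha.1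
  have hb0 := ne_zero_of_mem_H hb.1
  have h1 : (a - b) * (a * b - ρ ^ 2) = 0 := by
    simp only [jk] at e
    field_simp at e
    linear_combination e
  rcases mul_eq_zero.1 h1 with h | h
  · exact sub_eq_zero.1 h
  · have h2 : ‖a * b‖ = ‖(ρ : ℂ) ^ 2‖ := by rw [sub_eq_zero.1 h]
    rw [norm_mul, norm_pow, norm_real, Real.norm_of_nonneg hρ.le] at h2
    have := ha.2
    have := hb.2
    nlinarith

lemma surj_jk {ρ : ℝ} (hρ : 0 < ρ) {ζ : ℂ} (hζ : ζ ∈ H) : ∃ w ∈ Gr ρ, jk ρ w = ζ := by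
  have key : ∀ a : ℂ, a ≠ 0 → jk ρ a = ζ → ρ ≤ ‖a‖ → a ∈ Gr ρ := by
    intro a ha e h
    have h0 : 0 < (jk ρ a).im := by rw [e]; exact hζ
    rw [im_jk] at h0
    have h3 : 0 < ‖a‖ ^ 2 := by positivity
    rw [sub_pos, div_lt_iff₀ h3] at h0
    have h4 : ρ ^ 2 ≤ ‖a‖ ^ 2 := by nlinarith
    have h5 : 0 < a.im * (‖a‖ ^ 2 - ρ ^ 2) := by nlinarith
    have h6 : 0 < a.im := by
      by_contra h6
      push Not at h6
      nlinarith
    refine ⟨h6, lt_of_le_of_ne h fun e' => ?_⟩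
    rw [← e'] at h5
    simp at h5
  obtain ⟨s, hs⟩ : ∃ s : ℂ, s ^ 2 = ζ ^ 2 - 4 * ρ ^ 2 := IsAlgClosed.exists_pow_nat_eq _ two_pos
  set a := (ζ + s) / 2 with ha
  set b := (ζ - s) / 2 with hb
  have hab : a * b = ρ ^ 2 := by rw [ha, hb]; linear_combination (-1 / 4 : ℂ) * hs
  have hsum : a + b = ζ := by rw [ha, hb]; ring
  have hρ' : (ρ : ℂ) ^ 2 ≠ 0 := by exact_mod_cast (pow_pos hρ 2).ne'
  have ha0 : a ≠ 0 := left_ne_zero_of_mul (hab ▸ hρ')
  have hb0 : b ≠ 0 := right_ne_zero_of_mul (hab ▸ hρ')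
  have ja : jk ρ a = ζ := by rw [jk, ← hab, ← hsum]; field_simp
  have jb : jk ρ b = ζ := by rw [jk, ← hab, ← hsum]; field_simp; ring
  have hn : ‖a‖ * ‖b‖ = ρ ^ 2 := by
    rw [← norm_mul, hab, norm_pow, norm_real, Real.norm_of_nonneg hρ.le]
  by_cases h : ρ ≤ ‖a‖
  · exact ⟨a, key a ha0 ja h, ja⟩
  · push Not at h
    refine ⟨b, key b hb0 jb ?_, jb⟩
    by_contra h'
    push Not at h'
    nlinarith [norm_nonneg a, norm_nonneg b]

lemma differentiableOn_jk (ρ : ℝ) : DifferentiableOn ℂ (jk ρ) H := by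
  unfold jk
  exact differentiableOn_id.add (DifferentiableOn.div (by fun_prop) differentiableOn_id
    fun z hz => ne_zero_of_mem_H hz)

lemma tendsto_ofReal_mul_I_inv : Tendsto (fun y : ℝ => ((y : ℂ) * I)⁻¹) atTop (𝓝 0) := by
  rw [tendsto_zero_iff_norm_tendsto_zero]
  apply tendsto_inv_atTop_zero.congr'
  filter_upwards [eventually_gt_atTop 0] with y hy
  rw [norm_inv, norm_mul_I hy]

/-- A family asymptotic to the imaginary axis computes the angular derivative. -/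
lemma Hol.jwc_of_asymp {f : ℂ → ℂ} (hf : Hol f) {w : ℝ → ℂ}
    (hw : Tendsto (fun y : ℝ => w y / (y * I)) atTop (𝓝 1)) :
    Tendsto (fun y => f (w y) / w y) atTop (𝓝 (cInf f : ℂ)) := by
  have h1 : ∀ᶠ y : ℝ in atTop, ‖w y - y * I‖ ≤ y / 2 := by
    have := (tendsto_iff_norm_sub_tendsto_zero.1 hw).eventually (ge_mem_nhds one_half_pos)
    filter_upwards [this, eventually_gt_atTop 0] with y h hy
    have h0 : (y : ℂ) * I ≠ 0 := ne_zero_of_mem_H (mul_I_mem_H hy)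
    rw [div_sub_one h0, norm_div, norm_mul_I hy, div_le_iff₀ hy] at h
    linarith
  have h2 : ∀ᶠ y : ℝ in atTop, y / 2 ≤ (w y).im ∧ ‖w y‖ ≤ 3 * (y / 2) := by
    filter_upwards [h1, eventually_gt_atTop 0] with y h hy
    have a1 := (Complex.abs_im_le_norm _).trans h
    simp only [sub_im, mul_im, ofReal_re, I_im, mul_one, ofReal_im, I_re, mul_zero, add_zero,
      abs_le] at a1
    have a2 := norm_add_le (w y - y * I) (y * I)
    rw [sub_add_cancel, norm_mul_I hy] at a2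
    exact ⟨by linarith [a1.1], by linarith⟩
  apply hf.jwc_tendsto (K := 3) three_pos
  · filter_upwards [h2, eventually_gt_atTop 0] with y h hy
    exact ⟨mem_H.2 (by linarith [h.1]), by linarith [h.1, h.2]⟩
  · apply tendsto_atTop_mono' _ _ (tendsto_id.atTop_div_const two_pos)
    filter_upwards [h2] with y h
    exact h.1.trans (Complex.im_le_norm _)

lemma osc_bound {φ : ℂ → ℂ} (hφ : Univ φ) (hl : Low φ 1) (hc : cInf φ ≤ 1) {ρ : ℝ} (hρ : 0 < ρ)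
    (hG : Gr ρ ⊆ φ '' H) {r : ℝ} (hr : 2 * ρ ≤ r) {z₁ z₂ : ℂ} (h₁ : z₁ ∈ H) (h₂ : z₂ ∈ H)
    (r₁ : r ≤ ‖φ z₁‖) (r₂ : r ≤ ‖φ z₂‖) : ‖(φ z₁ - z₁) - (φ z₂ - z₂)‖ ≤ 8 * ρ ^ 2 / r := by
  have hc1 : cInf φ = 1 := le_antisymm hc hl.le_cInf
  set V : Set ℂ := H ∩ φ ⁻¹' Gr ρ with hV
  have hVo : IsOpen V := hφ.toHol.cont.isOpen_inter_preimage isOpen_H (isOpen_Gr ρ)
  set T : ℂ → ℂ := fun z => jk ρ (φ z) with hT
  have hTd : DifferentiableOn ℂ T V :=
    ((differentiableOn_jk ρ).comp hφ.diff hφ.maps).mono inter_subset_left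
  have hTi : InjOn T V := fun a ha b hb e => hφ.inj ha.1 hb.1 (injOn_jk hρ ha.2 hb.2 e)
  have hTH : T '' V = H := by
    apply Subset.antisymm
    · rintro _ ⟨z, hz, rfl⟩
      exact jk_mem_H hρ hz.2
    · intro ζ hζ
      obtain ⟨w, hw, rfl⟩ := surj_jk hρ hζ
      obtain ⟨z, hz, rfl⟩ := hG hw
      exact ⟨z, ⟨hz, hw⟩, rfl⟩
  obtain ⟨g, hgd, hg⟩ := exists_inverse hVo hTd hTi
  rw [hTH] at hgd
  have hgH : Hol g := ⟨hgd, fun ζ hζ => by
    rw [← hTH] at hζ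
    obtain ⟨z, hz, rfl⟩ := hζ
    rw [hg z hz]
    exact hz.1⟩
  have hlim := hφ.toHol.jwc_vertical
  rw [hc1, ofReal_one] at hlim
  have hlimT : Tendsto (fun y : ℝ => T (y * I) / (y * I)) atTop (𝓝 1) := by
    have a1 : Tendsto (fun y : ℝ => φ (y * I) / (y * I) + ρ ^ 2 * (((y : ℂ) * I)⁻¹ * ((y : ℂ) * I)⁻¹ *
        (φ (y * I) / (y * I))⁻¹)) atTop (𝓝 (1 + ρ ^ 2 * (0 * 0 * 1⁻¹))) :=
      hlim.add (((tendsto_ofReal_mul_I_inv.mul tendsto_ofReal_mul_I_inv).mul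
        (hlim.inv₀ one_ne_zero)).const_mul _)
    simp only [mul_zero, zero_mul, add_zero] at a1
    apply a1.congr'
    filter_upwards [eventually_gt_atTop 0] with y hy
    have h0 : (y : ℂ) * I ≠ 0 := ne_zero_of_mem_H (mul_I_mem_H hy)
    have h1 : φ (y * I) ≠ 0 := ne_zero_of_mem_H (hφ.maps (mul_I_mem_H hy))
    simp only [hT, jk]
    generalize (y : ℂ) * I = u at h0 h1 ⊢
    field_simp
  have hcg : cInf g = 1 := by
    have a1 := hgH.jwc_of_asymp hlimT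
    have a2 : Tendsto (fun y : ℝ => g (T (y * I)) / T (y * I)) atTop (𝓝 1) := by
      have := hlimT.inv₀ one_ne_zero
      rw [inv_one] at this
      apply this.congr'
      filter_upwards [eventually_gt_atTop 0, eventually_gt_atTop ρ] with y hy hy'
      rw [hg _ ⟨mul_I_mem_H hy, hφ.maps (mul_I_mem_H hy), hy'.trans_le (hl.le_norm_vertical hy)⟩,
        inv_div]
    exact_mod_cast tendsto_nhds_unique a1 a2
  have hlg : Low g 1 := hgH.low_of_le hcg.ge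
  set Q : ℂ → ℂ := fun ζ => φ (g ζ) - g ζ with hQ
  have hQd : DifferentiableOn ℂ Q H := (hφ.toHol.comp hgH).diff.sub hgd
  have hQ0 : ∀ ζ ∈ H, 0 ≤ (Q ζ).im := fun ζ hζ => by
    have := hl _ (hgH.maps hζ)
    simp only [hQ, sub_im]
    linarith
  have hr0 : 0 < r := by linarith
  have main : ∀ z ∈ H, r ≤ ‖φ z‖ → T z ∈ H ∧ Q (T z) = φ z - z ∧
      (Q (T z)).im * ‖φ z‖ ^ 2 ≤ 2 * ρ ^ 2 * (T z).im ∧ ‖T z‖ ≤ 2 * ‖φ z‖ := by
    intro z hz hzr
    have hzV : z ∈ V := ⟨hz, hφ.maps hz, by show ρ < ‖φ z‖; linarith⟩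
    have hTz : T z ∈ H := jk_mem_H hρ hzV.2
    have e1 : Q (T z) = φ z - z := by simp only [hQ, hg z hzV]
    have hn : 0 < ‖φ z‖ := by linarith
    refine ⟨hTz, e1, ?_, ?_⟩
    · have a1 := hlg _ hTz
      rw [hg z hzV, one_mul] at a1
      have a2 : (T z).im = (φ z).im - ρ ^ 2 * (φ z).im / ‖φ z‖ ^ 2 := im_jk ρ _
      have a3 : 0 < (φ z).im := hφ.maps hz
      have a4 : ρ ^ 2 * (φ z).im / ‖φ z‖ ^ 2 ≤ (φ z).im / 2 := by
        rw [div_le_div_iff₀ (by positivity) two_pos]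
        have : 4 * ρ ^ 2 ≤ ‖φ z‖ ^ 2 := by nlinarith
        nlinarith
      have a5 : (Q (T z)).im ≤ ρ ^ 2 * (φ z).im / ‖φ z‖ ^ 2 := by
        rw [e1, sub_im]; linarith
      rw [le_div_iff₀ (by positivity)] at a5
      have : (φ z).im ≤ 2 * (T z).im := by linarith
      nlinarith [sq_nonneg ρ]
    · have a1 : ‖T z‖ ≤ ‖φ z‖ + ‖(ρ : ℂ) ^ 2 / φ z‖ := norm_add_le _ _
      rw [norm_div, norm_pow, norm_real, Real.norm_of_nonneg hρ.le] at a1
      have : ρ ^ 2 / ‖φ z‖ ≤ ‖φ z‖ := by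
        rw [div_le_iff₀ hn]; nlinarith
      linarith
  obtain ⟨m1, e1, q1, n1⟩ := main z₁ h₁ r₁
  obtain ⟨m2, e2, q2, n2⟩ := main z₂ h₂ r₂
  have sp := schwarzPick_closed hQd hQ0 m1 m2
  have p1 := hQ0 _ m1
  have p2 := hQ0 _ m2
  rw [← e1, ← e2]
  have i1 : 0 < (T z₁).im := m1
  have i2 : 0 < (T z₂).im := m2
  have d1 : ‖T z₁ - T z₂‖ ≤ 2 * (‖φ z₁‖ + ‖φ z₂‖) := (norm_sub_le _ _).trans (by linarith)
  generalize ‖Q (T z₁) - Q (T z₂)‖ = N at sp ⊢
  generalize (Q (T z₁)).im = A at *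
  generalize (Q (T z₂)).im = B at *
  generalize (T z₁).im = a at *
  generalize (T z₂).im = b at *
  generalize ‖φ z₁‖ = u at *
  generalize ‖φ z₂‖ = v at *
  have d0 := norm_nonneg (T z₁ - T z₂)
  generalize ‖T z₁ - T z₂‖ = d at *
  have hu : 0 < u := by linarith
  have hv : 0 < v := by linarith
  have k1 : A * B * (u * v) ^ 2 ≤ (2 * ρ ^ 2) ^ 2 * (a * b) := by
    have := mul_le_mul q1 q2 (by positivity) (by positivity)
    nlinarith
  have k2 : (N * (u * v)) ^ 2 * (a * b) ≤ (d * (2 * ρ ^ 2)) ^ 2 * (a * b) := by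
    calc (N * (u * v)) ^ 2 * (a * b) = N ^ 2 * (a * b) * (u * v) ^ 2 := by ring
      _ ≤ d ^ 2 * (A * B) * (u * v) ^ 2 := by gcongr
      _ = d ^ 2 * (A * B * (u * v) ^ 2) := by ring
      _ ≤ d ^ 2 * ((2 * ρ ^ 2) ^ 2 * (a * b)) := by gcongr
      _ = _ := by ring
  have k3 := le_of_mul_le_mul_right k2 (mul_pos i1 i2)
  have k4 : N * (u * v) ≤ d * (2 * ρ ^ 2) :=
    (le_abs_self _).trans (abs_le_of_sq_le_sq k3 (by positivity))
  have k5 : N * (u * v) ≤ 4 * ρ ^ 2 * (u + v) := by nlinarith [sq_nonneg ρ]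
  rw [le_div_iff₀ hr0]
  have k6 : (u + v) * r ≤ 2 * (u * v) := by nlinarith
  have k7 : N * r * (u * v) ≤ 8 * ρ ^ 2 * (u * v) := by
    calc N * r * (u * v) = N * (u * v) * r := by ring
      _ ≤ 4 * ρ ^ 2 * (u + v) * r := by gcongr
      _ = 4 * ρ ^ 2 * ((u + v) * r) := by ring
      _ ≤ 4 * ρ ^ 2 * (2 * (u * v)) := by gcongr
      _ = _ := by ring
  exact le_of_mul_le_mul_right k7 (mul_pos hu hv)

lemma exists_shift_bound {φ : ℂ → ℂ} (hφ : Univ φ) (hl : Low φ 1) (hc : cInf φ ≤ 1) {ρ : ℝ}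
    (hρ : 0 < ρ) (hG : Gr ρ ⊆ φ '' H) :
    ∃ M : ℝ, 0 ≤ M ∧ ∀ z ∈ H, 2 * ρ ≤ ‖φ z‖ → ‖φ z - z‖ ≤ M := by
  have h2 : 0 < 2 * ρ := by linarith
  refine ⟨8 * ρ ^ 2 / (2 * ρ) + ‖φ ((2 * ρ : ℝ) * I) - (2 * ρ : ℝ) * I‖, by positivity,
    fun z hz h => ?_⟩
  have := osc_bound hφ hl hc hρ hG le_rfl hz (mul_I_mem_H h2) h (hl.le_norm_vertical h2)
  have h3 := norm_add_le (φ z - z - (φ ((2 * ρ : ℝ) * I) - (2 * ρ : ℝ) * I))
    (φ ((2 * ρ : ℝ) * I) - (2 * ρ : ℝ) * I)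
  rw [sub_add_cancel] at h3
  linarith

lemma proper_of_shift {φ : ℂ → ℂ} (hφ : Hol φ) (hl : Low φ 1) {ρ M r : ℝ} (hρ : 0 < ρ)
    (hM0 : 0 ≤ M) (hM : ∀ z ∈ H, 2 * ρ ≤ ‖φ z‖ → ‖φ z - z‖ ≤ M) (hr : 2 * ρ ≤ r) {z : ℂ}
    (hz : z ∈ Gr (r + M)) : r ≤ ‖φ z‖ := by
  by_contra hn
  push Not at hn
  have h0 : 0 < r + M + 1 := by linarith
  have hy := mul_I_mem_Gr h0 (show r + M < r + M + 1 by linarith)
  have hcont : ContinuousOn (fun z => ‖φ z‖) (Gr (r + M)) :=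
    (hφ.cont.mono fun _ h => h.1).norm
  obtain ⟨w, hw, e⟩ := (isPreconnected_Gr (by linarith : 0 < r + M)).intermediate_value hz hy hcont
    (show r ∈ Icc _ _ from ⟨hn.le, le_trans (by linarith) (hl.le_norm_vertical h0)⟩)
  have e' : ‖φ w‖ = r := e
  have h1 := hM w hw.1 (by rw [e']; exact hr)
  have h2 := norm_sub_le (φ w) (φ w - w)
  rw [sub_sub_cancel] at h2
  have := hw.2
  linarith

lemma rigid {φ : ℂ → ℂ} (hφ : Univ φ) (hl : Low φ 1) (hc : cInf φ ≤ 1) {ρ : ℝ}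
    (hρ : 0 < ρ) (hG : Gr ρ ⊆ φ '' H) {s s' Λ : ℝ} (hj : Julia φ s s Λ)
    (hj' : Julia φ s' s' Λ) (hreal : ∀ x : ℝ, x < s ∨ s' < x → ∀ M : ℝ,
      (∀ y ∈ Ioc (0 : ℝ) 1, ‖φ (x + y * I)‖ ≤ M) →
      Tendsto (fun y : ℝ => (φ (x + y * I)).im) (𝓝[>] 0) (𝓝 0)) : ∀ z ∈ H, φ z = z := by
  obtain ⟨M, hM0, hM⟩ := exists_shift_bound hφ hl hc hρ hG
  have hbd : ∀ z ∈ H, ‖φ z‖ ≤ 2 * ρ + ‖z‖ + M := fun z hz => by
    by_cases h : 2 * ρ ≤ ‖φ z‖
    · have h1 := hM z hz h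
      have h2 := norm_add_le (φ z - z) z
      rw [sub_add_cancel] at h2
      linarith
    · push Not at h
      linarith [norm_nonneg z]
  set p : ℂ → ℂ := fun z => φ z - z with hp
  have hpd : DifferentiableOn ℂ p H := hφ.diff.sub differentiableOn_id
  have hp0 : ∀ z ∈ H, 0 ≤ (p z).im := fun z hz => by
    have := hl z hz
    simp only [hp, sub_im]
    linarith
  have hnorm : ∀ x y : ℝ, y ∈ Ioc (0 : ℝ) 1 → ‖(x : ℂ) + y * I‖ ≤ |x| + 1 := fun x y hy => by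
    have := norm_add_le (x : ℂ) (y * I)
    rw [norm_mul_I hy.1, norm_real, Real.norm_eq_abs] at this
    linarith [hy.2]
  have hpim : ∀ x y : ℝ, y ∈ Ioc (0 : ℝ) 1 → |(p (x + y * I)).im| ≤ 2 * ρ + 2 * (|x| + 1) + M :=
    fun x y hy => by
      have h1 := hbd _ (add_mul_I_mem_H x hy.1)
      have h2 := hnorm x y hy
      have h3 : ‖p (x + y * I)‖ ≤ _ := norm_sub_le _ _
      linarith [Complex.abs_im_le_norm (p (x + y * I))]
  have hp_real : ∀ x : ℝ, x < s ∨ s' < x →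
      Tendsto (fun y : ℝ => (p (x + y * I)).im) (𝓝[>] 0) (𝓝 0) := fun x hx => by
    have h1 := hreal x hx (2 * ρ + (|x| + 1) + M) fun y hy => by
      have h1 := hbd _ (add_mul_I_mem_H x hy.1)
      have h2 := hnorm x y hy
      linarith
    refine squeeze_zero' (eventually_nhdsWithin_of_forall fun y hy =>
      hp0 _ (add_mul_I_mem_H x hy)) (eventually_nhdsWithin_of_forall fun y hy => ?_) h1
    have : (0 : ℝ) < y := hy
    simp only [hp, sub_im, add_im, ofReal_im, mul_im, ofReal_re, I_im, I_re]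
    linarith
  have hΛ := hj.pos hφ.toHol
  have hvert : ∀ t : ℝ, Julia φ t t Λ → ∀ y : ℝ, 0 < y → |(p (t + y * I)).re| ≤ Λ * y :=
    fun t ht y hy => by
      have a1 := (Complex.abs_re_le_norm _).trans (ht.vertical hφ.toHol hy)
      simpa [hp] using a1
  set C : ℝ := (|s'| + 3) ^ 2 with hC
  have hC0 : 0 < C := by positivity
  have key : ∀ δ ∈ Ioc (0 : ℝ) 1, ∀ r, 2 * ρ ≤ r →
      (p I).im / C ≤ 2 * (8 * ρ ^ 2 / r) + 2 * Λ * δ := by
    intro δ hδ r hr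
    set X : ℝ := r + M + |s| + |s'| + 1 with hX
    have hs1 := neg_abs_le s
    have hs2 := le_abs_self s'
    have hs3 := abs_nonneg s
    have hs4 := abs_nonneg s'
    have hfar : ∀ x y : ℝ, |x| = X → 0 < y → r ≤ ‖φ (x + y * I)‖ := fun x y hx hy => by
      apply proper_of_shift hφ.toHol hl hρ hM0 hM hr
      refine ⟨add_mul_I_mem_H x hy, ?_⟩
      have := Complex.abs_re_le_norm ((x : ℂ) + y * I)
      simp only [add_re, ofReal_re, mul_re, I_re, mul_zero, ofReal_im, I_im, mul_one, sub_self,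
        add_zero] at this
      linarith
    have hX0 : 0 < X := by linarith
    set b : ℝ := (p (X + (1 : ℝ) * I)).re with hb
    have hosc : ∀ x y : ℝ, |x| = X → 0 < y → |(p (x + y * I)).re - b| ≤ 8 * ρ ^ 2 / r :=
      fun x y hx hy => by
        have := osc_bound hφ hl hc hρ hG hr (add_mul_I_mem_H x hy) (add_mul_I_mem_H X one_pos)
          (hfar x y hx hy) (hfar X 1 (abs_of_pos hX0) one_pos)
        exact (Complex.abs_re_le_norm (p (x + y * I) - p (X + (1 : ℝ) * I))).trans this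
    have hbound : ∀ x y : ℝ, |x| ≤ X → y ∈ Ioc (0 : ℝ) δ →
        |(p (x + y * I)).im| ≤ 2 * ρ + 2 * (X + 1) + M := fun x y hx hy =>
      (hpim x y ⟨hy.1, hy.2.trans hδ.2⟩).trans (by linarith)
    have h1 := rect_ineq hpd (x₁ := s') (x₂ := X) (by linarith) hδ.1
      (M := 2 * ρ + 2 * (X + 1) + M) (η := b + 8 * ρ ^ 2 / r + Λ * δ)
      (fun x hx y hy => hbound x y (abs_le.2 ⟨by linarith [hx.1, neg_abs_le s'], hx.2⟩) hy)
      (fun x hx => hp_real x (Or.inr hx.1)) (fun y hy => by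
        have a1 := (abs_le.1 (hosc X y (abs_of_pos hX0) hy.1)).2
        have a2 := (abs_le.1 (hvert s' hj' y hy.1)).1
        nlinarith [hy.2])
    have h2 := rect_ineq hpd (x₁ := -X) (x₂ := s) (by linarith) hδ.1
      (M := 2 * ρ + 2 * (X + 1) + M) (η := -b + 8 * ρ ^ 2 / r + Λ * δ)
      (fun x hx y hy => hbound x y (abs_le.2 ⟨hx.1, by linarith [hx.2, le_abs_self s]⟩) hy)
      (fun x hx => hp_real x (Or.inl hx.2)) (fun y hy => by
        have a1 := (abs_le.1 (hosc (-X) y (by rw [abs_neg, abs_of_pos hX0]) hy.1)).1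
        have a2 := (abs_le.1 (hvert s hj y hy.1)).2
        nlinarith [hy.2])
    have hcont : Continuous fun x : ℝ => (p (x + δ * I)).im :=
      Complex.continuous_im.comp (continuous_horizontal hpd.continuousOn hδ.1)
    have hnn : ∀ x : ℝ, 0 ≤ (p (x + δ * I)).im := fun x => hp0 _ (add_mul_I_mem_H x hδ.1)
    have h3 : 0 ≤ ∫ x in (-X)..s, (p (x + δ * I)).im :=
      intervalIntegral.integral_nonneg (by linarith) fun x _ => hnn x
    have h4 : ∫ x in s'..(s' + 1), (p (x + δ * I)).im ≤ ∫ x in s'..X, (p (x + δ * I)).im :=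
      intervalIntegral.integral_mono_interval le_rfl (by linarith) (by linarith)
        (Eventually.of_forall fun x => hnn x) (hcont.intervalIntegrable _ _)
    have h5 := intervalIntegral.integral_mono_on (show s' ≤ s' + 1 by linarith)
      (intervalIntegrable_const (c := (p I).im / C * δ))
      (hcont.intervalIntegrable (μ := MeasureTheory.volume) s' (s' + 1)) fun x hx => by
        have a1 := harnack_lower hpd hp0 (add_mul_I_mem_H x hδ.1) I_mem_H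
        have a2 : ‖(x : ℂ) + δ * I - conj I‖ ≤ |s'| + 3 := by
          have b1 := norm_sub_le ((x : ℂ) + δ * I) (conj I)
          have b2 := hnorm x δ hδ
          have b3 : |x| ≤ |s'| + 1 := abs_le.2 ⟨by linarith [hx.1, neg_abs_le s'], by linarith [hx.2]⟩
          simp only [RCLike.norm_conj, norm_I] at b1
          linarith
        have a3 : ‖(x : ℂ) + δ * I - conj I‖ ^ 2 ≤ C := by rw [hC]; gcongr
        simp only [add_im, ofReal_im, mul_im, ofReal_re, I_im, mul_one, I_re, mul_zero, add_zero,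
          zero_add] at a1
        rw [div_mul_eq_mul_div, div_le_iff₀ hC0]
        nlinarith [hnn x]
    simp only [intervalIntegral.integral_const, smul_eq_mul, add_sub_cancel_left, one_mul] at h5
    have h6 : (p I).im / C * δ ≤ (2 * (8 * ρ ^ 2 / r) + 2 * Λ * δ) * δ := by linarith
    exact le_of_mul_le_mul_right h6 hδ.1
  have key2 : ∀ δ ∈ Ioc (0 : ℝ) 1, (p I).im / C ≤ 2 * Λ * δ := fun δ hδ => by
    have t : Tendsto (fun r : ℝ => 2 * (8 * ρ ^ 2 / r) + 2 * Λ * δ) atTop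
        (𝓝 (2 * 0 + 2 * Λ * δ)) :=
      ((tendsto_id.const_div_atTop _).const_mul _).add_const _
    rw [mul_zero, zero_add] at t
    exact ge_of_tendsto t ((eventually_ge_atTop _).mono (key δ hδ))
  have t : Tendsto (fun δ : ℝ => 2 * Λ * δ) (𝓝[>] 0) (𝓝 (2 * Λ * 0)) :=
    Tendsto.mono_left (Continuous.tendsto (by fun_prop) 0) nhdsWithin_le_nhds
  rw [mul_zero] at t
  have key3 := ge_of_tendsto t (mem_of_superset (Ioc_mem_nhdsGT one_pos) key2)
  rw [div_le_iff₀ hC0, zero_mul] at key3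
  refine eq_id_of_im_le hφ.toHol hl hj I_mem_H ?_
  simp only [hp, sub_im] at key3
  linarith

end Pool.Agent.MP_1a2790_an
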