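import Pool.Agent.MP_1a2790_an.Wind

/-! Riemann mapping theorem for open connected sets whose complement has no compact
relatively open part. -/

open Complex Set Filter Topology Metric Function
open scoped ComplexConjugate

namespace Pool.Agent.MP_1a2790_an

/-- The complement of `U` has no nonempty compact relatively open subset. -/
def PropC (U : Set ℂ) : Prop := ∀ B O : Set ℂ, IsCompact B → IsOpen O → O \ U = B → B = ∅

/-- Index of the cycle `γ - γ'`. -/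
noncomputable def idx (γ γ' : UI → ℂ) (z : ℂ) : ℂ :=
  inc (fun t => γ t - z) - inc (fun t => γ' t - z)

section idx
variable {γ γ' : UI → ℂ} (hγ : Continuous γ) (hγ' : Continuous γ') (h0 : γ 0 = γ' 0)
  (h1 : γ 1 = γ' 1)
include hγ hγ'

lemma continuousOn_idx : ContinuousOn (idx γ γ') (range γ ∪ range γ')ᶜ :=
  ((continuousOn_inc_sub hγ).mono (compl_subset_compl.2 subset_union_left)).sub
    ((continuousOn_inc_sub hγ').mono (compl_subset_compl.2 subset_union_right))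

lemma isOpen_compl_ranges : IsOpen (range γ ∪ range γ')ᶜ :=
  ((isCompact_range hγ).union (isCompact_range hγ')).isClosed.isOpen_compl

include h0 h1

lemma exp_idx {z : ℂ} (hz : z ∈ (range γ ∪ range γ')ᶜ) : exp (idx γ γ' z) = 1 := by
  have a1 : ∀ t, γ t - z ≠ 0 := fun t e => hz (Or.inl ⟨t, sub_eq_zero.1 e⟩)
  have a2 : ∀ t, γ' t - z ≠ 0 := fun t e => hz (Or.inr ⟨t, sub_eq_zero.1 e⟩)
  have b1 := exp_inc (u := fun t => γ t - z) (by fun_prop) a1
  have b2 := exp_inc (u := fun t => γ' t - z) (by fun_prop) a2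
  rw [h0, h1, ← b2] at b1
  rw [idx, exp_sub, mul_right_cancel₀ (a2 0) b1, div_self (exp_ne_zero _)]

lemma eventually_idx_eq {z : ℂ} (hz : z ∈ (range γ ∪ range γ')ᶜ) :
    ∀ᶠ w in 𝓝 z, w ∈ (range γ ∪ range γ')ᶜ ∧ idx γ γ' w = idx γ γ' z := by
  have hn := (isOpen_compl_ranges hγ hγ').mem_nhds hz
  exact (show ∀ᶠ w in 𝓝 z, w ∈ (range γ ∪ range γ')ᶜ from hn).and
    (eventually_eq_of_exp_eq_one ((continuousOn_idx hγ hγ').continuousAt hn)
      (mem_of_superset hn fun w hw => exp_idx hγ hγ' h0 h1 hw))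

lemma isOpen_idx (P : ℂ → Prop) : IsOpen {z | z ∈ (range γ ∪ range γ')ᶜ ∧ P (idx γ γ' z)} := by
  rw [isOpen_iff_mem_nhds]
  rintro z ⟨hz, hP⟩
  filter_upwards [eventually_idx_eq hγ hγ' h0 h1 hz] with w hw
  exact ⟨hw.1, hw.2 ▸ hP⟩

lemma exists_idx_large : ∃ R : ℝ, ∀ z, R < ‖z‖ → z ∈ (range γ ∪ range γ')ᶜ ∧ idx γ γ' z = 0 := by
  obtain ⟨R, hR⟩ := ((isCompact_range hγ).union (isCompact_range hγ')).isBounded.exists_norm_le
  refine ⟨R, fun z hz => ⟨fun h => absurd (hR z h) (not_le.2 hz), ?_⟩⟩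
  rw [idx, inc_sub_of_large hγ fun t => (hR _ (Or.inl ⟨t, rfl⟩)).trans_lt hz,
    inc_sub_of_large hγ' fun t => (hR _ (Or.inr ⟨t, rfl⟩)).trans_lt hz, h0, h1, sub_self]

end idx

lemma idx_image_eq_zero {U : Set ℂ} (hU : IsOpen U) (hc : IsPreconnected U) (hC : PropC U)
    {f : ℂ → ℂ} (hf : DifferentiableOn ℂ f U) (hi : InjOn f U) {a : ℂ} (ha : a ∉ f '' U)
    {γ γ' : UI → ℂ} (hγ : Continuous γ) (hγ' : Continuous γ') (h0 : γ 0 = γ' 0)
    (h1 : γ 1 = γ' 1) (hm : ∀ t, γ t ∈ U) (hm' : ∀ t, γ' t ∈ U) :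
    idx (fun t => f (γ t)) (fun t => f (γ' t)) a = 0 := by
  set K := range γ ∪ range γ' with hK
  have hKU : K ⊆ U := by rintro _ (⟨t, rfl⟩ | ⟨t, rfl⟩); exacts [hm t, hm' t]
  obtain ⟨R, hR⟩ := exists_idx_large hγ hγ' h0 h1
  set O := {z | z ∈ Kᶜ ∧ idx γ γ' z ≠ 0} with hO
  set O' := {z | z ∈ Kᶜ ∧ idx γ γ' z = 0} with hO'
  have hOo : IsOpen O := isOpen_idx hγ hγ' h0 h1 (· ≠ 0)
  have hO'o : IsOpen O' := isOpen_idx hγ hγ' h0 h1 (· = 0)
  have hK'c : IsCompact O'ᶜ := by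
    apply Metric.isCompact_of_isClosed_isBounded hO'o.isClosed_compl
    apply (isBounded_closedBall (x := (0 : ℂ)) (r := R)).subset
    intro z hz
    by_contra h
    simp only [mem_closedBall, dist_zero_right, not_le] at h
    exact hz (hR z h)
  have hB : O \ U = ∅ := by
    apply hC _ O _ hOo rfl
    have : O \ U = O'ᶜ ∩ Uᶜ := by
      ext z
      constructor
      · rintro ⟨⟨_, h2⟩, h3⟩
        exact ⟨fun h => h2 h.2, h3⟩
      · rintro ⟨h2, h3⟩
        have : z ∈ Kᶜ := fun h => h3 (hKU h)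
        exact ⟨⟨this, fun h => h2 ⟨this, h⟩⟩, h3⟩
    rw [this]
    exact hK'c.inter_right hU.isClosed_compl
  have hK'U : O'ᶜ ⊆ U := by
    intro z hz
    by_contra h
    have h2 : z ∈ Kᶜ := fun h' => h (hKU h')
    have : z ∈ O \ U := ⟨⟨h2, fun h' => hz ⟨h2, h'⟩⟩, h⟩
    rw [hB] at this
    exact this
  have cΓ : Continuous fun t => f (γ t) := hf.continuousOn.comp_continuous hγ hm
  have cΓ' : Continuous fun t => f (γ' t) := hf.continuousOn.comp_continuous hγ' hm'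
  have e0 : (fun t => f (γ t)) 0 = (fun t => f (γ' t)) 0 := by simp [h0]
  have e1 : (fun t => f (γ t)) 1 = (fun t => f (γ' t)) 1 := by simp [h1]
  set N := idx (fun t => f (γ t)) (fun t => f (γ' t)) with hN
  set m : ℂ → ℂ := fun z => inc (Phi f γ (fun t => f (γ t)) z) -
    inc (Phi f γ' (fun t => f (γ' t)) z) with hmdef
  have p1 : ∀ t, γ t ∈ U → (fun t => f (γ t)) t = f (γ t) := fun _ _ => rfl
  have p1' : ∀ t, γ' t ∈ U → (fun t => f (γ' t)) t = f (γ' t) := fun _ _ => rfl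
  have p2 : ∀ t, γ t ∉ U → (fun t => f (γ t)) t ∉ f '' U := fun t h => absurd (hm t) h
  have p2' : ∀ t, γ' t ∉ U → (fun t => f (γ' t)) t ∉ f '' U := fun t h => absurd (hm' t) h
  have mc : ContinuousOn m U :=
    (continuousOn_inc_Phi hU hf hi hγ cΓ p1 p2).sub (continuousOn_inc_Phi hU hf hi hγ' cΓ' p1' p2')
  have mexp : ∀ z ∈ U, exp (m z) = 1 := by
    intro z hz
    have b1 := exp_inc (continuous_Phi hU hf hγ cΓ p1 hz) (Phi_ne_zero hU hf hi p1 p2 hz)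
    have b2 := exp_inc (continuous_Phi hU hf hγ' cΓ' p1' hz) (Phi_ne_zero hU hf hi p1' p2' hz)
    rw [Phi_eq_dslope rfl, Phi_eq_dslope rfl] at b1 b2
    rw [h0, h1, ← b2] at b1
    rw [hmdef]
    simp only
    rw [exp_sub, mul_right_cancel₀ (dslope_ne_zero_of_injOn hU hf hi hz (hm' 0)) b1,
      div_self (exp_ne_zero _)]
  set m₀ := m (γ 0) with hm₀
  have hNm : ∀ z ∈ U, z ∈ O' → N (f z) = m₀ := by
    intro z hz hzO
    have a1 := inc_image hU hf hi hγ cΓ p1 p2 hz fun h => hzO.1 (Or.inl h)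
    have a2 := inc_image hU hf hi hγ' cΓ' p1' p2' hz fun h => hzO.1 (Or.inr h)
    have a3 : idx γ γ' z = 0 := hzO.2
    have a4 : m z = m₀ := eq_of_exp_eq_one hc mc mexp hz (hm 0)
    rw [← a4]
    simp only [hN, idx, hmdef] at a3 ⊢
    rw [a1, a2]
    linear_combination a3
  set W := (f '' O'ᶜ)ᶜ with hW
  have hWo : IsOpen W :=
    (hK'c.image_of_continuousOn (hf.continuousOn.mono hK'U)).isClosed.isOpen_compl
  have hWK : W ⊆ (range (fun t => f (γ t)) ∪ range (fun t => f (γ' t)))ᶜ := by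
    rintro b hb (⟨t, rfl⟩ | ⟨t, rfl⟩)
    · exact hb ⟨γ t, fun h => h.1 (Or.inl ⟨t, rfl⟩), rfl⟩
    · exact hb ⟨γ' t, fun h => h.1 (Or.inr ⟨t, rfl⟩), rfl⟩
  set A := {b | b ∈ W ∧ N b ≠ m₀} with hA
  have hAo : IsOpen A := by
    have := hWo.inter (isOpen_idx cΓ cΓ' e0 e1 (· ≠ m₀))
    convert this using 1
    ext b
    exact ⟨fun h => ⟨h.1, hWK h.1, h.2⟩, fun h => ⟨h.1, h.2.2⟩⟩
  have hAc : IsClosed A := by
    rw [← isOpen_compl_iff]
    have := (isOpen_image_of_injOn hU hf hi).union (isOpen_idx cΓ cΓ' e0 e1 (· = m₀))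
    convert this using 1
    ext b
    constructor
    · intro hb
      by_cases h : b ∈ W
      · exact Or.inr ⟨hWK h, by by_contra h'; exact hb ⟨h, h'⟩⟩
      · exact Or.inl (image_mono hK'U (not_not.1 h))
    · rintro (⟨z, hz, rfl⟩ | h) hb
      · by_cases h : z ∈ O'
        · exact hb.2 (hNm z hz h)
        · exact hb.1 ⟨z, h, rfl⟩
      · exact hb.2 h.2
  have hAe : A = ∅ := by
    rcases isClopen_iff.1 ⟨hAc, hAo⟩ with h | h
    · exact h
    · exfalso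
      have : f (γ 0) ∈ A := h ▸ mem_univ _
      exact hWK this.1 (Or.inl ⟨0, rfl⟩)
  have hall : ∀ b ∈ W, N b = m₀ := fun b hb => by
    by_contra h
    have : b ∈ A := ⟨hb, h⟩
    rw [hAe] at this
    exact this
  obtain ⟨R', hR'⟩ := exists_idx_large cΓ cΓ' e0 e1
  obtain ⟨R'', hR''⟩ :=
    (hK'c.image_of_continuousOn (hf.continuousOn.mono hK'U)).isBounded.exists_norm_le
  have hb : ∃ b : ℂ, max R' R'' < ‖b‖ := NormedSpace.exists_lt_norm ℂ ℂ _
  obtain ⟨b, hb⟩ := hb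
  have hbW : b ∈ W := fun h => absurd (hR'' b h) (not_le.2 ((le_max_right _ _).trans_lt hb))
  have hm0 : m₀ = 0 := (hall b hbW).symm.trans (hR' b ((le_max_left _ _).trans_lt hb)).2
  exact (hall a fun h => ha (image_mono hK'U h)).trans hm0

lemma exists_continuous_log {U : Set ℂ} (hU : IsOpen U) (hc : IsPreconnected U) (hC : PropC U)
    {f : ℂ → ℂ} (hf : DifferentiableOn ℂ f U) (hi : InjOn f U) {a : ℂ} (ha : a ∉ f '' U) :
    ∃ g : ℂ → ℂ, ContinuousOn g U ∧ ∀ z ∈ U, exp (g z) = f z - a := by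
  rcases U.eq_empty_or_nonempty with rfl | ⟨z₀, hz₀⟩
  · exact ⟨0, continuousOn_empty _, fun _ h => h.elim⟩
  have hpc : IsPathConnected U := hU.isConnected_iff_isPathConnected.1 ⟨⟨z₀, hz₀⟩, hc⟩
  have := isPathConnected_iff_pathConnectedSpace.1 hpc
  have := hU.locallyPathConnectedSpace
  have hne : ∀ z ∈ U, f z - a ≠ 0 := fun z hz e => ha ⟨z, hz, sub_eq_zero.1 e⟩
  have hfc : Continuous fun z : U => f z :=
    continuousOn_iff_continuous_domRestrict.1 hf.continuousOn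
  let F : C(U, {z : ℂ // z ≠ 0}) :=
    ⟨fun z => ⟨f z - a, hne z z.2⟩, (hfc.sub continuous_const).subtype_mk _⟩
  have key : ∀ (γ : C(unitInterval, U)) (Γ : C(unitInterval, ℂ)),
      (fun z : ℂ ↦ (⟨_, z.exp_ne_zero⟩ : {z : ℂ // z ≠ 0})) ∘ Γ = F.comp γ →
      Γ 1 = Γ 0 + inc (fun t => f (γ t) - a) := by
    intro γ Γ h
    have e : ∀ t, exp (Γ t) = f (γ t) - a := fun t => congrArg Subtype.val (congrFun h t)
    have : IsLift (fun t => f (γ t) - a) (fun t => Γ t - Γ 0) := by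
      refine ⟨by fun_prop, by simp, fun t => ?_⟩
      beta_reduce
      rw [← e, ← e, ← exp_add]; simp
    rw [this.inc_eq (hne _ (γ 0).2)]
    simp
  obtain ⟨G, ⟨-, hG⟩, -⟩ := isCoveringMap_exp.isLocalHomeomorph.existsUnique_continuousMap_lifts
    F ⟨z₀, hz₀⟩ (log (f z₀ - a)) (Subtype.ext (exp_log (hne z₀ hz₀)))
    (fun γ hγ => by
      obtain ⟨Γ, h1, h2⟩ := isCoveringMap_exp.exists_path_lifts (F.comp γ) (log (f z₀ - a))
        (by rw [ContinuousMap.comp_apply, hγ]; exact Subtype.ext (exp_log (hne z₀ hz₀)).symm)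
      exact ⟨Γ, h2, h1⟩)
    (fun γ γ' Γ Γ' h0 h0' e0 e0' l l' h1 => by
      rw [key γ Γ l, key γ' Γ' l', e0, e0']
      congr 1
      exact sub_eq_zero.1 (idx_image_eq_zero hU hc hC hf hi ha (γ := fun t => γ t)
        (γ' := fun t => γ' t) (by fun_prop) (by fun_prop) (by simp [h0, h0']) (by simp [h1])
        (fun t => (γ t).2) (fun t => (γ' t).2)))
  classical
  refine ⟨fun z => if h : z ∈ U then G ⟨z, h⟩ else 0, ?_, fun z hz => ?_⟩
  · rw [continuousOn_iff_continuous_domRestrict]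
    convert G.continuous using 1
    ext z
    simp
  · simp only [dif_pos hz]
    exact congrArg Subtype.val (congrFun hG ⟨z, hz⟩)

lemma differentiableOn_of_exp_eq {U : Set ℂ} (hU : IsOpen U) {g F : ℂ → ℂ} (hg : ContinuousOn g U)
    (hF : DifferentiableOn ℂ F U) (h : ∀ z ∈ U, exp (g z) = F z) : DifferentiableOn ℂ g U := by
  intro z hz
  apply DifferentiableAt.differentiableWithinAt
  have hn := hU.mem_nhds hz
  have hF0 : F z ≠ 0 := h z hz ▸ exp_ne_zero _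
  have h1 : DifferentiableAt ℂ (fun w => g z + log (F w / F z)) z := by
    apply DifferentiableAt.const_add
    apply DifferentiableAt.clog ((hF.differentiableAt hn).div_const _)
    simp [div_self hF0]
  apply h1.congr_of_eventuallyEq
  filter_upwards [hn, Metric.tendsto_nhds.1 (hg.continuousAt hn) 1 one_pos] with w hw hw2
  rw [← h w hw, ← h z hz, ← exp_sub]
  have := Complex.abs_im_le_norm (g w - g z)
  rw [dist_eq_norm] at hw2
  have h3 := abs_lt.1 (this.trans_lt hw2)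
  rw [log_exp (by linarith [Real.pi_gt_three]) (by linarith [Real.pi_gt_three])]
  ring

lemma exists_sqrt {U : Set ℂ} (hU : IsOpen U) (hc : IsPreconnected U) (hC : PropC U)
    {f : ℂ → ℂ} (hf : DifferentiableOn ℂ f U) (hi : InjOn f U) (ha : (0 : ℂ) ∉ f '' U) :
    ∃ g : ℂ → ℂ, DifferentiableOn ℂ g U ∧ ∀ z ∈ U, g z ^ 2 = f z := by
  obtain ⟨g, hg, he⟩ := exists_continuous_log hU hc hC hf hi ha
  simp only [sub_zero] at he
  have hd := differentiableOn_of_exp_eq hU hg hf he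
  refine ⟨fun z => exp (g z / 2), (hd.div_const 2).cexp, fun z hz => ?_⟩
  rw [← he z hz, sq, ← exp_add]
  simp

/-- Disc automorphism. -/
noncomputable def mo (a z : ℂ) : ℂ := (z - a) / (1 - conj a * z)

lemma mo_den_ne {a z : ℂ} (ha : ‖a‖ < 1) (hz : ‖z‖ < 1) : 1 - conj a * z ≠ 0 := by
  intro h
  have h1 : conj a * z = 1 := by linear_combination -h
  have h2 := congrArg norm h1
  rw [norm_mul, Complex.norm_conj, norm_one] at h2
  nlinarith [norm_nonneg a, norm_nonneg z]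

lemma norm_mo_lt {a z : ℂ} (ha : ‖a‖ < 1) (hz : ‖z‖ < 1) : ‖mo a z‖ < 1 := by
  rw [mo, norm_div, div_lt_one (norm_pos_iff.2 (mo_den_ne ha hz))]
  apply lt_of_pow_lt_pow_left₀ 2 (norm_nonneg _)
  have h1 : ‖1 - conj a * z‖ ^ 2 - ‖z - a‖ ^ 2 = (1 - ‖a‖ ^ 2) * (1 - ‖z‖ ^ 2) := by
    simp only [Complex.sq_norm, normSq_apply, sub_re, sub_im, mul_re, mul_im, conj_re, conj_im,
      one_re, one_im]
    ring
  have h2 : 0 < 1 - ‖a‖ ^ 2 := by nlinarith [norm_nonneg a]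
  have h3 : 0 < 1 - ‖z‖ ^ 2 := by nlinarith [norm_nonneg z]
  nlinarith [mul_pos h2 h3]

lemma mo_neg_mo {a z : ℂ} (ha : ‖a‖ < 1) (hz : ‖z‖ < 1) : mo (-a) (mo a z) = z := by
  have h1 := mo_den_ne ha hz
  have h2 := mo_den_ne (a := -a) (by simpa using ha) (norm_mo_lt ha hz)
  have h3 : mo a z * (1 - conj a * z) = z - a := div_mul_cancel₀ _ h1
  rw [mo, div_eq_iff h2]
  simp only [map_neg]
  linear_combination h3

lemma injOn_mo {a : ℂ} (ha : ‖a‖ < 1) : InjOn (mo a) (ball 0 1) := fun z hz w hw e => by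
  rw [← mo_neg_mo ha (mem_ball_zero_iff.1 hz), e, mo_neg_mo ha (mem_ball_zero_iff.1 hw)]

lemma differentiableOn_mo {a : ℂ} (ha : ‖a‖ < 1) : DifferentiableOn ℂ (mo a) (ball 0 1) := by
  unfold mo
  exact DifferentiableOn.div (by fun_prop) (by fun_prop) fun z hz =>
    mo_den_ne ha (mem_ball_zero_iff.1 hz)

lemma mapsTo_mo {a : ℂ} (ha : ‖a‖ < 1) : MapsTo (mo a) (ball 0 1) (ball 0 1) := fun _ hz =>
  mem_ball_zero_iff.2 (norm_mo_lt ha (mem_ball_zero_iff.1 hz))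

lemma mo_self (a : ℂ) : mo a a = 0 := by simp [mo]

lemma mo_sq {b u : ℂ} : mo (b ^ 2) (u ^ 2) = mo b u * mo (-b) u := by
  simp only [mo, map_neg, map_pow, div_mul_div_comm]
  congr 1 <;> ring

/-- Riemann mapping theorem. -/
theorem riemann_mapping {U : Set ℂ} (hU : IsOpen U) (hc : IsPreconnected U) (hC : PropC U)
    {z₀ : ℂ} (hz₀ : z₀ ∈ U) {f₀ : ℂ → ℂ} (hf₀ : DifferentiableOn ℂ f₀ U) (hi₀ : InjOn f₀ U)
    (hm₀ : MapsTo f₀ U (ball 0 1)) :
    ∃ f : ℂ → ℂ, DifferentiableOn ℂ f U ∧ InjOn f U ∧ f '' U = ball 0 1 := by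
  obtain ⟨z₁, hz₁, hne⟩ : ∃ z₁ ∈ U, z₁ ≠ z₀ := by
    have : ∀ᶠ z in 𝓝[≠] z₀, z ∈ U := nhdsWithin_le_nhds (hU.mem_nhds hz₀)
    obtain ⟨z, h1, h2⟩ := (this.and self_mem_nhdsWithin).exists
    exact ⟨z, h1, h2⟩
  let P : (ℂ → ℂ) → Prop := fun f =>
    DifferentiableOn ℂ f U ∧ InjOn f U ∧ MapsTo f U (ball 0 1) ∧ f z₀ = 0
  have hP : ∀ g : ℂ → ℂ, DifferentiableOn ℂ g U → InjOn g U → MapsTo g U (ball 0 1) →
      P (fun z => mo (g z₀) (g z)) := fun g h1 h2 h3 => by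
    have hb : ‖g z₀‖ < 1 := mem_ball_zero_iff.1 (h3 hz₀)
    exact ⟨(differentiableOn_mo hb).comp h1 h3, (injOn_mo hb).comp h2 h3,
      (mapsTo_mo hb).comp h3, mo_self _⟩
  let S : Set ℝ := {r | ∃ f, P f ∧ ‖f z₁‖ = r}
  have hSne : S.Nonempty := ⟨_, _, hP f₀ hf₀ hi₀ hm₀, rfl⟩
  have hSb : BddAbove S := ⟨1, by
    rintro _ ⟨f, hf, rfl⟩
    exact (mem_ball_zero_iff.1 (hf.2.2.1 hz₁)).le⟩
  obtain ⟨u, -, hu, huS⟩ := exists_seq_tendsto_sSup hSne hSb
  choose F hF hFu using huS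
  let 𝒰 : Ultrafilter ℕ := Ultrafilter.of atTop
  have h𝒰 : (𝒰 : Filter ℕ) ≤ atTop := Ultrafilter.of_le _
  obtain ⟨f, hf⟩ := montel 𝒰 (U := U) (F := F) (fun i => (hF i).1) (fun z hz => by
    obtain ⟨r, hr, hrU⟩ := Metric.isOpen_iff.1 hU z hz
    exact ⟨r, hr, 1, hrU, Eventually.of_forall fun i w hw =>
      (mem_ball_zero_iff.1 ((hF i).2.2.1 (hrU hw))).le⟩)
  have hfd : DifferentiableOn ℂ f U :=
    hf.differentiableOn (Eventually.of_forall fun i => (hF i).1) hU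
  have hf0 : f z₀ = 0 := by
    have := hf.tendsto_at hz₀
    simp only [(hF _).2.2.2] at this
    exact tendsto_nhds_unique this tendsto_const_nhds
  have hf1 : ‖f z₁‖ = sSup S := by
    have := (hf.tendsto_at hz₁).norm
    simp only [hFu] at this
    exact tendsto_nhds_unique this (hu.mono_left h𝒰)
  have hpos : 0 < sSup S := by
    obtain ⟨_, g, hg, rfl⟩ := hSne
    refine lt_of_lt_of_le (norm_pos_iff.2 fun h => hne ?_) (le_csSup hSb ⟨g, hg, rfl⟩)
    exact hg.2.1 hz₁ hz₀ (h.trans hg.2.2.2.symm)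
  have hnc : ∀ z ∈ U, ¬ ∀ᶠ w in 𝓝 z, f w = f z := fun z hz =>
    not_eventually_const hU hc hfd hz₁ hz₀ (by
      rw [hf0, ← norm_pos_iff, hf1]; exact hpos) hz
  have hfi : InjOn f U := limit_injOn hU (fun i => (hF i).1) hf hnc fun i => (hF i).2.1
  have hfm : MapsTo f U (ball 0 1) := fun z hz => by
    by_contra h
    exact limit_ne hU (fun i => (hF i).1) hf hnc (a := f z)
      (fun i w hw e => h (e ▸ (hF i).2.2.1 hw)) z hz rfl
  refine ⟨f, hfd, hfi, Subset.antisymm hfm.image_subset fun a ha => ?_⟩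
  by_contra hna
  have ha' : ‖a‖ < 1 := mem_ball_zero_iff.1 ha
  obtain ⟨g, hgd, hg⟩ := exists_sqrt hU hc hC (f := fun z => mo a (f z))
    ((differentiableOn_mo ha').comp hfd hfm) ((injOn_mo ha').comp hfi hfm) (by
      rintro ⟨z, hz, e⟩
      exact hna ⟨z, hz, injOn_mo ha' (hfm hz) ha (e.trans (mo_self a).symm)⟩)
  have hgi : InjOn g U := fun z hz w hw e =>
    hfi hz hw (injOn_mo ha' (hfm hz) (hfm hw) (by rw [← hg z hz, ← hg w hw, e]))
  have hgm : MapsTo g U (ball 0 1) := fun z hz => by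
    rw [mem_ball_zero_iff]
    apply lt_of_pow_lt_pow_left₀ 2 zero_le_one
    rw [← norm_pow, hg z hz, one_pow]
    exact norm_mo_lt ha' (mem_ball_zero_iff.1 (hfm hz))
  have hle : ‖mo (g z₀) (g z₁)‖ ≤ sSup S := le_csSup hSb ⟨_, hP g hgd hgi hgm, rfl⟩
  have hb : g z₀ ^ 2 = -a := by rw [hg z₀ hz₀, hf0]; simp [mo]
  have e : f z₁ = mo (g z₀) (g z₁) * mo (-g z₀) (g z₁) := by
    rw [← mo_sq, hb, hg z₁ hz₁, mo_neg_mo ha' (mem_ball_zero_iff.1 (hfm hz₁))]
  have h3 : ‖mo (-g z₀) (g z₁)‖ < 1 :=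
    norm_mo_lt (by simpa using hgm hz₀) (mem_ball_zero_iff.1 (hgm hz₁))
  rw [e, norm_mul] at hf1
  nlinarith [norm_nonneg (mo (-g z₀) (g z₁)), norm_nonneg (mo (g z₀) (g z₁))]

end Pool.Agent.MP_1a2790_an
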