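import Pool.Agent.MP_1a2790_an.Rigid

/-! The factorisation lemma. -/

open Complex Set Filter Topology Metric Function

namespace Pool.Agent.MP_1a2790_an

variable {φ : ℂ → ℂ} {σ : ℕ → ℝ} {n : ℕ} {Λ : ℝ} {P Γ : ℕ → UI → ℂ} {K : ℕ → ℝ}

lemma low_affine {a : ℝ} (b : ℝ) : Low (fun z => (a : ℂ) * z + b) a := fun z _ => by simp

lemma not_id_of_low {f : ℂ → ℂ} {β : ℝ} (h : Low f β) (hβ : 1 < β) : ¬ ∀ z ∈ H, f z = z := by
  intro e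
  have := h I I_mem_H
  rw [e I I_mem_H] at this
  simp at this
  linarith

lemma split_dat_hyp (D : Dat φ σ n Λ P Γ K) (hc : 1 < cInf φ) :
    ∃ ψ χ, Univ ψ ∧ Univ χ ∧ (∀ z ∈ H, ψ (χ z) = φ z) ∧ Low ψ 1 ∧ Low χ 1 ∧
      (∀ k ≤ n, (∃ L, Julia ψ (σ k) (σ k) L) ∧ ∃ L, Julia χ (σ k) (σ k) L) ∧
      (¬ ∀ z ∈ H, ψ z = z) ∧ ¬ ∀ z ∈ H, χ z = z := by
  set β := √(cInf φ) with hβ
  have hβ1 : 1 < β := Real.lt_sqrt_of_sq_lt (by simpa using hc)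
  have hβ0 : 0 < β := by linarith
  have hββ : β * β = cInf φ := Real.mul_self_sqrt (by linarith)
  have hβc : (β : ℂ) ≠ 0 := by exact_mod_cast hβ0.ne'
  have hl := D.uφ.toHol.low_cInf
  have S₀ : St φ σ n Λ β β ∅ (fun w => φ ((β⁻¹ : ℝ) * w + (σ 0 - β⁻¹ * σ 0 : ℝ)))
      (fun z => (β : ℂ) * z + (σ 0 - β * σ 0 : ℝ)) (fun k => β * σ k + (σ 0 - β * σ 0)) := by
    refine ⟨D.uφ.comp (univ_affine (inv_pos.2 hβ0) _), univ_affine hβ0 _, fun z _ => ?_, ?_,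
      low_affine _, fun k hk => ?_, by ring, fun k hk => ?_, fun _ h => h.elim⟩
    · congr 1
      push_cast
      field_simp
      ring
    · have := hl.comp (low_affine (a := β⁻¹) (σ 0 - β⁻¹ * σ 0)) (by linarith)
        (univ_affine (inv_pos.2 hβ0) _).maps
      rwa [← hββ, mul_assoc, mul_inv_cancel₀ hβ0.ne', mul_one] at this
    · refine (julia_affine _ _).mono (univ_affine hβ0 _).toHol ?_
      rw [le_div_iff₀ hβ0, hββ]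
      exact hl.le_julia D.uφ.toHol (D.jφ k hk)
    · have := D.lt k hk
      nlinarith
  obtain ⟨ψ, χ, h1, h2, h3, h4, h5, h6, -, -⟩ :=
    exists_fixed_state D hβ1.le hβ0 (fun _ h => h.elim) S₀
  exact ⟨ψ, χ, h1, h2, h3, h4.mono hβ1.le, h5.mono hβ1.le,
    fun k hk => ⟨⟨_, (h6 k hk).1⟩, _, (h6 k hk).2⟩, not_id_of_low h4 hβ1, not_id_of_low h5 hβ1⟩

/-- The region outside all arcs. -/
def Uout (σ : ℕ → ℝ) (n : ℕ) (Γ : ℕ → UI → ℂ) : Set ℂ :=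
  H ∩ ⋂ k ∈ Iio n, Rout (Γ k) (σ k) (σ (k + 1))

lemma mem_Uout {a : ℂ} : a ∈ Uout σ n Γ ↔ a ∈ H ∧ ∀ k < n, a ∈ Rout (Γ k) (σ k) (σ (k + 1)) := by
  simp [Uout]

lemma Dat.isOpen_Uout (D : Dat φ σ n Λ P Γ K) : IsOpen (Uout σ n Γ) :=
  isOpen_H.inter ((finite_Iio n).isOpen_biInter fun k hk => (D.hΓ k hk).isOpen_Rout)

lemma Dat.notMem_range (D : Dat φ σ n Λ P Γ K) {a : ℂ} (ha : a ∈ H)
    (h : a ∉ φ '' H) {k : ℕ} (hk : k < n) : a ∉ range (Γ k) := fun h' =>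
  h (range_inter_subset_image (D.hP k hk) (D.hΓ k hk) (D.eΓ k hk) ⟨h', ha⟩)

lemma Dat.propC_union (D : Dat φ σ n Λ P Γ K) : PropC (φ '' H ∪ Uout σ n Γ) := by
  refine D.uφ.propC.union (image_subset_iff.2 D.uφ.maps) inter_subset_left
    (R₀ := ⋃ k ∈ Iio n, Rin (Γ k) (σ k) (σ (k + 1)))
    (isOpen_biUnion fun k hk => (D.hΓ k hk).isOpen_Rin) ?_ ?_
  · rw [Set.disjoint_left]
    intro a ha hb
    obtain ⟨k, hk, hb⟩ := mem_iUnion₂.1 hb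
    exact Set.disjoint_left.1 (disjoint_Rin_Rout _ _ _) hb ((mem_Uout.1 ha).2 k hk)
  · intro a ha
    by_cases h : ∃ k < n, a ∈ Rin (Γ k) (σ k) (σ (k + 1))
    · obtain ⟨k, hk, h⟩ := h
      exact Or.inr (mem_iUnion₂.2 ⟨k, hk, h⟩)
    · push Not at h
      exact Or.inl (mem_Uout.2 ⟨ha.1, fun k hk =>
        (mem_Rin_or_Rout _ _ ha.1 (D.notMem_range ha.1 ha.2 hk)).resolve_left (h k hk)⟩)

lemma split_dat_par (D : Dat φ σ n Λ P Γ K) (hl : Low φ 1) {a : ℂ} (haU : a ∈ Uout σ n Γ)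
    (hac : a ∈ closure (φ '' H)) (han : a ∉ φ '' H) :
    ∃ ψ χ, Univ ψ ∧ Univ χ ∧ (∀ z ∈ H, ψ (χ z) = φ z) ∧ Low ψ 1 ∧ Low χ 1 ∧
      (∀ k ≤ n, (∃ L, Julia ψ (σ k) (σ k) L) ∧ ∃ L, Julia χ (σ k) (σ k) L) ∧
      (¬ ∀ z ∈ H, ψ z = z) ∧ ¬ ∀ z ∈ H, χ z = z := by
  have hφ := D.uφ
  have hc1 := hl.le_cInf
  obtain ⟨ψ₁, u1, s1, s2, s3⟩ := exists_enlarge hφ (hφ.isOpen_image.union D.isOpen_Uout)
    D.propC_union subset_union_left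
    (union_subset (image_subset_iff.2 hφ.maps) inter_subset_left) (Or.inr haU) hac
  obtain ⟨ψ', h₁, u2, u3, e1, e2, l1, l2, j1⟩ :=
    factor_norm hφ (by linarith) u1 s1 (D.jφ 0 (Nat.zero_le _))
  have ns : ¬ H ⊆ h₁ '' H := not_surj_of_factor e2 (by rw [e1]; exact fun h => han (h s3))
  obtain ⟨hb, ha, ub, ua, e3, la, lb, ja, nsa, nsb⟩ := refine_factor u3 l1 ns j1
  obtain ⟨w₀, hw₀, hw₀'⟩ := not_subset.1 nsb
  have uψ₀ := u2.comp ub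
  have fac₀ : ∀ z ∈ H, ψ' (hb (ha z)) = φ z := fun z hz => by rw [e3 z hz, e2 z hz]
  have lψ₀ : Low (fun z => ψ' (hb z)) 1 := (l2.comp lb (by linarith) ub.maps).mono (by linarith)
  have hav : ψ' w₀ ∉ (fun z => ψ' (hb z)) '' H := by
    rintro ⟨z, hz, e⟩
    exact hw₀' ⟨z, hz, u2.inj (ub.maps hz) hw₀ e⟩
  have hsub' : ψ' '' H ⊆ φ '' H ∪ Uout σ n Γ := by rw [e1]; exact s2
  have hU : ψ' w₀ ∈ Uout σ n Γ := by
    refine (hsub' ⟨w₀, hw₀, rfl⟩).resolve_left ?_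
    rintro ⟨z, hz, e⟩
    exact hav ⟨ha z, ua.maps hz, (fac₀ z hz).trans e⟩
  have hs : ∀ k, ∃ t : ℝ, k ≤ n → Julia ha (σ k) t (Λ / 1) := fun k => by
    by_cases hk : k ≤ n
    · obtain ⟨t, h1, -⟩ := contact_split uψ₀.toHol ua.toHol one_pos one_pos lψ₀ la
        ((D.jφ k hk).congr fac₀)
      exact ⟨t, fun _ => h1⟩
    · exact ⟨0, fun h => (hk h).elim⟩
  choose s hs using hs
  have S₀ : St φ σ n Λ 1 1 {ψ' w₀} (fun z => ψ' (hb z)) ha s := by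
    refine ⟨uψ₀, ua, fac₀, lψ₀, la, hs, (hs 0 (Nat.zero_le _)).unique ua.toHol ja, fun k hk => ?_,
      fun w hw => by rw [hw]; exact hav⟩
    have hj1 := hs k hk.le
    have hj2 := hs (k + 1) hk
    obtain ⟨M, hM⟩ := bounded_between ua one_pos la (D.lt k hk) hj1 hj2
    have := gap_le ua one_pos la (D.lt k hk) hj1 hj2 fun x hx =>
      tendsto_im_factor hφ uψ₀ ua fac₀ D.isOpen_Uout
        (fun w ⟨z, hz, e⟩ => hsub' ⟨hb z, ub.maps hz, e⟩) (hM x (Ioo_subset_Icc_self hx))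
        ((eventually_image_mem_Rin (D.hP k hk) (D.hΓ k hk) hφ one_pos hl (D.eΓ k hk) hx).mono
          fun y hy h => Set.disjoint_left.1 (disjoint_Rin_Rout _ _ _) hy ((mem_Uout.1 h).2 k hk))
    linarith
  obtain ⟨ψ, χ, h1, h2, h3, h4, h5, h6, h7, h8⟩ :=
    exists_fixed_state D le_rfl one_pos (fun w hw => by rw [hw]; exact (mem_Uout.1 hU).2) S₀
  refine ⟨ψ, χ, h1, h2, h3, h4, h5, fun k hk => ⟨⟨_, (h6 k hk).1⟩, _, (h6 k hk).2⟩, fun e => ?_,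
    fun e => ?_⟩
  · exact h7 _ rfl ⟨_, hU.1, e _ hU.1⟩
  · have := im_lt_of_not_surj ua.toHol la nsa I_mem_H
    rw [e I I_mem_H] at h8
    linarith

lemma Dat.exists_Gr (D : Dat φ σ n Λ P Γ K) : ∃ ρ > 0, Gr ρ ⊆ Uout σ n Γ := by
  have h : ∀ k, ∃ R : ℝ, k < n → ∀ a ∈ H, R < ‖a‖ → a ∈ Rout (Γ k) (σ k) (σ (k + 1)) :=
    fun k => by
      by_cases hk : k < n
      · obtain ⟨R, hR⟩ := (D.hΓ k hk).exists_large
        exact ⟨R, fun _ => hR⟩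
      · exact ⟨0, fun h => (hk h).elim⟩
  choose R hR using h
  obtain ⟨B, hB⟩ := ((finite_Iio n).image R).bddAbove
  refine ⟨max B 1, by positivity, fun a ha => mem_Uout.2 ⟨ha.1, fun k hk => hR k hk a ha.1 ?_⟩⟩
  exact ((hB ⟨k, hk, rfl⟩).trans (le_max_left _ _)).trans_lt ha.2

lemma Dat.eq_id (D : Dat φ σ n Λ P Γ K) (hl : Low φ 1) (hc : cInf φ ≤ 1)
    (h : ∀ a ∈ Uout σ n Γ, a ∈ closure (φ '' H) → a ∈ φ '' H) : ∀ z ∈ H, φ z = z := by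
  obtain ⟨ρ, hρ, hG⟩ := D.exists_Gr
  refine rigid D.uφ hl hc hρ (Gr_subset_image D.uφ hl hρ fun a ha => h a (hG ha))
    (D.jφ 0 (Nat.zero_le _)) (D.jφ n le_rfl) fun x hx M hM => ?_
  by_contra hn
  obtain ⟨𝒰, a, h𝒰, haH, ha⟩ := exists_cluster D.uφ.toHol hM hn
  obtain ⟨n1, n2⟩ := limit_notMem_image D.uφ h𝒰 ha
  refine n1 (h a (mem_Uout.2 ⟨haH, fun k hk => ?_⟩) n2)
  refine (mem_Rin_or_Rout _ _ haH (D.notMem_range haH n1 hk)).resolve_left fun hin => ?_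
  have hx' : x < σ k ∨ σ (k + 1) < x :=
    hx.imp (fun h => h.trans_le (le_of_steps D.lt (Nat.zero_le _) hk.le))
      fun h => (le_of_steps D.lt hk le_rfl).trans_lt h
  obtain ⟨y, hy1, hy2⟩ := ((ha.eventually ((D.hΓ k hk).isOpen_Rin.mem_nhds hin)).and
    (h𝒰 (eventually_image_mem_Rout (D.hP k hk) (D.hΓ k hk) D.uφ one_pos hl (D.eΓ k hk)
      (D.lt k hk) hx'))).exists
  exact Set.disjoint_left.1 (disjoint_Rin_Rout _ _ _) hy1 hy2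

lemma split_dat (D : Dat φ σ n Λ P Γ K) (hl : Low φ 1) (hne : ¬ ∀ z ∈ H, φ z = z) :
    ∃ ψ χ, Univ ψ ∧ Univ χ ∧ (∀ z ∈ H, ψ (χ z) = φ z) ∧ Low ψ 1 ∧ Low χ 1 ∧
      (∀ k ≤ n, (∃ L, Julia ψ (σ k) (σ k) L) ∧ ∃ L, Julia χ (σ k) (σ k) L) ∧
      (¬ ∀ z ∈ H, ψ z = z) ∧ ¬ ∀ z ∈ H, χ z = z := by
  rcases lt_or_ge 1 (cInf φ) with hc | hc
  · exact split_dat_hyp D hc
  · by_cases h : ∀ a ∈ Uout σ n Γ, a ∈ closure (φ '' H) → a ∈ φ '' H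
    · exact (hne (D.eq_id hl hc h)).elim
    · push Not at h
      obtain ⟨a, h1, h2, h3⟩ := h
      exact split_dat_par D hl h1 h2 h3

/-- The semigroup, in the half-plane model. -/
structure SF (F : Set ℝ) (f : ℂ → ℂ) : Prop where
  univ : Univ f
  low : Low f 1
  jul : ∀ x ∈ F, ∃ Λ, Julia f x x Λ

lemma exists_enum {F : Set ℝ} (hF : F.Finite) (hne : F.Nonempty) :
    ∃ (σ : ℕ → ℝ) (n : ℕ), (∀ k < n, σ k < σ (k + 1)) ∧ (∀ k ≤ n, σ k ∈ F) ∧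
      ∀ x ∈ F, ∃ k ≤ n, σ k = x := by
  classical
  obtain ⟨m, hm⟩ : ∃ m, hF.toFinset.card = m + 1 :=
    Nat.exists_eq_succ_of_ne_zero (Finset.card_pos.2 (by simpa using hne)).ne'
  let e := hF.toFinset.orderEmbOfFin hm
  refine ⟨fun k => if h : k < m + 1 then e ⟨k, h⟩ else 0, m, fun k hk => ?_, fun k hk => ?_,
    fun x hx => ?_⟩
  · simp only [dif_pos (show k < m + 1 by omega), dif_pos (show k + 1 < m + 1 by omega)]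
    exact e.strictMono (by simp)
  · simp only [dif_pos (show k < m + 1 by omega)]
    exact hF.mem_toFinset.1 (hF.toFinset.orderEmbOfFin_mem hm _)
  · have : x ∈ range e := by rw [Finset.range_orderEmbOfFin]; simpa using hx
    obtain ⟨k, rfl⟩ := this
    exact ⟨k, by omega, by simp only [dif_pos k.2]⟩

lemma SF.exists_unif {F : Set ℝ} (hF : F.Finite) {f : ℂ → ℂ} (h : SF F f) :
    ∃ Λ, ∀ x ∈ F, Julia f x x Λ := by
  have h1 : ∀ x, ∃ Λ, x ∈ F → Julia f x x Λ := fun x => by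
    by_cases hx : x ∈ F
    · obtain ⟨Λ, hΛ⟩ := h.jul x hx
      exact ⟨Λ, fun _ => hΛ⟩
    · exact ⟨0, fun h => (hx h).elim⟩
  choose L hL using h1
  obtain ⟨B, hB⟩ := (hF.image L).bddAbove
  exact ⟨B, fun x hx => (hL x hx).mono h.univ.toHol (hB ⟨x, hx, rfl⟩)⟩

/-- The factorisation lemma. -/
theorem SF.split {F : Set ℝ} (hF : F.Finite) (hne : F.Nonempty) {φ : ℂ → ℂ} (h : SF F φ)
    (hid : ¬ ∀ z ∈ H, φ z = z) : ∃ ψ χ, SF F ψ ∧ SF F χ ∧ (∀ z ∈ H, ψ (χ z) = φ z) ∧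
      (¬ ∀ z ∈ H, ψ z = z) ∧ ¬ ∀ z ∈ H, χ z = z := by
  obtain ⟨σ, n, h1, h2, h3⟩ := exists_enum hF hne
  obtain ⟨Λ, hΛ⟩ := h.exists_unif hF
  have hP : ∀ k, ∃ (P Γ : UI → ℂ) (K : ℝ), k < n → StolzPath P (σ k) (σ (k + 1)) 4 ∧
      StolzPath Γ (σ k) (σ (k + 1)) K ∧ ∀ t, t ≠ 0 → t ≠ 1 → Γ t = φ (P t) := fun k => by
    by_cases hk : k < n
    · obtain ⟨P, hP⟩ := exists_stolzPath (h1 k hk)
      obtain ⟨Γ, K, hΓ⟩ := hP.image (h1 k hk).ne h.univ.toHol one_pos h.low (hΛ _ (h2 k hk.le))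
        (hΛ _ (h2 (k + 1) hk))
      exact ⟨P, Γ, K, fun _ => ⟨hP, hΓ⟩⟩
    · exact ⟨0, 0, 0, fun h => (hk h).elim⟩
  choose P Γ K hP using hP
  have D : Dat φ σ n Λ P Γ K := ⟨h.univ, h1, fun k hk => hΛ _ (h2 k hk), fun k hk => (hP k hk).1,
    fun k hk => (hP k hk).2.1, fun k hk => (hP k hk).2.2⟩
  obtain ⟨ψ, χ, a1, a2, a3, a4, a5, a6, a7, a8⟩ := split_dat D h.low hid
  refine ⟨ψ, χ, ⟨a1, a4, fun x hx => ?_⟩, ⟨a2, a5, fun x hx => ?_⟩, a3, a7, a8⟩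
  · obtain ⟨k, hk, rfl⟩ := h3 x hx
    exact (a6 k hk).1
  · obtain ⟨k, hk, rfl⟩ := h3 x hx
    exact (a6 k hk).2

end Pool.Agent.MP_1a2790_an
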