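import Pool.Agent.MP_1a2790_an.Rmt
import Pool.Agent.MP_1a2790_an.Basic

/-! Plane topology: the property `PropC`. -/

open Complex Set Filter Topology Metric Function Bornology

namespace Pool.Agent.MP_1a2790_an

lemma eq_empty_of_isOpen_isCompact {B : Set ℂ} (ho : IsOpen B) (hc : IsCompact B) : B = ∅ := by
  rcases isClopen_iff.1 ⟨hc.isClosed, ho⟩ with h | h
  · exact h
  · exact absurd (h ▸ hc) NoncompactSpace.noncompact_univ

lemma exists_exhaust {K : Set ℂ} (hK : IsCompact K) (hKH : K ⊆ H) :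
    ∃ L : Set ℂ, IsCompact L ∧ K ⊆ L ∧ L ⊆ H ∧ IsPreconnected (H \ L) := by
  obtain ⟨R, hR⟩ := hK.isBounded.exists_norm_le
  obtain ⟨δ, hδ, hδK⟩ := hK.exists_forall_le' (f := Complex.im) (a := 0)
    Complex.continuous_im.continuousOn hKH
  refine ⟨{z | |z.re| ≤ R ∧ δ ≤ z.im ∧ z.im ≤ R}, ?_, fun z hz => ?_, fun z hz => ?_, ?_⟩
  · apply Metric.isCompact_of_isClosed_isBounded
    · exact (isClosed_le Complex.continuous_re.abs continuous_const).inter
        ((isClosed_le continuous_const Complex.continuous_im).inter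
          (isClosed_le Complex.continuous_im continuous_const))
    · apply (isBounded_closedBall (x := (0 : ℂ)) (r := R + R)).subset
      rintro z ⟨h1, h2, h3⟩
      rw [mem_closedBall, dist_zero_right]
      have := Complex.norm_le_abs_re_add_abs_im z
      rw [abs_of_pos (hδ.trans_le h2)] at this
      linarith
  · exact ⟨(Complex.abs_re_le_norm z).trans (hR z hz), hδK z hz,
      (Complex.im_le_norm z).trans (hR z hz)⟩
  · exact hδ.trans_le hz.2.1
  · have c1 : IsPreconnected (H ∩ {z : ℂ | z.re < -R}) :=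
      (convex_H.inter (convex_halfSpace_re_lt _)).isPreconnected
    have c2 : IsPreconnected (H ∩ {z : ℂ | R < z.im}) :=
      (convex_H.inter (convex_halfSpace_im_gt _)).isPreconnected
    have c3 : IsPreconnected (H ∩ {z : ℂ | R < z.re}) :=
      (convex_H.inter (convex_halfSpace_re_gt _)).isPreconnected
    have c4 : IsPreconnected (H ∩ {z : ℂ | z.im < δ}) :=
      (convex_H.inter (convex_halfSpace_im_lt _)).isPreconnected
    have ha := le_abs_self R
    have hb := abs_nonneg R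
    have c12 := c1.union (⟨-R - 1, |R| + 1⟩ : ℂ)
      (by constructor <;> simp only [mem_H, mem_ofPred_eq] <;> linarith)
      (by constructor <;> simp only [mem_H, mem_ofPred_eq] <;> linarith) c2
    have c123 := c12.union (⟨R + 1, |R| + 1⟩ : ℂ)
      (by right; constructor <;> simp only [mem_H, mem_ofPred_eq] <;> linarith)
      (by constructor <;> simp only [mem_H, mem_ofPred_eq] <;> linarith) c3
    have c1234 := c123.union (⟨R + 1, δ / 2⟩ : ℂ)
      (by right; constructor <;> simp only [mem_H, mem_ofPred_eq] <;> linarith)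
      (by constructor <;> simp only [mem_H, mem_ofPred_eq] <;> linarith) c4
    convert c1234 using 1
    ext z
    simp only [Set.mem_sdiff, mem_ofPred_eq, mem_union, mem_inter_iff, abs_le]
    constructor
    · rintro ⟨h1, h2⟩
      by_contra hh
      push Not at hh
      exact h2 ⟨⟨hh.1.1.1 h1, hh.1.2 h1⟩, hh.2 h1, hh.1.1.2 h1⟩
    · rintro (((⟨h1, h2⟩ | ⟨h1, h2⟩) | ⟨h1, h2⟩) | ⟨h1, h2⟩) <;>
        exact ⟨h1, fun h => by linarith [h.1.1, h.1.2, h.2.1, h.2.2]⟩

lemma propC_image {ψ : ℂ → ℂ} (hd : DifferentiableOn ℂ ψ H) (hi : InjOn ψ H) :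
    PropC (ψ '' H) := by
  intro B O hB hO hOB
  set D := ψ '' H with hD
  have hDo : IsOpen D := isOpen_image_of_injOn isOpen_H hd hi
  obtain ⟨V, hVo, hBV, hVO, hVc⟩ := exists_open_between_and_isCompact_closure hB hO
    (hOB ▸ sdiff_subset)
  have hfr : closure V \ V ⊆ D := by
    rintro z ⟨h1, h2⟩
    by_contra h
    exact h2 (hBV (hOB ▸ ⟨hVO h1, h⟩))
  have hfc : IsCompact (closure V \ V) := hVc.diff hVo
  obtain ⟨g, hg, hgψ⟩ := exists_inverse isOpen_H hd hi
  obtain ⟨L, hLc, hKL, hLH, hA⟩ := exists_exhaust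
    (hfc.image_of_continuousOn (hg.continuousOn.mono hfr)) (by
      rintro _ ⟨w, hw, rfl⟩
      obtain ⟨z, hz, rfl⟩ := hfr hw
      rwa [hgψ z hz])
  have hL'c : IsCompact (ψ '' L) := hLc.image_of_continuousOn (hd.continuousOn.mono hLH)
  have hL'D : ψ '' L ⊆ D := image_mono hLH
  have hAc : IsPreconnected (ψ '' (H \ L)) := hA.image _ (hd.continuousOn.mono sdiff_subset)
  have hsub : ψ '' (H \ L) ⊆ V ∪ (closure V)ᶜ := by
    rintro _ ⟨z, hz, rfl⟩
    by_contra h
    simp only [mem_union, mem_compl_iff, not_or, not_not] at h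
    exact hz.2 (hKL ⟨ψ z, ⟨h.2, h.1⟩, hgψ z hz.1⟩)
  have hDs : D ⊆ ψ '' (H \ L) ∪ ψ '' L := by
    rintro _ ⟨z, hz, rfl⟩
    by_cases h : z ∈ L
    · exact Or.inr ⟨z, h, rfl⟩
    · exact Or.inl ⟨z, ⟨hz, h⟩, rfl⟩
  rcases hAc.subset_or_subset hVo isClosed_closure.isOpen_compl
    (disjoint_compl_right.mono_left subset_closure) hsub with h | h
  · exfalso
    have e : D ∪ V = closure V ∪ ψ '' L := by
      apply Subset.antisymm
      · rintro z (hz | hz)
        · rcases hDs hz with h' | h'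
          · exact Or.inl (subset_closure (h h'))
          · exact Or.inr h'
        · exact Or.inl (subset_closure hz)
      · rintro z (hz | hz)
        · by_cases h' : z ∈ V
          · exact Or.inr h'
          · exact Or.inl (hfr ⟨hz, h'⟩)
        · exact Or.inl (hL'D hz)
    have := eq_empty_of_isOpen_isCompact (hDo.union hVo) (e ▸ hVc.union hL'c)
    have hI : ψ I ∈ D ∪ V := Or.inl ⟨I, I_mem_H, rfl⟩
    rw [this] at hI
    exact hI
  · have e : B = V \ ψ '' L := by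
      apply Subset.antisymm
      · intro z hz
        exact ⟨hBV hz, fun h' => (hOB ▸ hz : z ∈ O \ D).2 (hL'D h')⟩
      · rintro z ⟨h1, h2⟩
        rw [← hOB]
        refine ⟨hVO (subset_closure h1), fun h3 => ?_⟩
        rcases hDs h3 with h' | h'
        · exact h h' (subset_closure h1)
        · exact h2 h'
    exact eq_empty_of_isOpen_isCompact (e ▸ hVo.sdiff hL'c.isClosed) hB

lemma hole_subset_H {U B O : Set ℂ} (hU : U ⊆ H) (hB : IsCompact B) (hO : IsOpen O)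
    (h : O \ U = B) : B ⊆ H := by
  have hF : IsPreconnected Hᶜ := by
    have : Hᶜ = {z : ℂ | z.im ≤ 0} := by ext z; simp [mem_H]
    rw [this]
    exact (convex_halfSpace_im_le 0).isPreconnected
  intro z hz
  by_contra hzH
  obtain ⟨R, hR⟩ := hB.isBounded.exists_norm_le
  have h1 : (Hᶜ ∩ O).Nonempty := ⟨z, hzH, (h ▸ hz : z ∈ O \ U).1⟩
  have h2 : (Hᶜ ∩ Bᶜ).Nonempty := ⟨((|R| + 1 : ℝ) : ℂ), by simp [mem_H], fun hh => by
    have := hR _ hh
    rw [Complex.norm_real, Real.norm_eq_abs, abs_of_pos (by positivity)] at this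
    linarith [le_abs_self R]⟩
  obtain ⟨w, hw1, hw2, hw3⟩ := hF O Bᶜ hO hB.isClosed.isOpen_compl (fun w _ => by
    by_cases hw : w ∈ B
    · exact Or.inl (h ▸ hw : w ∈ O \ U).1
    · exact Or.inr hw) h1 h2
  exact hw3 (h ▸ ⟨hw2, fun hh => hw1 (hU hh)⟩)

lemma PropC.union {D R R₀ : Set ℂ} (hD : PropC D) (hDH : D ⊆ H) (hRH : R ⊆ H)
    (hR₀ : IsOpen R₀) (hdis : Disjoint R R₀) (hcov : H \ D ⊆ R ∪ R₀) : PropC (D ∪ R) := by
  intro B O hB hO h
  have hBH := hole_subset_H (union_subset hDH hRH) hB hO h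
  apply hD B (O ∩ R₀) hB (hO.inter hR₀)
  apply Subset.antisymm
  · rintro z ⟨⟨h1, h2⟩, h3⟩
    rw [← h]
    exact ⟨h1, fun hh => hh.elim h3 fun h4 => disjoint_left.1 hdis h4 h2⟩
  · intro z hz
    have hz' : z ∈ O \ (D ∪ R) := h ▸ hz
    have h3 : z ∉ D := fun hh => hz'.2 (Or.inl hh)
    exact ⟨⟨hz'.1, (hcov ⟨hBH hz, h3⟩).resolve_left fun hh => hz'.2 (Or.inr hh)⟩, h3⟩

lemma PropC.component {U : Set ℂ} (hU : IsOpen U) (hC : PropC U) (x : ℂ) :
    PropC (connectedComponentIn U x) := by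
  intro B O hB hO h
  have h1 : O \ U = ∅ := by
    apply hC _ O _ hO rfl
    have : O \ U = B ∩ Uᶜ := by
      rw [← h]
      ext z
      exact ⟨fun hz => ⟨⟨hz.1, fun hh => hz.2 (connectedComponentIn_subset _ _ hh)⟩, hz.2⟩,
        fun hz => ⟨hz.1.1, hz.2⟩⟩
    rw [this]
    exact hB.inter_right hU.isClosed_compl
  have h2 : O ⊆ U := sdiff_eq_empty.1 h1
  apply eq_empty_of_isOpen_isCompact _ hB
  rw [← h, isOpen_iff_mem_nhds]
  rintro y ⟨hy1, hy2⟩
  filter_upwards [hO.mem_nhds hy1, connectedComponentIn_mem_nhds (hU.mem_nhds (h2 hy1))]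
    with z hz1 hz2
  refine ⟨hz1, fun hz3 => hy2 ?_⟩
  rw [connectedComponentIn_eq hz3, ← connectedComponentIn_eq hz2]
  exact mem_connectedComponentIn (h2 hy1)

/-- A compact relatively open part of the complement. -/
def IsHole (U B : Set ℂ) : Prop := IsCompact B ∧ ∃ O, IsOpen O ∧ O \ U = B

/-- `U` together with all its holes. -/
def fill (U : Set ℂ) : Set ℂ := U ∪ ⋃₀ {B | IsHole U B}

lemma IsHole.union {U B B' : Set ℂ} (h : IsHole U B) (h' : IsHole U B') : IsHole U (B ∪ B') := by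
  obtain ⟨h1, O, h2, rfl⟩ := h
  obtain ⟨h1', O', h2', rfl⟩ := h'
  exact ⟨h1.union h1', O ∪ O', h2.union h2', union_sdiff_distrib⟩

lemma exists_hole_of_isCompact {U K : Set ℂ} (hU : IsOpen U) (hK : IsCompact K)
    (hKU : K ⊆ fill U) : ∃ B, IsHole U B ∧ K \ U ⊆ B := by
  have he : IsHole U ∅ := ⟨isCompact_empty, ∅, isOpen_empty, by simp⟩
  refine hK.induction_on (p := fun K => ∃ B, IsHole U B ∧ K \ U ⊆ B) ⟨∅, he, by simp⟩ ?_ ?_ ?_
  · rintro s t hst ⟨B, hB, h⟩
    exact ⟨B, hB, (sdiff_subset_sdiff_left hst).trans h⟩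
  · rintro s t ⟨B, hB, h⟩ ⟨B', hB', h'⟩
    exact ⟨B ∪ B', hB.union hB', by rw [union_sdiff_distrib]; exact union_subset_union h h'⟩
  · intro x hx
    rcases hKU hx with h | ⟨B, hB, h⟩
    · exact ⟨U, mem_nhdsWithin_of_mem_nhds (hU.mem_nhds h), ∅, he, by simp⟩
    · obtain ⟨O, hO, e⟩ := hB.2
      exact ⟨O, mem_nhdsWithin_of_mem_nhds (hO.mem_nhds (e ▸ h : x ∈ O \ U).1), B, hB, e.le⟩

lemma isOpen_fill {U : Set ℂ} (hU : IsOpen U) : IsOpen (fill U) := by
  rw [isOpen_iff_mem_nhds]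
  rintro x (h | ⟨B, hB, h⟩)
  · exact mem_of_superset (hU.mem_nhds h) subset_union_left
  · obtain ⟨O, hO, e⟩ := hB.2
    filter_upwards [hO.mem_nhds (e ▸ h : x ∈ O \ U).1] with y hy
    by_cases h' : y ∈ U
    · exact Or.inl h'
    · exact Or.inr ⟨B, hB, e ▸ ⟨hy, h'⟩⟩

lemma fill_subset_H {U : Set ℂ} (hU : U ⊆ H) : fill U ⊆ H := by
  rintro x (h | ⟨B, ⟨hB, O, hO, e⟩, h⟩)
  · exact hU h
  · exact hole_subset_H hU hB hO e h

lemma propC_fill {U : Set ℂ} (hU : IsOpen U) : PropC (fill U) := by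
  intro B O hB hO h
  obtain ⟨V, hVo, hBV, hVO, hVc⟩ := exists_open_between_and_isCompact_closure hB hO
    (h ▸ sdiff_subset)
  obtain ⟨B', hB', hsub⟩ := exists_hole_of_isCompact hU (hVc.diff hVo) (by
    rintro z ⟨h1, h2⟩
    by_contra h3
    exact h2 (hBV (h ▸ ⟨hVO h1, h3⟩)))
  obtain ⟨hB'c, O', hO', e⟩ := hB'
  have hh : IsHole U ((V ∪ O') \ U) := by
    refine ⟨?_, V ∪ O', hVo.union hO', rfl⟩
    have : (V ∪ O') \ U = (closure V \ U) ∪ B' := by
      apply Subset.antisymm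
      · rintro z ⟨h1 | h1, h2⟩
        · exact Or.inl ⟨subset_closure h1, h2⟩
        · exact Or.inr (e ▸ ⟨h1, h2⟩)
      · rintro z (⟨h1, h2⟩ | h1)
        · by_cases h3 : z ∈ V
          · exact ⟨Or.inl h3, h2⟩
          · exact ⟨Or.inr (e ▸ hsub ⟨⟨h1, h3⟩, h2⟩ : z ∈ O' \ U).1, h2⟩
        · have : z ∈ O' \ U := e ▸ h1
          exact ⟨Or.inr this.1, this.2⟩
    rw [this]
    exact (hVc.diff hU).union hB'c
  apply eq_empty_of_forall_notMem
  intro z hz
  have hz' : z ∈ O \ fill U := h ▸ hz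
  exact hz'.2 (Or.inr ⟨_, hh, Or.inl (hBV hz), fun h' => hz'.2 (Or.inl h')⟩)

lemma not_subset_fill {D : Set ℂ} (hDo : IsOpen D) (hD : PropC D) {a : ℂ} (ha : a ∉ D) {ε : ℝ}
    (hε : 0 < ε) : ¬ closedBall a ε ⊆ fill (D ∪ ball a ε) := by
  intro hsub
  obtain ⟨B, ⟨hBc, O, hO, e⟩, hB⟩ := exists_hole_of_isCompact (hDo.union isOpen_ball)
    (isCompact_closedBall a ε) hsub
  have : (O ∪ ball a ε) \ D = ∅ := by
    apply hD _ _ _ (hO.union isOpen_ball) rfl
    have : (O ∪ ball a ε) \ D = B ∪ (closedBall a ε \ D) := by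
      apply Subset.antisymm
      · rintro z ⟨h1, h2⟩
        by_cases h3 : z ∈ ball a ε
        · exact Or.inr ⟨ball_subset_closedBall h3, h2⟩
        · exact Or.inl (e ▸ ⟨h1.resolve_right h3, fun h => h.elim h2 h3⟩)
      · rintro z (h1 | ⟨h1, h2⟩)
        · have : z ∈ O \ (D ∪ ball a ε) := e ▸ h1
          exact ⟨Or.inl this.1, fun h => this.2 (Or.inl h)⟩
        · by_cases h3 : z ∈ ball a ε
          · exact ⟨Or.inr h3, h2⟩
          · have : z ∈ O \ (D ∪ ball a ε) := e ▸ hB ⟨h1, fun h => h.elim h2 h3⟩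
            exact ⟨Or.inl this.1, h2⟩
    rw [this]
    exact hBc.union ((isCompact_closedBall a ε).diff hDo)
  have h2 : a ∈ (O ∪ ball a ε) \ D := ⟨Or.inr (mem_ball_self hε), ha⟩
  rw [this] at h2
  exact h2

lemma mem_component_of_closure {U D : Set ℂ} (hD : IsPreconnected D) (hDU : D ⊆ U) {z₀ a : ℂ}
    (hz₀ : z₀ ∈ D) (haU : a ∈ U) (ha : a ∈ closure D) : a ∈ connectedComponentIn U z₀ := by
  have h1 : IsPreconnected (insert a D) :=
    hD.subset_closure (subset_insert _ _) (insert_subset ha subset_closure)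
  exact h1.subset_connectedComponentIn (mem_insert_of_mem _ hz₀) (insert_subset haU hDU)
    (mem_insert _ _)

/-- Riemann mapping theorem for subdomains of the half-plane. -/
theorem exists_univ_image_eq {U : Set ℂ} (hU : IsOpen U) (hc : IsPreconnected U) (hC : PropC U)
    (hUH : U ⊆ H) {z₀ : ℂ} (hz₀ : z₀ ∈ U) : ∃ ψ, Univ ψ ∧ ψ '' H = U := by
  have hci : InjOn (cay I) H := fun z hz w hw e => by
    rw [← cayInv_cay I_mem_H hz, e, cayInv_cay I_mem_H hw]
  obtain ⟨f, hf, hi, him⟩ := riemann_mapping hU hc hC hz₀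
    ((differentiableOn_cay I_mem_H).mono hUH) (hci.mono hUH) ((mapsTo_cay I_mem_H).mono_left hUH)
  obtain ⟨g, hg, hgf⟩ := exists_inverse hU hf hi
  rw [him] at hg
  have hgm : ∀ u ∈ ball (0 : ℂ) 1, g u ∈ U ∧ f (g u) = u := by
    intro u hu
    rw [← him] at hu
    obtain ⟨z, hz, rfl⟩ := hu
    rw [hgf z hz]
    exact ⟨hz, rfl⟩
  refine ⟨fun z => g (cay I z), ⟨⟨hg.comp (differentiableOn_cay I_mem_H) (mapsTo_cay I_mem_H),
    fun z hz => hUH (hgm _ (mapsTo_cay I_mem_H hz)).1⟩, fun z hz w hw e => hci hz hw ?_⟩, ?_⟩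
  · rw [← (hgm _ (mapsTo_cay I_mem_H hz)).2, ← (hgm _ (mapsTo_cay I_mem_H hw)).2]
    exact congrArg f e
  · apply Subset.antisymm
    · rintro _ ⟨z, hz, rfl⟩
      exact (hgm _ (mapsTo_cay I_mem_H hz)).1
    · intro z hz
      have h1 : f z ∈ ball (0 : ℂ) 1 := him ▸ mem_image_of_mem f hz
      refine ⟨cayInv I (f z), mapsTo_cayInv I_mem_H h1, ?_⟩
      simp only
      rw [cay_cayInv I_mem_H (mem_ball_zero_iff.1 h1), hgf z hz]

/-- A univalent map factors through any univalent map with larger image. -/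
lemma exists_factor {g ψ : ℂ → ℂ} (hg : Univ g) (hψ : Univ ψ) (h : g '' H ⊆ ψ '' H) :
    ∃ h, Univ h ∧ ∀ z ∈ H, ψ (h z) = g z := by
  obtain ⟨f, hf, hfψ⟩ := exists_inverse isOpen_H hψ.diff hψ.inj
  have key : ∀ z ∈ H, f (g z) ∈ H ∧ ψ (f (g z)) = g z := by
    intro z hz
    obtain ⟨w, hw, e⟩ := h ⟨z, hz, rfl⟩
    rw [← e, hfψ w hw]
    exact ⟨hw, rfl⟩
  refine ⟨fun z => f (g z), ⟨⟨hf.comp hg.diff fun z hz => h ⟨z, hz, rfl⟩, fun z hz => (key z hz).1⟩,
    fun z hz w hw e => hg.inj hz hw ?_⟩, fun z hz => (key z hz).2⟩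
  rw [← (key z hz).2, ← (key w hw).2]
  exact congrArg ψ e

end Pool.Agent.MP_1a2790_an
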