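import Pool.Agent.MP_1a2790_an.Normal

/-! Increment of the logarithm along a path. -/

open Complex Set Filter Topology Metric Function

namespace Pool.Agent.MP_1a2790_an

/-- The unit interval as a type. -/
abbrev UI : Type := unitInterval

lemma eq_of_exp_eq_one {X : Type*} [TopologicalSpace X] {S : Set X} (hS : IsPreconnected S)
    {g : X → ℂ} (hg : ContinuousOn g S) (h : ∀ x ∈ S, exp (g x) = 1) {x y : X} (hx : x ∈ S)
    (hy : y ∈ S) : g x = g y :=
  isCoveringMap_exp.constOn_of_comp hS hg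
    (fun a ha b hb => Subtype.ext ((h a ha).trans (h b hb).symm)) hx hy

lemma eq_of_exp_eq_one_of_norm_lt {a b : ℂ} (ha : exp a = 1) (hb : exp b = 1)
    (h : ‖a - b‖ < 1) : a = b := by
  obtain ⟨n, hn⟩ := exp_eq_exp_iff_exists_int.1 (ha.trans hb.symm)
  have h1 : a - b = n * (2 * Real.pi * I) := by rw [hn]; ring
  rw [h1] at h
  simp only [norm_mul, Complex.norm_intCast, Complex.norm_ofNat, Complex.norm_real, norm_I,
    mul_one, Real.norm_eq_abs, abs_of_pos Real.pi_pos] at h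
  have h2 : n = 0 := by
    by_contra hn0
    have : (1 : ℝ) ≤ |(n : ℝ)| := by exact_mod_cast Int.one_le_abs hn0
    nlinarith [Real.pi_gt_three]
  rw [hn, h2]; simp

lemma eventually_eq_of_exp_eq_one {X : Type*} [TopologicalSpace X] {g : X → ℂ} {x : X}
    (hg : ContinuousAt g x) (h : ∀ᶠ y in 𝓝 x, exp (g y) = 1) : ∀ᶠ y in 𝓝 x, g y = g x := by
  filter_upwards [h, Metric.tendsto_nhds.1 hg 1 one_pos] with y hy hy2
  exact eq_of_exp_eq_one_of_norm_lt hy h.self_of_nhds (by rwa [dist_eq_norm] at hy2)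

/-- `G` is the normalised continuous logarithm of `u / u 0`. -/
def IsLift (u G : UI → ℂ) : Prop := Continuous G ∧ G 0 = 0 ∧ ∀ t, exp (G t) * u 0 = u t

open Classical in
/-- Increment of the logarithm of `u`. -/
noncomputable def inc (u : UI → ℂ) : ℂ := if h : ∃ G, IsLift u G then h.choose 1 else 0

lemma IsLift.inc_eq {u G : UI → ℂ} (h : IsLift u G) (h0 : u 0 ≠ 0) : inc u = G 1 := by
  have hex : ∃ G, IsLift u G := ⟨G, h⟩
  rw [inc, dif_pos hex]
  have h' := hex.choose_spec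
  set G' := hex.choose
  have := eq_of_exp_eq_one isPreconnected_univ (g := fun t => G' t - G t)
    (h'.1.sub h.1).continuousOn (fun t _ => by
      have e : exp (G' t) = exp (G t) := mul_right_cancel₀ h0 ((h'.2.2 t).trans (h.2.2 t).symm)
      rw [exp_sub, e, div_self (exp_ne_zero _)]) (mem_univ 1) (mem_univ 0)
  simp only [h'.2.1, h.2.1, sub_zero] at this
  exact sub_eq_zero.1 this

lemma exists_lift_family {A : Type*} [TopologicalSpace A] {u : A → UI → ℂ}
    (hu : Continuous (uncurry u)) (h0 : ∀ a t, u a t ≠ 0) :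
    ∃ G : A → UI → ℂ, Continuous (uncurry G) ∧ ∀ a, IsLift (u a) (G a) := by
  have hc : Continuous fun p : UI × A => u p.2 p.1 / u p.2 0 := by
    apply Continuous.div
    · exact hu.comp continuous_swap
    · exact hu.comp (continuous_snd.prodMk continuous_const)
    · exact fun p => h0 _ _
  let Hm : C(UI × A, {z : ℂ // z ≠ 0}) :=
    ⟨fun p => ⟨u p.2 p.1 / u p.2 0, div_ne_zero (h0 _ _) (h0 _ _)⟩, hc.subtype_mk _⟩
  have H0 : ∀ a, Hm (0, a) = (fun z : ℂ ↦ (⟨_, z.exp_ne_zero⟩ : {z : ℂ // z ≠ 0}))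
      ((ContinuousMap.const A (0 : ℂ)) a) := fun a => by
    apply Subtype.ext
    simp [Hm, div_self (h0 a 0)]
  let G := isCoveringMap_exp.liftHomotopy Hm (ContinuousMap.const A 0) H0
  refine ⟨fun a t => G (t, a), G.continuous.comp continuous_swap, fun a => ⟨?_, ?_, fun t => ?_⟩⟩
  · exact G.continuous.comp (continuous_id.prodMk continuous_const)
  · exact isCoveringMap_exp.liftHomotopy_zero Hm _ H0 a
  · have := congrArg Subtype.val
      (congrFun (isCoveringMap_exp.liftHomotopy_lifts Hm _ H0) (t, a))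
    have e : exp (G (t, a)) = u a t / u a 0 := this
    rw [e, div_mul_cancel₀ _ (h0 a 0)]

lemma exists_isLift {u : UI → ℂ} (hu : Continuous u) (h0 : ∀ t, u t ≠ 0) : ∃ G, IsLift u G := by
  obtain ⟨G, -, hG⟩ := exists_lift_family (A := Unit) (u := fun _ => u)
    (hu.comp continuous_snd) (fun _ t => h0 t)
  exact ⟨G (), hG ()⟩

lemma exp_inc {u : UI → ℂ} (hu : Continuous u) (h0 : ∀ t, u t ≠ 0) :
    exp (inc u) * u 0 = u 1 := by
  obtain ⟨G, hG⟩ := exists_isLift hu h0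
  rw [hG.inc_eq (h0 0)]
  exact hG.2.2 1

lemma inc_mul {u v : UI → ℂ} (hu : Continuous u) (h0 : ∀ t, u t ≠ 0) (hv : Continuous v)
    (h1 : ∀ t, v t ≠ 0) : inc (fun t => u t * v t) = inc u + inc v := by
  obtain ⟨G, hG⟩ := exists_isLift hu h0
  obtain ⟨K, hK⟩ := exists_isLift hv h1
  rw [hG.inc_eq (h0 0), hK.inc_eq (h1 0)]
  apply IsLift.inc_eq (G := fun t => G t + K t) _ (mul_ne_zero (h0 0) (h1 0))
  refine ⟨hG.1.add hK.1, by simp [hG.2.1, hK.2.1], fun t => ?_⟩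
  beta_reduce
  rw [exp_add, ← hG.2.2 t, ← hK.2.2 t]
  ring

lemma inc_of_slit {u : UI → ℂ} (hu : Continuous u) {c : ℂ} (h : ∀ t, c * u t ∈ slitPlane) :
    inc u = log (c * u 1) - log (c * u 0) := by
  have hne : ∀ t, c * u t ≠ 0 := fun t => slitPlane_ne_zero (h t)
  apply IsLift.inc_eq (G := fun t => log (c * u t) - log (c * u 0)) _
    (right_ne_zero_of_mul (hne 0))
  refine ⟨((continuous_const.mul hu).clog h).sub continuous_const, by simp, fun t => ?_⟩
  have hc : c ≠ 0 := left_ne_zero_of_mul (hne 0)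
  have h0 : u 0 ≠ 0 := right_ne_zero_of_mul (hne 0)
  rw [exp_sub, exp_log (hne t), exp_log (hne 0)]
  field_simp

lemma continuousOn_inc {X : Type*} [TopologicalSpace X] {S : Set X} {u : X → UI → ℂ}
    (hu : ContinuousOn (uncurry u) (S ×ˢ univ)) (h0 : ∀ a ∈ S, ∀ t, u a t ≠ 0) :
    ContinuousOn (fun x => inc (u x)) S := by
  rw [continuousOn_iff_continuous_domRestrict]
  obtain ⟨G, hG, hG'⟩ := exists_lift_family (A := S) (u := fun a => u a)
    (hu.comp_continuous (f := fun p : S × UI => ((p.1 : X), p.2)) (by fun_prop)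
      (fun p => ⟨p.1.2, mem_univ _⟩)) (fun a t => h0 a a.2 t)
  have : S.domRestrict (fun x => inc (u x)) = fun a => G a 1 :=
    funext fun a => (hG' a).inc_eq (h0 a a.2 0)
  rw [this]
  exact hG.comp (continuous_id.prodMk continuous_const)

lemma continuousOn_inc_sub {Γ : UI → ℂ} (hΓ : Continuous Γ) :
    ContinuousOn (fun a => inc (fun t => Γ t - a)) (range Γ)ᶜ := by
  apply continuousOn_inc (u := fun a t => Γ t - a)
  · exact Continuous.continuousOn (by unfold uncurry; fun_prop)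
  · intro a ha t h
    exact ha ⟨t, sub_eq_zero.1 h⟩

lemma inc_sub_of_large {Γ : UI → ℂ} (hΓ : Continuous Γ) {a : ℂ} (h : ∀ t, ‖Γ t‖ < ‖a‖) :
    inc (fun t => Γ t - a) = log (-a⁻¹ * (Γ 1 - a)) - log (-a⁻¹ * (Γ 0 - a)) := by
  apply inc_of_slit (u := fun t => Γ t - a) (by fun_prop)
  intro t
  have ha : a ≠ 0 := norm_pos_iff.1 ((norm_nonneg _).trans_lt (h t))
  have : -a⁻¹ * (Γ t - a) = 1 + (-(Γ t / a)) := by field_simp; ring
  rw [this]
  apply mem_slitPlane_of_norm_lt_one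
  rw [norm_neg, norm_div, div_lt_one (norm_pos_iff.2 ha)]
  exact h t

open Classical in
/-- Difference quotient along a path. -/
noncomputable def Phi (f : ℂ → ℂ) (Q Γ : UI → ℂ) (z : ℂ) (t : UI) : ℂ :=
  if Q t = z then deriv f z else (Γ t - f z) / (Q t - z)

lemma Phi_eq_dslope {f : ℂ → ℂ} {Q Γ : UI → ℂ} {z : ℂ} {t : UI} (h : Γ t = f (Q t)) :
    Phi f Q Γ z t = dslope f z (Q t) := by
  unfold Phi
  split_ifs with e
  · rw [e, dslope_same]
  · rw [dslope_of_ne _ e, slope_def_field, h]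

lemma continuousOn_Phi {U : Set ℂ} (hU : IsOpen U) {f : ℂ → ℂ} (hf : DifferentiableOn ℂ f U)
    {Q Γ : UI → ℂ} (hQ : Continuous Q) (hΓ : Continuous Γ)
    (h1 : ∀ t, Q t ∈ U → Γ t = f (Q t)) : ContinuousOn (uncurry (Phi f Q Γ)) (U ×ˢ univ) := by
  rintro ⟨z, t⟩ ⟨hz, -⟩
  apply ContinuousAt.continuousWithinAt
  by_cases e : Q t = z
  · have hm : ∀ᶠ p : ℂ × UI in 𝓝 (z, t), Q p.2 ∈ U :=
      (hQ.comp continuous_snd).continuousAt.preimage_mem_nhds (hU.mem_nhds (e ▸ hz))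
    have hc : ContinuousAt (fun p : ℂ × UI => dslope f p.1 (Q p.2)) (z, t) := by
      have := (continuousOn_dslope₂ hU hf).continuousAt
        ((hU.prod hU).mem_nhds (show (z, Q t) ∈ U ×ˢ U from ⟨hz, e ▸ hz⟩))
      exact this.comp_of_eq (f := fun p : ℂ × UI => (p.1, Q p.2)) (by fun_prop) rfl
    apply hc.congr
    filter_upwards [hm] with p hp
    exact (Phi_eq_dslope (h1 _ hp)).symm
  · have hm : ∀ᶠ p : ℂ × UI in 𝓝 (z, t), Q p.2 ≠ p.1 :=
      (isOpen_ne_fun (hQ.comp continuous_snd) continuous_fst).mem_nhds e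
    have hc : ContinuousAt (fun p : ℂ × UI => (Γ p.2 - f p.1) / (Q p.2 - p.1)) (z, t) := by
      apply ContinuousAt.div
      · exact (hΓ.comp continuous_snd).continuousAt.sub
          ((hf.differentiableAt (hU.mem_nhds hz)).continuousAt.comp_of_eq
            continuous_fst.continuousAt rfl)
      · fun_prop
      · exact sub_ne_zero.2 e
    apply hc.congr
    filter_upwards [hm] with p hp
    simp [uncurry, Phi, hp]

lemma Phi_ne_zero {U : Set ℂ} (hU : IsOpen U) {f : ℂ → ℂ} (hf : DifferentiableOn ℂ f U)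
    (hi : InjOn f U) {Q Γ : UI → ℂ} (h1 : ∀ t, Q t ∈ U → Γ t = f (Q t))
    (h2 : ∀ t, Q t ∉ U → Γ t ∉ f '' U) {z : ℂ} (hz : z ∈ U) (t : UI) : Phi f Q Γ z t ≠ 0 := by
  by_cases h : Q t ∈ U
  · rw [Phi_eq_dslope (h1 t h)]
    exact dslope_ne_zero_of_injOn hU hf hi hz h
  · have e : Q t ≠ z := fun e => h (e ▸ hz)
    simp only [Phi, if_neg e]
    exact div_ne_zero (sub_ne_zero.2 fun e' => h2 t h ⟨z, hz, e'.symm⟩) (sub_ne_zero.2 e)

lemma continuous_Phi {U : Set ℂ} (hU : IsOpen U) {f : ℂ → ℂ} (hf : DifferentiableOn ℂ f U)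
    {Q Γ : UI → ℂ} (hQ : Continuous Q) (hΓ : Continuous Γ)
    (h1 : ∀ t, Q t ∈ U → Γ t = f (Q t)) {z : ℂ} (hz : z ∈ U) : Continuous (Phi f Q Γ z) :=
  (continuousOn_Phi hU hf hQ hΓ h1).comp_continuous (f := fun t => (z, t)) (by fun_prop)
    fun _ => ⟨hz, mem_univ _⟩

lemma inc_image {U : Set ℂ} (hU : IsOpen U) {f : ℂ → ℂ} (hf : DifferentiableOn ℂ f U)
    (hi : InjOn f U) {Q Γ : UI → ℂ} (hQ : Continuous Q) (hΓ : Continuous Γ)
    (h1 : ∀ t, Q t ∈ U → Γ t = f (Q t)) (h2 : ∀ t, Q t ∉ U → Γ t ∉ f '' U) {z : ℂ} (hz : z ∈ U)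
    (hzQ : z ∉ range Q) :
    inc (fun t => Γ t - f z) = inc (fun t => Q t - z) + inc (Phi f Q Γ z) := by
  have hne : ∀ t, Q t ≠ z := fun t e => hzQ ⟨t, e⟩
  rw [← inc_mul (by fun_prop) (fun t => sub_ne_zero.2 (hne t)) (continuous_Phi hU hf hQ hΓ h1 hz)
    (Phi_ne_zero hU hf hi h1 h2 hz)]
  congr 1
  ext t
  simp only [Phi, if_neg (hne t)]
  rw [mul_div_cancel₀ _ (sub_ne_zero.2 (hne t))]

lemma continuousOn_inc_Phi {U : Set ℂ} (hU : IsOpen U) {f : ℂ → ℂ} (hf : DifferentiableOn ℂ f U)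
    (hi : InjOn f U) {Q Γ : UI → ℂ} (hQ : Continuous Q) (hΓ : Continuous Γ)
    (h1 : ∀ t, Q t ∈ U → Γ t = f (Q t)) (h2 : ∀ t, Q t ∉ U → Γ t ∉ f '' U) :
    ContinuousOn (fun z => inc (Phi f Q Γ z)) U :=
  continuousOn_inc (continuousOn_Phi hU hf hQ hΓ h1) fun _ hz => Phi_ne_zero hU hf hi h1 h2 hz

end Pool.Agent.MP_1a2790_an
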